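import Pool.Agent.ADC.Defs

/-! Project ADC (MP_adc642_nt), module Bin (size 3): binomial coefficients modulo p ^ 2. -/

set_option autoImplicit false

namespace Pool.Agent.ADC

open Finset

variable {p : ℕ}

theorem rr_sq : (p : RR p) ^ 2 = 0 := by
  rw [← Nat.cast_pow]
  exact ZMod.natCast_self (p ^ 2)

/-- PROOF. ZMod.coe_mul_inv_eq_one: x is coprime to p ^ 2. -/
theorem rr_inv (hp : p.Prime) {x : ℕ} (h : ¬ p ∣ x) : (x : RR p) * (x : RR p)⁻¹ = 1 := by
  apply ZMod.coe_mul_inv_eq_one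
  apply Nat.Coprime.pow_right
  exact ((Nat.Prime.coprime_iff_not_dvd hp).2 h).symm

theorem rr_unit (hp : p.Prime) {x : ℕ} (h : ¬ p ∣ x) : IsUnit (x : RR p) :=
  IsUnit.of_mul_eq_one _ (rr_inv hp h)

/-- the value of p * x depends on x modulo p only -/
theorem rr_cast (hp : p.Prime) {x y : RR p} (h : ZMod.castHom (Dvd.intro_left _ (pow_succ p 1).symm : p ∣ p ^ 2) (ZMod p) x =
    ZMod.castHom (Dvd.intro_left _ (pow_succ p 1).symm : p ∣ p ^ 2) (ZMod p) y) : (p : RR p) * x = p * y := by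
  haveI : NeZero (p ^ 2) := ⟨pow_ne_zero 2 hp.ne_zero⟩
  have h0 : ZMod.castHom (Dvd.intro_left _ (pow_succ p 1).symm : p ∣ p ^ 2) (ZMod p) (x - y) = 0 := by
    rw [map_sub, h, sub_self]
  have h1 : (((x - y).val : ℕ) : RR p) = x - y := ZMod.natCast_zmod_val (x - y)
  rw [← h1, map_natCast] at h0
  obtain ⟨k, hk⟩ := (ZMod.natCast_eq_zero_iff _ _).1 h0
  have h2 : x - y = (p : RR p) * (k : RR p) := by
    rw [← h1, hk]
    push_cast
    ring
  have h3 : (p : RR p) * (x - y) = 0 := by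
    rw [h2, ← mul_assoc, ← sq, rr_sq, zero_mul]
  rw [mul_sub] at h3
  exact sub_eq_zero.1 h3

theorem rr_nat {x y : ℕ} (h : x ≡ y [MOD p]) : (p : RR p) * x = p * y := by
  have h1 : p * x ≡ p * y [MOD p ^ 2] := by
    rw [sq]
    exact Nat.ModEq.mul_left' p h
  have h2 := (ZMod.natCast_eq_natCast_iff _ _ _).2 h1
  push_cast at h2
  exact h2

theorem rr_int {x y : ℤ} (h : (x : ZMod p) = y) : (p : RR p) * x = p * y := by
  have h1 : (p : ℤ) ∣ y - x := (ZMod.intCast_eq_intCast_iff_dvd_sub x y p).1 h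
  obtain ⟨k, hk⟩ := h1
  have h2 : y = x + (p : ℤ) * k := by linarith
  rw [h2]
  push_cast
  have h3 := rr_sq (p := p)
  linear_combination (-(k : RR p)) * h3

/-- `((1 + X) ^ p - 1 - X ^ p) / p` -/
noncomputable def bin_phi (p : ℕ) : Polynomial ℤ := ∑ j ∈ Ico 1 p, Polynomial.C ((p.choose j / p : ℕ) : ℤ) * Polynomial.X ^ j

theorem bin_phi_coeff (j : ℕ) : (bin_phi p).coeff j = if 1 ≤ j ∧ j < p then ((p.choose j / p : ℕ) : ℤ) else 0 := by
  unfold bin_phi
  rw [Polynomial.finsetSum_coeff]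
  simp only [Polynomial.coeff_C_mul_X_pow]
  rw [Finset.sum_ite_eq]
  simp only [Finset.mem_Ico]

theorem bin_phi_eq (hp : p.Prime) : (1 + Polynomial.X : Polynomial ℤ) ^ p = 1 + Polynomial.X ^ p + Polynomial.C (p : ℤ) * bin_phi p := by
  ext j
  rw [Polynomial.coeff_add, Polynomial.coeff_add, Polynomial.coeff_C_mul, bin_phi_coeff, Polynomial.coeff_one_add_X_pow,
    Polynomial.coeff_one, Polynomial.coeff_X_pow]
  have hp0 := hp.pos
  rcases Nat.eq_zero_or_pos j with rfl | h0
  · have : ¬ (0 = p) := by omega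
    simp [this]
  · rcases lt_trichotomy j p with h | h | h
    · have hd : p ∣ p.choose j := hp.dvd_choose_self (by omega) h
      have e : (p.choose j : ℤ) = (p : ℤ) * ((p.choose j / p : ℕ) : ℤ) := by
        rw [← Nat.cast_mul, Nat.mul_div_cancel' hd]
      rw [if_neg (by omega), if_neg (by omega), if_pos ⟨h0, h⟩]
      simpa using e
    · subst h
      rw [if_neg (by omega), if_pos rfl, if_neg (by omega)]
      simp
    · rw [if_neg (by omega), if_neg (by omega), if_neg (by omega), Nat.choose_eq_zero_of_lt h]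
      simp

theorem bin_step {R : Type*} [CommRing R] (P : Polynomial R) (hp : 0 < p) (N : ℕ) :
    (P * (1 + Polynomial.X ^ p)).coeff (p * N) =
      P.coeff (p * N) + (if N = 0 then 0 else P.coeff (p * (N - 1))) := by
  rw [mul_add, mul_one, Polynomial.coeff_add, Polynomial.coeff_mul_X_pow']
  congr 1
  rcases Nat.eq_zero_or_pos N with rfl | h
  · rw [if_neg (by omega), if_pos rfl]
  · obtain ⟨m, rfl⟩ : ∃ m, N = m + 1 := ⟨N - 1, by omega⟩
    rw [if_pos (by rw [Nat.mul_succ]; omega), if_neg (by omega)]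
    congr 1
    rw [Nat.mul_succ, Nat.add_sub_cancel]
    simp

theorem bin_A1 {R : Type*} [CommRing R] (P : Polynomial R) (hp : 0 < p) (hP : ∀ i, 1 ≤ i → P.coeff (p * i) = 0) (M N : ℕ) :
    (P * (1 + Polynomial.X ^ p) ^ M).coeff (p * N) = (M.choose N : R) * P.coeff 0 := by
  induction M generalizing N with
  | zero =>
    cases N with
    | zero => simp
    | succ m => simp [hP (m + 1) (by omega)]
  | succ M ih =>
    rw [pow_succ, ← mul_assoc, bin_step _ hp]
    cases N with
    | zero =>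
      have := ih 0
      rw [if_pos rfl, this]
      simp
    | succ m =>
      rw [if_neg (by omega), ih, Nat.add_sub_cancel, ih, Nat.choose_succ_succ]
      push_cast
      ring

theorem bin_pow {R : Type*} [CommRing R] (a e : Polynomial R) (he : e * e = 0) (M : ℕ) :
    (a + e) ^ M = a ^ M + (M : Polynomial R) * e * a ^ (M - 1) := by
  induction M with
  | zero => simp
  | succ M ih =>
    rw [pow_succ, ih, Nat.add_sub_cancel]
    rcases M with _ | m
    · simp
    · rw [Nat.add_sub_cancel]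
      push_cast
      linear_combination ((m : Polynomial R) + 1) * a ^ m * he

/-- PROOF. (1 + X) ^ p = 1 + X ^ p + p φ with φ = ∑_{0 < j < p} (p.choose j / p) X ^ j. So (1 + X) ^ (p M) = (1 + X ^ p) ^ M + p M φ (1 + X ^ p) ^ (M - 1) modulo p ^ 2,
and the coefficient of X ^ (p N) of φ (1 + X ^ p) ^ (M - 1) is 0. (Module BlkB has the general lemma blk; this is the case n = k = 0; prove it there or here.) -/
theorem ch_mul (hp : p.Prime) (M N : ℕ) : (((p * M).choose (p * N) : ℕ) : RR p) = (M.choose N : RR p) := by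
  have hp2 : (p : RR p) * (p : RR p) = 0 := by rw [← sq]; exact rr_sq
  have hp0 := hp.pos
  set Φ : Polynomial (RR p) := (bin_phi p).map (Int.castRingHom (RR p)) with hΦ
  have h1 : (1 + Polynomial.X : Polynomial (RR p)) ^ p = (1 + Polynomial.X ^ p) + Polynomial.C (p : RR p) * Φ := by
    have := congrArg (Polynomial.map (Int.castRingHom (RR p))) (bin_phi_eq hp)
    simpa using this
  have h2 : (Polynomial.C (p : RR p) * Φ) * (Polynomial.C (p : RR p) * Φ) = 0 := by
    have : (Polynomial.C (p : RR p) * Φ) * (Polynomial.C (p : RR p) * Φ) = Polynomial.C ((p : RR p) * p) * (Φ * Φ) := by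
      rw [map_mul]; ring
    rw [this, hp2]
    simp
  have h3 : (1 + Polynomial.X : Polynomial (RR p)) ^ (p * M) =
      1 * (1 + Polynomial.X ^ p) ^ M +
      Polynomial.C ((p : RR p) * M) * (Φ * (1 + Polynomial.X ^ p) ^ (M - 1)) := by
    rw [pow_mul, h1, bin_pow _ _ h2, map_mul]
    simp only [map_natCast]
    ring
  have hc : ∀ i, Φ.coeff i = (((bin_phi p).coeff i : ℤ) : RR p) := by
    intro i
    rw [hΦ, Polynomial.coeff_map]
    rfl
  have h4 : (((p * M).choose (p * N) : ℕ) : RR p) =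
      ((1 + Polynomial.X : Polynomial (RR p)) ^ (p * M)).coeff (p * N) := by
    rw [Polynomial.coeff_one_add_X_pow]
  rw [h4, h3, Polynomial.coeff_add, Polynomial.coeff_C_mul, bin_A1 _ hp0, bin_A1 _ hp0, hc, bin_phi_coeff,
    if_neg (by omega)]
  · simp
  · intro i hi
    rw [hc, bin_phi_coeff, if_neg, Int.cast_zero]
    rintro ⟨_, h⟩
    nlinarith
  · intro i hi
    rw [Polynomial.coeff_one, if_neg]
    have : 0 < p * i := Nat.mul_pos hp0 (by omega)
    omega

theorem bin_pred (hp : p.Prime) {j : ℕ} (hj : j < p) : (((p - 1).choose j : ℕ) : ZMod p) = (-1) ^ j := by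
  induction j with
  | zero => simp
  | succ j ih =>
    have h1 : p.choose (j + 1) = (p - 1).choose j + (p - 1).choose (j + 1) := by
      obtain ⟨q, rfl⟩ : ∃ q, p = q + 1 := ⟨p - 1, by have := hp.pos; omega⟩
      rw [Nat.add_sub_cancel, Nat.choose_succ_succ]
    have h2 : p ∣ p.choose (j + 1) := hp.dvd_choose_self (by omega) hj
    have h3 : ((p.choose (j + 1) : ℕ) : ZMod p) = 0 := (ZMod.natCast_eq_zero_iff _ _).2 h2
    rw [h1, Nat.cast_add, ih (by omega)] at h3
    rw [pow_succ]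
    linear_combination h3

/-- PROOF. (p q + r) C(p (M+1), p q + r) = p (M+1) C(p (M+1) - 1, p q + r - 1), p (M+1) - 1 = p M + (p - 1), Lucas modulo p (Choose.choose_modEq_choose_mod_mul_choose_div):
C(p M + (p-1), p q + (r-1)) = C(M, q) C(p-1, r-1) = C(M, q) (-1)^(r-1) modulo p. C(p (M+1), p q + r) is divisible by p, so (p q + r) times it is r times it modulo p ^ 2. -/
theorem ch_rem (hp : p.Prime) {r : ℕ} (h0 : 0 < r) (h1 : r < p) (M q : ℕ) :
    (((p * (M + 1)).choose (p * q + r) : ℕ) : RR p) = p * ((M + 1 : ℕ) : RR p) * (M.choose q : RR p) * (-1) ^ (r - 1) * (r : RR p)⁻¹ := by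
  haveI : Fact p.Prime := ⟨hp⟩
  have hpos := hp.pos
  have hr : ¬ p ∣ r := fun h => by have := Nat.le_of_dvd h0 h; omega
  set c := (p * (M + 1)).choose (p * q + r) with hc
  have e1 : (p * M + (p - 1)) + 1 = p * (M + 1) := by rw [Nat.mul_succ]; omega
  have e2 : (p * q + (r - 1)) + 1 = p * q + r := by omega
  have h2 := Nat.add_one_mul_choose_eq (p * M + (p - 1)) (p * q + (r - 1))
  rw [e1, e2, ← hc] at h2
  have h3 := Choose.choose_modEq_choose_mod_mul_choose_div_nat (p := p) (n := p * M + (p - 1)) (k := p * q + (r - 1))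
  have m1 : (p * M + (p - 1)) % p = p - 1 := by
    rw [Nat.mul_add_mod, Nat.mod_eq_of_lt (by omega)]
  have m2 : (p * q + (r - 1)) % p = r - 1 := by
    rw [Nat.mul_add_mod, Nat.mod_eq_of_lt (by omega)]
  have m3 : (p * M + (p - 1)) / p = M := by
    rw [Nat.mul_add_div hpos, Nat.div_eq_of_lt (by omega)]
    simp
  have m4 : (p * q + (r - 1)) / p = q := by
    rw [Nat.mul_add_div hpos, Nat.div_eq_of_lt (by omega)]
    simp
  rw [m1, m2, m3, m4] at h3
  have h4 : ((((p * M + (p - 1)).choose (p * q + (r - 1)) : ℕ) : ℤ) : ZMod p) = (((-1) ^ (r - 1) * (M.choose q : ℤ) : ℤ) : ZMod p) := by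
    have := (ZMod.natCast_eq_natCast_iff _ _ _).2 h3
    push_cast
    push_cast at this
    rw [this, bin_pred hp (by omega)]
  have h5 := rr_int h4
  have h6 : p ∣ c := by
    have : p ∣ c * (p * q + r) := by
      rw [← h2, mul_assoc]
      exact Dvd.intro _ rfl
    rcases (Nat.Prime.dvd_mul hp).1 this with h | h
    · exact h
    · exact absurd ((Nat.dvd_add_right (Dvd.intro q rfl)).1 h) hr
  obtain ⟨d, hd⟩ := h6
  have h7 : (p : RR p) * (c : RR p) = 0 := by
    rw [hd]
    push_cast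
    rw [← mul_assoc, ← sq, rr_sq, zero_mul]
  have h8 := congrArg (Nat.cast : ℕ → RR p) h2
  push_cast at h8 h5
  have h9 := rr_inv hp hr
  have h10 : (c : RR p) * (r : RR p) = (p : RR p) * ((M : RR p) + 1) * (M.choose q : RR p) * (-1) ^ (r - 1) := by
    linear_combination (-1 : RR p) * h8 + ((M : RR p) + 1) * h5 - (q : RR p) * h7
  push_cast
  rw [← h10, mul_assoc, h9, mul_one]

/-- PROOF. 1 / (p - r) = - 1 / r modulo p and (-1) ^ (p - r - 1) = (-1) ^ r for odd p; ch_rem. -/
theorem ch_rem' (hp : p.Prime) (h2 : p ≠ 2) {r : ℕ} (h0 : 0 < r) (h1 : r < p) (M q : ℕ) :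
    (((p * (M + 1)).choose (p * q + (p - r)) : ℕ) : RR p) = p * ((M + 1 : ℕ) : RR p) * (M.choose q : RR p) * (-1) ^ (r - 1) * (r : RR p)⁻¹ := by
  have hr : ¬ p ∣ r := fun h => by have := Nat.le_of_dvd h0 h; omega
  have hr' : ¬ p ∣ (p - r) := fun h => by have := Nat.le_of_dvd (by omega) h; omega
  rw [ch_rem hp (r := p - r) (by omega) (by omega) M q]
  have i1 := rr_inv hp hr
  have i2 := rr_inv hp hr'
  rw [Nat.cast_sub h1.le] at i2
  have hs := rr_sq (p := p)
  have hodd : Odd p := hp.odd_of_ne_two h2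
  have hsgn : ((-1 : RR p)) ^ (p - r - 1) = - (-1) ^ (r - 1) := by
    have e : (p - r - 1) + (r - 1) + 1 = p - 1 := by omega
    have ev : Even (p - 1) := Nat.Odd.sub_odd hodd odd_one
    have h3 : ((-1 : RR p)) ^ ((p - r - 1) + (r - 1) + 1) = 1 := by
      rw [e]
      exact Even.neg_one_pow ev
    have h4 : ((-1 : RR p)) ^ (r - 1) * (-1) ^ (r - 1) = 1 := by
      rw [← mul_pow]
      simp
    rw [pow_succ, pow_add] at h3
    linear_combination (-(-1 : RR p) ^ (r - 1)) * h3 - ((-1 : RR p)) ^ (p - r - 1) * h4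
  have hpi : (p : RR p) * ((p : RR p) - (r : RR p))⁻¹ = - ((p : RR p) * (r : RR p)⁻¹) := by
    set u := ((p : RR p) - (r : RR p))⁻¹ with hu
    set v := (r : RR p)⁻¹ with hv
    linear_combination (-(p : RR p) * u) * i1 - (p : RR p) * v * i2 + u * v * hs
  rw [hsgn, Nat.cast_sub h1.le]
  linear_combination (-((M + 1 : ℕ) : RR p) * (M.choose q : RR p) * (-1) ^ (r - 1)) * hpi

end Pool.Agent.ADC
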