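import Pool.Agent.ADC.Defs

/-! Project ADC (MP_adc642_nt), module Rec (size 3): recurrences. -/

set_option autoImplicit false

namespace Pool.Agent.ADC

open Finset

theorem fran_zero : fran 0 = 1 := by decide

theorem fran_one : fran 1 = 2 := by decide

private def Rec_p (n k : ℤ) : ℤ :=
  -(14 * n ^ 3 + 74 * n ^ 2 + 128 * n + 72) + (27 * n ^ 2 + 93 * n + 78) * k - (18 * n + 30) * k ^ 2 + 4 * k ^ 3

private def Rec_u (n : ℕ) : ℕ → ℤ
  | 0 => 0
  | k + 1 => Rec_p n (k + 1) * ((n + 1).choose k : ℤ) ^ 3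

private theorem Rec_id (n k a b c : ℤ) (h1 : b * (k + 1) = a * (n + 1 - k)) (h2 : c * (n + 1) = b * (n - k)) :
    (n + 1) * ((n + 2) ^ 2 * (a + b) ^ 3 - (7 * (n + 1) ^ 2 + 7 * (n + 1) + 2) * b ^ 3 - 8 * (n + 1) ^ 2 * c ^ 3) =
      Rec_p n (k + 2) * b ^ 3 - Rec_p n (k + 1) * a ^ 3 := by
  unfold Rec_p
  linear_combination ((4 * (k + 1) ^ 2 - (6 * n + 6) * (k + 1) - 3 * n ^ 2 - 9 * n - 6) * b ^ 2 +
    (-4 * (k + 1) ^ 2 + (10 * n + 14) * (k + 1) - 3 * n ^ 2 - 9 * n - 6) * (a * b) +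
    (4 * (k + 1) ^ 2 - (14 * n + 22) * (k + 1) + 13 * n ^ 2 + 43 * n + 34) * a ^ 2) * h1 -
    8 * ((c * (n + 1)) ^ 2 + (c * (n + 1)) * (b * (n - k)) + (b * (n - k)) ^ 2) * h2

private theorem Rec_term (n k : ℕ) (hk : k < n + 3) :
    ((n : ℤ) + 1) * (((n : ℤ) + 2) ^ 2 * ((n + 2).choose k : ℤ) ^ 3 -
        (7 * ((n : ℤ) + 1) ^ 2 + 7 * ((n : ℤ) + 1) + 2) * ((n + 1).choose k : ℤ) ^ 3 -
        8 * ((n : ℤ) + 1) ^ 2 * (n.choose k : ℤ) ^ 3) = Rec_u n (k + 1) - Rec_u n k := by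
  rcases k with _ | k
  · simp only [Rec_u, Rec_p, Nat.choose_zero_right]
    push_cast
    ring
  · have hk' : k ≤ n + 1 := by omega
    have e1 : ((n + 2).choose (k + 1) : ℤ) = ((n + 1).choose k : ℤ) + ((n + 1).choose (k + 1) : ℤ) := by
      rw [Nat.choose_succ_succ (n + 1) k]
      push_cast
      ring
    have h1 : ((n + 1).choose (k + 1) : ℤ) * ((k : ℤ) + 1) = ((n + 1).choose k : ℤ) * ((n : ℤ) + 1 - k) := by
      have h := Nat.choose_succ_right_eq (n + 1) k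
      have h' : (((n + 1).choose (k + 1) * (k + 1) : ℕ) : ℤ) = (((n + 1).choose k * (n + 1 - k) : ℕ) : ℤ) := by rw [h]
      push_cast [Nat.cast_sub hk'] at h'
      exact h'
    have h2 : (n.choose (k + 1) : ℤ) * ((n : ℤ) + 1) = ((n + 1).choose (k + 1) : ℤ) * ((n : ℤ) - k) := by
      rcases Nat.lt_or_ge n k with hlt | hge
      · rw [Nat.choose_eq_zero_of_lt (show n < k + 1 by omega), Nat.choose_eq_zero_of_lt (show n + 1 < k + 1 by omega)]
        simp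
      · have h := Nat.choose_mul_succ_eq n (k + 1)
        have h' : ((n.choose (k + 1) * (n + 1) : ℕ) : ℤ) = (((n + 1).choose (k + 1) * (n + 1 - (k + 1)) : ℕ) : ℤ) := by rw [h]
        rw [show n + 1 - (k + 1) = n - k by omega] at h'
        push_cast [Nat.cast_sub hge] at h'
        exact h'
    rw [e1, Rec_id n k _ _ _ h1 h2]
    simp only [Rec_u]
    push_cast
    rw [show ((k : ℤ) + 1 + 1) = k + 2 by ring]

private theorem Rec_fran (n m : ℕ) (h : n + 1 ≤ m) : ((fran n : ℕ) : ℤ) = ∑ k ∈ range m, (n.choose k : ℤ) ^ 3 := by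
  unfold fran
  push_cast
  refine Finset.sum_subset (Finset.range_subset_range.2 h) ?_
  intro k _ hk
  rw [Finset.mem_range, not_lt] at hk
  rw [Nat.choose_eq_zero_of_lt (by omega)]
  simp

/-- Franel's recurrence. PROOF. Zeilberger: find the certificate, sum over k. With F n k = (n.choose k) ^ 3 over ℚ and
(n+2)^2 F (n+2) k - (7 n^2+21 n+16) F (n+1) k - 8 (n+1)^2 F n k = G n (k+1) - G n k, G n k = R n k * F n k. -/
theorem fran_rec (n : ℕ) : (n + 2) ^ 2 * fran (n + 2) = (7 * (n + 1) ^ 2 + 7 * (n + 1) + 2) * fran (n + 1) + 8 * (n + 1) ^ 2 * fran n := by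
  have hs : ∑ k ∈ range (n + 3), ((n : ℤ) + 1) * (((n : ℤ) + 2) ^ 2 * ((n + 2).choose k : ℤ) ^ 3 -
        (7 * ((n : ℤ) + 1) ^ 2 + 7 * ((n : ℤ) + 1) + 2) * ((n + 1).choose k : ℤ) ^ 3 -
        8 * ((n : ℤ) + 1) ^ 2 * (n.choose k : ℤ) ^ 3) = 0 := by
    rw [Finset.sum_congr rfl (fun k hk => Rec_term n k (Finset.mem_range.1 hk)), Finset.sum_range_sub]
    simp only [Rec_u]
    rw [Nat.choose_eq_zero_of_lt (show n + 1 < n + 2 by omega)]
    simp
  rw [← Finset.mul_sum, Finset.sum_sub_distrib, Finset.sum_sub_distrib, ← Finset.mul_sum, ← Finset.mul_sum, ← Finset.mul_sum,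
    ← Rec_fran (n + 2) (n + 3) (by omega), ← Rec_fran (n + 1) (n + 3) (by omega), ← Rec_fran n (n + 3) (by omega)] at hs
  have hn : ((n : ℤ) + 1) ≠ 0 := by positivity
  have h := (mul_eq_zero.1 hs).resolve_left hn
  zify
  linear_combination h

theorem bb_rec (n : ℕ) : (n + 2) ^ 3 * bb (n + 2) = 2 * (2 * n + 3) * (7 * (n + 1) ^ 2 + 7 * (n + 1) + 2) * bb (n + 1) +
    32 * (n + 1) * (2 * n + 1) * (2 * n + 3) * bb n := by
  have h1 := Nat.succ_mul_centralBinom_succ n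
  have h2 := Nat.succ_mul_centralBinom_succ (n + 1)
  have h3 := fran_rec n
  have e0 : bb n = Nat.centralBinom n * fran n := rfl
  have e1 : bb (n + 1) = Nat.centralBinom (n + 1) * fran (n + 1) := rfl
  have e2 : bb (n + 2) = Nat.centralBinom (n + 2) * fran (n + 2) := rfl
  rw [e0, e1, e2]
  zify at h1 h2 h3 ⊢
  linear_combination ((n : ℤ) + 2) ^ 2 * (fran (n + 2) : ℤ) * h2 + 2 * (2 * (n : ℤ) + 3) * (Nat.centralBinom (n + 1) : ℤ) * h3 +
    16 * (2 * (n : ℤ) + 3) * ((n : ℤ) + 1) * (fran n : ℤ) * h1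

theorem aa_rec (n : ℕ) : (n + 1) ^ 2 * aa (n + 1) = 4 * (4 * n + 1) * (4 * n + 3) * aa n := by
  have h1 := Nat.succ_mul_centralBinom_succ n
  have h2 := Nat.succ_mul_centralBinom_succ (2 * n)
  have h3 := Nat.succ_mul_centralBinom_succ (2 * n + 1)
  have e0 : aa n = Nat.centralBinom n * Nat.centralBinom (2 * n) := by
    unfold aa Nat.centralBinom
    rw [show 2 * (2 * n) = 4 * n by ring]
  have e1 : aa (n + 1) = Nat.centralBinom (n + 1) * Nat.centralBinom (2 * n + 1 + 1) := by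
    unfold aa Nat.centralBinom
    rw [show 2 * (2 * n + 1 + 1) = 4 * (n + 1) by ring, show 2 * n + 1 + 1 = 2 * (n + 1) by ring]
  rw [e0, e1]
  zify at h1 h2 h3 ⊢
  have hn : (2 * (2 * (n : ℤ) + 1)) ≠ 0 := by positivity
  apply mul_left_cancel₀ hn
  linear_combination (2 * (n : ℤ) + 1) * (2 * (n : ℤ) + 2) * (Nat.centralBinom (2 * n + 1 + 1) : ℤ) * h1 +
    2 * (2 * (n : ℤ) + 1) ^ 2 * (Nat.centralBinom n : ℤ) * h3 +
    4 * (2 * (n : ℤ) + 1) * (4 * (n : ℤ) + 3) * (Nat.centralBinom n : ℤ) * h2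

theorem bb_zero : bb 0 = 1 := by decide

theorem bb_one : bb 1 = 4 := by decide

theorem aa_zero : aa 0 = 1 := by decide

theorem aa_one : aa 1 = 12 := by decide

end Pool.Agent.ADC
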