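import Pool.Agent.ADC.Bin
import Pool.Agent.ADC.Rec

/-! Project ADC (MP_adc642_nt), module BlkA (size 3): block congruence for `aa`. -/

set_option autoImplicit false

namespace Pool.Agent.ADC

open Finset

variable {p : ℕ}

/-- PROOF. ch_mul: C(2mp, mp) = C(2m, m), C(4mp, 2mp) = C(4m, 2m). -/
theorem aa_mul (hp : p.Prime) (m : ℕ) : (aa (m * p) : RR p) = aa m := by
  have h1 := ch_mul (p := p) hp (2 * m) m
  have h2 := ch_mul (p := p) hp (4 * m) (2 * m)
  have e1 : 2 * (m * p) = p * (2 * m) := by ring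
  have e2 : 4 * (m * p) = p * (4 * m) := by ring
  have e3 : m * p = p * m := by ring
  unfold aa
  rw [e1, e2, e3]
  push_cast
  rw [h1, h2]

/-- auxiliary derivative sequence -/
noncomputable def BlkA_at (p : ℕ) : ℕ → RR p
  | 0 => 0
  | (n + 1) => (((n + 1 : ℕ) : RR p)⁻¹) ^ 2 * ((128 * (n : RR p) + 64) * (aa n : RR p) +
      4 * (4 * (n : RR p) + 1) * (4 * (n : RR p) + 3) * BlkA_at p n) -
      2 * (((n + 1 : ℕ) : RR p)⁻¹) ^ 3 * (4 * (4 * (n : RR p) + 1) * (4 * (n : RR p) + 3)) * (aa n : RR p)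

/-- PROOF. aa_rec: aa (n + m p) ∏_{j=1}^n (m p + j)^2 = aa (m p) ∏_{j=1}^n 4 (4 m p + 4 j - 1) (4 m p + 4 j - 3). Modulo p^2 the products are D_n + p m D'_n and A_n + p m A'_n with
D_n = (n!)^2 a unit, aa n D_n = A_n. at n := A'_n / D_n - A_n D'_n / D_n^2. (Or induction on n < p: at (n+1) from at n with aa_rec, (n+1+mp)^2 is a unit.) -/
theorem aa_blk (hp : p.Prime) : ∃ at' : ℕ → RR p, ∀ m n, n < p → (aa (n + m * p) : RR p) = aa m * (aa n + p * m * at' n) := by
  refine ⟨BlkA_at p, ?_⟩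
  intro m n
  induction n with
  | zero =>
    intro _
    rw [Nat.zero_add, aa_mul hp m]
    simp [BlkA_at, aa_zero]
  | succ n ih =>
    intro hn
    have IH := ih (by omega)
    have hnd : ¬ p ∣ (n + 1) := by
      intro hd
      have := Nat.le_of_dvd (Nat.succ_pos n) hd
      omega
    have V := rr_inv (p := p) hp hnd
    have Q : (p : RR p) ^ 2 = 0 := rr_sq
    have H1 := congrArg (fun t : ℕ => (t : RR p)) (aa_rec (n + m * p))
    have H2 := congrArg (fun t : ℕ => (t : RR p)) (aa_rec n)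
    have eN : n + 1 + m * p = n + m * p + 1 := by ring
    rw [eN]
    simp only [BlkA_at]
    generalize hv : (((n + 1 : ℕ) : RR p)⁻¹) = v at V ⊢
    push_cast at H1 H2 V ⊢
    generalize (aa (n + m * p + 1) : RR p) = A1 at H1 ⊢
    generalize (aa (n + m * p) : RR p) = AN at H1 IH
    generalize (aa (n + 1) : RR p) = a1 at H2 ⊢
    generalize (aa n : RR p) = an at H2 IH ⊢
    generalize (aa m : RR p) = am at IH ⊢
    generalize (BlkA_at p n) = b at IH ⊢
    generalize (m : RR p) = M at H1 IH ⊢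
    generalize (n : RR p) = x at H1 H2 V ⊢
    generalize (p : RR p) = P at H1 IH Q ⊢
    have e1 : (x + 1 + M * P) ^ 2 * (v ^ 2 * (1 - 2 * (M * P * v))) = 1 := by
      linear_combination ((x + 1) * v + 1 + 2 * (M * P * v)) * (1 - 2 * (M * P * v)) * V +
        M ^ 2 * v ^ 2 * (-3 - 2 * (M * P * v)) * Q
    have e2 : A1 = v ^ 2 * (1 - 2 * (M * P * v)) * (4 * (4 * (x + M * P) + 1) * (4 * (x + M * P) + 3)) * AN := by
      linear_combination (v ^ 2 * (1 - 2 * (M * P * v))) * H1 - A1 * e1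
    have e3 : a1 = v ^ 2 * (4 * (4 * x + 1) * (4 * x + 3)) * an := by
      linear_combination v ^ 2 * H2 - a1 * ((x + 1) * v + 1) * V
    rw [e2, IH, e3]
    linear_combination (am * v ^ 2 * M ^ 2 * (64 * an + (128 * x + 64) * b - 2 * v * ((128 * x + 64) * an + 4 * (4 * x + 1) * (4 * x + 3) * b)
      + M * P * (64 * b - 2 * v * (64 * an + (128 * x + 64) * b)) - 128 * (M * P) ^ 2 * v * b)) * Q

end Pool.Agent.ADC
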