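import Pool.Agent.ADC.Bin

/-! Project ADC (MP_adc642_nt), module BlkB (size 4): block congruences for binomial coefficients and Franel numbers. -/

set_option autoImplicit false

namespace Pool.Agent.ADC

open Finset

variable {p : ℕ}

/-- `((1 + X) ^ p - 1 - X ^ p) / p` -/
noncomputable def phi (p : ℕ) : Polynomial ℤ := ∑ j ∈ Ico 1 p, Polynomial.C ((p.choose j / p : ℕ) : ℤ) * Polynomial.X ^ j

/-- the coefficients of `(1 + X) ^ n * phi` -/
noncomputable def cc (p n i : ℕ) : ℤ := ((1 + Polynomial.X) ^ n * phi p).coeff i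

theorem blkb_phi_coeff (j : ℕ) : (phi p).coeff j = if 1 ≤ j ∧ j < p then ((p.choose j / p : ℕ) : ℤ) else 0 := by
  unfold phi
  rw [Polynomial.finsetSum_coeff]
  simp only [Polynomial.coeff_C_mul_X_pow]
  rw [Finset.sum_ite_eq]
  simp only [Finset.mem_Ico]

theorem phi_eq (hp : p.Prime) : (1 + Polynomial.X : Polynomial ℤ) ^ p = 1 + Polynomial.X ^ p + Polynomial.C (p : ℤ) * phi p := by
  ext j
  rw [Polynomial.coeff_add, Polynomial.coeff_add, Polynomial.coeff_C_mul, blkb_phi_coeff, Polynomial.coeff_one_add_X_pow,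
    Polynomial.coeff_one, Polynomial.coeff_X_pow]
  have hp0 := hp.pos
  rcases Nat.eq_zero_or_pos j with rfl | h0
  · have : ¬ (0 = p) := by omega
    simp [this]
  · rcases lt_trichotomy j p with h | h | h
    · have hd : p ∣ p.choose j := hp.dvd_choose_self (by omega) h
      have e : (p.choose j : ℤ) = (p : ℤ) * ((p.choose j / p : ℕ) : ℤ) := by
        rw [← Nat.cast_mul, Nat.mul_div_cancel' hd]
      rw [if_neg (by omega), if_neg (by omega), if_pos ⟨h0, h⟩]
      simpa using e
    · subst h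
      rw [if_neg (by omega), if_pos rfl, if_neg (by omega)]
      simp
    · rw [if_neg (by omega), if_neg (by omega), if_neg (by omega), Nat.choose_eq_zero_of_lt h]
      simp

theorem blkb_reflect_one (n : ℕ) : Polynomial.reflect n ((1 + Polynomial.X : Polynomial ℤ) ^ n) = (1 + Polynomial.X) ^ n := by
  ext i
  rw [Polynomial.coeff_reflect, Polynomial.coeff_one_add_X_pow, Polynomial.coeff_one_add_X_pow]
  rcases le_or_gt i n with h | h
  · rw [Polynomial.revAt_le h, Nat.choose_symm h]
  · rw [Polynomial.revAt_eq_self_of_lt h]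

theorem blkb_reflect_phi (_hp : p.Prime) : Polynomial.reflect p (phi p) = phi p := by
  ext i
  rw [Polynomial.coeff_reflect, blkb_phi_coeff, blkb_phi_coeff]
  rcases le_or_gt i p with h | h
  · rw [Polynomial.revAt_le h, Nat.choose_symm h]
    congr 1
    apply propext
    constructor <;> rintro ⟨h1, h2⟩ <;> constructor <;> omega
  · rw [Polynomial.revAt_eq_self_of_lt h]

theorem blkb_natDegree_phi (hp : p.Prime) : (phi p).natDegree ≤ p - 1 := by
  rw [Polynomial.natDegree_le_iff_coeff_eq_zero]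
  intro N hN
  rw [blkb_phi_coeff, if_neg (by have := hp.pos; omega)]

theorem blkb_natDegree_one (n : ℕ) : ((1 + Polynomial.X : Polynomial ℤ) ^ n).natDegree ≤ n := by
  rw [Polynomial.natDegree_le_iff_coeff_eq_zero]
  intro N hN
  rw [Polynomial.coeff_one_add_X_pow, Nat.choose_eq_zero_of_lt hN]
  simp

/-- PROOF. palindromic polynomials: phi has coefficients φ_j = φ_{p-j} (Nat.choose_symm), (1 + X)^n is palindromic; or Polynomial.reflect. -/
theorem cc_symm (hp : p.Prime) {n i : ℕ} (h : i ≤ n + p) : cc p n i = cc p n (n + p - i) := by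
  have h1 : Polynomial.reflect (n + p) ((1 + Polynomial.X : Polynomial ℤ) ^ n * phi p) = (1 + Polynomial.X) ^ n * phi p := by
    rw [Polynomial.reflect_mul _ _ (blkb_natDegree_one n) (le_trans (blkb_natDegree_phi hp) (Nat.sub_le _ _)),
      blkb_reflect_one, blkb_reflect_phi hp]
  unfold cc
  conv_lhs => rw [← h1]
  rw [Polynomial.coeff_reflect, Polynomial.revAt_le h]

theorem blkb_cc_zero (hp : p.Prime) {n i : ℕ} (h : n + p ≤ i) : cc p n i = 0 := by
  unfold cc
  apply Polynomial.coeff_eq_zero_of_natDegree_lt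
  have h1 := Polynomial.natDegree_mul_le (p := (1 + Polynomial.X : Polynomial ℤ) ^ n) (q := phi p)
  have h2 := blkb_natDegree_one n
  have h3 := blkb_natDegree_phi hp
  have := hp.pos
  omega

section gen

variable {R : Type*} [CommRing R]

theorem blkb_step (P : Polynomial R) {k : ℕ} (hk : k < p) (M' : ℕ) :
    (P * (1 + Polynomial.X ^ p)).coeff (k + p * M') =
      P.coeff (k + p * M') + (if M' = 0 then 0 else P.coeff (k + p * (M' - 1))) := by
  rw [mul_add, mul_one, Polynomial.coeff_add, Polynomial.coeff_mul_X_pow']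
  congr 1
  rcases Nat.eq_zero_or_pos M' with rfl | h
  · rw [if_neg (by omega), if_pos rfl]
  · obtain ⟨m, rfl⟩ : ∃ m, M' = m + 1 := ⟨M' - 1, by omega⟩
    rw [if_pos (by rw [Nat.mul_succ]; omega), if_neg (by omega)]
    congr 1
    rw [Nat.mul_succ, Nat.add_sub_cancel]
    omega

theorem blkb_A1 (P : Polynomial R) {k : ℕ} (hk : k < p) (hP : ∀ i, 1 ≤ i → P.coeff (k + p * i) = 0) (M M' : ℕ) :
    (P * (1 + Polynomial.X ^ p) ^ M).coeff (k + p * M') = (M.choose M' : R) * P.coeff k := by
  induction M generalizing M' with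
  | zero =>
    cases M' with
    | zero => simp
    | succ m => simp [hP (m + 1) (by omega)]
  | succ M ih =>
    rw [pow_succ, ← mul_assoc, blkb_step _ hk]
    cases M' with
    | zero =>
      have := ih 0
      rw [if_pos rfl, this]
      simp
    | succ m =>
      rw [if_neg (by omega), ih, Nat.add_sub_cancel, ih, Nat.choose_succ_succ]
      push_cast
      ring

theorem blkb_A2 (P : Polynomial R) {k : ℕ} (hk : k < p) (hP : ∀ i, 2 ≤ i → P.coeff (k + p * i) = 0) (M M' : ℕ) :
    (P * (1 + Polynomial.X ^ p) ^ M).coeff (k + p * M') = (M.choose M' : R) * P.coeff k +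
      (if M' = 0 then 0 else (M.choose (M' - 1) : R) * P.coeff (k + p)) := by
  induction M generalizing M' with
  | zero =>
    rcases M' with _ | _ | m
    · simp
    · simp
    · have := hP (m + 1 + 1) (by omega)
      simp [this]
  | succ M ih =>
    rw [pow_succ, ← mul_assoc, blkb_step _ hk]
    rcases M' with _ | _ | m
    · have := ih 0
      rw [if_pos rfl, this]
      simp
    · have e1 := ih 1
      have e0 := ih 0
      rw [if_neg (by omega), e1]
      simp only [Nat.zero_add, Nat.sub_self, one_ne_zero, if_false]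
      rw [e0]
      simp
      ring
    · rw [if_neg (by omega), ih, Nat.add_sub_cancel, ih, if_neg (by omega), if_neg (by omega), if_neg (by omega)]
      simp only [Nat.add_sub_cancel]
      rw [Nat.choose_succ_succ M (m + 1), Nat.choose_succ_succ M m]
      push_cast
      ring

theorem blkb_pow (a e : Polynomial R) (he : e * e = 0) (M : ℕ) : (a + e) ^ M = a ^ M + (M : Polynomial R) * e * a ^ (M - 1) := by
  induction M with
  | zero => simp
  | succ M ih =>
    rw [pow_succ, ih, Nat.add_sub_cancel]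
    rcases M with _ | m
    · simp
    · rw [Nat.add_sub_cancel]
      push_cast
      linear_combination ((m : Polynomial R) + 1) * a ^ m * he

end gen

/-- PROOF. (1 + X)^(n + p M) = (1 + X)^n ((1 + X^p)^M + p M φ (1 + X^p)^(M-1)) modulo p^2. Coefficient of X^(k + p M'): from the first part C(n, k) C(M, M')
(the coefficients C(n, k + i p) with i ≥ 1 are 0 because n < k + p), from the second part p M (cc n k C(M-1, M') + cc n (k+p) C(M-1, M'-1)) (cc n i = 0 for i ≥ n + p, and
k + 2 p > n + p). M C(M-1, M') = (M - M') C(M, M'), M C(M-1, M'-1) = M' C(M, M'). -/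
theorem blk (hp : p.Prime) {n k : ℕ} (hk : k < p) (hn : n < k + p) (M M' : ℕ) :
    (((n + p * M).choose (k + p * M') : ℕ) : RR p) = (M.choose M' : RR p) *
      ((n.choose k : RR p) + p * (((M : RR p) - M') * cc p n k + M' * cc p n (k + p))) := by
  have hp2 : (p : RR p) * (p : RR p) = 0 := by rw [← sq]; exact rr_sq
  set Φ : Polynomial (RR p) := (phi p).map (Int.castRingHom (RR p)) with hΦ
  have h1 : (1 + Polynomial.X : Polynomial (RR p)) ^ p = (1 + Polynomial.X ^ p) + Polynomial.C (p : RR p) * Φ := by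
    have := congrArg (Polynomial.map (Int.castRingHom (RR p))) (phi_eq hp)
    simpa using this
  have h2 : (Polynomial.C (p : RR p) * Φ) * (Polynomial.C (p : RR p) * Φ) = 0 := by
    have : (Polynomial.C (p : RR p) * Φ) * (Polynomial.C (p : RR p) * Φ) = Polynomial.C ((p : RR p) * p) * (Φ * Φ) := by
      rw [map_mul]; ring
    rw [this, hp2]
    simp
  have h3 : (1 + Polynomial.X : Polynomial (RR p)) ^ (n + p * M) =
      (1 + Polynomial.X) ^ n * (1 + Polynomial.X ^ p) ^ M +
      Polynomial.C ((p : RR p) * M) * (((1 + Polynomial.X) ^ n * Φ) * (1 + Polynomial.X ^ p) ^ (M - 1)) := by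
    rw [pow_add, pow_mul, h1, blkb_pow _ _ h2, map_mul]
    simp only [map_natCast]
    ring
  have h4 : (((n + p * M).choose (k + p * M') : ℕ) : RR p) =
      ((1 + Polynomial.X : Polynomial (RR p)) ^ (n + p * M)).coeff (k + p * M') := by
    rw [Polynomial.coeff_one_add_X_pow]
  have hcc : ∀ i, ((1 + Polynomial.X : Polynomial (RR p)) ^ n * Φ).coeff i = (cc p n i : RR p) := by
    intro i
    have : (1 + Polynomial.X : Polynomial (RR p)) ^ n * Φ = ((1 + Polynomial.X : Polynomial ℤ) ^ n * phi p).map (Int.castRingHom (RR p)) := by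
      simp [hΦ]
    rw [this, Polynomial.coeff_map]
    rfl
  rw [h4, h3, Polynomial.coeff_add, Polynomial.coeff_C_mul, blkb_A1 _ hk, blkb_A2 _ hk, hcc, hcc, Polynomial.coeff_one_add_X_pow]
  · rcases M with _ | m
    · rcases M' with _ | m'
      · simp
      · simp
    · rw [Nat.add_sub_cancel]
      have e1 : ((m + 1 : ℕ) : RR p) * (m.choose M' : RR p) = (((m + 1 : ℕ) : RR p) - M') * ((m + 1).choose M' : RR p) := by
        rcases le_or_gt M' (m + 1) with h | h
        · have := Nat.choose_mul_succ_eq m M'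
          have h' := congrArg (Nat.cast : ℕ → RR p) this
          rw [Nat.cast_mul, Nat.cast_mul, Nat.cast_sub h] at h'
          rw [mul_comm, h', mul_comm]
        · rw [Nat.choose_eq_zero_of_lt h, Nat.choose_eq_zero_of_lt (by omega)]
          simp
      rcases M' with _ | m'
      · rw [if_pos rfl, add_zero]
        linear_combination (p : RR p) * (cc p n k : RR p) * e1
      · rw [if_neg (by omega), Nat.add_sub_cancel]
        have e2 : ((m + 1 : ℕ) : RR p) * (m.choose m' : RR p) = ((m' + 1 : ℕ) : RR p) * ((m + 1).choose (m' + 1) : RR p) := by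
          have := Nat.add_one_mul_choose_eq m m'
          have h' := congrArg (Nat.cast : ℕ → RR p) this
          rw [Nat.cast_mul, Nat.cast_mul] at h'
          rw [h', mul_comm]
        linear_combination (p : RR p) * (cc p n k : RR p) * e1 + (p : RR p) * (cc p n (k + p) : RR p) * e2
  · intro i hi
    rw [hcc, blkb_cc_zero hp, Int.cast_zero]
    nlinarith [hp.pos]
  · intro i hi
    rw [Polynomial.coeff_one_add_X_pow, Nat.choose_eq_zero_of_lt, Nat.cast_zero]
    nlinarith [hp.pos]

theorem blkb_two_inv (hp : p.Prime) (h2 : p ≠ 2) : (2 : RR p) * (2 : RR p)⁻¹ = 1 := by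
  have h : ¬ p ∣ 2 := by
    intro h
    have := (Nat.prime_dvd_prime_iff_eq hp Nat.prime_two).1 h
    exact h2 this
  simpa using rr_inv hp (x := 2) h

theorem blkb_sum_blocks (f : ℕ → RR p) (K : ℕ) :
    ∑ n ∈ range (p * K), f n = ∑ m ∈ range K, ∑ n ∈ range p, f (n + p * m) := by
  induction K with
  | zero => simp
  | succ K ih =>
    rw [Nat.mul_succ, Finset.sum_range_add, ih, Finset.sum_range_succ]
    congr 1
    exact Finset.sum_congr rfl fun n _ => by rw [add_comm]

theorem blkb_fran (n K : ℕ) (h : n < K) : (fran n : RR p) = ∑ k ∈ range K, (n.choose k : RR p) ^ 3 := by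
  unfold fran
  push_cast
  apply Finset.sum_subset
  · intro x hx
    simp only [mem_range] at hx ⊢
    omega
  · intro x _ hx
    simp only [mem_range, not_lt] at hx
    rw [Nat.choose_eq_zero_of_lt (by omega)]
    simp

theorem blkb_S1 (m : ℕ) : 2 * ∑ j ∈ range (m + 1), (j : RR p) * (m.choose j : RR p) ^ 3 = m * (fran m : RR p) := by
  have e1 : ∑ j ∈ range (m + 1), (j : RR p) * (m.choose j : RR p) ^ 3 =
      ∑ j ∈ range (m + 1), ((m : RR p) - j) * (m.choose j : RR p) ^ 3 := by
    rw [← Finset.sum_range_reflect]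
    refine Finset.sum_congr rfl fun j hj => ?_
    have hj' : j ≤ m := by simpa [Nat.lt_succ_iff] using hj
    have e : m + 1 - 1 - j = m - j := by omega
    rw [e, Nat.choose_symm hj', Nat.cast_sub hj']
  have e2 : (fran m : RR p) = ∑ j ∈ range (m + 1), (m.choose j : RR p) ^ 3 := blkb_fran m (m + 1) (by omega)
  rw [two_mul]
  nth_rewrite 2 [e1]
  rw [e2, Finset.mul_sum, ← Finset.sum_add_distrib]
  exact Finset.sum_congr rfl fun j _ => by ring

/-- PROOF. fran (n + m p) = ∑ C(n + p m, k + p m')^3 over k < p and m' ≤ m. blk: C(m, m')^3 (C(n,k)^3 + 3 p C(n,k)^2 ((m - m') cc n k + m' cc n (k+p))).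
∑ m' C(m,m')^3 = m / 2 fran m (symmetry m' → m - m'), ∑ (m - m') C(m,m')^3 = m / 2 fran m. p is odd: 2 is a unit; ft n := 3 / 2 ∑_k C(n,k)^2 (cc n k + cc n (k+p)). For k > n the cube is divisible by p ^ 3. -/
theorem fran_blk (hp : p.Prime) (h2 : p ≠ 2) : ∃ ft : ℕ → RR p, ∀ m n, n < p → (fran (n + m * p) : RR p) = fran m * (fran n + p * m * ft n) := by
  have hp2 : (p : RR p) ^ 2 = 0 := rr_sq
  have hi := blkb_two_inv hp h2
  refine ⟨fun n => 3 * (2 : RR p)⁻¹ * ∑ k ∈ range p, (n.choose k : RR p) ^ 2 * ((cc p n k : RR p) + cc p n (k + p)), fun m n hn => ?_⟩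
  rw [blkb_fran (n + m * p) (p * (m + 1)) (by rw [Nat.mul_succ, mul_comm]; omega), blkb_sum_blocks]
  have hpos := hp.pos
  have e1 : ∀ m' ∈ range (m + 1), ∑ k ∈ range p, (((n + m * p).choose (k + p * m') : ℕ) : RR p) ^ 3 =
      (m.choose m' : RR p) ^ 3 * (∑ k ∈ range p, (n.choose k : RR p) ^ 3) +
      3 * (p : RR p) * (((m : RR p) - m') * (m.choose m' : RR p) ^ 3) * (∑ k ∈ range p, (n.choose k : RR p) ^ 2 * (cc p n k : RR p)) +
      3 * (p : RR p) * ((m' : RR p) * (m.choose m' : RR p) ^ 3) * (∑ k ∈ range p, (n.choose k : RR p) ^ 2 * (cc p n (k + p) : RR p)) := by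
    intro m' _
    rw [Finset.mul_sum, Finset.mul_sum, Finset.mul_sum, ← Finset.sum_add_distrib, ← Finset.sum_add_distrib]
    refine Finset.sum_congr rfl fun k hk => ?_
    rw [mul_comm m p, blk hp (mem_range.1 hk) (by omega) m m']
    set D : RR p := ((m : RR p) - m') * cc p n k + m' * cc p n (k + p) with hD
    have : ((n.choose k : RR p) + p * D) ^ 3 = (n.choose k : RR p) ^ 3 + 3 * p * (n.choose k : RR p) ^ 2 * D := by
      linear_combination (3 * (n.choose k : RR p) * D ^ 2 + (p : RR p) * D ^ 3) * hp2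
    rw [mul_pow, this, hD]
    ring
  rw [Finset.sum_congr rfl e1, Finset.sum_add_distrib, Finset.sum_add_distrib, ← Finset.sum_mul, ← Finset.sum_mul, ← Finset.sum_mul,
    ← Finset.mul_sum, ← Finset.mul_sum, ← blkb_fran n p hn, ← blkb_fran m (m + 1) (by omega)]
  have e3 := blkb_S1 (p := p) m
  have e4 : ∑ j ∈ range (m + 1), ((m : RR p) - j) * (m.choose j : RR p) ^ 3 =
      ∑ j ∈ range (m + 1), (j : RR p) * (m.choose j : RR p) ^ 3 := by
    have e5 : ∑ j ∈ range (m + 1), ((m : RR p) - j) * (m.choose j : RR p) ^ 3 +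
        ∑ j ∈ range (m + 1), (j : RR p) * (m.choose j : RR p) ^ 3 = m * (fran m : RR p) := by
      rw [blkb_fran m (m + 1) (by omega), Finset.mul_sum, ← Finset.sum_add_distrib]
      exact Finset.sum_congr rfl fun j _ => by ring
    linear_combination e5 - e3
  rw [e4]
  set S := ∑ j ∈ range (m + 1), (j : RR p) * (m.choose j : RR p) ^ 3 with hS
  have e6 : ∑ k ∈ range p, (n.choose k : RR p) ^ 2 * ((cc p n k : RR p) + cc p n (k + p)) =
      ∑ k ∈ range p, (n.choose k : RR p) ^ 2 * (cc p n k : RR p) + ∑ k ∈ range p, (n.choose k : RR p) ^ 2 * (cc p n (k + p) : RR p) := by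
    rw [← Finset.sum_add_distrib]
    exact Finset.sum_congr rfl fun j _ => by ring
  beta_reduce
  rw [e6]
  set T1 := ∑ k ∈ range p, (n.choose k : RR p) ^ 2 * (cc p n k : RR p) with hT1
  set T2 := ∑ k ∈ range p, (n.choose k : RR p) ^ 2 * (cc p n (k + p) : RR p) with hT2
  linear_combination 3 * (p : RR p) * (2 : RR p)⁻¹ * (T1 + T2) * e3 - 3 * (p : RR p) * S * (T1 + T2) * hi

/-- PROOF. C(2n + 2mp, n + mp) by blk with n := 2n, k := n, M := 2m, M' := m and cc_symm (cc (2n) n = cc (2n) (n + p)): C(2m,m) (C(2n,n) + 2 p m cc (2n) n). Product with fran_blk. -/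
theorem bb_blk (hp : p.Prime) (h2 : p ≠ 2) : ∃ bt : ℕ → RR p, ∀ m n, n < p → (bb (n + m * p) : RR p) = bb m * (bb n + p * m * bt n) := by
  obtain ⟨ft, hft⟩ := fran_blk hp h2
  have hp2 : (p : RR p) ^ 2 = 0 := rr_sq
  refine ⟨fun n => 2 * (cc p (2 * n) n : RR p) * (fran n : RR p) + ((2 * n).choose n : RR p) * ft n, fun m n hn => ?_⟩
  have e1 := blk hp (n := 2 * n) (k := n) hn (by omega) (2 * m) m
  have e2 : cc p (2 * n) n = cc p (2 * n) (n + p) := by
    rw [cc_symm hp (by omega)]
    congr 1
    omega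
  have e3 : 2 * (n + m * p) = 2 * n + p * (2 * m) := by ring
  have e4 : n + m * p = n + p * m := by ring
  unfold bb
  rw [Nat.cast_mul, hft m n hn, e3]
  conv_lhs => rw [e4]
  rw [e1, ← e2]
  push_cast
  linear_combination ((2 * m).choose m : RR p) * (fran m : RR p) * 2 * (m : RR p) ^ 2 * (cc p (2 * n) n : RR p) * ft n * hp2

end Pool.Agent.ADC
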