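import Pool.Agent.ADC.Leg
import Pool.Agent.ADC.BlkB

/-! Project ADC (MP_adc642_nt), module CL (size 4): the second block of the sum of level 2. -/

set_option autoImplicit false

namespace Pool.Agent.ADC

open Finset

variable {p : ℕ}

/-- the coefficients in block form. PROOF. n0 ≤ p / 2, j < p. C(n0 + p M1, j + p n1) by blk (n := n0, k := j, n0 < j + p); C((n0 + j) + p (M1 + n1), j + p n1) by blk (n := n0 + j, k := j, n0 + j < j + p);
multiply (p^2 = 0): D j := .., D' j := .. do not depend on M1, n1. Here C(N+n, n) with N = n0 + p M1, n = j + p n1: N + n = (n0 + j) + p (M1 + n1). -/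
theorem cl_blk (hp : p.Prime) {n0 : ℕ} (h0 : n0 < p) : ∃ D D' : ℕ → RR p, ∀ j M1 n1, j < p →
    (((n0 + p * M1).choose (j + p * n1) : ℕ) : RR p) * (((n0 + p * M1 + (j + p * n1)).choose (j + p * n1) : ℕ) : RR p) =
      (M1.choose n1 : RR p) * ((M1 + n1).choose n1 : RR p) * ((n0.choose j : RR p) * ((n0 + j).choose j : RR p) + p * (M1 * D j + n1 * D' j)) := by
  refine ⟨fun j => ((n0 + j).choose j : RR p) * cc p n0 j + (n0.choose j : RR p) * cc p (n0 + j) j,
    fun j => ((n0 + j).choose j : RR p) * ((cc p n0 (j + p) : RR p) - cc p n0 j) + (n0.choose j : RR p) * cc p (n0 + j) (j + p), ?_⟩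
  intro j M1 n1 hj
  have hsq : (p : RR p) ^ 2 = 0 := rr_sq
  have h1 := blk hp (n := n0) (k := j) hj (by omega) M1 n1
  have h2 := blk hp (n := n0 + j) (k := j) hj (by omega) (M1 + n1) n1
  have e : n0 + p * M1 + (j + p * n1) = (n0 + j) + p * (M1 + n1) := by ring
  rw [e, h1, h2]
  push_cast
  linear_combination ((M1.choose n1 : RR p) * ((M1 + n1).choose n1 : RR p) *
    (((M1 : RR p) - n1) * cc p n0 j + n1 * cc p n0 (j + p)) * ((M1 : RR p) * cc p (n0 + j) j + n1 * cc p (n0 + j) (j + p))) * hsq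

theorem cl_fac (hp : p.Prime) (n : ℕ) (hn : n < 2 * p) : ∃ w e, e ≤ 1 ∧ ¬ p ∣ w ∧ n.factorial = p ^ e * w := by
  by_cases h : n < p
  · exact ⟨n.factorial, 0, by omega, fun h' => by rw [hp.dvd_factorial] at h'; omega, by simp⟩
  · obtain ⟨k, rfl⟩ : ∃ k, n = p + k := ⟨n - p, by omega⟩
    have hk : k < p := by omega
    clear h hn
    induction k with
    | zero =>
      refine ⟨(p - 1).factorial, 1, le_refl _, fun h' => ?_, ?_⟩
      · rw [hp.dvd_factorial] at h'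
        have := hp.pos
        omega
      · rw [pow_one, add_zero]
        exact (Nat.mul_factorial_pred hp.ne_zero).symm
    | succ k ih =>
      obtain ⟨w, e, he, hw, hf⟩ := ih (by omega)
      refine ⟨(p + k + 1) * w, e, he, fun h' => ?_, ?_⟩
      · rcases hp.dvd_mul.1 h' with h' | h'
        · have h2 : p ∣ k + 1 := by
            have h3 : p ∣ p + (k + 1) := by rw [← add_assoc]; exact h'
            exact (Nat.dvd_add_right (dvd_refl p)).1 h3
          have := Nat.le_of_dvd (by omega) h2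
          omega
        · exact hw h'
      · rw [← add_assoc, Nat.factorial_succ, hf]
        ring

theorem cl_aa1 (n : ℕ) : ((n.factorial : ℤ)) ^ 2 * (aa n : ℤ) = 4 ^ n * ∏ i ∈ range n, (16 * ((i : ℤ) * (i + 1)) + 3) := by
  induction n with
  | zero => simp [aa_zero]
  | succ n ih =>
    have h : ((n : ℤ) + 1) ^ 2 * (aa (n + 1) : ℤ) = 4 * (4 * n + 1) * (4 * n + 3) * aa n := by exact_mod_cast aa_rec n
    rw [Nat.factorial_succ, prod_range_succ]
    push_cast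
    linear_combination ((n.factorial : ℤ)) ^ 2 * h + 4 * (4 * (n : ℤ) + 1) * (4 * n + 3) * ih

theorem cl_aa2 (M n : ℕ) : ((n.factorial : ℤ)) ^ 2 * ((-16) ^ n * (M.choose n : ℤ) * ((M + n).choose n : ℤ)) =
    ∏ i ∈ range n, (16 * ((i : ℤ) * (i + 1)) - 16 * ((M : ℤ) * (M + 1))) := by
  induction n with
  | zero => simp
  | succ n ih =>
    have h1 : (M.choose (n + 1) : ℤ) * (n + 1) = M.choose n * ((M : ℤ) - n) := by
      rcases le_or_gt n M with h | h
      · have := Nat.choose_succ_right_eq M n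
        have h2 : (((M - n : ℕ)) : ℤ) = (M : ℤ) - n := by push_cast [Nat.cast_sub h]; ring
        rw [← h2]
        exact_mod_cast this
      · rw [Nat.choose_eq_zero_of_lt h, Nat.choose_eq_zero_of_lt (by omega : M < n + 1)]
        simp
    have h2 : ((M + (n + 1)).choose (n + 1) : ℤ) * (n + 1) = (M + n).choose n * ((M : ℤ) + n + 1) := by
      have := Nat.add_one_mul_choose_eq (M + n) n
      have h3 : ((M + n : ℕ) + 1 : ℤ) * ((M + n).choose n : ℤ) = ((M + n + 1).choose (n + 1) : ℤ) * (n + 1) := by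
        exact_mod_cast this
      rw [← add_assoc]
      push_cast at h3 ⊢
      linear_combination -h3
    rw [Nat.factorial_succ, prod_range_succ, ← ih]
    push_cast
    have e1 : (((n : ℤ) + 1) * (n.factorial : ℤ)) ^ 2 * ((-16) ^ (n + 1) * (M.choose (n + 1) : ℤ) * ((M + (n + 1)).choose (n + 1) : ℤ)) =
      (n.factorial : ℤ) ^ 2 * (-16) ^ (n + 1) * ((M.choose (n + 1) : ℤ) * (n + 1)) * (((M + (n + 1)).choose (n + 1) : ℤ) * (n + 1)) := by ring
    rw [e1, h1, h2]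
    ring

/-- PROOF. Let c := 1 if p % 4 = 1, c := 3 if p % 4 = 3, 4 M + c ≡ 0 mod p^4. Then 16 M (M+1) ≡ -3 mod p^4. With U := ∏_{i<n} (16 i (i+1) + 3), V := ∏_{i<n} (16 i (i+1) - 16 M (M+1)):
16^n (n!)^2 aa n = 64^n U (aa_rec), 16^n (n!)^2 (-1)^n C(M,n) C(M+n,n) = V, U ≡ V mod p^4, and p^3 does not divide (n!)^2 for n < 2p. -/
theorem cl_aa (hp : p.Prime) (h5 : 5 ≤ p) {M n : ℕ} (hM : (p ^ 4 : ℤ) ∣ 16 * (M * (M + 1)) + 3) (hn : n < 2 * p) :
    (aa n : RR p) = 64 ^ n * (-1) ^ n * (M.choose n : RR p) * ((M + n).choose n : RR p) := by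
  have hUV : (p ^ 4 : ℤ) ∣ (∏ i ∈ range n, (16 * ((i : ℤ) * (i + 1)) + 3)) - ∏ i ∈ range n, (16 * ((i : ℤ) * (i + 1)) - 16 * ((M : ℤ) * (M + 1))) := by
    rw [← Int.modEq_iff_dvd]
    apply Int.ModEq.prod
    intro i _
    rw [Int.modEq_iff_dvd]
    have e : (16 * ((i : ℤ) * (i + 1)) + 3) - (16 * ((i : ℤ) * (i + 1)) - 16 * ((M : ℤ) * (M + 1))) = 16 * (M * (M + 1)) + 3 := by ring
    rw [e]
    exact hM
  have h1 := cl_aa1 n
  have h2 := cl_aa2 M n
  obtain ⟨w, e, he, hw, hf⟩ := cl_fac hp n hn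
  set X : ℤ := (aa n : ℤ) - 64 ^ n * (-1) ^ n * (M.choose n : ℤ) * ((M + n).choose n : ℤ) with hX
  have h3 : (p ^ 4 : ℤ) ∣ ((n.factorial : ℤ)) ^ 2 * X := by
    have e1 : ((n.factorial : ℤ)) ^ 2 * X = 4 ^ n * ((∏ i ∈ range n, (16 * ((i : ℤ) * (i + 1)) + 3)) - ∏ i ∈ range n, (16 * ((i : ℤ) * (i + 1)) - 16 * ((M : ℤ) * (M + 1)))) := by
      have e2 : (64 : ℤ) ^ n * (-1) ^ n = 4 ^ n * (-16) ^ n := by rw [← mul_pow, ← mul_pow]; norm_num
      rw [hX, mul_sub, h1, mul_sub, ← h2, e2]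
      ring
    rw [e1]
    exact dvd_mul_of_dvd_right hUV _
  have hpI : Prime (p : ℤ) := Nat.prime_iff_prime_int.1 hp
  have hwI : ¬ (p : ℤ) ∣ (w : ℤ) ^ 2 := fun h => hw (by exact_mod_cast hpI.dvd_of_dvd_pow h)
  have h4 : ((p : ℤ) ^ 2) ∣ X := by
    have hf' : ((n.factorial : ℤ)) = (p : ℤ) ^ e * w := by rw [hf]; push_cast; ring
    rw [hf'] at h3
    have h5 : ((p : ℤ) ^ 2) ∣ (w : ℤ) ^ 2 * X := by
      have hp0 : ((p : ℤ) ^ (2 * e)) ≠ 0 := pow_ne_zero _ hpI.ne_zero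
      have e2 : (((p : ℤ) ^ e * w)) ^ 2 * X = (p : ℤ) ^ (2 * e) * ((w : ℤ) ^ 2 * X) := by ring
      rw [e2] at h3
      have e3 : ((p : ℤ) ^ 4) = (p : ℤ) ^ (2 * e) * (p : ℤ) ^ (4 - 2 * e) := by rw [← pow_add]; congr 1; omega
      rw [e3] at h3
      have h6 := (mul_dvd_mul_iff_left hp0).1 h3
      exact (pow_dvd_pow _ (by omega)).trans h6
    exact hpI.pow_dvd_of_dvd_mul_left 2 hwI h5
  have h6 : ((X : ℤ) : RR p) = 0 := by
    rw [ZMod.intCast_zmod_eq_zero_iff_dvd]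
    push_cast
    exact h4
  rw [hX] at h6
  push_cast at h6
  linear_combination h6

theorem cl_M1 (hp : p.Prime) (h2 : p % 2 = 1) : ∃ M1 : ℕ, p ^ 3 ∣ 4 * M1 + 1 := by
  have h3 : p ^ 3 % 4 = 1 ∨ p ^ 3 % 4 = 3 := by
    have h4 : p % 4 = 1 ∨ p % 4 = 3 := by omega
    rw [Nat.pow_mod]
    rcases h4 with h | h <;> rw [h] <;> norm_num
  rcases h3 with h | h
  · exact ⟨(p ^ 3 - 1) / 4, ⟨1, by omega⟩⟩
  · exact ⟨(3 * p ^ 3 - 1) / 4, ⟨3, by omega⟩⟩

/-- PROOF. n0 := p / 4 (even), cl_blk. σ := ∑_j C(n0,j) C(n0+j,j) (-1/2)^j, μ := ∑_j D j (-1/2)^j, ν := ∑_j D' j (-1/2)^j (j < p), (-1/2)^(j + p n1) = (-1/2)^j (-1)^n1 2^(-p n1).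
M1 = 1: N := n0 + p is odd, lg N = 0 (lg_odd): 0 = ∑_{n<2p} C(N,n) C(N+n,n) (-1/2)^n = σ + p μ - 2 2^-p (σ + p μ + p ν). Hence (2^(1-p) - 1 is a multiple of p) 2^(1-p) (σ + p ν) = σ.
M1 with 4 M1 + 1 ≡ 0 mod p^3, M := n0 + p M1 satisfies the condition of cl_aa (4 n0 + c = p). Hs = σ - (p/4) μ, Hs2 = - M1 (M1+1) 2^-p (σ + p M1 μ + p ν) = (3/16) 2^-p (σ - (p/4) μ + p ν) = (3/32) (σ - (p/4) μ). -/
theorem cl (hp : p.Prime) (h5 : 5 ≤ p) (h : p % 8 = 1 ∨ p % 8 = 3) : Hs2 p = 3 * (32 : RR p)⁻¹ * Hs p := by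
  have hsq : (p : RR p) ^ 2 = 0 := rr_sq
  have nd2 : ¬ p ∣ 2 := fun h => by have := Nat.le_of_dvd (by norm_num) h; omega
  have ndpow : ∀ k, ¬ p ∣ 2 ^ k := fun k h => nd2 (hp.dvd_of_dvd_pow h)
  have i2 : (2 : RR p) * (2 : RR p)⁻¹ = 1 := by exact_mod_cast rr_inv hp (x := 2) nd2
  have i128 : (128 : RR p) * (128 : RR p)⁻¹ = 1 := by exact_mod_cast rr_inv hp (x := 128) (ndpow 7)
  have i32 : (32 : RR p) * (32 : RR p)⁻¹ = 1 := by exact_mod_cast rr_inv hp (x := 32) (ndpow 5)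
  generalize (2 : RR p)⁻¹ = t at *
  have e128 : (128 : RR p)⁻¹ = t ^ 7 := by
    have h7 : (128 : RR p) * t ^ 7 = 1 := by
      have : (128 : RR p) * t ^ 7 = (2 * t) ^ 7 := by ring
      rw [this, i2, one_pow]
    calc (128 : RR p)⁻¹ = (128 : RR p)⁻¹ * (128 * t ^ 7) := by rw [h7, mul_one]
      _ = (128 * (128 : RR p)⁻¹) * t ^ 7 := by ring
      _ = t ^ 7 := by rw [i128, one_mul]
  have e32 : (32 : RR p)⁻¹ = t ^ 5 := by
    have h7 : (32 : RR p) * t ^ 5 = 1 := by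
      have : (32 : RR p) * t ^ 5 = (2 * t) ^ 5 := by ring
      rw [this, i2, one_pow]
    calc (32 : RR p)⁻¹ = (32 : RR p)⁻¹ * (32 * t ^ 5) := by rw [h7, mul_one]
      _ = (32 * (32 : RR p)⁻¹) * t ^ 5 := by ring
      _ = t ^ 5 := by rw [i32, one_mul]
  obtain ⟨n0, hn0, hc⟩ : ∃ n0, n0 % 2 = 0 ∧ (4 * n0 + 1 = p ∨ 4 * n0 + 3 = p) := ⟨p / 4, by omega, by omega⟩
  have hn0p : n0 < p := by omega
  have hodd : p % 2 = 1 := by omega
  obtain ⟨D, D', hD⟩ := cl_blk hp hn0p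
  obtain ⟨M1, hM1⟩ := cl_M1 hp hodd
  -- sums
  set σ : RR p := ∑ j ∈ range p, (n0.choose j : RR p) * ((n0 + j).choose j : RR p) * (-t) ^ j with hσ
  set μ : RR p := ∑ j ∈ range p, D j * (-t) ^ j with hμ
  set ν : RR p := ∑ j ∈ range p, D' j * (-t) ^ j with hν
  -- general sum
  have gen : ∀ m n1 : ℕ, ∑ j ∈ range p, (((n0 + p * m).choose (j + p * n1) : ℕ) : RR p) * (((n0 + p * m + (j + p * n1)).choose (j + p * n1) : ℕ) : RR p) * (-t) ^ (j + p * n1) =
      (m.choose n1 : RR p) * ((m + n1).choose n1 : RR p) * (-t) ^ (p * n1) * (σ + p * (m * μ + n1 * ν)) := by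
    intro m n1
    rw [hσ, hμ, hν]
    simp only [mul_sum, ← sum_add_distrib]
    apply sum_congr rfl
    intro j hj
    rw [hD j m n1 (mem_range.1 hj), pow_add]
    ring
  have hM1z : (4 : RR p) * M1 + 1 = 0 := by
    have h1 : p ^ 2 ∣ 4 * M1 + 1 := (pow_dvd_pow p (by norm_num)).trans hM1
    have h2 : ((4 * M1 + 1 : ℕ) : RR p) = 0 := (ZMod.natCast_eq_zero_iff _ _).2 h1
    push_cast at h2
    exact h2
  have hM : (p ^ 4 : ℤ) ∣ 16 * (((n0 + p * M1 : ℕ) : ℤ) * (((n0 + p * M1 : ℕ) : ℤ) + 1)) + 3 := by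
    obtain ⟨k, hk⟩ := hM1
    have hk' : (4 * (M1 : ℤ) + 1) = p ^ 3 * k := by exact_mod_cast hk
    rcases hc with hc | hc
    · have hc' : 4 * (n0 : ℤ) + 1 = p := by exact_mod_cast hc
      refine ⟨k * (4 * (n0 + p * M1) + 3), ?_⟩
      push_cast
      linear_combination (4 * ((n0 : ℤ) + p * M1) + 3) * hc' + (4 * ((n0 : ℤ) + p * M1) + 3) * p * hk'
    · have hc' : 4 * (n0 : ℤ) + 3 = p := by exact_mod_cast hc
      refine ⟨k * (4 * (n0 + p * M1) + 1), ?_⟩
      push_cast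
      linear_combination (4 * ((n0 : ℤ) + p * M1) + 1) * hc' + (4 * ((n0 : ℤ) + p * M1) + 1) * p * hk'
  have hterm : ∀ n, n < 2 * p → (aa n : RR p) * (128 : RR p)⁻¹ ^ n = (((n0 + p * M1).choose n : ℕ) : RR p) * (((n0 + p * M1 + n).choose n : ℕ) : RR p) * (-t) ^ n := by
    intro n hn
    rw [cl_aa hp h5 hM hn, e128]
    have e1 : (64 : RR p) * t ^ 7 = t := by
      have : (64 : RR p) * t ^ 7 = (2 * t) ^ 6 * t := by ring
      rw [this, i2, one_pow, one_mul]
    have e2 : (64 : RR p) ^ n * (-1) ^ n * (t ^ 7) ^ n = (-t) ^ n := by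
      rw [← mul_pow, ← mul_pow]
      congr 1
      linear_combination -e1
    linear_combination (((n0 + p * M1).choose n : ℕ) : RR p) * (((n0 + p * M1 + n).choose n : ℕ) : RR p) * e2
  have hHs : Hs p = σ + p * (M1 * μ) := by
    have := gen M1 0
    simp only [mul_zero, add_zero, Nat.choose_zero_right, Nat.cast_one, one_mul, pow_zero, Nat.cast_zero, zero_mul] at this
    rw [Hs, ← this]
    apply sum_congr rfl
    intro n hn
    rw [hterm n (by have := mem_range.1 hn; omega)]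
  have hHs2 : Hs2 p = (M1 : RR p) * (M1 + 1) * (-t) ^ p * (σ + p * (M1 * μ + ν)) := by
    have := gen M1 1
    simp only [mul_one, Nat.choose_one_right, Nat.cast_one, one_mul] at this
    push_cast at this
    rw [Hs2, ← this]
    apply sum_congr rfl
    intro n hn
    rw [hterm (n + p) (by have := mem_range.1 hn; omega)]
  -- the relation
  have hrel : σ + p * μ + 2 * (-t) ^ p * (σ + p * (μ + ν)) = 0 := by
    have g0 := gen 1 0
    have g1 := gen 1 1
    simp only [mul_zero, add_zero, Nat.choose_zero_right, Nat.cast_one, one_mul, pow_zero, Nat.cast_zero, zero_mul, mul_one, Nat.choose_self] at g0 g1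
    norm_num at g1
    rw [← g0, ← g1]
    have hl := lg_odd (N := n0 + p) (by omega)
    have hl2 : ((lg (n0 + p) : ℤ) : RR p) = 0 := by rw [hl]; simp
    have hs1 : ∀ f : ℕ → RR p, ∑ j ∈ range p, f j + ∑ j ∈ range p, f (j + p) = ∑ n ∈ range (2 * p), f n := by
      intro f
      rw [two_mul, sum_range_add]
      congr 1
      exact sum_congr rfl (fun j _ => by rw [add_comm])
    have key : ∑ n ∈ range (2 * p), (((n0 + p).choose n : ℕ) : RR p) * (((n0 + p + n).choose n : ℕ) : RR p) * (-t) ^ n = 0 := by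
      have hsub : range (n0 + p + 1) ⊆ range (2 * p) := range_subset_range.2 (by omega)
      rw [← sum_subset hsub (fun n _ hn => by
        rw [Nat.choose_eq_zero_of_lt (by simpa using hn)]; simp)]
      have h2 : (2 * t) ^ (n0 + p) = 1 := by rw [i2, one_pow]
      have h3 : ∑ n ∈ range (n0 + p + 1), (((n0 + p).choose n : ℕ) : RR p) * (((n0 + p + n).choose n : ℕ) : RR p) * (-t) ^ n = t ^ (n0 + p) * ((lg (n0 + p) : ℤ) : RR p) := by
        rw [lg]
        push_cast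
        rw [mul_sum]
        apply sum_congr rfl
        intro n hn
        have hn' : n ≤ n0 + p := by have := mem_range.1 hn; omega
        obtain ⟨k, hk⟩ := Nat.exists_eq_add_of_le hn'
        have h4 : n0 + p - n = k := by omega
        rw [h4]
        have h5 : t ^ (n0 + p) * ((-1) ^ n * 2 ^ k) = (-t) ^ n := by
          rw [hk, pow_add]
          have : t ^ n * t ^ k * ((-1) ^ n * 2 ^ k) = (-1) ^ n * t ^ n * (2 * t) ^ k := by
            rw [mul_pow]; ring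
          rw [this, i2, one_pow, mul_one, ← mul_pow]
          congr 1
          ring
        rw [← h5]
        ring
      rw [h3, hl2, mul_zero]
    rw [← hs1] at key
    rw [← key]
  have hpow : (-t) ^ p = - t ^ p := by
    rw [neg_pow, Odd.neg_one_pow (Nat.odd_iff.2 hodd)]
    ring
  -- u = 2 t^p, p (1 - u) = 0
  have hu : (p : RR p) * (1 - 2 * t ^ p) = 0 := by
    have hF : (2 : ZMod p) ^ p = 2 := by
      have := Fact.mk hp
      exact ZMod.pow_card 2
    have h1 : (p : RR p) * ((2 ^ p : ℤ) : RR p) = p * ((2 : ℤ) : RR p) := by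
      apply rr_int
      push_cast
      exact hF
    push_cast at h1
    have h2 : (2 : RR p) ^ p * t ^ p = 1 := by rw [← mul_pow, i2, one_pow]
    linear_combination t ^ p * h1 - (p : RR p) * h2
  rw [hHs2, hHs, e32, hpow]
  rw [hpow] at hrel
  have hM1t : (M1 : RR p) = - t ^ 2 := by
    linear_combination t ^ 2 * hM1z - (M1 : RR p) * (2 * t + 1) * i2
  have hMM : (M1 : RR p) * (M1 + 1) = -3 * t ^ 4 := by
    rw [hM1t]
    linear_combination t ^ 2 * (2 * t + 1) * i2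
  linear_combination (-(t ^ p) * (σ + p * (M1 * μ + ν))) * hMM - 3 * t ^ 4 * t ^ p * (σ + p * (M1 * μ + ν)) * i2
    - 3 * t ^ 5 * hrel + 3 * t ^ 5 * μ * (1 - M1) * hu

end Pool.Agent.ADC
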