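import Pool.Agent.ADC.Defs

/-! Project ADC (MP_adc642_nt), module Cmp (size 4): composition of a sequence of coefficients with a power series without constant term. -/

set_option autoImplicit false

namespace Pool.Agent.ADC

open Finset PowerSeries

variable {A B : Type} [CommRing A] [CommRing B]

/-- `∑ c n * z ^ n` (for `X ∣ z`) -/
noncomputable def cmp (c : ℕ → A) (z : A⟦X⟧) : A⟦X⟧ :=
  PowerSeries.mk fun N => ∑ n ∈ range (N + 1), c n * coeff N (z ^ n)

/-- the derivation `X * d/dX` -/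
noncomputable def theta (f : A⟦X⟧) : A⟦X⟧ := PowerSeries.mk fun n => (n : A) * coeff n f

theorem theta_add (f g : A⟦X⟧) : theta (f + g) = theta f + theta g := by
  ext n; simp [theta, mul_add]

theorem theta_sub (f g : A⟦X⟧) : theta (f - g) = theta f - theta g := by
  ext n; simp [theta, mul_sub]

/-- PROOF. PowerSeries.coeff_mul, antidiagonal: n = i + j. -/
theorem theta_mul (f g : A⟦X⟧) : theta (f * g) = theta f * g + f * theta g := by
  ext n
  simp only [theta, coeff_mk, map_add, PowerSeries.coeff_mul]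
  rw [Finset.mul_sum, ← Finset.sum_add_distrib]
  refine Finset.sum_congr rfl fun x hx => ?_
  rw [← Finset.HasAntidiagonal.mem_antidiagonal.1 hx]
  push_cast
  ring

theorem theta_C (a : A) : theta (C a : A⟦X⟧) = 0 := by
  ext n
  rw [theta, coeff_mk, coeff_C]
  split_ifs with h
  · simp [h]
  · simp

theorem theta_natCast (n : ℕ) : theta (n : A⟦X⟧) = 0 := by
  rw [← map_natCast (C (R := A)) n]
  exact theta_C _

theorem theta_X : theta (X : A⟦X⟧) = X := by
  ext n
  rw [theta, coeff_mk, coeff_X]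
  split_ifs with h
  · simp [h]
  · simp

theorem theta_pow (f : A⟦X⟧) (n : ℕ) : theta (f ^ (n + 1)) = (n + 1 : ℕ) * f ^ n * theta f := by
  induction n with
  | zero => simp
  | succ n ih =>
    rw [pow_succ, theta_mul, ih]
    push_cast
    ring

variable {c : ℕ → A} {z : A⟦X⟧}

theorem cmp_coeff_pow_zero (hz : X ∣ z) {N n : ℕ} (h : N < n) : coeff N (z ^ n) = 0 := by
  have h1 : (X : A⟦X⟧) ^ n ∣ z ^ n := pow_dvd_pow_of_dvd hz n
  exact (X_pow_dvd_iff.1 h1) N h

theorem cmp_coeff_eq (hz : X ∣ z) {N K : ℕ} (h : N < K) :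
    coeff N (cmp c z) = ∑ n ∈ range K, c n * coeff N (z ^ n) := by
  rw [cmp, coeff_mk]
  apply Finset.sum_subset
  · intro x hx
    simp only [mem_range] at hx ⊢
    omega
  · intro x _ hx
    simp only [mem_range, not_lt] at hx
    rw [cmp_coeff_pow_zero hz (by omega), mul_zero]

/-- PROOF. coeff N (z ^ n) = 0 for N < n. -/
theorem cmp_trunc (hz : X ∣ z) (K : ℕ) : (X : A⟦X⟧) ^ K ∣ cmp c z - ∑ n ∈ range K, C (c n) * z ^ n := by
  rw [X_pow_dvd_iff]
  intro m hm
  rw [map_sub, cmp_coeff_eq hz hm, map_sum, sub_eq_zero]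
  exact Finset.sum_congr rfl fun n _ => (coeff_C_mul _ _ _).symm

theorem cmp_unique {f : A⟦X⟧} (hz : X ∣ z) (h : ∀ K, (X : A⟦X⟧) ^ K ∣ f - ∑ n ∈ range K, C (c n) * z ^ n) : f = cmp c z := by
  ext m
  have h1 := (X_pow_dvd_iff.1 (h (m + 1))) m (by omega)
  have h2 := (X_pow_dvd_iff.1 (cmp_trunc (c := c) hz (m + 1))) m (by omega)
  rw [map_sub, sub_eq_zero] at h1 h2
  rw [h1, h2]

theorem cmp_add (c d : ℕ → A) (hz : X ∣ z) : cmp (fun n => c n + d n) z = cmp c z + cmp d z := by
  ext m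
  simp only [cmp, coeff_mk, map_add]
  rw [← Finset.sum_add_distrib]
  exact Finset.sum_congr rfl fun n _ => by ring

theorem cmp_mulC (a : A) (hz : X ∣ z) : cmp (fun n => a * c n) z = C a * cmp c z := by
  ext m
  rw [coeff_C_mul]
  simp only [cmp, coeff_mk]
  rw [Finset.mul_sum]
  exact Finset.sum_congr rfl fun n _ => by ring

theorem cmp_succ (hz : X ∣ z) : cmp c z = C (c 0) + z * cmp (fun n => c (n + 1)) z := by
  symm
  apply cmp_unique hz
  intro K
  cases K with
  | zero => simp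
  | succ K =>
    rw [Finset.sum_range_succ']
    have h1 := cmp_trunc (c := fun n => c (n + 1)) hz K
    have h2 := mul_dvd_mul hz h1
    rw [← pow_succ'] at h2
    convert h2 using 1
    rw [mul_sub, Finset.mul_sum]
    have : ∑ k ∈ range K, C (c (k + 1)) * z ^ (k + 1) = ∑ i ∈ range K, z * (C (c (i + 1)) * z ^ i) :=
      Finset.sum_congr rfl fun n _ => by ring
    rw [this]
    simp only [pow_zero, mul_one]
    ring

theorem cmp_cc (hz : X ∣ z) : constantCoeff (cmp c z) = c 0 := by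
  rw [← coeff_zero_eq_constantCoeff_apply, cmp, coeff_mk]
  simp

theorem cmp_map (f : A →+* B) (hz : X ∣ z) : PowerSeries.map f (cmp c z) = cmp (fun n => f (c n)) (PowerSeries.map f z) := by
  ext m
  rw [coeff_map]
  simp only [cmp, coeff_mk, map_sum, map_mul]
  refine Finset.sum_congr rfl fun n _ => ?_
  rw [← map_pow, coeff_map]

theorem cmp_theta_pow {τ : A⟦X⟧} (h : theta z = τ * z) (n : ℕ) : theta (z ^ n) = (n : A⟦X⟧) * τ * z ^ n := by
  cases n with
  | zero =>
    have := theta_natCast (A := A) 1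
    simpa using this
  | succ n =>
    rw [theta_pow, h]
    ring

theorem cmp_theta_sum {ι : Type} (s : Finset ι) (f : ι → A⟦X⟧) : theta (∑ i ∈ s, f i) = ∑ i ∈ s, theta (f i) := by
  classical
  induction s using Finset.induction_on with
  | empty =>
    have := theta_natCast (A := A) 0
    simpa using this
  | insert a s ha ih => rw [Finset.sum_insert ha, theta_add, ih, Finset.sum_insert ha]

theorem cmp_theta_dvd {f : A⟦X⟧} {K : ℕ} (h : (X : A⟦X⟧) ^ K ∣ f) : (X : A⟦X⟧) ^ K ∣ theta f := by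
  rw [X_pow_dvd_iff] at h ⊢
  intro m hm
  rw [theta, coeff_mk, h m hm, mul_zero]

/-- PROOF. theta (z ^ n) = n * τ * z ^ n. -/
theorem cmp_theta {τ : A⟦X⟧} (hz : X ∣ z) (h : theta z = τ * z) : theta (cmp c z) = τ * cmp (fun n => n * c n) z := by
  ext m
  have h1 := (X_pow_dvd_iff.1 (cmp_theta_dvd (cmp_trunc (c := c) hz (m + 1)))) m (by omega)
  have h2 := (X_pow_dvd_iff.1 (dvd_mul_of_dvd_right (cmp_trunc (c := fun n => (n : A) * c n) hz (m + 1)) τ)) m (by omega)
  rw [theta_sub, map_sub, sub_eq_zero] at h1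
  rw [mul_sub, map_sub, sub_eq_zero] at h2
  rw [h1, h2, cmp_theta_sum, Finset.mul_sum]
  congr 1
  refine Finset.sum_congr rfl fun n _ => ?_
  rw [theta_mul, theta_C, cmp_theta_pow h, map_mul, map_natCast]
  ring

theorem cmp_sum_blocks (f : ℕ → A⟦X⟧) (p K : ℕ) :
    ∑ n ∈ range (K * p), f n = ∑ m ∈ range K, ∑ n ∈ range p, f (n + m * p) := by
  induction K with
  | zero => simp
  | succ K ih =>
    rw [Nat.succ_mul, Finset.sum_range_add, ih, Finset.sum_range_succ]
    congr 1
    exact Finset.sum_congr rfl fun n _ => by rw [add_comm]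

theorem cmp_unique_block {f : A⟦X⟧} {p : ℕ} (hp : 0 < p) (hz : X ∣ z)
    (h : ∀ K, (X : A⟦X⟧) ^ K ∣ f - ∑ n ∈ range (K * p), C (c n) * z ^ n) : f = cmp c z := by
  ext m
  have h1 := (X_pow_dvd_iff.1 (h (m + 1))) m (by omega)
  have h2 := (X_pow_dvd_iff.1 (cmp_trunc (c := c) hz ((m + 1) * p))) m (by nlinarith)
  rw [map_sub, sub_eq_zero] at h1 h2
  rw [h1, h2]

/-- decomposition into blocks. PROOF. By cmp_unique (truncations at multiples of p are enough) or by comparing both sides modulo X ^ (K * p):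
∑_{n < K p} c n z ^ n = ∑_{m < K} ∑_{n < p} c (n + m p) z ^ (n + m p), `Finset.sum_range` with `Nat.divMod`, or induction on K. -/
theorem cmp_block {p : ℕ} (hp : 0 < p) (hz : X ∣ z) (ct : ℕ → A)
    (hc : ∀ m n, n < p → c (n + m * p) = c m * (c n + p * m * ct n)) :
    cmp c z = (∑ n ∈ range p, C (c n) * z ^ n) * cmp c (z ^ p) +
      C (p : A) * (∑ n ∈ range p, C (ct n) * z ^ n) * cmp (fun m => m * c m) (z ^ p) := by
  symm
  have hzp : X ∣ z ^ p := dvd_trans hz (dvd_pow_self z hp.ne')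
  apply cmp_unique_block hp hz
  intro K
  have e1 := dvd_mul_of_dvd_right (cmp_trunc (c := c) hzp K) (∑ n ∈ range p, C (c n) * z ^ n)
  have e2 := dvd_mul_of_dvd_right (cmp_trunc (c := fun m => (m : A) * c m) hzp K)
    (C (p : A) * (∑ n ∈ range p, C (ct n) * z ^ n))
  have e3 := dvd_add e1 e2
  convert e3 using 1
  have key : ∑ n ∈ range (K * p), C (c n) * z ^ n =
      (∑ n ∈ range p, C (c n) * z ^ n) * (∑ n ∈ range K, C (c n) * (z ^ p) ^ n) +
      C (p : A) * (∑ n ∈ range p, C (ct n) * z ^ n) * (∑ n ∈ range K, C ((n : A) * c n) * (z ^ p) ^ n) := by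
    rw [cmp_sum_blocks, Finset.mul_sum, Finset.mul_sum, ← Finset.sum_add_distrib]
    refine Finset.sum_congr rfl fun m _ => ?_
    rw [mul_assoc (C (p : A)), Finset.sum_mul, Finset.sum_mul, Finset.mul_sum, ← Finset.sum_add_distrib]
    refine Finset.sum_congr rfl fun n hn => ?_
    rw [hc m n (mem_range.1 hn)]
    simp only [map_mul, map_add, map_natCast]
    rw [pow_add, mul_comm m p, pow_mul]
    ring
  rw [key]
  ring

/-- the same, in one part -/
theorem cmp_block0 {p : ℕ} (hp : 0 < p) (hz : X ∣ z) (d : ℕ → A) (hc : ∀ m n, n < p → d (n + m * p) = c m * d n) :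
    cmp d z = (∑ n ∈ range p, C (d n) * z ^ n) * cmp c (z ^ p) := by
  symm
  have hzp : X ∣ z ^ p := dvd_trans hz (dvd_pow_self z hp.ne')
  apply cmp_unique_block hp hz
  intro K
  have e1 := dvd_mul_of_dvd_right (cmp_trunc (c := c) hzp K) (∑ n ∈ range p, C (d n) * z ^ n)
  convert e1 using 1
  have key : ∑ n ∈ range (K * p), C (d n) * z ^ n =
      (∑ n ∈ range p, C (d n) * z ^ n) * (∑ n ∈ range K, C (c n) * (z ^ p) ^ n) := by
    rw [cmp_sum_blocks, Finset.mul_sum]
    refine Finset.sum_congr rfl fun m _ => ?_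
    rw [Finset.sum_mul]
    refine Finset.sum_congr rfl fun n hn => ?_
    rw [hc m n (mem_range.1 hn)]
    simp only [map_mul]
    rw [pow_add, mul_comm m p, pow_mul]
    ring
  rw [key]
  ring

theorem cmp_perturb_pow {p : ℕ} (h2 : (p : A) ^ 2 = 0) (e : A⟦X⟧) (m : ℕ) :
    (1 + C (p : A) * e) ^ m = 1 + (m : A⟦X⟧) * (C (p : A) * e) := by
  have h3 : (C (p : A) * e : A⟦X⟧) ^ 2 = 0 := by
    rw [mul_pow, ← map_pow, h2, map_zero, zero_mul]
  induction m with
  | zero => simp
  | succ m ih =>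
    rw [pow_succ, ih]
    have h4 : (C (p : A) * e : A⟦X⟧) * (C (p : A) * e) = 0 := by rw [← sq]; exact h3
    push_cast
    linear_combination (m : A⟦X⟧) * h4

/-- PROOF. (w (1 + p e)) ^ m = w ^ m (1 + m p e) since p ^ 2 = 0. -/
theorem cmp_perturb {p : ℕ} (h2 : (p : A) ^ 2 = 0) {w : A⟦X⟧} (hw : X ∣ w) (e : A⟦X⟧) :
    cmp c (w * (1 + C (p : A) * e)) = cmp c w + C (p : A) * e * cmp (fun m => m * c m) w := by
  symm
  apply cmp_unique (dvd_mul_of_dvd_left hw _)
  intro K
  have e1 := cmp_trunc (c := c) hw K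
  have e2 := dvd_mul_of_dvd_right (cmp_trunc (c := fun m => (m : A) * c m) hw K) (C (p : A) * e)
  have e3 := dvd_add e1 e2
  convert e3 using 1
  have key : ∑ n ∈ range K, C (c n) * (w * (1 + C (p : A) * e)) ^ n =
      (∑ n ∈ range K, C (c n) * w ^ n) + C (p : A) * e * ∑ n ∈ range K, C ((n : A) * c n) * w ^ n := by
    rw [Finset.mul_sum, ← Finset.sum_add_distrib]
    refine Finset.sum_congr rfl fun n _ => ?_
    rw [mul_pow, cmp_perturb_pow h2]
    simp only [map_mul, map_natCast]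
    ring
  rw [key]
  ring

theorem cmp_expand_dvd {p : ℕ} (hp : p ≠ 0) {f : A⟦X⟧} {K : ℕ} (h : (X : A⟦X⟧) ^ K ∣ f) :
    (X : A⟦X⟧) ^ K ∣ expand p hp f := by
  obtain ⟨g, rfl⟩ := h
  rw [map_mul, map_pow, expand_X, ← pow_mul]
  exact dvd_mul_of_dvd_left (pow_dvd_pow _ (Nat.le_mul_of_pos_left _ (Nat.pos_of_ne_zero hp))) _

theorem cmp_expand {p : ℕ} (hp : p ≠ 0) (hz : X ∣ z) : expand p hp (cmp c z) = cmp c (expand p hp z) := by
  have h0 : (X : A⟦X⟧) ∣ expand p hp z := by
    have := cmp_expand_dvd hp (K := 1) (f := z) (by simpa using hz)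
    simpa using this
  apply cmp_unique h0
  intro K
  have h1 := cmp_expand_dvd hp (cmp_trunc (c := c) hz K)
  rw [map_sub, map_sum] at h1
  have h2 : ∑ n ∈ range K, expand p hp (C (c n) * z ^ n) = ∑ n ∈ range K, C (c n) * (expand p hp z) ^ n :=
    Finset.sum_congr rfl fun n _ => by rw [map_mul, map_pow, expand_C]
  rw [h2] at h1
  exact h1

end Pool.Agent.ADC
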