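import Pool.Agent.ADC.Rec

/-! Project ADC (MP_adc642_nt), module Cop (size 4): two coprime polynomials modulo p. -/

set_option autoImplicit false

namespace Pool.Agent.ADC

open Finset Polynomial

variable {p : ℕ}

/-- the Hasse polynomial on the curve of level 6 -/
noncomputable def PP (p : ℕ) : (ZMod p)[X] :=
  ∑ n ∈ range (p / 4 + 1), C (aa n : ZMod p) * bB (X : (ZMod p)[X]) ^ n * eE (X : (ZMod p)[X]) ^ (2 * (p / 4 - n))

/-- its derivative -/
noncomputable def PQ (p : ℕ) : (ZMod p)[X] :=
  ∑ n ∈ range (p / 4 + 1), C (n * (aa n : ZMod p)) * bB (X : (ZMod p)[X]) ^ n * eE (X : (ZMod p)[X]) ^ (2 * (p / 4 - n))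

private theorem cop_mul_zero (hp : p.Prime) (h2 : p ≠ 2) : p ∣ (4 * (p / 4) + 1) * (4 * (p / 4) + 3) := by
  have hodd : p % 2 = 1 := by
    rcases hp.eq_two_or_odd with h | h
    · exact absurd h h2
    · exact h
  have h4 : p % 4 = 1 ∨ p % 4 = 3 := by omega
  rcases h4 with h | h
  · have : 4 * (p / 4) + 1 = p := by omega
    rw [this]; exact dvd_mul_right _ _
  · have : 4 * (p / 4) + 3 = p := by omega
    rw [this]; exact dvd_mul_left _ _

private theorem cop_rec {K : Type} [Field K] (n : ℕ) :
    ((n : K) + 1) ^ 2 * (aa (n + 1) : K) = 4 * (4 * (n : K) + 1) * (4 * (n : K) + 3) * (aa n : K) := by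
  have := aa_rec n
  have h := congrArg (Nat.cast : ℕ → K) this
  push_cast at h
  exact h

private theorem cop_cast_ne {K : Type} [Field K] [CharP K p] {n : ℕ} (h0 : 0 < n) (h : n < p) : (n : K) ≠ 0 := by
  intro h1
  rw [CharP.cast_eq_zero_iff K p] at h1
  exact absurd (Nat.le_of_dvd h0 h1) (by omega)

private theorem cop_top (hp : p.Prime) (h2 : p ≠ 2) {K : Type} [Field K] [CharP K p] :
    (4 * ((p / 4 : ℕ) : K) + 1) * (4 * ((p / 4 : ℕ) : K) + 3) = 0 := by
  have h := cop_mul_zero hp h2
  rw [← CharP.cast_eq_zero_iff K p] at h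
  push_cast at h
  exact h

/-- PROOF. aa_rec: (n+1)^2 aa (n+1) = 4 (4n+1) (4n+3) aa n; for n = p/4 one of 4n+1, 4n+3 is p; later terms stay 0 modulo p up to n < p (n+1 is a unit). -/
theorem aa_mod (hp : p.Prime) (h2 : p ≠ 2) {n : ℕ} (h : p / 4 < n) (h1 : n < p) : (aa n : ZMod p) = 0 := by
  haveI : Fact p.Prime := ⟨hp⟩
  have key : ∀ m : ℕ, p / 4 + 1 + m < p → (aa (p / 4 + 1 + m) : ZMod p) = 0 := by
    intro m
    induction m with
    | zero =>
      intro hm
      have hr := cop_rec (K := ZMod p) (p / 4)
      have ht := cop_top (p := p) hp h2 (K := ZMod p)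
      have h3 : ((p / 4 : ℕ) : ZMod p) + 1 ≠ 0 := by
        have := cop_cast_ne (p := p) (K := ZMod p) (n := p / 4 + 1) (by omega) (by omega)
        push_cast at this
        exact this
      have h4 : (((p / 4 : ℕ) : ZMod p) + 1) ^ 2 * (aa (p / 4 + 1) : ZMod p) = 0 := by
        rw [hr]
        linear_combination 4 * (aa (p / 4) : ZMod p) * ht
      rcases mul_eq_zero.mp h4 with h5 | h5
      · exact absurd (pow_eq_zero_iff (two_ne_zero)|>.mp h5) h3
      · exact h5
    | succ m ih =>
      intro hm
      have ih' := ih (by omega)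
      have hr := cop_rec (K := ZMod p) (p / 4 + 1 + m)
      have h3 : ((p / 4 + 1 + m : ℕ) : ZMod p) + 1 ≠ 0 := by
        have := cop_cast_ne (p := p) (K := ZMod p) (n := p / 4 + 1 + m + 1) (by omega) (by omega)
        push_cast at this ⊢
        exact this
      rw [ih', mul_zero] at hr
      rcases mul_eq_zero.mp hr with h5 | h5
      · exact absurd (pow_eq_zero_iff (two_ne_zero)|>.mp h5) h3
      · exact h5
  have := key (n - (p / 4 + 1)) (by omega)
  rwa [show p / 4 + 1 + (n - (p / 4 + 1)) = n by omega] at this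

private theorem cop_aa_ne (hp : p.Prime) (h5 : 5 ≤ p) {K : Type} [Field K] [CharP K p] {n : ℕ} (h : n ≤ p / 4) :
    (aa n : K) ≠ 0 := by
  induction n with
  | zero => rw [aa_zero]; simp
  | succ n ih =>
    have ih' := ih (by omega)
    have hr := cop_rec (K := K) n
    intro h0
    rw [h0, mul_zero] at hr
    have ha : (4 : K) ≠ 0 := by
      have := cop_cast_ne (p := p) (K := K) (n := 4) (by omega) (by omega)
      push_cast at this; exact this
    have hlt : 4 * n + 3 < p := by omega
    have hb : 4 * (n : K) + 1 ≠ 0 := by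
      have := cop_cast_ne (p := p) (K := K) (n := 4 * n + 1) (by omega) (by omega)
      push_cast at this; exact this
    have hc : 4 * (n : K) + 3 ≠ 0 := by
      have := cop_cast_ne (p := p) (K := K) (n := 4 * n + 3) (by omega) (by omega)
      push_cast at this; exact this
    exact (mul_ne_zero (mul_ne_zero (mul_ne_zero ha hb) hc) ih') hr.symm

theorem aa_ne (hp : p.Prime) (h5 : 5 ≤ p) {n : ℕ} (h : n ≤ p / 4) : (aa n : ZMod p) ≠ 0 := by
  haveI : Fact p.Prime := ⟨hp⟩
  exact cop_aa_ne (p := p) hp h5 h

private noncomputable def cop_f (p : ℕ) (K : Type) [Field K] : K[X] :=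
  ∑ n ∈ range (p / 4 + 1), C (aa n : K) * X ^ n

private theorem cop_f_coeff {K : Type} [Field K] (n : ℕ) :
    (cop_f p K).coeff n = if n ≤ p / 4 then (aa n : K) else 0 := by
  unfold cop_f
  rw [finset_sum_coeff]
  simp only [coeff_C_mul, coeff_X_pow, mul_ite, mul_one, mul_zero]
  rw [Finset.sum_ite_eq]
  simp only [mem_range]
  by_cases h : n ≤ p / 4
  · rw [if_pos h, if_pos (by omega)]
  · rw [if_neg h, if_neg (by omega)]

private theorem cop_f_deg {K : Type} [Field K] : (cop_f p K).natDegree ≤ p / 4 := by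
  rw [natDegree_le_iff_coeff_eq_zero]
  intro n hn
  rw [cop_f_coeff, if_neg (by omega)]

private theorem cop_ode (hp : p.Prime) (h2 : p ≠ 2) {K : Type} [Field K] [CharP K p] :
    X * (1 - C 64 * X) * derivative (derivative (cop_f p K)) + (1 - C 128 * X) * derivative (cop_f p K)
      - C 12 * cop_f p K = 0 := by
  ext n
  have e1 : X * (1 - C 64 * X) * derivative (derivative (cop_f p K)) + (1 - C 128 * X) * derivative (cop_f p K)
      - C 12 * cop_f p K = X * derivative (derivative (cop_f p K)) - C 64 * (X * (X * derivative (derivative (cop_f p K))))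
        + derivative (cop_f p K) - C 128 * (X * derivative (cop_f p K)) - C 12 * cop_f p K := by ring
  rw [e1]
  simp only [coeff_sub, coeff_add, coeff_C_mul, coeff_zero]
  have key : ((n : K) + 1) ^ 2 * (cop_f p K).coeff (n + 1) =
      4 * (4 * (n : K) + 1) * (4 * (n : K) + 3) * (cop_f p K).coeff n := by
    rw [cop_f_coeff, cop_f_coeff]
    by_cases h : n + 1 ≤ p / 4
    · rw [if_pos h, if_pos (by omega)]
      exact cop_rec n
    · rw [if_neg h, mul_zero]
      by_cases h' : n ≤ p / 4
      · have hn : n = p / 4 := by omega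
        subst hn
        rw [if_pos le_rfl]
        have ht := cop_top (p := p) hp h2 (K := K)
        linear_combination -4 * (aa (p / 4) : K) * ht
      · rw [if_neg h', mul_zero]
  rcases n with _ | _ | n
  · simp [coeff_derivative] at key ⊢
    linear_combination key
  · simp [coeff_derivative, coeff_X_mul] at key ⊢
    linear_combination key
  · simp only [coeff_X_mul, coeff_derivative]
    push_cast at key ⊢
    linear_combination key

private theorem cop_taylor (hp : p.Prime) (h2 : p ≠ 2) {K : Type} [Field K] [CharP K p] (a : K) (j : ℕ) :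
    a * (1 - 64 * a) * (((j : K) + 2) * ((j : K) + 1)) * (taylor a (cop_f p K)).coeff (j + 2)
      + (1 - 128 * a) * ((j : K) + 1) ^ 2 * (taylor a (cop_f p K)).coeff (j + 1)
      - (64 * (j : K) ^ 2 + 64 * (j : K) + 12) * (taylor a (cop_f p K)).coeff j = 0 := by
  set g := taylor a (cop_f p K) with hg
  have hd : ∀ f : K[X], taylor a (derivative f) = derivative (taylor a f) := by
    intro f
    rw [taylor_apply, taylor_apply, derivative_comp]
    simp
  have h := congrArg (taylor a) (cop_ode (p := p) hp h2 (K := K))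
  simp only [map_add, map_sub, taylor_mul, taylor_X, taylor_C, taylor_one, map_zero, hd, map_one] at h
  rw [← hg] at h
  have e1 : (X + C a) * (1 - C 64 * (X + C a)) * derivative (derivative g) + (1 - C 128 * (X + C a)) * derivative g
      - C 12 * g = C (a * (1 - 64 * a)) * derivative (derivative g) + C (1 - 128 * a) * (X * derivative (derivative g))
        - C 64 * (X * (X * derivative (derivative g))) + C (1 - 128 * a) * derivative g
        - C 128 * (X * derivative g) - C 12 * g := by
    have e2 : C (a * (1 - 64 * a)) = C a * (1 - C 64 * C a) := by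
      simp
    have e3 : C (1 - 128 * a) = 1 - C 128 * C a := by simp
    have e4 : (C 128 : K[X]) = 2 * C 64 := by
      rw [show (128 : K) = 2 * 64 by norm_num, C_mul]
      rfl
    rw [e2, e3, e4]
    ring
  rw [e1] at h
  have h' := congrArg (fun q => q.coeff j) h
  simp only [coeff_sub, coeff_add, coeff_C_mul, coeff_zero] at h'
  rcases j with _ | _ | j
  · simp [coeff_derivative] at h' ⊢
    linear_combination h'
  · simp [coeff_derivative, coeff_X_mul] at h' ⊢
    linear_combination h'
  · simp only [coeff_X_mul, coeff_derivative] at h'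
    push_cast at h' ⊢
    linear_combination h'

private theorem cop_main (hp : p.Prime) (h5 : 5 ≤ p) {K : Type} [Field K] [CharP K p] (a : K) (h0 : a ≠ 0)
    (h1 : (cop_f p K).eval a = 0) (h2 : 1 - 64 * a = 0 ∨ (derivative (cop_f p K)).eval a = 0) : False := by
  have hp2 : p ≠ 2 := by omega
  have hz : ∀ j : ℕ, j < p → (taylor a (cop_f p K)).coeff j = 0 := by
    by_cases hA : 1 - 64 * a = 0
    · intro j
      induction j with
      | zero => intro _; rw [taylor_coeff_zero]; exact h1
      | succ j ih =>
        intro hj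
        have ih' := ih (by omega)
        have ht := cop_taylor (p := p) hp hp2 a j
        rw [ih', hA] at ht
        have hB : 1 - 128 * a = -1 := by linear_combination 2 * hA
        rw [hB] at ht
        have hn : ((j : K) + 1) ≠ 0 := by
          have := cop_cast_ne (p := p) (K := K) (n := j + 1) (by omega) hj
          push_cast at this; exact this
        have : ((j : K) + 1) ^ 2 * (taylor a (cop_f p K)).coeff (j + 1) = 0 := by
          linear_combination -ht
        rcases mul_eq_zero.mp this with h | h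
        · exact absurd (pow_eq_zero_iff (two_ne_zero)|>.mp h) hn
        · exact h
    · have hd : (derivative (cop_f p K)).eval a = 0 := by
        rcases h2 with h | h
        · exact absurd h hA
        · exact h
      have key : ∀ j : ℕ, j + 1 < p → (taylor a (cop_f p K)).coeff j = 0 ∧ (taylor a (cop_f p K)).coeff (j + 1) = 0 := by
        intro j
        induction j with
        | zero =>
          intro _
          refine ⟨?_, ?_⟩
          · rw [taylor_coeff_zero]; exact h1
          · rw [taylor_coeff_one]; exact hd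
        | succ j ih =>
          intro hj
          obtain ⟨i1, i2⟩ := ih (by omega)
          refine ⟨i2, ?_⟩
          have ht := cop_taylor (p := p) hp hp2 a j
          rw [i1, i2] at ht
          have hn1 : ((j : K) + 1) ≠ 0 := by
            have := cop_cast_ne (p := p) (K := K) (n := j + 1) (by omega) (by omega)
            push_cast at this; exact this
          have hn2 : ((j : K) + 2) ≠ 0 := by
            have := cop_cast_ne (p := p) (K := K) (n := j + 2) (by omega) (by omega)
            push_cast at this; exact this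
          have h7 : (a * (1 - 64 * a) * (((j : K) + 2) * ((j : K) + 1))) * (taylor a (cop_f p K)).coeff (j + 2) = 0 := by
            linear_combination ht
          rcases mul_eq_zero.mp h7 with h | h
          · exact absurd h (mul_ne_zero (mul_ne_zero h0 hA) (mul_ne_zero hn2 hn1))
          · exact h
      intro j hj
      rcases j with _ | j
      · exact (key 0 (by omega)).1
      · exact (key j hj).2
  have hg : taylor a (cop_f p K) = 0 := by
    ext j
    rw [coeff_zero]
    by_cases hj : j < p
    · exact hz j hj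
    · apply coeff_eq_zero_of_natDegree_lt
      rw [natDegree_taylor]
      have := cop_f_deg (p := p) (K := K)
      omega
  have hf : cop_f p K = 0 := by
    apply taylor_injective a
    rw [hg, map_zero]
  have hc := cop_f_coeff (p := p) (K := K) 0
  rw [hf, coeff_zero, if_pos (Nat.zero_le _), aa_zero] at hc
  simp at hc

private theorem cop_f_eval {K : Type} [Field K] (a : K) :
    (cop_f p K).eval a = ∑ n ∈ range (p / 4 + 1), (aa n : K) * a ^ n := by
  unfold cop_f
  rw [eval_finset_sum]
  simp

private theorem cop_f_deriv_eval {K : Type} [Field K] (a : K) :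
    a * (derivative (cop_f p K)).eval a = ∑ n ∈ range (p / 4 + 1), (n * (aa n : K)) * a ^ n := by
  unfold cop_f
  rw [derivative_sum, eval_finset_sum, Finset.mul_sum]
  apply Finset.sum_congr rfl
  intro n _
  rcases n with _ | n
  · simp
  · simp [derivative_X_pow]
    ring

/-- Let f := ∑_{n ≤ p/4} aa n Y^n in a field K of characteristic p. If f and f' vanish at a ≠ 0, contradiction; f (1/64) ≠ 0. PROOF. ODE: Y (1 - 64 Y) f'' + (1 - 128 Y) f' - 12 f = 0 (aa_rec,
(4n+1)(4n+3) = 0 for n = p/4). Differentiate j times and evaluate at a: a (1 - 64 a) f^(j+2) + (j+1) (1 - 128 a) f^(j+1) - (64 j (j-1) + 128 j + 12) f^(j) = 0. If a ≠ 1/64 all derivatives at a are 0; if a = 1/64: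
-(j+1) f^(j+1)(a) = (64 j (j-1) + 128 j + 12) f^(j)(a), so f (a) = 0 implies that all derivatives of order < p are 0. The degree of f is < p, so f = 0, but f 0 = 1.
Taylor coefficients (Polynomial.taylor or hasseDeriv) may be more convenient than iterated derivatives. -/
theorem aa_sep (hp : p.Prime) (h5 : 5 ≤ p) {K : Type} [Field K] [CharP K p] (a : K) (h0 : a ≠ 0)
    (h1 : ∑ n ∈ range (p / 4 + 1), (aa n : K) * a ^ n = 0) (h2 : ∑ n ∈ range (p / 4 + 1), (n * (aa n : K)) * a ^ n = 0) : False := by
  apply cop_main (p := p) hp h5 a h0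
  · rw [cop_f_eval]; exact h1
  · right
    rw [← cop_f_deriv_eval] at h2
    rcases mul_eq_zero.mp h2 with h | h
    · exact absurd h h0
    · exact h

theorem aa_64 (hp : p.Prime) (h5 : 5 ≤ p) {K : Type} [Field K] [CharP K p] :
    ∑ n ∈ range (p / 4 + 1), (aa n : K) * (64 : K)⁻¹ ^ n ≠ 0 := by
  intro h
  have h2 : (2 : K) ≠ 0 := by
    have := cop_cast_ne (p := p) (K := K) (n := 2) (by omega) (by omega)
    push_cast at this; exact this
  have h64 : (64 : K) ≠ 0 := by
    rw [show (64 : K) = 2 ^ 6 by norm_num]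
    exact pow_ne_zero _ h2
  apply cop_main (p := p) hp h5 ((64 : K)⁻¹) (inv_ne_zero h64)
  · rw [cop_f_eval]; exact h
  · left
    rw [mul_inv_cancel₀ h64, sub_self]

private theorem cop_aeval_PP {K : Type} [Field K] [Algebra (ZMod p) K] (x : K) :
    aeval x (PP p) = ∑ n ∈ range (p / 4 + 1), (aa n : K) * bB x ^ n * eE x ^ (2 * (p / 4 - n)) := by
  unfold PP
  rw [map_sum]
  apply Finset.sum_congr rfl
  intro n _
  have h20 : aeval x (20 : (ZMod p)[X]) = 20 := map_ofNat _ 20
  have h8 : aeval x (8 : (ZMod p)[X]) = 8 := map_ofNat _ 8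
  simp [bB, eE, h20, h8]

private theorem cop_aeval_PQ {K : Type} [Field K] [Algebra (ZMod p) K] (x : K) :
    aeval x (PQ p) = ∑ n ∈ range (p / 4 + 1), (n * (aa n : K)) * bB x ^ n * eE x ^ (2 * (p / 4 - n)) := by
  unfold PQ
  rw [map_sum]
  apply Finset.sum_congr rfl
  intro n _
  have h20 : aeval x (20 : (ZMod p)[X]) = 20 := map_ofNat _ 20
  have h8 : aeval x (8 : (ZMod p)[X]) = 8 := map_ofNat _ 8
  simp [bB, eE, h20, h8]

/-- PROOF. Common root x in the algebraic closure (Polynomial.isCoprime_iff_aeval_ne_zero_of_isAlgClosed or similar). If eE x = 0: PP x = aa (p/4) * bB x ^ (p/4), x ≠ 0 (eE 0 = 1), x ≠ -1 (eE (-1) = -27). Otherwise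
y := bB x / eE x ^ 2 satisfies both equations of aa_sep (y ≠ 0: for y = 0 the first sum is 1). -/
theorem cop (hp : p.Prime) (h5 : 5 ≤ p) : IsCoprime (PP p) (PQ p) := by
  haveI : Fact p.Prime := ⟨hp⟩
  rw [isCoprime_iff_aeval_ne_zero_of_isAlgClosed (ZMod p) (AlgebraicClosure (ZMod p))]
  intro x
  by_contra hcon
  push_neg at hcon
  obtain ⟨h1, h2⟩ := hcon
  rw [cop_aeval_PP] at h1
  rw [cop_aeval_PQ] at h2
  haveI : CharP (AlgebraicClosure (ZMod p)) p := charP_of_injective_algebraMap (algebraMap (ZMod p) (AlgebraicClosure (ZMod p))).injective p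
  by_cases he : eE x = 0
  · have hN : 1 ≤ p / 4 := by omega
    rw [Finset.sum_range_succ] at h1
    have hz : ∑ n ∈ range (p / 4), (aa n : AlgebraicClosure (ZMod p)) * bB x ^ n * eE x ^ (2 * (p / 4 - n)) = 0 := by
      apply Finset.sum_eq_zero
      intro n hn
      rw [mem_range] at hn
      rw [he, zero_pow (by omega), mul_zero]
    rw [hz, zero_add, Nat.sub_self, mul_zero, pow_zero, mul_one] at h1
    rcases mul_eq_zero.mp h1 with h | h
    · exact cop_aa_ne (p := p) hp h5 le_rfl h
    · have hb : bB x = 0 := (pow_eq_zero_iff (by omega)).mp h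
      unfold bB at hb
      rcases mul_eq_zero.mp hb with h' | h'
      · rw [h'] at he
        unfold eE at he
        simp at he
      · have h'' : 1 + x = 0 := (pow_eq_zero_iff (by norm_num)).mp h'
        have hx : x = -1 := by linear_combination h''
        rw [hx] at he
        unfold eE at he
        have h27 : (3 : AlgebraicClosure (ZMod p)) ^ 3 = 0 := by linear_combination -he
        have h3 : (3 : AlgebraicClosure (ZMod p)) ≠ 0 := by
          have := cop_cast_ne (p := p) (K := AlgebraicClosure (ZMod p)) (n := 3) (by omega) (by omega)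
          push_cast at this; exact this
        exact pow_ne_zero 3 h3 h27
  · set y := bB x / eE x ^ 2 with hy
    have hb : bB x = y * eE x ^ 2 := by
      rw [hy]; field_simp
    have e1 : ∀ (c : ℕ → AlgebraicClosure (ZMod p)), ∑ n ∈ range (p / 4 + 1), c n * bB x ^ n * eE x ^ (2 * (p / 4 - n)) =
        (∑ n ∈ range (p / 4 + 1), c n * y ^ n) * eE x ^ (2 * (p / 4)) := by
      intro c
      rw [Finset.sum_mul]
      apply Finset.sum_congr rfl
      intro n hn
      rw [mem_range] at hn
      rw [hb, mul_pow, ← pow_mul]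
      have : 2 * (p / 4) = 2 * n + 2 * (p / 4 - n) := by omega
      rw [this, pow_add]
      ring
    rw [e1] at h1
    rw [e1 (fun n => (n : AlgebraicClosure (ZMod p)) * (aa n : AlgebraicClosure (ZMod p)))] at h2
    have hne : eE x ^ (2 * (p / 4)) ≠ 0 := pow_ne_zero _ he
    have h1' := (mul_eq_zero.mp h1).resolve_right hne
    have h2' := (mul_eq_zero.mp h2).resolve_right hne
    have hy0 : y ≠ 0 := by
      intro h
      rw [h, Finset.sum_range_succ'] at h1'
      simp [aa_zero] at h1'
    exact aa_sep (p := p) hp h5 y hy0 h1' h2'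

/-- PROOF. every summand has degree at most 4 (p/4); the coefficient of X ^ (4 (p/4)) is ∑ aa n (-8)^(2 (p/4 - n)) = 64^(p/4) ∑ aa n 64^(-n), aa_64. -/
theorem PP_deg (hp : p.Prime) (h5 : 5 ≤ p) : (PP p).natDegree = 4 * (p / 4) := by
  haveI : Fact p.Prime := ⟨hp⟩
  have hbB : (bB (X : (ZMod p)[X])).natDegree ≤ 4 := by
    unfold bB
    compute_degree
  have heE : (eE (X : (ZMod p)[X])).natDegree ≤ 2 := by
    unfold eE
    have : (1 + 20 * X - 8 * X ^ 2 : (ZMod p)[X]) = 1 + C 20 * X - C 8 * X ^ 2 := rfl
    rw [this]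
    compute_degree
  have cbB : (bB (X : (ZMod p)[X])).coeff 4 = 1 := by
    unfold bB
    rw [show (4 : ℕ) = 3 + 1 from rfl, coeff_X_mul, add_comm, coeff_X_add_one_pow]
    simp
  have ceE : (eE (X : (ZMod p)[X])).coeff 2 = -8 := by
    unfold eE
    have : (1 + 20 * X - 8 * X ^ 2 : (ZMod p)[X]) = 1 + C 20 * X - C 8 * X ^ 2 := rfl
    rw [this]
    simp [coeff_one]
  have hterm : ∀ n ∈ range (p / 4 + 1), (C (aa n : ZMod p) * bB (X : (ZMod p)[X]) ^ n * eE (X : (ZMod p)[X]) ^ (2 * (p / 4 - n))).natDegree ≤ 4 * (p / 4) := by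
    intro n hn
    rw [mem_range] at hn
    calc _ ≤ (C (aa n : ZMod p) * bB (X : (ZMod p)[X]) ^ n).natDegree + (eE (X : (ZMod p)[X]) ^ (2 * (p / 4 - n))).natDegree := natDegree_mul_le
      _ ≤ (bB (X : (ZMod p)[X]) ^ n).natDegree + (eE (X : (ZMod p)[X]) ^ (2 * (p / 4 - n))).natDegree := by
          gcongr
          exact natDegree_C_mul_le _ _
      _ ≤ n * 4 + (2 * (p / 4 - n)) * 2 := by
          gcongr
          · exact natDegree_pow_le_of_le n hbB
          · exact natDegree_pow_le_of_le _ heE
      _ ≤ 4 * (p / 4) := by omega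
  have hle : (PP p).natDegree ≤ 4 * (p / 4) := by
    unfold PP
    exact natDegree_sum_le_of_forall_le _ _ hterm
  have hcoeff : (PP p).coeff (4 * (p / 4)) ≠ 0 := by
    unfold PP
    rw [finset_sum_coeff]
    have h2 : (2 : ZMod p) ≠ 0 := by
      have := cop_cast_ne (p := p) (K := ZMod p) (n := 2) (by omega) (by omega)
      push_cast at this; exact this
    have h64 : (64 : ZMod p) ≠ 0 := by
      rw [show (64 : ZMod p) = 2 ^ 6 by norm_num]
      exact pow_ne_zero _ h2
    have e : ∀ n ∈ range (p / 4 + 1), (C (aa n : ZMod p) * bB (X : (ZMod p)[X]) ^ n * eE (X : (ZMod p)[X]) ^ (2 * (p / 4 - n))).coeff (4 * (p / 4)) =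
        (64 : ZMod p) ^ (p / 4) * ((aa n : ZMod p) * (64 : ZMod p)⁻¹ ^ n) := by
      intro n hn
      rw [mem_range] at hn
      rw [mul_assoc, coeff_C_mul]
      have hd : 4 * (p / 4) = n * 4 + (2 * (p / 4 - n)) * 2 := by omega
      have hc : (bB (X : (ZMod p)[X]) ^ n * eE (X : (ZMod p)[X]) ^ (2 * (p / 4 - n))).coeff (4 * (p / 4)) = 64 ^ (p / 4 - n) := by
        rw [hd, coeff_mul_add_eq_of_natDegree_le (natDegree_pow_le_of_le n hbB) (natDegree_pow_le_of_le _ heE),
          coeff_pow_of_natDegree_le hbB, coeff_pow_of_natDegree_le heE, cbB, ceE, one_pow, one_mul, pow_mul]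
        norm_num
      rw [hc]
      have : (64 : ZMod p) ^ (p / 4) = 64 ^ (p / 4 - n) * 64 ^ n := by
        rw [← pow_add]; congr 1; omega
      rw [this]
      have h1 : (64 : ZMod p) ^ n * (64 : ZMod p)⁻¹ ^ n = 1 := by
        rw [← mul_pow, mul_inv_cancel₀ h64, one_pow]
      linear_combination -((64 : ZMod p) ^ (p / 4 - n) * (aa n : ZMod p)) * h1
    rw [Finset.sum_congr rfl e, ← Finset.mul_sum]
    exact mul_ne_zero (pow_ne_zero _ h64) (aa_64 (p := p) hp h5)
  exact natDegree_eq_of_le_of_coeff_ne_zero hle hcoeff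

end Pool.Agent.ADC
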