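import Pool.Agent.ADC.Leg

/-! Project ADC (MP_adc642_nt), module Hsv (size 4): the value of the sum of level 2 modulo p ^ 2. -/

set_option autoImplicit false

namespace Pool.Agent.ADC

open Finset

variable {p : ℕ}

private def Hsv_T (p : ℕ) (s : RR p) : RR p :=
  ∑ n ∈ range p, (∏ i ∈ range n, ((i : RR p) * (i + 1) - s)) * ((n.factorial : RR p)⁻¹) ^ 2 *
    (2 : RR p)⁻¹ ^ n

private theorem Hsv_linP (s : RR p) (n : ℕ) : ∃ D : RR p, ∀ e : RR p,
    (∏ i ∈ range n, ((i : RR p) * (i + 1) - (s - p * e))) =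
      (∏ i ∈ range n, ((i : RR p) * (i + 1) - s)) + p * e * D := by
  induction n with
  | zero => exact ⟨0, fun e => by simp⟩
  | succ n ih =>
    obtain ⟨D, hD⟩ := ih
    refine ⟨D * ((n : RR p) * (n + 1) - s) + ∏ i ∈ range n, ((i : RR p) * (i + 1) - s), fun e => ?_⟩
    rw [prod_range_succ, prod_range_succ, hD]
    have h := rr_sq (p := p)
    linear_combination (e ^ 2 * D) * h

private theorem Hsv_lin (s : RR p) : ∃ D : RR p, ∀ e : RR p,
    Hsv_T p (s - p * e) = Hsv_T p s + p * e * D := by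
  choose D hD using fun n => Hsv_linP (p := p) s n
  refine ⟨∑ n ∈ range p, D n * ((n.factorial : RR p)⁻¹) ^ 2 * (2 : RR p)⁻¹ ^ n, fun e => ?_⟩
  unfold Hsv_T
  rw [mul_sum, ← sum_add_distrib]
  refine sum_congr rfl fun n _ => ?_
  rw [hD]
  ring

private theorem Hsv_fac (hp : p.Prime) {n : ℕ} (h : n < p) :
    (n.factorial : RR p) * (n.factorial : RR p)⁻¹ = 1 := by
  refine rr_inv hp fun h1 => ?_
  have := (Nat.Prime.dvd_factorial hp).1 h1
  omega

private theorem Hsv_two (hp : p.Prime) (h5 : 5 ≤ p) : (2 : RR p) * (2 : RR p)⁻¹ = 1 := by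
  have := rr_inv hp (x := 2) (fun h1 => by have := Nat.le_of_dvd (by norm_num) h1; omega)
  exact_mod_cast this

private theorem Hsv_128 (hp : p.Prime) (h5 : 5 ≤ p) : (128 : RR p) * (128 : RR p)⁻¹ = 1 := by
  have := rr_inv hp (x := 128) (fun h1 => by
    have h2 : p ∣ 2 ^ 7 := by norm_num; exact h1
    have := Nat.le_of_dvd (by norm_num) (hp.dvd_of_dvd_pow h2)
    omega)
  exact_mod_cast this

private theorem Hsv_8 (hp : p.Prime) (h5 : 5 ≤ p) : (8 : RR p) * (8 : RR p)⁻¹ = 1 := by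
  have := rr_inv hp (x := 8) (fun h1 => by
    have h2 : p ∣ 2 ^ 3 := by norm_num; exact h1
    have := Nat.le_of_dvd (by norm_num) (hp.dvd_of_dvd_pow h2)
    omega)
  exact_mod_cast this

private theorem Hsv_aa (c : RR p) (hc : 16 * c = -3) (n : ℕ) :
    (n.factorial : RR p) ^ 2 * (aa n : RR p) =
      64 ^ n * ∏ i ∈ range n, ((i : RR p) * (i + 1) - c) := by
  induction n with
  | zero => simp [aa_zero]
  | succ n ih =>
    have h1 : ((n : RR p) + 1) ^ 2 * (aa (n + 1) : RR p) = 4 * (4 * n + 1) * (4 * n + 3) * aa n := by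
      have := congrArg (fun x : ℕ => (x : RR p)) (aa_rec n)
      push_cast at this
      exact this
    rw [prod_range_succ, Nat.factorial_succ]
    push_cast
    linear_combination ((n.factorial : RR p) ^ 2) * h1 + (4 * (4 * n + 1) * (4 * n + 3)) * ih +
      (4 * 64 ^ n * ∏ i ∈ range n, ((i : RR p) * (i + 1) - c)) * hc

private theorem Hsv_Hs (hp : p.Prime) (h5 : 5 ≤ p) (c : RR p) (hc : 16 * c = -3) :
    Hsv_T p c = Hs p := by
  unfold Hsv_T Hs
  refine sum_congr rfl fun n hn => ?_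
  have h1 := Hsv_aa c hc n
  have h2 := Hsv_fac hp (mem_range.1 hn)
  have h3 : (128 : RR p)⁻¹ * 64 = (2 : RR p)⁻¹ := by
    linear_combination (2 : RR p)⁻¹ * Hsv_128 hp h5 - (128 : RR p)⁻¹ * 64 * Hsv_two hp h5
  have h4 : (aa n : RR p) = ((n.factorial : RR p)⁻¹) ^ 2 *
      (64 ^ n * ∏ i ∈ range n, ((i : RR p) * (i + 1) - c)) := by
    rw [← h1]
    linear_combination (-(aa n : RR p) * ((n.factorial : RR p) * (n.factorial : RR p)⁻¹ + 1)) * h2
  rw [h4, ← h3, mul_pow]
  ring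

private theorem Hsv_prod (N n : ℕ) :
    (∏ i ∈ range n, ((i : RR p) * (i + 1) - (N : RR p) * (N + 1))) =
      (-1) ^ n * (n.factorial : RR p) ^ 2 * (N.choose n : RR p) * ((N + n).choose n : RR p) := by
  induction n with
  | zero => simp
  | succ n ih =>
    rw [prod_range_succ, ih, Nat.factorial_succ]
    have h1 : (N.choose (n + 1) : RR p) * ((n : RR p) + 1) = (N.choose n : RR p) * ((N : RR p) - n) := by
      have := congrArg (fun x : ℕ => (x : RR p)) (Nat.choose_succ_right_eq N n)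
      rcases le_or_gt n N with h | h
      · push_cast [Nat.cast_sub h] at this
        exact this
      · rw [Nat.choose_eq_zero_of_lt h, Nat.choose_eq_zero_of_lt (by omega)]
        simp
    have h2 : ((N + (n + 1)).choose (n + 1) : RR p) * ((n : RR p) + 1) =
        ((N : RR p) + n + 1) * ((N + n).choose n : RR p) := by
      have := congrArg (fun x : ℕ => (x : RR p)) (Nat.add_one_mul_choose_eq (N + n) n)
      push_cast at this
      rw [show N + (n + 1) = N + n + 1 by ring]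
      exact this.symm
    push_cast
    linear_combination (-1 : RR p) ^ n * (n.factorial : RR p) ^ 2 * ((n : RR p) + 1) *
      ((N + (n + 1)).choose (n + 1) : RR p) * h1 + (-1 : RR p) ^ n * (n.factorial : RR p) ^ 2 *
      (N.choose n : RR p) * ((N : RR p) - n) * h2

private theorem Hsv_lg (hp : p.Prime) (h5 : 5 ≤ p) {N : ℕ} (hN : N < p) :
    Hsv_T p ((N : RR p) * (N + 1)) = (lg N : RR p) * (2 : RR p)⁻¹ ^ N := by
  unfold Hsv_T lg
  push_cast
  rw [sum_mul]
  have h0 : ∀ n ∈ range p, (∏ i ∈ range n, ((i : RR p) * (i + 1) - (N : RR p) * (N + 1))) *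
      ((n.factorial : RR p)⁻¹) ^ 2 * (2 : RR p)⁻¹ ^ n =
      (-1) ^ n * (N.choose n : RR p) * ((N + n).choose n : RR p) * (2 : RR p)⁻¹ ^ n := by
    intro n hn
    rw [Hsv_prod]
    have h2 := Hsv_fac hp (mem_range.1 hn)
    linear_combination ((-1) ^ n * (N.choose n : RR p) * ((N + n).choose n : RR p) *
      (2 : RR p)⁻¹ ^ n * ((n.factorial : RR p) * (n.factorial : RR p)⁻¹ + 1)) * h2
  rw [sum_congr rfl h0]
  have hsub : range (N + 1) ⊆ range p := by
    intro x hx
    have := mem_range.1 hx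
    exact mem_range.2 (by omega)
  rw [← sum_subset hsub]
  · refine sum_congr rfl fun n hn => ?_
    have h1 := mem_range.1 hn
    have h2 : (2 : RR p) ^ (N - n) * (2 : RR p)⁻¹ ^ N = (2 : RR p)⁻¹ ^ n := by
      have h3 : (2 : RR p)⁻¹ ^ N = (2 : RR p)⁻¹ ^ (N - n) * (2 : RR p)⁻¹ ^ n := by
        rw [← pow_add]
        congr 1
        omega
      rw [h3, ← mul_assoc, ← mul_pow, Hsv_two hp h5, one_pow, one_mul]
    rw [← h2]
    ring
  · intro x _ hx
    have : N < x := by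
      by_contra h
      exact hx (mem_range.2 (by omega))
    rw [Nat.choose_eq_zero_of_lt this]
    simp

/-- Interpolation. PROOF. In RR p (n! is a unit for n < p) let T s := ∑_{n<p} (∏_{i<n} (i (i+1) - s)) / (n!)^2 * 2^-n, a polynomial in s. aa_rec: aa n = 64^n ∏_{i<n} (i (i+1) + 3/16) / (n!)^2, so Hs = T (-3/16).
For a natural number N < p: ∏_{i<n} (i (i+1) - N (N+1)) = (-1)^n (n!)^2 C(N,n) C(N+n,n), so T (N (N+1)) = lg N * 2^-N. Let n0 := p / 4 ((p-1)/4 or (p-3)/4), s0 := n0 (n0+1), δ := 2 n0 + 1.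
(p-1-n0)(p-n0) = s0 - p δ and -3/16 = s0 - p δ / 4 modulo p^2. T (s0 - p e) = T s0 - p e T' s0 (p^2 = 0; for a polynomial: exists T1 with T (s0 + u) = T s0 + u T1 + u^2 (..), Polynomial.evalSubFactor or
binomial expansion), so 4 T (s0 - p δ/4) = 3 T s0 + T (s0 - p δ). -/
theorem hs_int (hp : p.Prime) (h5 : 5 ≤ p) : 4 * Hs p = 3 * (lg (p / 4) : RR p) * (2 : RR p)⁻¹ ^ (p / 4) +
    (lg (p - 1 - p / 4) : RR p) * (2 : RR p)⁻¹ ^ (p - 1 - p / 4) := by
  obtain ⟨r, hr, hpr⟩ : ∃ r : ℕ, (r = 1 ∨ r = 3) ∧ p = 4 * (p / 4) + r := by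
    have h2 : p % 2 = 1 := by
      rcases hp.eq_two_or_odd with h | h
      · omega
      · exact h
    exact ⟨p % 4, by omega, by omega⟩
  generalize hn0 : p / 4 = n0 at *
  have hsq := rr_sq (p := p)
  have h2 := Hsv_two hp h5
  have hpc : (p : RR p) = 4 * (n0 : RR p) + (r : RR p) := by
    have := congrArg (fun x : ℕ => (x : RR p)) hpr
    push_cast at this
    exact this
  obtain ⟨D, hD⟩ := Hsv_lin (p := p) ((n0 : RR p) * (n0 + 1))
  have hA := hD (2 * (n0 : RR p) + 1)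
  have hB := hD ((2 * (n0 : RR p) + 1) * ((2 : RR p)⁻¹) ^ 2)
  have hc : 16 * ((n0 : RR p) * (n0 + 1) - p * ((2 * (n0 : RR p) + 1) * ((2 : RR p)⁻¹) ^ 2)) = -3 := by
    have h16 : (16 : RR p) * ((2 : RR p)⁻¹) ^ 2 = 4 := by
      linear_combination 4 * ((2 : RR p) * (2 : RR p)⁻¹ + 1) * h2
    have h4 : 16 * ((n0 : RR p) * (n0 + 1) - p * ((2 * (n0 : RR p) + 1) * ((2 : RR p)⁻¹) ^ 2)) =
        16 * ((n0 : RR p) * (n0 + 1)) - 4 * p * (2 * (n0 : RR p) + 1) := by
      linear_combination (-(p : RR p) * (2 * (n0 : RR p) + 1)) * h16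
    rw [h4]
    rcases hr with h | h
    · subst h
      have h5 : (4 * (n0 : RR p)) = p - 1 := by rw [hpc]; push_cast; ring
      have h6 : 16 * ((n0 : RR p) * (n0 + 1)) - 4 * (p : RR p) * (2 * (n0 : RR p) + 1) + 3 =
          - (p : RR p) ^ 2 := by
        linear_combination (4 * (n0 : RR p) + 4 + (p - 1) - 2 * p) * h5
      rw [hsq] at h6
      linear_combination h6
    · subst h
      have h5 : (4 * (n0 : RR p)) = p - 3 := by rw [hpc]; push_cast; ring
      have h6 : 16 * ((n0 : RR p) * (n0 + 1)) - 4 * (p : RR p) * (2 * (n0 : RR p) + 1) + 3 =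
          - (p : RR p) ^ 2 := by
        linear_combination (4 * (n0 : RR p) + 4 + (p - 3) - 2 * p) * h5
      rw [hsq] at h6
      linear_combination h6
  rw [Hsv_Hs hp h5 _ hc, Hsv_lg hp h5 (by omega : n0 < p)] at hB
  have hE : ((n0 : RR p) * (n0 + 1) - p * (2 * (n0 : RR p) + 1)) =
      ((p - 1 - n0 : ℕ) : RR p) * (((p - 1 - n0 : ℕ) : RR p) + 1) := by
    have h7 : ((p - 1 - n0 : ℕ) : RR p) = (p : RR p) - 1 - n0 := by
      rw [Nat.cast_sub (by omega), Nat.cast_sub (by omega)]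
      simp
    rw [h7]
    linear_combination (-1 : RR p) * hsq
  rw [hE, Hsv_lg hp h5 (by omega : n0 < p), Hsv_lg hp h5 (by omega : p - 1 - n0 < p)] at hA
  have h41 : (4 : RR p) * ((2 : RR p)⁻¹) ^ 2 = 1 := by
    linear_combination ((2 : RR p) * (2 : RR p)⁻¹ + 1) * h2
  rw [hB, hA]
  linear_combination (p * (2 * (n0 : RR p) + 1) * D) * h41

/-- PROOF. p / 4 and p - 1 - p / 4 are odd, lg_odd. -/
theorem hs_zero (hp : p.Prime) (h5 : 5 ≤ p) (h : p % 8 = 5 ∨ p % 8 = 7) : Hs p = 0 := by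
  have h1 := hs_int hp h5
  rw [lg_odd (N := p / 4) (by omega), lg_odd (N := p - 1 - p / 4) (by omega)] at h1
  have h2 := Hsv_two hp h5
  have h3 : 4 * Hs p = 0 := by rw [h1]; simp
  linear_combination ((2 : RR p)⁻¹) ^ 2 * h3 - Hs p * ((2 : RR p) * (2 : RR p)⁻¹ + 1) * h2

private theorem Hsv_cb (hp : p.Prime) (h5 : 5 ≤ p) (m : ℕ) (hm : 2 * m + 1 = p) (j : ℕ) (hj : j ≤ m) :
    (-1) ^ j * ((2 * j).choose j : RR p) * (2 : RR p)⁻¹ ^ (2 * j) =
      (m.choose j : RR p) * (1 - p * (2 : RR p)⁻¹ * (hh p m - hh p (m - j))) := by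
  have h2 := Hsv_two hp h5
  have hsq := rr_sq (p := p)
  induction j with
  | zero => simp
  | succ j ih =>
    have ih := ih (by omega)
    have hu : ((j : RR p) + 1) * (((j + 1 : ℕ) : RR p)⁻¹) = 1 := by
      have := rr_inv hp (x := j + 1) (fun h1 => by have := Nat.le_of_dvd (by omega) h1; omega)
      push_cast at this ⊢
      exact this
    obtain ⟨t, ht⟩ : ∃ t, m = j + (t + 1) := ⟨m - j - 1, by omega⟩
    have ht1 : m - (j + 1) = t := by omega
    have ht2 : m - j = t + 1 := by omega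
    have hv : ((t : RR p) + 1) * (((t + 1 : ℕ) : RR p)⁻¹) = 1 := by
      have := rr_inv hp (x := t + 1) (fun h1 => by have := Nat.le_of_dvd (by omega) h1; omega)
      push_cast at this ⊢
      exact this
    have hh1 : hh p (t + 1) = hh p t + ((t + 1 : ℕ) : RR p)⁻¹ := by
      unfold hh
      rw [sum_range_succ]
    rw [ht2, hh1] at ih
    rw [ht1]
    have hc1 : ((2 * (j + 1)).choose (j + 1) : RR p) * ((j : RR p) + 1) =
        2 * (2 * (j : RR p) + 1) * ((2 * j).choose j : RR p) := by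
      have := congrArg (fun x : ℕ => (x : RR p)) (Nat.succ_mul_centralBinom_succ j)
      simp only [Nat.centralBinom] at this
      push_cast at this
      linear_combination this
    have hc2 : (m.choose (j + 1) : RR p) * ((j : RR p) + 1) = (m.choose j : RR p) * ((t : RR p) + 1) := by
      have := congrArg (fun x : ℕ => (x : RR p)) (Nat.choose_succ_right_eq m j)
      simp only [ht2] at this
      push_cast at this
      exact this
    have hpt : (p : RR p) = 2 * ((j : RR p) + (t + 1)) + 1 := by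
      have := congrArg (fun x : ℕ => (x : RR p)) hm
      simp only [ht] at this
      push_cast at this
      exact this.symm
    generalize hX : (((t + 1 : ℕ) : RR p)⁻¹) = X at *
    generalize hY : (((j + 1 : ℕ) : RR p)⁻¹) = Y at *
    generalize hI : (2 : RR p)⁻¹ = I at *
    generalize hC1 : ((2 * (j + 1)).choose (j + 1) : RR p) = C1 at *
    generalize hC0 : ((2 * j).choose j : RR p) = C0 at *
    generalize hM1 : (m.choose (j + 1) : RR p) = M1 at *
    generalize hM0 : (m.choose j : RR p) = M0 at *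
    -- multiply by 2 (j+1)
    have key : (2 * ((j : RR p) + 1)) * ((-1) ^ (j + 1) * C1 * I ^ (2 * (j + 1))) =
        (2 * ((j : RR p) + 1)) * (M1 * (1 - p * I * (hh p m - hh p t))) := by
      have e1 : (2 * ((j : RR p) + 1)) * ((-1) ^ (j + 1) * C1 * I ^ (2 * (j + 1))) =
          - (2 * (j : RR p) + 1) * ((-1) ^ j * C0 * I ^ (2 * j)) := by
        have e0 : I ^ (2 * (j + 1)) = I ^ (2 * j) * I ^ 2 := by ring
        rw [e0, pow_succ (-1 : RR p) j]
        linear_combination (-2 * (-1) ^ j * I ^ (2 * j) * I ^ 2) * hc1 -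
          (2 * (j : RR p) + 1) * ((-1) ^ j * C0 * I ^ (2 * j)) * (2 * I + 1) * h2
      rw [e1, ih]
      have e2 : (2 * ((j : RR p) + 1)) * (M1 * (1 - p * I * (hh p m - hh p t))) =
          M0 * (2 * ((t : RR p) + 1)) * (1 - p * I * (hh p m - hh p t)) := by
        linear_combination (2 * (1 - p * I * (hh p m - hh p t))) * hc2
      rw [e2]
      linear_combination (M0 * (1 - p * I * (hh p m - hh p t)) + M0 * p * I * X) * hpt +
        (M0 * I * (hh p m - hh p t) - M0 * I * X) * hsq + (M0 * p * 2 * I) * hv + (M0 * p) * h2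
    have hfin : ∀ a b : RR p, (2 * ((j : RR p) + 1)) * a = (2 * ((j : RR p) + 1)) * b → a = b := by
      intro a b hab
      linear_combination (I * Y) * hab + (b - a) * (2 * I) * hu + (b - a) * h2
    exact hfin _ _ key

/-- PROOF. k := p / 8, m := (p-1)/2, l := m - k, p / 4 = 2 k, p - 1 - p / 4 = 2 l. lg_even. For j ≤ m: (-1)^j C(2j,j) / 4^j = C(m, j) (1 + p ∑_{i<j} 1/(2i+1)) since C(2j,j)/4^j = ∏_{i<j} (2i+1)/(2(i+1)),
C(m,j) = ∏_{i<j} (m-i)/(i+1), 2 (m-i) = p - (2i+1); and p ∑_{i<j} 1/(2i+1) = - p/2 ∑_{i<j} 1/(m-i) = - p/2 (hh m - hh (m-j)). For j = k and j = l (C(m,l) = C(m,k)):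
4 Hs = C(m,k) (3 (1 - p/2 (hh m - hh (m-k))) + 1 - p/2 (hh m - hh k)) = 4 Gv. -/
theorem hs_gv (hp : p.Prime) (h5 : 5 ≤ p) (h : p % 8 = 1 ∨ p % 8 = 3) : Hs p = Gv p := by
  have h1 := hs_int hp h5
  have h2 := Hsv_two hp h5
  have h8 := Hsv_8 hp h5
  obtain ⟨m, hm⟩ : ∃ m, 2 * m + 1 = p := ⟨(p - 1) / 2, by omega⟩
  have hm' : (p - 1) / 2 = m := by omega
  have hk : p / 4 = 2 * (p / 8) := by omega
  have hl : p - 1 - p / 4 = 2 * (m - p / 8) := by omega
  unfold Gv
  rw [hm']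
  rw [hl, hk, lg_even, lg_even] at h1
  push_cast at h1
  have hA := Hsv_cb hp h5 m hm (p / 8) (by omega)
  have hB := Hsv_cb hp h5 m hm (m - p / 8) (by omega)
  rw [show m - (m - p / 8) = p / 8 by omega, Nat.choose_symm (by omega : p / 8 ≤ m)] at hB
  have h3 : 4 * Hs p = (m.choose (p / 8) : RR p) * (4 - p * (2 : RR p)⁻¹ *
      (4 * hh p m - 3 * hh p (m - p / 8) - hh p (p / 8))) := by
    rw [h1]
    linear_combination 3 * hA + hB
  have h4 : (2 : RR p)⁻¹ = 4 * (8 : RR p)⁻¹ := by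
    linear_combination (4 * (8 : RR p)⁻¹) * h2 - (2 : RR p)⁻¹ * h8
  have h5 : Hs p = ((2 : RR p)⁻¹) ^ 2 * (4 * Hs p) := by
    linear_combination (- Hs p * ((2 : RR p) * (2 : RR p)⁻¹ + 1)) * h2
  rw [h5, h3]
  generalize (2 : RR p)⁻¹ = I at *
  generalize (8 : RR p)⁻¹ = E at *
  linear_combination (-((m.choose (p / 8) : RR p) * I ^ 2 * p * (4 * hh p m - 3 * hh p (m - p / 8) - hh p (p / 8)))) * h4 +
    ((m.choose (p / 8) : RR p) * (1 - p * E * (4 * hh p m - 3 * hh p (m - p / 8) - hh p (p / 8))) * (2 * I + 1)) * h2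

end Pool.Agent.ADC
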