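import Pool.Agent.ADC.Defs

/-! Project ADC (MP_adc642_nt), module EisN (size 4): the Eisenstein sum is an element of norm p of ℤ[√-2], p = 3 mod 8. -/

set_option autoImplicit false

namespace Pool.Agent.ADC

open Finset

variable {p : ℕ}

section EisNaux

variable {F : Type} [Field F] [Fintype F] [DecidableEq F]

private theorem EisN_add [Fact p.Prime] (hc : (p : F) = 0) (x y : F) : (x + y) ^ p = x ^ p + y ^ p := by
  have : CharP F p := (CharP.charP_iff_prime_eq_zero (Fact.out)).2 hc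
  exact add_pow_char x y p

private theorem EisN_sub [Fact p.Prime] (hc : (p : F) = 0) (x y : F) : (x - y) ^ p = x ^ p - y ^ p := by
  have : CharP F p := (CharP.charP_iff_prime_eq_zero (Fact.out)).2 hc
  exact sub_pow_char x y

private theorem EisN_pp (hF : Fintype.card F = p ^ 2) (x : F) : (x ^ p) ^ p = x := by
  rw [← pow_mul, ← sq, ← hF]; exact FiniteField.pow_card x

private theorem EisN_fib [Fact p.Prime] (c : F) : (univ.filter (fun y : F => y + y ^ p = c)).card ≤ p := by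
  have hp : p.Prime := Fact.out
  have hp2 := hp.two_le
  let P : Polynomial F := Polynomial.X ^ p + (Polynomial.X - Polynomial.C c)
  have hdeg : P.natDegree = p := by
    have h1 : (Polynomial.X - Polynomial.C c : Polynomial F).natDegree = 1 := Polynomial.natDegree_X_sub_C c
    have h2 : (Polynomial.X ^ p : Polynomial F).natDegree = p := Polynomial.natDegree_X_pow p
    show (Polynomial.X ^ p + (Polynomial.X - Polynomial.C c)).natDegree = p
    rw [Polynomial.natDegree_add_eq_left_of_natDegree_lt, h2]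
    rw [h1, h2]; omega
  have hP0 : P ≠ 0 := by
    intro h
    rw [h] at hdeg
    simp at hdeg
    omega
  have hsub : (univ.filter (fun y : F => y + y ^ p = c)) ⊆ P.roots.toFinset := by
    intro y hy
    rw [mem_filter] at hy
    rw [Multiset.mem_toFinset, Polynomial.mem_roots hP0, Polynomial.IsRoot]
    simp only [P, Polynomial.eval_add, Polynomial.eval_pow, Polynomial.eval_X, Polynomial.eval_sub, Polynomial.eval_C]
    rw [← hy.2]; ring
  calc _ ≤ P.roots.toFinset.card := card_le_card hsub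
    _ ≤ P.roots.card := Multiset.toFinset_card_le _
    _ ≤ P.natDegree := Polynomial.card_roots' P
    _ = p := hdeg

private theorem EisN_fix [Fact p.Prime] : (univ.filter (fun y : F => y ^ p = y)).card ≤ p := by
  have hp : p.Prime := Fact.out
  have hp2 := hp.two_le
  let P : Polynomial F := Polynomial.X ^ p - Polynomial.X
  have hdeg : P.natDegree = p := by
    have h2 : (Polynomial.X ^ p : Polynomial F).natDegree = p := Polynomial.natDegree_X_pow p
    show (Polynomial.X ^ p - Polynomial.X : Polynomial F).natDegree = p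
    rw [Polynomial.natDegree_sub_eq_left_of_natDegree_lt, h2]
    rw [Polynomial.natDegree_X, h2]; omega
  have hP0 : P ≠ 0 := by
    intro h
    rw [h] at hdeg
    simp at hdeg
    omega
  have hsub : (univ.filter (fun y : F => y ^ p = y)) ⊆ P.roots.toFinset := by
    intro y hy
    rw [mem_filter] at hy
    rw [Multiset.mem_toFinset, Polynomial.mem_roots hP0, Polynomial.IsRoot]
    simp only [P, Polynomial.eval_pow, Polynomial.eval_X, Polynomial.eval_sub]
    rw [hy.2]; ring
  calc _ ≤ P.roots.toFinset.card := card_le_card hsub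
    _ ≤ P.roots.card := Multiset.toFinset_card_le _
    _ ≤ P.natDegree := Polynomial.card_roots' P
    _ = p := hdeg

private theorem EisN_one [Fact p.Prime] (hF : Fintype.card F = p ^ 2) (hc : (p : F) = 0) :
    (univ.filter (fun y : F => y + y ^ p = 1)).card = p := by
  have hp : p.Prime := Fact.out
  refine le_antisymm (EisN_fib 1) ?_
  by_contra hlt
  push Not at hlt
  have hmaps : ∀ y ∈ (univ : Finset F), y + y ^ p ∈ (univ.filter (fun c : F => c ^ p = c)) := by
    intro y _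
    rw [mem_filter]
    refine ⟨mem_univ _, ?_⟩
    rw [EisN_add hc, EisN_pp hF]; ring
  have hcard := card_eq_sum_card_fiberwise (f := fun y : F => y + y ^ p) (s := (univ : Finset F))
    (t := univ.filter (fun c : F => c ^ p = c)) hmaps
  have hlt2 : ∑ c ∈ univ.filter (fun c : F => c ^ p = c), (univ.filter (fun y : F => y + y ^ p = c)).card <
      ∑ c ∈ univ.filter (fun c : F => c ^ p = c), p := by
    apply sum_lt_sum
    · intro c _
      exact EisN_fib c
    · refine ⟨1, ?_, hlt⟩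
      rw [mem_filter]
      exact ⟨mem_univ _, one_pow p⟩
  rw [card_univ, hF] at hcard
  rw [← hcard] at hlt2
  rw [sum_const, smul_eq_mul] at hlt2
  have := EisN_fix (p := p) (F := F)
  nlinarith [hp.pos]

private theorem EisN_unit_count [Fact p.Prime] (hF : Fintype.card F = p ^ 2) (hc : (p : F) = 0) :
    (univ.filter (fun v : Fˣ => (v : F) + (v : F) ^ p = 1)).card = p := by
  have hp : p.Prime := Fact.out
  refine Eq.trans ?_ (EisN_one (p := p) hF hc)
  apply card_bij (fun (v : Fˣ) _ => (v : F))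
  · intro v hv
    rw [mem_filter] at hv ⊢
    exact ⟨mem_univ _, hv.2⟩
  · intro v _ w _ h
    exact Units.ext h
  · intro y hy
    rw [mem_filter] at hy
    have hy0 : y ≠ 0 := by
      rintro rfl
      have := hy.2
      rw [zero_pow hp.ne_zero] at this
      simp at this
    exact ⟨Units.mk0 y hy0, by rw [mem_filter]; exact ⟨mem_univ _, hy.2⟩, rfl⟩

private theorem EisN_N1 [Fact p.Prime] (hF : Fintype.card F = p ^ 2) (hc : (p : F) = 0) (z : Fˣ) (hz : (z : F) ^ p ≠ z) :
    (univ.filter (fun v : Fˣ => (v : F) + (v : F) ^ p = 1 ∧ (z : F) * v + ((z : F) * v) ^ p = 1)).card = 1 := by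
  have hp : p.Prime := Fact.out
  have hd : (z : F) - (z : F) ^ p ≠ 0 := fun h => hz (sub_eq_zero.mp h).symm
  set y : F := (1 - (z : F) ^ p) / ((z : F) - (z : F) ^ p) with hy
  have hyp : y ^ p = (1 - (z : F)) / ((z : F) ^ p - z) := by
    rw [hy, div_pow, EisN_sub hc, EisN_sub hc, EisN_pp hF, one_pow]
  have hd2 : (z : F) ^ p - z ≠ 0 := fun h => hz (sub_eq_zero.mp h)
  have h1 : y + y ^ p = 1 := by
    rw [hyp, hy]
    field_simp
    ring
  have h2 : (z : F) * y + ((z : F) * y) ^ p = 1 := by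
    rw [mul_pow, hyp, hy]
    field_simp
    ring
  have hy0 : y ≠ 0 := by
    intro h
    rw [h, zero_pow hp.ne_zero] at h1
    simp at h1
  rw [card_eq_one]
  refine ⟨Units.mk0 y hy0, ?_⟩
  ext v
  rw [mem_filter, mem_singleton]
  constructor
  · rintro ⟨_, hv1, hv2⟩
    apply Units.ext
    rw [Units.val_mk0, hy, eq_div_iff hd]
    rw [mul_pow] at hv2
    have : (v : F) ^ p = 1 - v := by linear_combination hv1
    rw [this] at hv2
    linear_combination hv2
  · rintro rfl
    exact ⟨mem_univ _, h1, h2⟩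

private theorem EisN_N0 (z : Fˣ) (hz : (z : F) ^ p = z) (hz1 : z ≠ 1) :
    (univ.filter (fun v : Fˣ => (v : F) + (v : F) ^ p = 1 ∧ (z : F) * v + ((z : F) * v) ^ p = 1)).card = 0 := by
  rw [card_eq_zero, filter_eq_empty_iff]
  intro v _
  rintro ⟨h1, h2⟩
  apply hz1
  apply Units.ext
  rw [mul_pow, hz, ← mul_add, h1, mul_one] at h2
  rw [h2, Units.val_one]


private theorem EisN_cN [Fact p.Prime] (hF : Fintype.card F = p ^ 2) (hc : (p : F) = 0) (z : Fˣ) :
    ((univ.filter (fun v : Fˣ => (v : F) + (v : F) ^ p = 1 ∧ (z : F) * v + ((z : F) * v) ^ p = 1)).card : ℂ) =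
      1 + (if (z : F) ^ p = z then (if z = 1 then (p : ℂ) else 0) - 1 else 0) := by
  by_cases hz : (z : F) ^ p = z
  · rw [if_pos hz]
    by_cases h1 : z = 1
    · rw [if_pos h1]
      subst h1
      have : (univ.filter (fun v : Fˣ => (v : F) + (v : F) ^ p = 1 ∧ ((1 : Fˣ) : F) * v + (((1 : Fˣ) : F) * v) ^ p = 1)) =
          univ.filter (fun v : Fˣ => (v : F) + (v : F) ^ p = 1) := by
        ext v
        simp
      rw [this, EisN_unit_count hF hc]
      ring
    · rw [if_neg h1, EisN_N0 z hz h1]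
      simp
  · rw [if_neg hz, EisN_N1 hF hc z hz]
    simp

/-- the product of the sum and of its conjugate -/
private theorem EisN_prod [Fact p.Prime] (hF : Fintype.card F = p ^ 2) (hc : (p : F) = 0) (χ : Fˣ →* ℂˣ)
    (h0 : ∑ z : Fˣ, (χ z : ℂ) = 0) (h1 : ∑ z ∈ univ.filter (fun z : Fˣ => (z : F) ^ p = z), (χ z : ℂ) = 0) :
    (∑ u ∈ univ.filter (fun u : Fˣ => (u : F) + (u : F) ^ p = 1), (χ u : ℂ)) *
      (∑ u ∈ univ.filter (fun u : Fˣ => (u : F) + (u : F) ^ p = 1), ((χ u : ℂ))⁻¹) = p := by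
  rw [sum_mul_sum]
  rw [sum_comm]
  have e1 : ∀ v ∈ univ.filter (fun u : Fˣ => (u : F) + (u : F) ^ p = 1),
      ∑ u ∈ univ.filter (fun u : Fˣ => (u : F) + (u : F) ^ p = 1), (χ u : ℂ) * ((χ v : ℂ))⁻¹ =
      ∑ z : Fˣ, if (z : F) * v + ((z : F) * v) ^ p = 1 then (χ z : ℂ) else 0 := by
    intro v _
    rw [sum_filter]
    rw [← Equiv.sum_comp (Equiv.mulRight v)]
    apply sum_congr rfl
    intro z _
    simp only [Equiv.coe_mulRight, Units.val_mul, map_mul]
    by_cases h : (z : F) * v + ((z : F) * v) ^ p = 1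
    · rw [if_pos h, if_pos h]
      have : (χ v : ℂ) ≠ 0 := (χ v).ne_zero
      field_simp
    · rw [if_neg h, if_neg h]
  rw [sum_congr rfl e1, sum_comm]
  have e2 : ∀ z : Fˣ, (∑ v ∈ univ.filter (fun u : Fˣ => (u : F) + (u : F) ^ p = 1),
      if (z : F) * v + ((z : F) * v) ^ p = 1 then (χ z : ℂ) else 0) =
      (χ z : ℂ) + (if (z : F) ^ p = z then (if z = 1 then (p : ℂ) else 0) * (χ z : ℂ) - (χ z : ℂ) else 0) := by
    intro z
    rw [← sum_filter, filter_filter, sum_const, nsmul_eq_mul, EisN_cN hF hc z]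
    by_cases hz : (z : F) ^ p = z
    · rw [if_pos hz, if_pos hz]; ring
    · rw [if_neg hz, if_neg hz]; ring
  rw [sum_congr rfl (fun z _ => e2 z), sum_add_distrib, h0, zero_add, ← sum_filter, sum_sub_distrib, h1, sub_zero]
  rw [sum_eq_single (1 : Fˣ)]
  · simp
  · intro z _ hz
    rw [if_neg hz, zero_mul]
  · intro h
    exfalso
    apply h
    rw [mem_filter]
    simp

private theorem EisN_range {M : Type} [AddCommMonoid M] (hF : Fintype.card F = p ^ 2) {g : Fˣ} (hg : ∀ x, x ∈ Subgroup.zpowers g) (f : Fˣ → M) :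
    ∑ i ∈ range (p ^ 2 - 1), f (g ^ i) = ∑ u : Fˣ, f u := by
  have hN : Nat.card Fˣ = p ^ 2 - 1 := by
    rw [Nat.card_eq_fintype_card, Fintype.card_units, hF]
  have ho : orderOf g = p ^ 2 - 1 := by rw [orderOf_eq_card_of_forall_mem_zpowers hg, hN]
  rw [← IsCyclic.image_range_card hg, hN]
  rw [sum_image]
  intro i hi j hj hij
  rw [coe_range, Set.mem_Iio] at hi hj
  exact pow_injOn_Iio_orderOf (by rw [Set.mem_Iio, ho]; exact hi) (by rw [Set.mem_Iio, ho]; exact hj) hij


private theorem EisN_q8 (h : p % 8 = 3) : 8 ∣ p ^ 2 - 1 := by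
  obtain ⟨k, hk⟩ : ∃ k, p = 8 * k + 3 := ⟨p / 8, by omega⟩
  refine ⟨8 * k ^ 2 + 6 * k + 1, ?_⟩
  have : p ^ 2 = 8 * (8 * k ^ 2 + 6 * k + 1) + 1 := by rw [hk]; ring
  omega

/-- number of exponents in a class -/
private def EisN_c (p : ℕ) (g : F) (j : ℕ) : ℕ :=
  (((range (p ^ 2 - 1)).filter (fun i => g ^ i + (g ^ i) ^ p = 1)).filter (fun i => i % 8 = j)).card

private theorem EisN_cle [Fact p.Prime] (h : p % 8 = 3) (hF : Fintype.card F = p ^ 2) (g : F) (hg0 : g ≠ 0) {j : ℕ} (hj : j < 8) :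
    EisN_c p g j ≤ EisN_c p g (3 * j % 8) := by
  have hq8 := EisN_q8 h
  have hp : p.Prime := Fact.out
  have hp2 := hp.two_le
  have hq : 0 < p ^ 2 - 1 := by
    have : 4 ≤ p ^ 2 := by nlinarith
    omega
  have hgq : g ^ (p ^ 2 - 1) = 1 := by
    rw [← hF]; exact FiniteField.pow_card_sub_one_eq_one g hg0
  have hred : ∀ m, g ^ (m % (p ^ 2 - 1)) = g ^ m := by
    intro m
    conv_rhs => rw [← Nat.div_add_mod m (p ^ 2 - 1), pow_add, pow_mul, hgq, one_pow, one_mul]
  unfold EisN_c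
  apply card_le_card_of_injOn (fun i => (p * i) % (p ^ 2 - 1))
  · intro i hi
    rw [mem_coe, mem_filter, mem_filter, mem_range] at hi
    rw [mem_coe, mem_filter, mem_filter, mem_range]
    refine ⟨⟨Nat.mod_lt _ hq, ?_⟩, ?_⟩
    · rw [hred]
      have e1 : g ^ (p * i) = (g ^ i) ^ p := by rw [← pow_mul, mul_comm]
      rw [e1, EisN_pp hF, add_comm]
      exact hi.1.2
    · rw [Nat.mod_mod_of_dvd _ hq8, Nat.mul_mod, h, hi.2]
  · intro i hi i' hi' hii
    rw [mem_coe, mem_filter, mem_filter, mem_range] at hi hi'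
    have h1 : p * i ≡ p * i' [MOD (p ^ 2 - 1)] := hii
    have h2 : p * (p * i) ≡ p * (p * i') [MOD (p ^ 2 - 1)] := h1.mul_left p
    have h3 : ∀ m, p * (p * m) ≡ m [MOD (p ^ 2 - 1)] := by
      intro m
      have e : p * (p * m) = (p ^ 2 - 1) * m + m := by
        have : 1 ≤ p ^ 2 := by nlinarith
        calc p * (p * m) = p ^ 2 * m := by ring
          _ = ((p ^ 2 - 1) + 1) * m := by rw [Nat.sub_add_cancel this]
          _ = _ := by ring
      rw [e]
      exact (Nat.modEq_zero_iff_dvd.mpr (dvd_mul_right _ _)).add_right m |>.trans (by rw [zero_add])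
    have h4 : i ≡ i' [MOD (p ^ 2 - 1)] := (h3 i).symm.trans (h2.trans (h3 i'))
    exact Nat.ModEq.eq_of_lt_of_lt h4 hi.1.1 hi'.1.1

private theorem EisN_ceq [Fact p.Prime] (h : p % 8 = 3) (hF : Fintype.card F = p ^ 2) (g : F) (hg0 : g ≠ 0) {j : ℕ} (hj : j < 8) :
    EisN_c p g (3 * j % 8) = EisN_c p g j := by
  refine le_antisymm ?_ (EisN_cle h hF g hg0 hj)
  have h1 := EisN_cle h hF g hg0 (Nat.mod_lt (3 * j) (by norm_num : 0 < 8))
  have h2 : 3 * (3 * j % 8) % 8 = j := by omega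
  rw [h2] at h1
  exact h1

private theorem EisN_sum [Fact p.Prime] (h : p % 8 = 3) (hF : Fintype.card F = p ^ 2) (g : F) (hg0 : g ≠ 0) (A : Type) [CommRing A] (ζ : A)
    (hζ : ζ ^ 4 = -1) :
    ∑ i ∈ (range (p ^ 2 - 1)).filter (fun i => g ^ i + (g ^ i) ^ p = 1), ζ ^ i =
      (((EisN_c p g 0 : ℤ) - EisN_c p g 4 : ℤ) : A) + (((EisN_c p g 1 : ℤ) - EisN_c p g 5 : ℤ) : A) * (ζ + ζ ^ 3) := by
  have h8 : ζ ^ 8 = 1 := by
    have : ζ ^ 8 = (ζ ^ 4) ^ 2 := by ring
    rw [this, hζ]; ring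
  have hmod : ∀ i, ζ ^ i = ζ ^ (i % 8) := by
    intro i
    conv_lhs => rw [← Nat.div_add_mod i 8, pow_add, pow_mul, h8, one_pow, one_mul]
  have hs : ∑ i ∈ (range (p ^ 2 - 1)).filter (fun i => g ^ i + (g ^ i) ^ p = 1), ζ ^ i =
      ∑ j ∈ range 8, (EisN_c p g j : A) * ζ ^ j := by
    rw [← sum_fiberwise_of_maps_to (g := fun i => i % 8) (t := range 8)
      (fun i _ => mem_range.mpr (Nat.mod_lt i (by norm_num)))]
    apply sum_congr rfl
    intro j _
    unfold EisN_c
    rw [← nsmul_eq_mul, ← sum_const]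
    apply sum_congr rfl
    intro i hi
    rw [mem_filter] at hi
    rw [hmod i, hi.2]
  rw [hs]
  have c3 : EisN_c p g 3 = EisN_c p g 1 := EisN_ceq h hF g hg0 (j := 1) (by norm_num)
  have c6 : EisN_c p g 6 = EisN_c p g 2 := EisN_ceq h hF g hg0 (j := 2) (by norm_num)
  have c7 : EisN_c p g 7 = EisN_c p g 5 := EisN_ceq h hF g hg0 (j := 5) (by norm_num)
  have e5 : ζ ^ 5 = -ζ := by
    have : ζ ^ 5 = ζ ^ 4 * ζ := by ring
    rw [this, hζ]; ring
  have e6 : ζ ^ 6 = -ζ ^ 2 := by
    have : ζ ^ 6 = ζ ^ 4 * ζ ^ 2 := by ring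
    rw [this, hζ]; ring
  have e7 : ζ ^ 7 = -ζ ^ 3 := by
    have : ζ ^ 7 = ζ ^ 4 * ζ ^ 3 := by ring
    rw [this, hζ]; ring
  simp only [sum_range_succ, sum_range_zero]
  rw [c3, c6, c7, hζ, e5, e6, e7]
  push_cast
  ring

end EisNaux


/-- PROOF. c j := number of i < p^2-1 with i % 8 = j and Tr (g^i) = 1. x → x^p maps i to p i mod (p^2-1), so c (3 j mod 8) = c j: c 3 = c 1, c 6 = c 2, c 7 = c 5. With ζ^4 = -1 the sum is (c 0 - c 4) + (c 1 - c 5)(ζ + ζ^3).
Norm: in A = ℂ (or ℤ[X]/(X^4+1)), ζ a primitive 8-th root of unity, s := ζ + ζ^3, s^2 = -2, ζ⁻¹ = -ζ^3; χ (g^i) := ζ^i. (a + b s)(a - b s) = ∑_{x, y, Tr x = Tr y = 1} χ(x/y) = ∑_z χ z #{y : Tr y = 1, Tr (y z) = 1}. For z not in the prime field the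
number is 1 (linear system for y, y^p with determinant z^p - z ≠ 0: y = (z^p - 1)/(z^p - z)), for z = 1 it is p (Tr y = 1 has p solutions: Tr is onto the prime field, fibres of the same size), for other z in the prime field it is 0.
∑_z χ z = 0 (8 ∣ p^2-1, ∑_{i<8} ζ^i = 0), and on the prime field χ is the quadratic character (elements g^((p+1) i), ζ^(p+1) = ζ^4 = -1), sum 0. So the product is p. -/
theorem eis_norm [Fact p.Prime] (h : p % 8 = 3) {F : Type} [Field F] [Fintype F] [DecidableEq F] (hF : Fintype.card F = p ^ 2)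
    (hc : (p : F) = 0) {g : Fˣ} (hg : ∀ x, x ∈ Subgroup.zpowers g) :
    ∃ a b : ℤ, a ^ 2 + 2 * b ^ 2 = p ∧ ∀ (A : Type) [CommRing A] (ζ : A), ζ ^ 4 = -1 →
      ∑ i ∈ (range (p ^ 2 - 1)).filter (fun i => (g : F) ^ i + ((g : F) ^ i) ^ p = 1), ζ ^ i = a + b * (ζ + ζ ^ 3) := by
  have hp : p.Prime := Fact.out
  have hp2 := hp.two_le
  have hg0 : (g : F) ≠ 0 := g.ne_zero
  have hN : Nat.card Fˣ = p ^ 2 - 1 := by
    rw [Nat.card_eq_fintype_card, Fintype.card_units, hF]
  have ho : orderOf g = p ^ 2 - 1 := by rw [orderOf_eq_card_of_forall_mem_zpowers hg, hN]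
  have hq8 := EisN_q8 h
  refine ⟨(EisN_c p (g : F) 0 : ℤ) - EisN_c p (g : F) 4, (EisN_c p (g : F) 1 : ℤ) - EisN_c p (g : F) 5, ?_,
    fun A _ ζ hζ => EisN_sum h hF (g : F) hg0 A ζ hζ⟩
  -- the root of unity in ℂ
  obtain ⟨z, hz⟩ : ∃ z : ℂ, IsPrimitiveRoot z 8 := ⟨_, Complex.isPrimitiveRoot_exp 8 (by norm_num)⟩
  have hz8 : z ^ 8 = 1 := hz.pow_eq_one
  have hz4 : z ^ 4 = -1 := by
    have h1 : (z ^ 4 - 1) * (z ^ 4 + 1) = 0 := by linear_combination hz8
    rcases mul_eq_zero.mp h1 with h2 | h2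
    · exfalso
      exact hz.pow_ne_one_of_pos_of_lt (by norm_num) (by norm_num : 4 < 8) (by linear_combination h2)
    · linear_combination h2
  have hz0 : z ≠ 0 := by
    rintro rfl
    norm_num at hz4
  let w : ℂˣ := Units.mk0 z hz0
  have hw8 : w ^ 8 = 1 := by
    apply Units.ext
    simp [w, hz8]
  have hdvd : orderOf w ∣ orderOf g := by
    rw [ho]
    exact (orderOf_dvd_of_pow_eq_one hw8).trans hq8
  let χ : Fˣ →* ℂˣ := monoidHomOfForallMemZpowers hg hdvd
  have hχ : χ g = w := monoidHomOfForallMemZpowers_apply_gen hg hdvd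
  have hχi : ∀ i : ℕ, (χ (g ^ i) : ℂ) = z ^ i := by
    intro i
    rw [map_pow, hχ]
    simp [w]
  have hzq : z ^ (p ^ 2 - 1) = 1 := by
    obtain ⟨k, hk⟩ := hq8
    rw [hk, pow_mul, hz8, one_pow]
  have h0 : ∑ x : Fˣ, (χ x : ℂ) = 0 := by
    rw [← EisN_range hF hg (fun u => (χ u : ℂ))]
    simp only [hχi]
    have hz1 : z ≠ 1 := by
      rintro rfl
      norm_num at hz4
    rw [geom_sum_eq hz1, hzq, sub_self, zero_div]
  have h1 : ∑ x ∈ univ.filter (fun x : Fˣ => (x : F) ^ p = x), (χ x : ℂ) = 0 := by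
    rw [sum_filter, ← EisN_range hF hg (fun u => if (u : F) ^ p = u then (χ u : ℂ) else 0), ← sum_filter]
    have hset : (range (p ^ 2 - 1)).filter (fun i => ((g ^ i : Fˣ) : F) ^ p = ((g ^ i : Fˣ) : F)) =
        (range (p - 1)).image (fun k => (p + 1) * k) := by
      ext i
      rw [mem_filter, mem_image, mem_range]
      have hfac : p ^ 2 - 1 = (p + 1) * (p - 1) := by
        obtain ⟨k, hk⟩ : ∃ k, p = k + 1 := ⟨p - 1, by omega⟩
        subst hk
        simp only [Nat.add_sub_cancel]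
        have : (k + 1) ^ 2 = (k + 1 + 1) * k + 1 := by ring
        omega
      constructor
      · rintro ⟨hi, hgi⟩
        have e : (g ^ i) ^ p = g ^ i := by
          apply Units.ext
          push_cast at hgi ⊢
          exact hgi
        have e2 : g ^ (i * (p - 1)) = 1 := by
          have e3 : g ^ (i * (p - 1)) * g ^ i = g ^ i := by
            rw [← pow_add]
            have : i * (p - 1) + i = i * p := by
              obtain ⟨k, hk⟩ : ∃ k, p = k + 1 := ⟨p - 1, by omega⟩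
              subst hk
              simp only [Nat.add_sub_cancel]
              ring
            rw [this, pow_mul, e]
          exact mul_eq_right.mp e3
        have e4 : (p + 1) * (p - 1) ∣ i * (p - 1) := by
          rw [← hfac, ← ho]
          exact orderOf_dvd_of_pow_eq_one e2
        have e5 : (p + 1) ∣ i := Nat.dvd_of_mul_dvd_mul_right (by omega) e4
        obtain ⟨k, hk⟩ := e5
        refine ⟨k, ?_, hk.symm⟩
        rw [mem_range]
        rw [hk, hfac] at hi
        exact lt_of_mul_lt_mul_left hi (Nat.zero_le _)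
      · rintro ⟨k, hk, rfl⟩
        rw [mem_range] at hk
        refine ⟨?_, ?_⟩
        · rw [hfac]
          exact Nat.mul_lt_mul_of_pos_left hk (by omega)
        · rw [← Units.val_pow_eq_pow_val]
          congr 1
          rw [← pow_mul]
          have : (p + 1) * k * p = (p ^ 2 - 1) * k + (p + 1) * k := by
            rw [hfac]
            obtain ⟨k', hk'⟩ : ∃ k', p = k' + 1 := ⟨p - 1, by omega⟩
            subst hk'
            simp only [Nat.add_sub_cancel]
            ring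
          rw [this, pow_add, pow_mul, ← ho, pow_orderOf_eq_one, one_pow, one_mul]
    rw [hset, sum_image]
    · simp only [hχi]
      have hz' : z ^ (p + 1) = -1 := by
        obtain ⟨k, hk⟩ : ∃ k, p = 8 * k + 3 := ⟨p / 8, by omega⟩
        have : p + 1 = 8 * k + 4 := by omega
        rw [this, pow_add, pow_mul, hz8, one_pow, one_mul, hz4]
      simp only [pow_mul, hz']
      have : Even (p - 1) := by
        rw [Nat.even_iff]; omega
      rw [geom_sum_eq (by norm_num : (-1 : ℂ) ≠ 1), this.neg_one_pow, sub_self, zero_div]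
    · intro k _ k' _ hkk
      exact Nat.eq_of_mul_eq_mul_left (by omega) hkk
  have hprod := EisN_prod hF hc χ h0 h1
  have hS : ∑ u ∈ univ.filter (fun u : Fˣ => (u : F) + (u : F) ^ p = 1), (χ u : ℂ) =
      ∑ i ∈ (range (p ^ 2 - 1)).filter (fun i => (g : F) ^ i + ((g : F) ^ i) ^ p = 1), z ^ i := by
    rw [sum_filter, ← EisN_range hF hg (fun u => if (u : F) + (u : F) ^ p = 1 then (χ u : ℂ) else 0), sum_filter]
    apply sum_congr rfl
    intro i _
    rw [hχi]
    push_cast
    rfl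
  have hS' : ∑ u ∈ univ.filter (fun u : Fˣ => (u : F) + (u : F) ^ p = 1), ((χ u : ℂ))⁻¹ =
      ∑ i ∈ (range (p ^ 2 - 1)).filter (fun i => (g : F) ^ i + ((g : F) ^ i) ^ p = 1), (z⁻¹) ^ i := by
    rw [sum_filter, ← EisN_range hF hg (fun u => if (u : F) + (u : F) ^ p = 1 then ((χ u : ℂ))⁻¹ else 0), sum_filter]
    apply sum_congr rfl
    intro i _
    rw [hχi, inv_pow]
    push_cast
    rfl
  have hzi4 : (z⁻¹) ^ 4 = -1 := by
    rw [inv_pow, hz4]; norm_num
  have hzi : z⁻¹ = -z ^ 3 := by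
    apply inv_eq_of_mul_eq_one_right
    linear_combination -hz4
  rw [hS, hS', EisN_sum h hF (g : F) hg0 ℂ z hz4, EisN_sum h hF (g : F) hg0 ℂ z⁻¹ hzi4, hzi] at hprod
  generalize (EisN_c p (g : F) 0 : ℤ) - EisN_c p (g : F) 4 = a at *
  generalize (EisN_c p (g : F) 1 : ℤ) - EisN_c p (g : F) 5 = b at *
  have hfin : ((a ^ 2 + 2 * b ^ 2 : ℤ) : ℂ) = ((p : ℤ) : ℂ) := by
    push_cast
    rw [← hprod]
    have hz9 : z ^ 9 = z := by
      have : z ^ 9 = z ^ 8 * z := by ring
      rw [this, hz8, one_mul]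
    have : (-z ^ 3 + (-z ^ 3) ^ 3) = -(z + z ^ 3) := by
      have : (-z ^ 3) ^ 3 = -z ^ 9 := by ring
      rw [this, hz9]; ring
    rw [this]
    linear_combination ((b : ℂ) ^ 2 * (2 + z ^ 2)) * hz4
  exact_mod_cast hfin

end Pool.Agent.ADC
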