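import Pool.Agent.ADC.Defs

/-! Project ADC (MP_adc642_nt), module Harm (size 2): a sum with binomial coefficients. -/

set_option autoImplicit false

namespace Pool.Agent.ADC

open Finset

private noncomputable def harmF (K : Type) [Field K] (N r : ℕ) : K :=
  ∑ i ∈ range r, (N.choose i : K) * (-1) ^ (r - i - 1) * ((r - i : ℕ) : K)⁻¹

private theorem harmF_pascal (K : Type) [Field K] (N r : ℕ) :
    harmF K (N + 1) (r + 1) = harmF K N (r + 1) + harmF K N r := by
  unfold harmF
  rw [Finset.sum_range_succ' (fun i => ((N + 1).choose i : K) * (-1) ^ (r + 1 - i - 1) *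
    ((r + 1 - i : ℕ) : K)⁻¹),
    Finset.sum_range_succ' (fun i => ((N).choose i : K) * (-1) ^ (r + 1 - i - 1) *
    ((r + 1 - i : ℕ) : K)⁻¹)]
  have h1 : ∀ i ∈ range r, ((N + 1).choose (i + 1) : K) * (-1) ^ (r + 1 - (i + 1) - 1) *
      ((r + 1 - (i + 1) : ℕ) : K)⁻¹ =
      ((N.choose (i + 1) : K) * (-1) ^ (r + 1 - (i + 1) - 1) * ((r + 1 - (i + 1) : ℕ) : K)⁻¹) +
      (N.choose i : K) * (-1) ^ (r - i - 1) * ((r - i : ℕ) : K)⁻¹ := by
    intro i _
    rw [Nat.choose_succ_succ, show r + 1 - (i + 1) = r - i by omega]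
    push_cast
    ring
  rw [Finset.sum_congr rfl h1, Finset.sum_add_distrib]
  simp only [Nat.choose_zero_right]
  ring

private theorem harmF_top (K : Type) [Field K] (N : ℕ)
    (hN : ∀ i, 0 < i → i ≤ N + 1 → (i : K) ≠ 0) :
    harmF K N (N + 1) = ((N + 1 : ℕ) : K)⁻¹ := by
  unfold harmF
  have h1 : ∀ i ∈ range (N + 1), (N.choose i : K) * (-1) ^ (N + 1 - i - 1) *
      ((N + 1 - i : ℕ) : K)⁻¹ =
      ((N + 1 : ℕ) : K)⁻¹ * (((-1) ^ N) * ((-1) ^ i * ((N + 1).choose i : K))) := by
    intro i hi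
    have hi' : i ≤ N := by simpa [Nat.lt_succ_iff] using Finset.mem_range.1 hi
    have hc : (N + 1) * N.choose i = (N + 1).choose i * (N + 1 - i) := by
      rw [mul_comm]; exact Nat.choose_mul_succ_eq N i
    have hc' : ((N + 1 : ℕ) : K) * (N.choose i : K) = ((N + 1).choose i : K) * ((N + 1 - i : ℕ) : K) := by
      exact_mod_cast congrArg (Nat.cast : ℕ → K) hc
    have ha : ((N + 1 : ℕ) : K) ≠ 0 := hN _ (by omega) le_rfl
    have hb : ((N + 1 - i : ℕ) : K) ≠ 0 := hN _ (by omega) (by omega)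
    have hs : ((-1 : K)) ^ (N + 1 - i - 1) = (-1) ^ N * (-1) ^ i := by
      rw [← pow_add, show N + i = (N + 1 - i - 1) + 2 * i by omega, pow_add, pow_mul]
      simp
    rw [hs]
    field_simp
    linear_combination hc'
  rw [Finset.sum_congr rfl h1, ← Finset.mul_sum, ← Finset.mul_sum]
  have h2 : ∑ i ∈ range (N + 2), ((-1 : K)) ^ i * ((N + 1).choose i : K) = 0 := by
    have := Int.alternating_sum_range_choose (n := N + 1)
    rw [if_neg (by omega)] at this
    have h3 := congrArg (Int.cast : ℤ → K) this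
    push_cast at h3
    exact h3
  rw [Finset.sum_range_succ, Nat.choose_self] at h2
  have h4 : ∑ i ∈ range (N + 1), ((-1 : K)) ^ i * ((N + 1).choose i : K) = (-1) ^ N := by
    rw [pow_succ] at h2
    linear_combination h2
  rw [h4, ← pow_add, ← two_mul, pow_mul]
  simp

/-- PROOF. Both sides satisfy Pascal's rule f (N+1) r = f N r + f N (r-1) for 1 ≤ r ≤ N; r = 0 is trivial; for r = N + 1: f N (N+1) := ∑_{i≤N} C(N,i) (-1)^(N-i) / (N+1-i) = 1 / (N+1)
(C(N,i)/(N+1-i) = C(N+1,i)/(N+1), alternating sum of binomial coefficients). Induction on N. -/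
theorem harm_sum {K : Type} [Field K] {N r : ℕ} (hr : r ≤ N) (hN : ∀ i, 0 < i → i ≤ N → (i : K) ≠ 0) :
    ∑ i ∈ range r, (N.choose i : K) * (-1) ^ (r - i - 1) * ((r - i : ℕ) : K)⁻¹ =
      (N.choose r : K) * (∑ i ∈ range N, ((i + 1 : ℕ) : K)⁻¹ - ∑ i ∈ range (N - r), ((i + 1 : ℕ) : K)⁻¹) := by
  change harmF K N r = _
  induction N generalizing r with
  | zero =>
    have : r = 0 := by omega
    subst this
    simp [harmF]
  | succ N ih =>
    rcases r with _ | r
    · simp [harmF]
    · rw [harmF_pascal, ih (r := r) (by omega) (fun i h1 h2 => hN i h1 (by omega))]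
      rcases Nat.lt_or_ge r N with hlt | hge
      · rw [ih (r := r + 1) (by omega) (fun i h1 h2 => hN i h1 (by omega))]
        obtain ⟨d, rfl⟩ : ∃ d, N = r + 1 + d := ⟨N - (r + 1), by omega⟩
        rw [show r + 1 + d - (r + 1) = d by omega, show r + 1 + d - r = d + 1 by omega,
          show r + 1 + d + 1 - (r + 1) = d + 1 by omega,
          Finset.sum_range_succ (fun i => ((i + 1 : ℕ) : K)⁻¹) (r + 1 + d),
          Finset.sum_range_succ (fun i => ((i + 1 : ℕ) : K)⁻¹) d]
        have h1 : ((r + 1 + d + 1 : ℕ) : K) ≠ 0 := hN _ (by omega) le_rfl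
        have h2 : ((d + 1 : ℕ) : K) ≠ 0 := hN _ (by omega) (by omega)
        have hc : (r + 1 + d + 1) * (r + 1 + d).choose (r + 1) =
            (r + 1 + d + 1).choose (r + 1) * (r + 1 + d + 1 - (r + 1)) := by
          rw [mul_comm]; exact Nat.choose_mul_succ_eq _ _
        rw [show r + 1 + d + 1 - (r + 1) = d + 1 by omega] at hc
        have hc' : ((r + 1 + d + 1 : ℕ) : K) * ((r + 1 + d).choose (r + 1) : K) =
            ((r + 1 + d + 1).choose (r + 1) : K) * ((d + 1 : ℕ) : K) := by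
          exact_mod_cast congrArg (Nat.cast : ℕ → K) hc
        have hp : ((r + 1 + d + 1).choose (r + 1) : K) =
            ((r + 1 + d).choose r : K) + ((r + 1 + d).choose (r + 1) : K) := by
          rw [Nat.choose_succ_succ]
          push_cast
          ring
        have hkey : ((r + 1 + d).choose (r + 1) : K) * ((d + 1 : ℕ) : K)⁻¹ =
            ((r + 1 + d + 1).choose (r + 1) : K) * ((r + 1 + d + 1 : ℕ) : K)⁻¹ := by
          rw [mul_inv_eq_iff_eq_mul₀ h2, mul_assoc, mul_comm ((r + 1 + d + 1 : ℕ) : K)⁻¹, ← mul_assoc,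
            ← hc']
          field_simp
        linear_combination (-(∑ i ∈ range (r + 1 + d), ((i + 1 : ℕ) : K)⁻¹) +
          (∑ i ∈ range d, ((i + 1 : ℕ) : K)⁻¹) + ((d + 1 : ℕ) : K)⁻¹) * hp + hkey
      · have hrN : r = N := by omega
        subst hrN
        rw [harmF_top K r hN]
        simp only [Nat.choose_self, Nat.sub_self, Finset.range_zero, Finset.sum_empty]
        rw [Finset.sum_range_succ (fun i => ((i + 1 : ℕ) : K)⁻¹) r]
        push_cast
        ring

end Pool.Agent.ADC
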