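import Pool.Agent.ADC.Tei
import Pool.Agent.ADC.Harm

/-! Project ADC (MP_adc642_nt), module EisV (size 4): the value of the Eisenstein sum modulo p ^ 2, p = 3 mod 8. -/

set_option autoImplicit false

namespace Pool.Agent.ADC

open Finset

variable {p : ℕ}

private noncomputable abbrev EisV_c (p : ℕ) : RR p →+* ZMod p :=
  ZMod.castHom (Dvd.intro_left _ (pow_succ p 1).symm : p ∣ p ^ 2) (ZMod p)

private theorem EisV_inv (hp : p.Prime) {x : ℕ} (h : ¬ p ∣ x) :
    EisV_c p ((x : RR p)⁻¹) = ((x : ZMod p))⁻¹ := by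
  have : Fact p.Prime := ⟨hp⟩
  have h1 := congrArg (EisV_c p) (rr_inv hp h)
  rw [map_mul, map_natCast, map_one] at h1
  exact eq_inv_of_mul_eq_one_right h1

private theorem EisV_ndvd {j p : ℕ} (h0 : 0 < j) (h : j < p) : ¬ p ∣ j := by
  intro h1
  exact absurd (Nat.le_of_dvd h0 h1) (by omega)

private theorem EisV_hh (hp : p.Prime) {j : ℕ} (h : j < p) : EisV_c p (hh p j) = hz p j := by
  unfold hh hz
  rw [map_sum]
  refine Finset.sum_congr rfl fun i hi => ?_
  exact EisV_inv hp (EisV_ndvd (Nat.succ_pos _) (by have := Finset.mem_range.mp hi; omega))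

private theorem EisV_hz_succ (j : ℕ) : hz p (j + 1) = hz p j + ((j + 1 : ℕ) : ZMod p)⁻¹ := by
  unfold hz
  rw [Finset.sum_range_succ]

private theorem EisV_key (hp : p.Prime) {t : ℕ} (ht : p = 8 * t + 11) :
    ((4 * t + 5 : ℕ) : ZMod p) * (∑ i ∈ range t, ((4 * t + 4).choose i : ZMod p) * (-1) ^ (t - i - 1) * ((t - i : ℕ) : ZMod p)⁻¹ +
      ∑ j ∈ range (3 * t + 3), ((4 * t + 4).choose (t + 2 + j) : ZMod p) * (-1) ^ j * ((j + 1 : ℕ) : ZMod p)⁻¹) +
      ((4 * t + 5).choose (t + 1) : ZMod p) =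
    ((4 * t + 5).choose (t + 1) : ZMod p) * ((8 : ZMod p)⁻¹ * (hz p (t + 1) + 3 * hz p (3 * t + 4) - 4 * hz p (4 * t + 5))) := by
  have : Fact p.Prime := ⟨hp⟩
  have hne : ∀ i, 0 < i → i ≤ 4 * t + 5 → (i : ZMod p) ≠ 0 := by
    intro i h0 h1 h2
    rw [ZMod.natCast_eq_zero_iff] at h2
    exact EisV_ndvd h0 (by omega) h2
  have hne' : ∀ i, 0 < i → i ≤ 4 * t + 4 → (i : ZMod p) ≠ 0 := fun i h0 h1 => hne i h0 (by omega)
  have e1 := harm_sum (K := ZMod p) (N := 4 * t + 4) (r := t) (by omega) hne'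
  have e2 := harm_sum (K := ZMod p) (N := 4 * t + 4) (r := 3 * t + 3) (by omega) hne'
  have e3 : ∑ j ∈ range (3 * t + 3), ((4 * t + 4).choose (t + 2 + j) : ZMod p) * (-1) ^ j * ((j + 1 : ℕ) : ZMod p)⁻¹ =
      ∑ i ∈ range (3 * t + 3), ((4 * t + 4).choose i : ZMod p) * (-1) ^ (3 * t + 3 - i - 1) * ((3 * t + 3 - i : ℕ) : ZMod p)⁻¹ := by
    rw [← Finset.sum_range_reflect]
    refine Finset.sum_congr rfl fun i hi => ?_
    have hi' := Finset.mem_range.mp hi
    have a1 : (4 * t + 4).choose (t + 2 + (3 * t + 3 - 1 - i)) = (4 * t + 4).choose i := by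
      rw [show t + 2 + (3 * t + 3 - 1 - i) = 4 * t + 4 - i by omega]
      exact Nat.choose_symm (by omega)
    rw [a1, show 3 * t + 3 - 1 - i = 3 * t + 3 - i - 1 by omega, show 3 * t + 3 - i - 1 + 1 = 3 * t + 3 - i by omega]
  rw [e3, e1, e2]
  have f2 : ((4 * t + 5 : ℕ) : ZMod p) * ((4 * t + 4).choose (3 * t + 3) : ZMod p) =
      ((4 * t + 5).choose (t + 1) : ZMod p) * ((3 * t + 4 : ℕ) : ZMod p) := by
    have h1 : (4 * t + 4).choose (3 * t + 3) = (4 * t + 4).choose (t + 1) := by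
      rw [← Nat.choose_symm (show t + 1 ≤ 4 * t + 4 by omega)]
      congr 1
      omega
    have := Nat.choose_mul_succ_eq (4 * t + 4) (t + 1)
    rw [show 4 * t + 4 + 1 - (t + 1) = 3 * t + 4 by omega, show 4 * t + 4 + 1 = 4 * t + 5 by omega] at this
    have h2 := congrArg (Nat.cast : ℕ → ZMod p) this
    rw [Nat.cast_mul, Nat.cast_mul] at h2
    rw [h1, mul_comm, h2]
  have f1 : ((4 * t + 5 : ℕ) : ZMod p) * ((4 * t + 4).choose t : ZMod p) =
      ((4 * t + 5).choose (t + 1) : ZMod p) * ((t + 1 : ℕ) : ZMod p) := by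
    have := Nat.add_one_mul_choose_eq (4 * t + 4) t
    rw [show 4 * t + 4 + 1 = 4 * t + 5 by omega] at this
    have h2 := congrArg (Nat.cast : ℕ → ZMod p) this
    rw [Nat.cast_mul, Nat.cast_mul] at h2
    rw [h2]
  have g1 : (∑ i ∈ range (4 * t + 4), ((i + 1 : ℕ) : ZMod p)⁻¹) = hz p (4 * t + 4) := rfl
  have g2 : (∑ i ∈ range (4 * t + 4 - t), ((i + 1 : ℕ) : ZMod p)⁻¹) = hz p (3 * t + 4) := by
    rw [show 4 * t + 4 - t = 3 * t + 4 by omega]
    rfl
  have g3 : (∑ i ∈ range (4 * t + 4 - (3 * t + 3)), ((i + 1 : ℕ) : ZMod p)⁻¹) = hz p (t + 1) := by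
    rw [show 4 * t + 4 - (3 * t + 3) = t + 1 by omega]
    rfl
  rw [g1, g2, g3]
  have k1 : hz p (4 * t + 5) = hz p (4 * t + 4) + ((4 * t + 5 : ℕ) : ZMod p)⁻¹ := EisV_hz_succ _
  have hu : (8 : ZMod p) * ((t + 1 : ℕ) : ZMod p) = -3 := by
    have h1 : ((8 * t + 11 : ℕ) : ZMod p) = 0 := by rw [← ht]; exact ZMod.natCast_self p
    push_cast at h1 ⊢
    linear_combination h1
  have l1 : ((4 * t + 5 : ℕ) : ZMod p) = 4 * ((t + 1 : ℕ) : ZMod p) + 1 := by push_cast; ring
  have l2 : ((3 * t + 4 : ℕ) : ZMod p) = 3 * ((t + 1 : ℕ) : ZMod p) + 1 := by push_cast; ring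
  have h8 : (8 : ZMod p) ≠ 0 := by
    have h2 := hne 2 (by norm_num) (by omega)
    have h3 : (8 : ZMod p) = ((2 : ℕ) : ZMod p) ^ 3 := by norm_num
    rw [h3]
    exact pow_ne_zero _ h2
  generalize hU : ((t + 1 : ℕ) : ZMod p) = u at *
  have n4 : (4 * u + 1)⁻¹ = -2 := by
    have h1 : (4 * u + 1) * (-2) = 1 := by linear_combination -hu
    exact inv_eq_of_mul_eq_one_right h1
  rw [k1, l1, n4]
  rw [l1, l2] at f2
  rw [l1] at f1
  generalize (((4 * t + 5).choose (t + 1) : ℕ) : ZMod p) = c at *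
  apply mul_left_cancel₀ h8
  have m8 : (8 : ZMod p) * (8 : ZMod p)⁻¹ = 1 := mul_inv_cancel₀ h8
  linear_combination 8 * (hz p (4 * t + 4) - hz p (3 * t + 4)) * f1 + 8 * (hz p (4 * t + 4) - hz p (t + 1)) * f2 - c * (hz p (t + 1) + 3 * hz p (3 * t + 4) - 4 * hz p (4 * t + 4) + 8) * m8 + c * (4 * hz p (4 * t + 4) - hz p (3 * t + 4) - 3 * hz p (t + 1)) * hu

/-- the combinatorial part. PROOF. m := (p-1)/2, k := p/8, p = 8k+3, m = 4k+1, k ≥ 1, i ≥ 1. (p+1) i - k: i = k: p k, ch_mul. i > k: p i + (i-k), ch_rem (M = m-1): p m C(m-1,i) (-1)^(i-k-1)/(i-k). i < k: p (i-1) + (p - (k-i)), ch_rem':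
p m C(m-1,i-1) (-1)^(k-i-1)/(k-i). ∑_{k<i≤m-1} C(m-1,i)(-1)^(i-k-1)/(i-k) = C(m-1,m-1-k) (H(m-1) - H(k)) (i' = m-1-i, harm_sum with N = m-1, r = m-1-k), ∑_{1≤i<k} C(m-1,i-1)(-1)^(k-i-1)/(k-i) = C(m-1,k-1) (H(m-1) - H(m-k)) (r = k-1).
m C(m-1,k) = (m-k) C(m,k), m C(m-1,k-1) = k C(m,k). Total: C(m,k) (1 + p (m H(m) - 1 - (m-k) H(k) - k H(m-k))); 2m = -1, 8k = -3, 8(m-k) = -1 modulo p. Multiply by 1 + p. -/
theorem eis_sum (hp : p.Prime) (h : p % 8 = 3) (h5 : 5 ≤ p) :
    (1 + (p : RR p)) * ∑ i ∈ Ico 1 ((p - 1) / 2), (((p * ((p - 1) / 2)).choose ((p + 1) * i - p / 8) : ℕ) : RR p) = Gv p := by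
  obtain ⟨t, ht⟩ : ∃ t, p = 8 * t + 11 := ⟨(p - 11) / 8, by omega⟩
  have e1 : (p - 1) / 2 = 4 * t + 5 := by omega
  have e2 : p / 8 = t + 1 := by omega
  have hp2 : p ≠ 2 := by omega
  unfold Gv
  rw [e1, e2, show 4 * t + 5 - (t + 1) = 3 * t + 4 by omega, Finset.sum_Ico_eq_sum_range,
    show 4 * t + 5 - 1 = t + (3 * t + 3 + 1) by omega, Finset.sum_range_add, Finset.sum_range_succ' _ (3 * t + 3)]
  have a1 : ∑ i ∈ range t, (((p * (4 * t + 5)).choose ((p + 1) * (1 + i) - (t + 1)) : ℕ) : RR p) =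
      (p : RR p) * (((4 * t + 5 : ℕ) : RR p) * ∑ i ∈ range t, ((4 * t + 4).choose i : RR p) * (-1) ^ (t - i - 1) * ((t - i : ℕ) : RR p)⁻¹) := by
    rw [Finset.mul_sum, Finset.mul_sum]
    refine Finset.sum_congr rfl fun i hi => ?_
    have hi' := Finset.mem_range.mp hi
    have h1 : (p + 1) * (1 + i) - (t + 1) = p * i + (p - (t - i)) := by
      have h3 : (p + 1) * (1 + i) = p * i + p + 1 + i := by ring
      rw [h3]
      omega
    rw [h1, show 4 * t + 5 = 4 * t + 4 + 1 by omega, ch_rem' hp hp2 (by omega) (by omega)]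
    ring
  have a2 : ∑ i ∈ range (3 * t + 3), (((p * (4 * t + 5)).choose ((p + 1) * (1 + (t + (i + 1))) - (t + 1)) : ℕ) : RR p) =
      (p : RR p) * (((4 * t + 5 : ℕ) : RR p) * ∑ j ∈ range (3 * t + 3), ((4 * t + 4).choose (t + 2 + j) : RR p) * (-1) ^ j * ((j + 1 : ℕ) : RR p)⁻¹) := by
    rw [Finset.mul_sum, Finset.mul_sum]
    refine Finset.sum_congr rfl fun i hi => ?_
    have hi' := Finset.mem_range.mp hi
    have h1 : (p + 1) * (1 + (t + (i + 1))) - (t + 1) = p * (t + 2 + i) + (i + 1) := by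
      have h3 : (p + 1) * (1 + (t + (i + 1))) = p * (t + 2 + i) + (t + 2 + i) := by ring
      rw [h3]
      omega
    rw [h1, show 4 * t + 5 = 4 * t + 4 + 1 by omega, ch_rem hp (by omega) (by omega), show i + 1 - 1 = i by omega]
    ring
  have a3 : (((p * (4 * t + 5)).choose ((p + 1) * (1 + (t + 0)) - (t + 1)) : ℕ) : RR p) = ((4 * t + 5).choose (t + 1) : RR p) := by
    have h1 : (p + 1) * (1 + (t + 0)) - (t + 1) = p * (t + 1) := by
      have h3 : (p + 1) * (1 + (t + 0)) = p * (t + 1) + (t + 1) := by ring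
      rw [h3]
      omega
    rw [h1, ch_mul hp]
  rw [a1, a2, a3]
  set X : RR p := ((4 * t + 5 : ℕ) : RR p) * (∑ i ∈ range t, ((4 * t + 4).choose i : RR p) * (-1) ^ (t - i - 1) * ((t - i : ℕ) : RR p)⁻¹ +
      ∑ j ∈ range (3 * t + 3), ((4 * t + 4).choose (t + 2 + j) : RR p) * (-1) ^ j * ((j + 1 : ℕ) : RR p)⁻¹) with hX
  have hc : (p : RR p) * (X + ((4 * t + 5).choose (t + 1) : RR p)) =
      p * (((4 * t + 5).choose (t + 1) : RR p) * ((8 : RR p)⁻¹ * (hh p (t + 1) + 3 * hh p (3 * t + 4) - 4 * hh p (4 * t + 5)))) := by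
    apply rr_cast hp
    change EisV_c p _ = EisV_c p _
    have h8 : EisV_c p ((8 : RR p)⁻¹) = (8 : ZMod p)⁻¹ := by
      have := EisV_inv hp (x := 8) (EisV_ndvd (by norm_num) (by omega))
      exact_mod_cast this
    have key := EisV_key hp ht
    rw [hX, map_add, map_mul, map_add, map_sum, map_sum, map_mul, map_mul, map_sub, map_add, map_mul, map_mul, h8,
      EisV_hh hp (by omega), EisV_hh hp (by omega), EisV_hh hp (by omega), map_natCast, map_natCast]
    have s1 : ∀ i ∈ range t, EisV_c p (((4 * t + 4).choose i : RR p) * (-1) ^ (t - i - 1) * ((t - i : ℕ) : RR p)⁻¹) =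
        ((4 * t + 4).choose i : ZMod p) * (-1) ^ (t - i - 1) * ((t - i : ℕ) : ZMod p)⁻¹ := by
      intro i hi
      have hi' := Finset.mem_range.mp hi
      rw [map_mul, map_mul, map_pow, map_neg, map_one, map_natCast, EisV_inv hp (EisV_ndvd (by omega) (by omega))]
    have s2 : ∀ j ∈ range (3 * t + 3), EisV_c p (((4 * t + 4).choose (t + 2 + j) : RR p) * (-1) ^ j * ((j + 1 : ℕ) : RR p)⁻¹) =
        ((4 * t + 4).choose (t + 2 + j) : ZMod p) * (-1) ^ j * ((j + 1 : ℕ) : ZMod p)⁻¹ := by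
      intro i hi
      have hi' := Finset.mem_range.mp hi
      rw [map_mul, map_mul, map_pow, map_neg, map_one, map_natCast, EisV_inv hp (EisV_ndvd (by omega) (by omega))]
    rw [Finset.sum_congr rfl s1, Finset.sum_congr rfl s2, key]
    have h3 : EisV_c p 3 = 3 := map_ofNat _ 3
    have h4 : EisV_c p 4 = 4 := map_ofNat _ 4
    rw [h3, h4]
  have hsq : (p : RR p) ^ 2 = 0 := rr_sq
  have hX2 : (p : RR p) * (((4 * t + 5 : ℕ) : RR p) * ∑ i ∈ range t, ((4 * t + 4).choose i : RR p) * (-1) ^ (t - i - 1) * ((t - i : ℕ) : RR p)⁻¹) +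
      (p : RR p) * (((4 * t + 5 : ℕ) : RR p) * ∑ j ∈ range (3 * t + 3), ((4 * t + 4).choose (t + 2 + j) : RR p) * (-1) ^ j * ((j + 1 : ℕ) : RR p)⁻¹) = p * X := by
    rw [hX]
    ring
  linear_combination (1 + (p : RR p)) * hX2 + hc + X * hsq

private theorem EisV_sum_units {G M : Type*} [Group G] [Fintype G] [AddCommMonoid M] {g : G} (hg : ∀ x, x ∈ Subgroup.zpowers g) (f : G → M) :
    ∑ x, f x = ∑ i ∈ range (Nat.card G), f (g ^ i) := by
  classical
  rw [← IsCyclic.image_range_card hg, Finset.sum_image]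
  intro i hi j hj hij
  have ho := orderOf_eq_card_of_forall_mem_zpowers hg
  rw [← ho] at hi hj
  exact pow_injOn_Iio_orderOf (by simpa using hi) (by simpa using hj) hij

private theorem EisV_odd {R : Type*} [CommRing R] {x : R} (h : x ^ 2 = 1) {n : ℕ} (hn : n % 2 = 1) : x ^ n = x := by
  obtain ⟨a, rfl⟩ : ∃ a, n = 2 * a + 1 := ⟨n / 2, by omega⟩
  rw [pow_succ, pow_mul, h, one_pow, one_mul]

private theorem EisV_W [Fact p.Prime] (hp2 : p ≠ 2) {F S : Type} [Field F] [Fintype F] [CommRing S] [CharP F p]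
    (L : Lift p (p ^ 2) F S) (u : S) (n : ZMod p) (h : L.pi u = ZMod.castHom (dvd_refl p) F n) :
    u ^ (p * ((p - 1) / 2)) = (qc p n : S) := by
  have hp : p.Prime := Fact.out
  have h4 := qc_pow (p := p) hp2 (T := S) L.sq ((n.val : ℕ) : ℤ)
  have h5 : ((((n.val : ℕ) : ℤ)) : ZMod p) = n := by
    rw [Int.cast_natCast, ZMod.natCast_zmod_val]
  rw [h5] at h4
  rw [← h4, pow_mul, pow_mul]
  congr 1
  apply L.pow_eq hp
  rw [h, map_intCast]
  conv_lhs => rw [← h5]
  rw [map_intCast]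

private theorem EisV_tau_e [Fact p.Prime] (hp2 : p ≠ 2) {F S : Type} [Field F] [Fintype F] [CommRing S] [CharP F p]
    (L : Lift p (p ^ 2) F S) (n : ZMod p) (hn : n ≠ 0) (a : ℕ) (ha : a % 2 = 1) :
    L.tau (ZMod.castHom (dvd_refl p) F n) ^ ((p - 1) / 2 * a) = (qc p n : S) := by
  have hp : p.Prime := Fact.out
  have h5 : ((((n.val : ℕ) : ℤ)) : ZMod p) = n := by
    rw [Int.cast_natCast, ZMod.natCast_zmod_val]
  have h1 : L.pi ((((n.val : ℕ) : ℤ)) : S) = ZMod.castHom (dvd_refl p) F n := by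
    rw [map_intCast]
    conv_rhs => rw [← h5]
    rw [map_intCast]
  have hsq : ((qc p n : ℤ) : S) ^ 2 = 1 := by
    have : (qc p n) ^ 2 = 1 := quadraticChar_sq_one hn
    exact_mod_cast congrArg (Int.cast : ℤ → S) this
  rw [L.tau_eq hp h1, ← pow_mul, show p ^ 2 * ((p - 1) / 2 * a) = (p * ((p - 1) / 2)) * (p * a) by ring, pow_mul,
    EisV_W hp2 L _ n h1]
  apply EisV_odd hsq
  have := hp.eq_two_or_odd
  rw [Nat.mul_mod]
  rcases this with h | h
  · exact absurd h hp2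
  · rw [h, ha]

private theorem EisV_prime [Fact p.Prime] {F : Type} [Field F] [CharP F p] (c : F) (h : c ^ p = c) :
    ∃ n : ZMod p, ZMod.castHom (dvd_refl p) F n = c := by
  have h1 := (Subfield.mem_bot_iff_pow_eq_self F p).mpr h
  rw [← ZMod.fieldRange_castHom_eq_bot p] at h1
  exact h1

/-- PROOF. q := p^2, τ := L.tau, m := (p-1)/2, k := p/8, (q-1)/8 = m (2k+1), e := 7 (q-1)/8, ζ := τ g ^ e, ζ^4 = τ(-1)^7 = -1 (g^((q-1)/2) = -1). Let Tr x := x + x^p, an element of the prime field (its p-th power is itself).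
(p-1) ∑_{Tr x = 1} τ x ^ e = ∑_{x ≠ 0} τ x ^ e (τ x + τ x ^ p)^(p m): group x by c := Tr x; for c = 0 the last factor is 0 (image 0, p-th power 0); for c ≠ 0 in the prime field, x = c y, Tr y = 1, (τ x + τ x^p)^(p m) = qc c
(qc_pow, Lift.pow_eq), τ c ^ ((q-1)/8) = qc c ^ (2k+1) = qc c, so τ c ^ e = qc c.
Expand: ∑_j C(p m, j) ∑_x τ x ^ (e + j + p (p m - j)); the exponent is ≡ - (p-1)(k+j) mod q-1, so by tau_sum only j with (p+1) ∣ (k+j) count, j = (p+1) i - k, 1 ≤ i ≤ m-1, with the factor q - 1 = -1. (p-1)(-(1+p)) = 1. Then eis_sum;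
an identity between integers modulo p^2 holds in S. -/
theorem eis_val [Fact p.Prime] (h : p % 8 = 3) (h5 : 5 ≤ p) {F S : Type} [Field F] [Fintype F] [DecidableEq F] [CommRing S] (L : Lift p (p ^ 2) F S)
    {g : Fˣ} (hg : ∀ x, x ∈ Subgroup.zpowers g) (N : ℤ) (hN : (N : RR p) = Gv p) :
    (L.tau (g : F) ^ (7 * ((p ^ 2 - 1) / 8))) ^ 4 = -1 ∧
      ∑ i ∈ (range (p ^ 2 - 1)).filter (fun i => (g : F) ^ i + ((g : F) ^ i) ^ p = 1), (L.tau (g : F) ^ (7 * ((p ^ 2 - 1) / 8))) ^ i = (N : S) := by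
  have hp : p.Prime := Fact.out
  have hp2 : p ≠ 2 := by omega
  have : CharP F p := (CharP.charP_iff_prime_eq_zero hp).mpr L.chr
  obtain ⟨t, ht⟩ : ∃ t, p = 8 * t + 11 := ⟨(p - 11) / 8, by omega⟩
  have hm : (p - 1) / 2 = 4 * t + 5 := by omega
  have hk : p / 8 = t + 1 := by omega
  have hq : p ^ 2 - 1 = 8 * ((4 * t + 5) * (2 * t + 3)) := by
    have : p ^ 2 = 8 * ((4 * t + 5) * (2 * t + 3)) + 1 := by rw [ht]; ring
    omega
  have hE : (p ^ 2 - 1) / 8 = (4 * t + 5) * (2 * t + 3) := by omega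
  have cardF : Nat.card Fˣ = p ^ 2 - 1 := by
    rw [Nat.card_eq_fintype_card, Fintype.card_units, L.card]
  have ho := orderOf_eq_card_of_forall_mem_zpowers hg
  rw [cardF] at ho
  have hpos : 0 < (4 * t + 5) * (2 * t + 3) := by positivity
  have hhalf : (g : F) ^ (4 * ((4 * t + 5) * (2 * t + 3))) = -1 := by
    have h1 : ((g : F) ^ (4 * ((4 * t + 5) * (2 * t + 3)))) ^ 2 = 1 := by
      rw [← pow_mul, show 4 * ((4 * t + 5) * (2 * t + 3)) * 2 = p ^ 2 - 1 by omega, ← L.card]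
      exact FiniteField.pow_card_sub_one_eq_one _ g.ne_zero
    rcases sq_eq_one_iff.mp h1 with h3 | h3
    · exfalso
      have h4 : g ^ (4 * ((4 * t + 5) * (2 * t + 3))) = 1 := by
        ext
        push_cast
        exact h3
      have h6 := orderOf_dvd_of_pow_eq_one h4
      rw [ho] at h6
      have := Nat.le_of_dvd (by omega) h6
      omega
    · exact h3
  constructor
  · rw [← pow_mul, hE, show 7 * ((4 * t + 5) * (2 * t + 3)) * 4 = 4 * ((4 * t + 5) * (2 * t + 3)) * 7 by ring, pow_mul,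
      ← L.tau_npow hp, hhalf, L.tau_neg hp hp2]
    norm_num
  · rw [hE]
    set e := 7 * ((4 * t + 5) * (2 * t + 3)) with he
    -- the sum over units
    have T1 : ∑ i ∈ (range (p ^ 2 - 1)).filter (fun i => (g : F) ^ i + ((g : F) ^ i) ^ p = 1), (L.tau (g : F) ^ e) ^ i =
        ∑ y ∈ (univ : Finset Fˣ).filter (fun y : Fˣ => (y : F) + (y : F) ^ p = 1), L.tau (y : F) ^ e := by
      rw [Finset.sum_filter, Finset.sum_filter, EisV_sum_units hg, cardF]
      refine Finset.sum_congr rfl fun i _ => ?_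
      push_cast
      have h3 : (L.tau (g : F) ^ e) ^ i = L.tau ((g : F) ^ i) ^ e := by
        rw [L.tau_npow hp, ← pow_mul, ← pow_mul, mul_comm]
      rw [h3]
    rw [T1]
    set T := ∑ y ∈ (univ : Finset Fˣ).filter (fun y : Fˣ => (y : F) + (y : F) ^ p = 1), L.tau (y : F) ^ e with hT
    let ι : ZMod p →+* F := ZMod.castHom (dvd_refl p) F
    have hι : ∀ n : ZMod p, (ι n) ^ p = ι n := by
      intro n
      rw [← map_pow, ZMod.pow_card]
    let υ : (ZMod p)ˣ →* Fˣ := Units.map (ι : ZMod p →* F)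
    have hυ : ∀ n : (ZMod p)ˣ, ((υ n : Fˣ) : F) = ι (n : ZMod p) := fun n => rfl
    have hinj : Function.Injective ι := ι.injective
    have tr : ∀ x : F, (x + x ^ p) ^ p = x + x ^ p := by
      intro x
      rw [add_pow_char, ← pow_mul, ← sq, ← L.card, FiniteField.pow_card]
      ring
    -- weights
    have W : ∀ x : Fˣ, ∀ n : ZMod p, ι n = (x : F) + (x : F) ^ p →
        (L.tau (x : F) + L.tau (x : F) ^ p) ^ (p * (4 * t + 5)) = (qc p n : S) := by
      intro x n hn
      rw [← hm]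
      apply EisV_W hp2 L
      rw [map_add, map_pow, L.tau_pi]
      exact hn.symm
    have main1 : ((p : S) - 1) * T = ∑ x : Fˣ, L.tau (x : F) ^ e * (L.tau (x : F) + L.tau (x : F) ^ p) ^ (p * (4 * t + 5)) := by
      have cU : (Finset.univ : Finset (ZMod p)ˣ).card = p - 1 := by
        rw [Finset.card_univ, ZMod.card_units_eq_totient, Nat.totient_prime hp]
      have s1 : ((p : S) - 1) * T = ∑ n : (ZMod p)ˣ, ∑ y ∈ (univ : Finset Fˣ).filter (fun y : Fˣ => (y : F) + (y : F) ^ p = 1), L.tau (y : F) ^ e := by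
        rw [← hT, Finset.sum_const, cU, nsmul_eq_mul, Nat.cast_sub hp.one_lt.le, Nat.cast_one]
      have s2 : ∑ x : Fˣ, L.tau (x : F) ^ e * (L.tau (x : F) + L.tau (x : F) ^ p) ^ (p * (4 * t + 5)) =
          ∑ x ∈ (univ : Finset Fˣ).filter (fun x : Fˣ => (x : F) + (x : F) ^ p ≠ 0), L.tau (x : F) ^ e * (L.tau (x : F) + L.tau (x : F) ^ p) ^ (p * (4 * t + 5)) := by
        rw [Finset.sum_filter]
        refine Finset.sum_congr rfl fun x _ => ?_
        split_ifs with hx
        · rfl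
        · rw [not_not] at hx
          rw [W x 0 (by rw [map_zero, hx])]
          have : qc p 0 = 0 := quadraticChar_zero
          rw [this, Int.cast_zero, mul_zero]
      rw [s1, s2, ← Finset.sum_product']
      refine Finset.sum_bij (fun z _ => υ z.1 * z.2) ?_ ?_ ?_ ?_
      · rintro ⟨n, y⟩ hz
        simp only [Finset.mem_product, Finset.mem_univ, Finset.mem_filter, true_and] at hz ⊢
        have h3 : (((υ n * y : Fˣ)) : F) + (((υ n * y : Fˣ)) : F) ^ p = ι n := by
          rw [Units.val_mul, hυ, mul_pow, hι, ← mul_add, hz, mul_one]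
        rw [h3]
        intro h4
        rw [← map_zero ι] at h4
        exact n.ne_zero (hinj h4)
      · rintro ⟨n, y⟩ hz ⟨n', y'⟩ hz' heq
        simp only [Finset.mem_product, Finset.mem_univ, Finset.mem_filter, true_and] at hz hz'
        have heq' : υ n * y = υ n' * y' := heq
        have h3 : (((υ n * y : Fˣ)) : F) + (((υ n * y : Fˣ)) : F) ^ p = ι n := by
          rw [Units.val_mul, hυ, mul_pow, hι, ← mul_add, hz, mul_one]
        have h4 : (((υ n' * y' : Fˣ)) : F) + (((υ n' * y' : Fˣ)) : F) ^ p = ι n' := by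
          rw [Units.val_mul, hυ, mul_pow, hι, ← mul_add, hz', mul_one]
        rw [heq', h4] at h3
        have h6 : n = n' := by
          ext
          exact (hinj h3).symm
        subst h6
        have h7 := mul_left_cancel heq'
        rw [h7]
      · intro x hx
        simp only [Finset.mem_univ, Finset.mem_filter, true_and] at hx
        obtain ⟨n0, hn0⟩ := EisV_prime (p := p) _ (tr (x : F))
        have hn0' : ι n0 = (x : F) + (x : F) ^ p := hn0
        have hne : n0 ≠ 0 := by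
          rintro rfl
          rw [map_zero] at hn0'
          exact hx hn0'.symm
        refine ⟨(Units.mk0 n0 hne, (υ (Units.mk0 n0 hne))⁻¹ * x), ?_, ?_⟩
        · simp only [Finset.mem_product, Finset.mem_univ, Finset.mem_filter, true_and]
          have h6 : ((((υ (Units.mk0 n0 hne))⁻¹ : Fˣ)) : F) = (ι n0)⁻¹ := by
            rw [Units.val_inv_eq_inv_val]
            rfl
          rw [Units.val_mul, h6, mul_pow, inv_pow, hι, ← mul_add, ← hn0']
          apply inv_mul_cancel₀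
          rw [hn0']
          exact hx
        · exact mul_inv_cancel_left _ _
      · rintro ⟨n, y⟩ hz
        simp only [Finset.mem_product, Finset.mem_univ, Finset.mem_filter, true_and] at hz
        change L.tau (y : F) ^ e = L.tau ((υ n * y : Fˣ) : F) ^ e * (L.tau ((υ n * y : Fˣ) : F) + L.tau ((υ n * y : Fˣ) : F) ^ p) ^ (p * (4 * t + 5))
        have h3 : (((υ n * y : Fˣ)) : F) + (((υ n * y : Fˣ)) : F) ^ p = ι n := by
          rw [Units.val_mul, hυ, mul_pow, hι, ← mul_add, hz, mul_one]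
        rw [W (υ n * y) n h3.symm, Units.val_mul, L.tau_mul hp, mul_pow, hυ]
        have h6 := EisV_tau_e hp2 L (n : ZMod p) n.ne_zero (7 * (2 * t + 3)) (by omega)
        rw [hm, show (4 * t + 5) * (7 * (2 * t + 3)) = e by rw [he]; ring] at h6
        have h7 : L.tau (ι (n : ZMod p)) ^ e = (qc p (n : ZMod p) : S) := h6
        have hsq : ((qc p (n : ZMod p) : ℤ) : S) ^ 2 = 1 := by
          have : (qc p (n : ZMod p)) ^ 2 = 1 := quadraticChar_sq_one n.ne_zero
          exact_mod_cast congrArg (Int.cast : ℤ → S) this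
        rw [h7]
        linear_combination (-L.tau (y : F) ^ e) * hsq
    -- expansion
    have B : ∀ x : Fˣ, L.tau (x : F) ^ e * (L.tau (x : F) + L.tau (x : F) ^ p) ^ (p * (4 * t + 5)) =
        ∑ j ∈ range (p * (4 * t + 5) + 1), (((p * (4 * t + 5)).choose j : ℕ) : S) * L.tau (x : F) ^ (e + j + p * (p * (4 * t + 5) - j)) := by
      intro x
      rw [add_pow, Finset.mul_sum]
      refine Finset.sum_congr rfl fun j _ => ?_
      rw [← pow_mul, pow_add, pow_add]
      ring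
    have C : ∀ j ∈ range (p * (4 * t + 5) + 1), ∑ x : Fˣ, (((p * (4 * t + 5)).choose j : ℕ) : S) * L.tau (x : F) ^ (e + j + p * (p * (4 * t + 5) - j)) =
        if (p + 1) ∣ t + 1 + j then -(((p * (4 * t + 5)).choose j : ℕ) : S) else 0 := by
      intro j hj
      have hj' := Finset.mem_range.mp hj
      rw [← Finset.mul_sum, L.tau_sum hp]
      have hpm : p - 1 = 2 * (4 * t + 5) := by omega
      have hpp : p + 1 = 4 * (2 * t + 3) := by omega
      obtain ⟨r, hr⟩ : ∃ r, p * (4 * t + 5) = j + r := ⟨p * (4 * t + 5) - j, by omega⟩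
      have key : (e + j + p * (p * (4 * t + 5) - j)) + 2 * (4 * t + 5) * (t + 1 + j) = (p ^ 2 - 1) * (4 * t + 6) := by
        rw [hr, Nat.add_sub_cancel_left, hq]
        have h6 : (e + j + p * r) + 2 * (4 * t + 5) * (t + 1 + j) = e + p * (j + r) + 2 * (4 * t + 5) * (t + 1) := by
          have : 2 * (4 * t + 5) * j + j = p * j := by
            rw [ht]; ring
          nlinarith [this]
        rw [h6, ← hr, he, ht]
        ring
      have hiff : (p ^ 2 - 1) ∣ (e + j + p * (p * (4 * t + 5) - j)) ↔ (p + 1) ∣ t + 1 + j := by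
        have h6 : (p ^ 2 - 1) ∣ (e + j + p * (p * (4 * t + 5) - j)) ↔ (p ^ 2 - 1) ∣ 2 * (4 * t + 5) * (t + 1 + j) := by
          have h7 : (p ^ 2 - 1) ∣ (e + j + p * (p * (4 * t + 5) - j)) + 2 * (4 * t + 5) * (t + 1 + j) := ⟨_, key⟩
          constructor
          · intro h8
            exact (Nat.dvd_add_right h8).mp h7
          · intro h8
            exact (Nat.dvd_add_left h8).mp h7
        rw [h6, hq, hpp, show 8 * ((4 * t + 5) * (2 * t + 3)) = 2 * (4 * t + 5) * (4 * (2 * t + 3)) by ring]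
        exact Nat.mul_dvd_mul_iff_left (by positivity)
      by_cases hd : (p + 1) ∣ t + 1 + j
      · rw [if_pos hd, if_pos (hiff.mpr hd), Nat.cast_pow, L.sq]
        ring
      · rw [if_neg hd, if_neg (fun h8 => hd (hiff.mp h8)), mul_zero]
    rw [Finset.sum_congr rfl fun x _ => B x, Finset.sum_comm, Finset.sum_congr rfl C, ← Finset.sum_filter] at main1
    have D : (range (p * (4 * t + 5) + 1)).filter (fun j => (p + 1) ∣ t + 1 + j) = (Ico 1 (4 * t + 5)).image (fun i => (p + 1) * i - (t + 1)) := by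
      ext j
      simp only [Finset.mem_filter, Finset.mem_range, Finset.mem_image, Finset.mem_Ico]
      constructor
      · rintro ⟨hj, a, ha⟩
        have ha0 : a ≠ 0 := by
          rintro rfl
          rw [mul_zero] at ha
          omega
        refine ⟨a, ⟨by omega, ?_⟩, by omega⟩
        by_contra hb
        have h3 : (p + 1) * (4 * t + 5) ≤ (p + 1) * a := Nat.mul_le_mul_left _ (by omega)
        rw [add_mul] at h3
        omega
      · rintro ⟨i, hi, rfl⟩
        have h3 : (p + 1) * i ≤ (p + 1) * (4 * t + 4) := Nat.mul_le_mul_left _ (by omega)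
        have h4 : (p + 1) * 1 ≤ (p + 1) * i := Nat.mul_le_mul_left _ (by omega)
        have h6 : (p + 1) * (4 * t + 4) + p + 1 = p * (4 * t + 5) + (4 * t + 5) := by ring
        refine ⟨by omega, i, ?_⟩
        omega
    rw [D, Finset.sum_image, Finset.sum_neg_distrib] at main1
    · have fin := eis_sum hp h h5
      rw [hm, hk, ← hN] at fin
      have h6 : (((1 + (p : ℤ)) * ∑ i ∈ Ico 1 (4 * t + 5), (((p * (4 * t + 5)).choose ((p + 1) * i - (t + 1)) : ℕ) : ℤ) - N : ℤ) : RR p) = 0 := by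
        push_cast
        rw [fin, sub_self]
      rw [ZMod.intCast_zmod_eq_zero_iff_dvd] at h6
      obtain ⟨w, hw⟩ := h6
      have h7 := congrArg (Int.cast : ℤ → S) hw
      push_cast at h7
      have hsq : (p : S) ^ 2 = 0 := L.sq
      rw [hsq, zero_mul] at h7
      linear_combination h7 - (1 + (p : S)) * main1 + T * hsq
    · intro i hi j hj hij
      simp only [Finset.coe_Ico, Set.mem_Ico] at hi hj
      have h3 : (p + 1) * i - (t + 1) = (p + 1) * j - (t + 1) := hij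
      have h4 : (p + 1) * 1 ≤ (p + 1) * i := Nat.mul_le_mul_left _ (by omega)
      have h6 : (p + 1) * 1 ≤ (p + 1) * j := Nat.mul_le_mul_left _ (by omega)
      exact Nat.eq_of_mul_eq_mul_left (show 0 < p + 1 by omega) (by omega)

end Pool.Agent.ADC
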