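import Pool.Agent.ADC.Defs

/-! Project ADC (MP_adc642_nt), module JacN (size 3): the Jacobi sum is an element of norm p of ℤ[√-2], p = 1 mod 8. -/

set_option autoImplicit false

namespace Pool.Agent.ADC

open Finset

variable {p : ℕ}

private theorem JacN_ord [Fact p.Prime] {g : (ZMod p)ˣ} (hg : ∀ x, x ∈ Subgroup.zpowers g) :
    orderOf g = p - 1 := by
  rw [orderOf_eq_card_of_forall_mem_zpowers hg, Nat.card_eq_fintype_card, ZMod.card_units]

private theorem JacN_enum [Fact p.Prime] {g : (ZMod p)ˣ} (hg : ∀ x, x ∈ Subgroup.zpowers g)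
    {M : Type} [AddCommMonoid M] (F : ZMod p → M) (h0 : F 0 = 0) :
    ∑ x, F x = ∑ i ∈ range (p - 1), F ((g : ZMod p) ^ i) := by
  classical
  rw [← Finset.sum_erase (Finset.univ : Finset (ZMod p)) h0]
  symm
  refine Finset.sum_bij (fun i _ => (g : ZMod p) ^ i) ?_ ?_ ?_ ?_
  · intro i _
    rw [Finset.mem_erase]
    exact ⟨pow_ne_zero _ g.ne_zero, Finset.mem_univ _⟩
  · intro i hi j hj hij
    rw [Finset.mem_range] at hi hj
    have h1 : g ^ i = g ^ j := by
      apply Units.ext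
      rw [Units.val_pow_eq_pow_val, Units.val_pow_eq_pow_val]
      exact hij
    exact pow_injOn_Iio_orderOf (x := g) (by rw [Set.mem_Iio, JacN_ord hg]; exact hi)
      (by rw [Set.mem_Iio, JacN_ord hg]; exact hj) h1
  · intro x hx
    rw [Finset.mem_erase] at hx
    have h1 := hg (Units.mk0 x hx.1)
    rw [mem_zpowers_iff_mem_range_orderOf, Finset.mem_image] at h1
    obtain ⟨i, hi, h2⟩ := h1
    rw [JacN_ord hg] at hi
    refine ⟨i, hi, ?_⟩
    have h3 : ((g ^ i : (ZMod p)ˣ) : ZMod p) = x := by rw [h2]; rfl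
    rw [Units.val_pow_eq_pow_val] at h3
    exact h3
  · intro i _
    rfl

private theorem JacN_sum (h : p % 8 = 1) (d : ℕ → ℤ)
    (hd : ∀ i, 0 < i → i < p - 1 → d (p - 1 - i) = (-1) ^ i * d i) :
    ∃ a b : ℤ, ∀ (A : Type) [CommRing A] (ζ : A), ζ ^ 4 = -1 →
      ∑ i ∈ range (p - 1), ζ ^ i * (d i : A) = a + b * (ζ + ζ ^ 3) := by
  classical
  obtain ⟨c, hc⟩ : ∃ c : ℕ → ℤ, c = fun j => ∑ i ∈ (range (p - 1)).filter (fun i => i % 8 = j), d i := ⟨_, rfl⟩
  have hsym : ∀ j, 0 < j → j < 8 → c (8 - j) = (-1) ^ j * c j := by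
    intro j hj hj8
    rw [hc]
    simp only
    rw [Finset.mul_sum]
    refine Finset.sum_nbij' (fun i => p - 1 - i) (fun i => p - 1 - i) ?_ ?_ ?_ ?_ ?_
    · intro i hi
      rw [Finset.mem_filter, Finset.mem_range] at hi ⊢
      omega
    · intro i hi
      rw [Finset.mem_filter, Finset.mem_range] at hi ⊢
      omega
    · intro i hi
      rw [Finset.mem_filter, Finset.mem_range] at hi
      show p - 1 - (p - 1 - i) = i
      omega
    · intro i hi
      rw [Finset.mem_filter, Finset.mem_range] at hi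
      show p - 1 - (p - 1 - i) = i
      omega
    · intro i hi
      rw [Finset.mem_filter, Finset.mem_range] at hi
      have h1 : 0 < p - 1 - i := by omega
      have h2 : p - 1 - i < p - 1 := by omega
      have h3 := hd (p - 1 - i) h1 h2
      have h4 : p - 1 - (p - 1 - i) = i := by omega
      rw [h4] at h3
      have h5 : ((-1 : ℤ)) ^ (p - 1 - i) = (-1) ^ j := by
        have h6 : p - 1 - i = j + 2 * ((p - 1 - i - j) / 2) := by omega
        rw [h6, pow_add, pow_mul]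
        norm_num
      rw [h3, h5]
  have e1 : c 7 = - c 1 := by have := hsym 1 (by norm_num) (by norm_num); simpa using this
  have e2 : c 6 = c 2 := by have := hsym 2 (by norm_num) (by norm_num); simpa using this
  have e3 : c 5 = - c 3 := by
    have := hsym 3 (by norm_num) (by norm_num)
    norm_num at this
    exact this
  refine ⟨c 0 - c 4, c 1 + c 3, ?_⟩
  intro A _ ζ hζ
  have h8 : ζ ^ 8 = 1 := by
    have : ζ ^ 8 = (ζ ^ 4) ^ 2 := by ring
    rw [this, hζ]; norm_num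
  have key : ∑ i ∈ range (p - 1), ζ ^ i * (d i : A) = ∑ j ∈ range 8, ζ ^ j * (c j : A) := by
    rw [← Finset.sum_fiberwise_of_maps_to (s := range (p - 1)) (t := range 8) (g := fun i => i % 8)
      (fun i _ => Finset.mem_range.2 (Nat.mod_lt _ (by norm_num)))]
    refine Finset.sum_congr rfl ?_
    intro j _
    rw [hc]
    simp only
    push_cast
    rw [Finset.mul_sum]
    refine Finset.sum_congr rfl ?_
    intro i hi
    rw [Finset.mem_filter] at hi
    have h9 : ζ ^ i = ζ ^ j := by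
      have h10 : i = 8 * (i / 8) + j := by
        have h11 := Nat.div_add_mod i 8
        have h12 := hi.2
        omega
      calc ζ ^ i = ζ ^ (8 * (i / 8) + j) := by rw [← h10]
        _ = ζ ^ j := by rw [pow_add, pow_mul, h8, one_pow, one_mul]
    rw [h9]
  rw [key]
  simp only [Finset.sum_range_succ, Finset.sum_range_zero]
  rw [e1, e2, e3]
  push_cast
  have h5 : ζ ^ 5 = - ζ := by have : ζ ^ 5 = ζ ^ 4 * ζ := by ring
                              rw [this, hζ]; ring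
  have h6 : ζ ^ 6 = - ζ ^ 2 := by have : ζ ^ 6 = ζ ^ 4 * ζ ^ 2 := by ring
                                  rw [this, hζ]; ring
  have h7 : ζ ^ 7 = - ζ ^ 3 := by have : ζ ^ 7 = ζ ^ 4 * ζ ^ 3 := by ring
                                  rw [this, hζ]; ring
  rw [h5, h6, h7, hζ]
  ring

private theorem JacN_gen [Fact p.Prime] (h : p % 8 = 1) {g : (ZMod p)ˣ} (hg : ∀ x, x ∈ Subgroup.zpowers g) :
    quadraticChar (ZMod p) (g : ZMod p) = -1 := by
  have hp2 : ringChar (ZMod p) ≠ 2 := by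
    rw [ZMod.ringChar_zmod_n]
    omega
  rcases quadraticChar_dichotomy (F := ZMod p) (a := (g : ZMod p)) g.ne_zero with h1 | h1
  · exfalso
    apply quadraticChar_ne_one hp2
    apply MulChar.ext
    intro u
    have h2 := hg u
    rw [mem_zpowers_iff_mem_range_orderOf, Finset.mem_image] at h2
    obtain ⟨i, _, h2⟩ := h2
    rw [← h2, Units.val_pow_eq_pow_val, map_pow, h1, one_pow, map_pow, MulChar.one_apply g.isUnit, one_pow]
  · exact h1

/-- PROOF. c j := ∑_{i < p-1, i % 8 = j} qc (1 - g^i) ∈ ℤ. The sum is ∑_{j<8} c j ζ^j. The map i → p-1-i (x → 1/x) gives c (8-j) = (-1)^j c j (indices mod 8): qc (1 - 1/x) = qc (x-1) qc x, qc (-1) = 1, qc (g^i) = (-1)^i.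
So c 7 = - c 1, c 5 = - c 3, c 6 = c 2, and with ζ^4 = -1 the sum is (c 0 - c 4) + (c 1 + c 3) (ζ + ζ^3). a := c 0 - c 4, b := c 1 + c 3.
Norm: A = ℂ, ζ a primitive 8-th root of unity, s := ζ + ζ^3, s^2 = -2; χ the MulChar with χ g = ζ (MulChar.equivToUnitHom / MulChar.ofRootOfUnity), φ the quadratic character: jacobiSum χ φ = a + b s, jacobiSum χ⁻¹ φ⁻¹ = a - b s,
jacobiSum_mul_jacobiSum_inv: product p = a^2 + 2 b^2. (Or directly: the product is ∑_t χ t ∑_y φ ((1 - t y)(1 - y)).) -/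
theorem jac_norm [Fact p.Prime] (h : p % 8 = 1) {g : (ZMod p)ˣ} (hg : ∀ x, x ∈ Subgroup.zpowers g) :
    ∃ a b : ℤ, a ^ 2 + 2 * b ^ 2 = p ∧ ∀ (A : Type) [CommRing A] (ζ : A), ζ ^ 4 = -1 →
      ∑ i ∈ range (p - 1), ζ ^ i * (qc p (1 - (g : ZMod p) ^ i) : A) = a + b * (ζ + ζ ^ 3) := by
  have hpp : p.Prime := Fact.out
  have hp2 : ringChar (ZMod p) ≠ 2 := by
    rw [ZMod.ringChar_zmod_n]
    omega
  have hgen := JacN_gen h hg
  have hqm : quadraticChar (ZMod p) (-1) = 1 := by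
    rw [quadraticChar_neg_one hp2, ZMod.card]
    rw [ZMod.χ₄_nat_one_mod_four (by omega)]
  obtain ⟨a, b, hab⟩ := JacN_sum (p := p) h (fun i => qc p (1 - (g : ZMod p) ^ i)) (by
    intro i hi hi2
    unfold qc
    have h1 : (g : ZMod p) ^ (p - 1 - i) * (g : ZMod p) ^ i = 1 := by
      rw [← pow_add]
      have h2 : p - 1 - i + i = p - 1 := by omega
      rw [h2]
      exact ZMod.pow_card_sub_one_eq_one g.ne_zero
    have h3 : (1 - (g : ZMod p) ^ (p - 1 - i)) * (g : ZMod p) ^ i = (-1) * (1 - (g : ZMod p) ^ i) := by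
      rw [sub_mul, h1]; ring
    have h4 := congrArg (quadraticChar (ZMod p)) h3
    rw [map_mul, map_mul, hqm, one_mul, map_pow, hgen] at h4
    have h5 : ((-1 : ℤ) ^ i) * ((-1) ^ i) = 1 := by
      rw [← mul_pow]; norm_num
    calc quadraticChar (ZMod p) (1 - (g : ZMod p) ^ (p - 1 - i))
        = quadraticChar (ZMod p) (1 - (g : ZMod p) ^ (p - 1 - i)) * (((-1 : ℤ) ^ i) * ((-1) ^ i)) := by
          rw [h5, mul_one]
      _ = (quadraticChar (ZMod p) (1 - (g : ZMod p) ^ (p - 1 - i)) * ((-1 : ℤ) ^ i)) * ((-1) ^ i) := by ring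
      _ = (-1) ^ i * quadraticChar (ZMod p) (1 - (g : ZMod p) ^ i) := by rw [h4]; ring)
  refine ⟨a, b, ?_, hab⟩
  obtain ⟨ζ, hζ⟩ := IsAlgClosed.exists_pow_nat_eq (-1 : ℂ) (n := 4) (by norm_num)
  have hζ8 : ζ ^ 8 = 1 := by
    have : ζ ^ 8 = (ζ ^ 4) ^ 2 := by ring
    rw [this, hζ]; norm_num
  have hζ0 : ζ ≠ 0 := by
    rintro rfl
    norm_num at hζ8
  have hroot : (Units.mk0 ζ hζ0) ∈ rootsOfUnity (Fintype.card (ZMod p)ˣ) ℂ := by
    rw [mem_rootsOfUnity, ZMod.card_units]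
    apply Units.ext
    rw [Units.val_pow_eq_pow_val, Units.val_mk0, Units.val_one]
    have h2 : p - 1 = 8 * ((p - 1) / 8) := by omega
    rw [h2, pow_mul, hζ8, one_pow]
  obtain ⟨χ, hχdef⟩ : ∃ χ : MulChar (ZMod p) ℂ, χ = MulChar.ofRootOfUnity hroot hg := ⟨_, rfl⟩
  have hχg : χ (g : ZMod p) = ζ := by
    rw [hχdef, MulChar.ofRootOfUnity_spec, Units.val_mk0]
  obtain ⟨φ, hφdef⟩ : ∃ φ : MulChar (ZMod p) ℂ, φ = (quadraticChar (ZMod p)).ringHomComp (Int.castRingHom ℂ) := ⟨_, rfl⟩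
  have hφg : φ (g : ZMod p) = -1 := by
    rw [hφdef, MulChar.ringHomComp_apply, hgen]; simp
  have hφap : ∀ x, φ x = ((qc p x : ℤ) : ℂ) := by
    intro x
    rw [hφdef, MulChar.ringHomComp_apply]; rfl
  have hχ1 : χ ≠ 1 := by
    intro h1
    rw [h1, MulChar.one_apply g.isUnit] at hχg
    rw [← hχg] at hζ
    norm_num at hζ
  have hφ1 : φ ≠ 1 := by
    intro h1
    rw [h1, MulChar.one_apply g.isUnit] at hφg
    norm_num at hφg
  have hχφ : χ * φ ≠ 1 := by
    intro h1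
    have h2 : (χ * φ) (g : ZMod p) = 1 := by rw [h1, MulChar.one_apply g.isUnit]
    rw [MulChar.mul_apply, hχg, hφg] at h2
    have h3 : ζ = -1 := by linear_combination -h2
    rw [h3] at hζ
    norm_num at hζ
  have hchar : ringChar ℂ ≠ ringChar (ZMod p) := by
    rw [ZMod.ringChar_zmod_n, ringChar.eq_zero]
    exact hpp.pos.ne
  have hprod := jacobiSum_mul_jacobiSum_inv hchar hχ1 hφ1 hχφ
  rw [ZMod.card] at hprod
  have hφinv : φ⁻¹ = φ := by
    apply MulChar.IsQuadratic.inv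
    rw [hφdef]
    exact (quadraticChar_isQuadratic (F := ZMod p)).comp _
  have hJ1 : jacobiSum χ φ = a + b * (ζ + ζ ^ 3) := by
    rw [← hab ℂ ζ hζ]
    unfold jacobiSum
    rw [JacN_enum hg (fun x => χ x * φ (1 - x)) (by rw [MulChar.map_zero, zero_mul])]
    refine Finset.sum_congr rfl ?_
    intro i _
    rw [map_pow, hχg, hφap]
  have hJ2 : jacobiSum χ⁻¹ φ⁻¹ = a + b * (ζ⁻¹ + ζ⁻¹ ^ 3) := by
    rw [← hab ℂ ζ⁻¹ (by rw [inv_pow, hζ]; norm_num), hφinv]
    unfold jacobiSum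
    rw [JacN_enum hg (fun x => χ⁻¹ x * φ (1 - x)) (by rw [MulChar.map_zero, zero_mul])]
    refine Finset.sum_congr rfl ?_
    intro i _
    have h1 : χ⁻¹ (g : ZMod p) = ζ⁻¹ := by
      rw [MulChar.inv_apply_eq_inv', hχg]
    rw [map_pow, h1, hφap]
  rw [hJ1, hJ2] at hprod
  have hinv : ζ⁻¹ = - ζ ^ 3 := by
    field_simp
    linear_combination hζ
  have hinv3 : ζ⁻¹ ^ 3 = - ζ := by
    rw [hinv]
    have : (-ζ ^ 3) ^ 3 = - (ζ ^ 4) * (ζ ^ 4) * ζ := by ring
    rw [this, hζ]; ring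
  rw [hinv3, hinv] at hprod
  have hfin : ((a ^ 2 + 2 * b ^ 2 : ℤ) : ℂ) = ((p : ℤ) : ℂ) := by
    push_cast
    rw [← hprod]
    have : (↑a + ↑b * (ζ + ζ ^ 3)) * (↑a + ↑b * (-ζ ^ 3 + -ζ)) = (a : ℂ) ^ 2 - b ^ 2 * (ζ ^ 2 + 2 * ζ ^ 4 + ζ ^ 4 * ζ ^ 2) := by ring
    rw [this, hζ]
    ring
  exact_mod_cast hfin

end Pool.Agent.ADC
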