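import Pool.Agent.ADC.JacV
import Pool.Agent.ADC.JacN
import Pool.Agent.ADC.EisV
import Pool.Agent.ADC.EisN

/-! Project ADC (MP_adc642_nt), module Rep (size 2): the square of the common value and the representation p = a^2 + 2 b^2. -/

set_option autoImplicit false

namespace Pool.Agent.ADC

open Finset

variable {p : ℕ}

private theorem rep_p2 (p : ℕ) : (p : RR p) ^ 2 = 0 := by
  have := ZMod.natCast_self (p ^ 2)
  rw [Nat.cast_pow] at this
  exact this

/-- PROOF. the binomial coefficient is a unit (p does not divide it, (p-1)/2 < p), the other factor is 1 + (multiple of p), p ^ 2 = 0. -/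
theorem Gv_unit (hp : p.Prime) (h5 : 5 ≤ p) : IsUnit (Gv p) := by
  unfold Gv
  apply IsUnit.mul
  · rw [ZMod.isUnit_iff_coprime]
    apply Nat.Coprime.pow_right
    rw [Nat.coprime_comm, hp.coprime_iff_not_dvd]
    intro hd
    have hk : p / 8 ≤ (p - 1) / 2 := by omega
    have h1 : ((p - 1) / 2).choose (p / 8) ∣ ((p - 1) / 2).factorial := by
      rw [← Nat.choose_mul_factorial_mul_factorial hk, mul_assoc]
      exact dvd_mul_right _ _
    have h2 := (hp.dvd_factorial).1 (hd.trans h1)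
    omega
  · apply IsNilpotent.isUnit_one_add
    refine ⟨2, ?_⟩
    rw [mul_assoc, mul_pow, rep_p2, zero_mul]

/-- PROOF. s := ζ + ζ^3, s^2 = -2. α := a + b s, α' := a - b s, α α' = p, 4 a^2 = (α + α')^2 = α^2 + α'^2 + 2 p, α^2 α'^2 = p^2 = 0 and α is a unit, so α'^2 = 0. -/
theorem rep_alg {S : Type} [CommRing S] (hS : (p : S) ^ 2 = 0) {a b : ℤ} (hab : a ^ 2 + 2 * b ^ 2 = p) {ζ u : S} (hζ : ζ ^ 4 = -1)
    (h : a + b * (ζ + ζ ^ 3) = u) (hu : IsUnit u) : ((4 * a ^ 2 - 2 * p : ℤ) : S) = u ^ 2 := by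
  have hs : (ζ + ζ ^ 3) ^ 2 = -2 := by
    have : (ζ + ζ ^ 3) ^ 2 = ζ ^ 2 + 2 * ζ ^ 4 + ζ ^ 2 * ζ ^ 4 := by ring
    rw [this, hζ]; ring
  have hp' : (p : S) = (a : S) ^ 2 + 2 * (b : S) ^ 2 := by
    have := congrArg (Int.cast : ℤ → S) hab
    push_cast at this
    exact this.symm
  set s : S := ζ + ζ ^ 3 with hsdef
  set v : S := (a : S) - b * s with hv
  have huv : u * v = (p : S) := by
    rw [← h, hv, hp']
    linear_combination (-(b : S) ^ 2) * hs
  have h0 : u ^ 2 * v ^ 2 = 0 := by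
    rw [← mul_pow, huv, hS]
  have hv2 : v ^ 2 = 0 := by
    have hu2 : IsUnit (u ^ 2) := hu.pow 2
    have := hu2.mul_right_eq_zero.1 h0
    exact this
  have h4 : (4 * (a : S) ^ 2 - 2 * p) = u ^ 2 + v ^ 2 := by
    rw [← huv, ← h, hv]; ring
  push_cast
  rw [h4, hv2, add_zero]

/-- PROOF. p % 8 = 1: liftP, IsCyclic.exists_generator, jac_norm, jac_val, rep_alg in S = RR p. p % 8 = 3: liftG, IsCyclic.exists_generator, eis_norm (hc := L.chr), N := any integer with image Gv p (ZMod.intCast_surjective),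
eis_val, rep_alg in S (N is a unit of S since it is prime to p: N N' = 1 + p^2 c), Lift.inj. -/
theorem rep_val [Fact p.Prime] (h5 : 5 ≤ p) (h : p % 8 = 1 ∨ p % 8 = 3) :
    ∃ a b : ℤ, a ^ 2 + 2 * b ^ 2 = p ∧ ((4 * a ^ 2 - 2 * p : ℤ) : RR p) = Gv p ^ 2 := by
  have hp : p.Prime := Fact.out
  rcases h with h | h
  · obtain ⟨L⟩ := liftP (p := p) hp
    obtain ⟨g, hg⟩ := IsCyclic.exists_generator (α := (ZMod p)ˣ)
    obtain ⟨a, b, hab, hsum⟩ := jac_norm (p := p) h hg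
    obtain ⟨hz, hv⟩ := jac_val (p := p) h L hg
    refine ⟨a, b, hab, ?_⟩
    have h1 := hsum (RR p) _ hz
    rw [hv] at h1
    have hu : IsUnit (-(-1) ^ (p / 8) * Gv p : RR p) := by
      apply IsUnit.mul _ (Gv_unit hp h5)
      apply IsUnit.neg
      exact (isUnit_one.neg).pow _
    rw [rep_alg (rep_p2 p) hab hz h1.symm hu, mul_pow, neg_pow, ← pow_mul, mul_comm (p / 8) 2, pow_mul]
    simp
  · obtain ⟨F, S, i1, i2, i3, ⟨L⟩⟩ := liftG (p := p) hp (by omega)
    classical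
    obtain ⟨g, hg⟩ := IsCyclic.exists_generator (α := Fˣ)
    obtain ⟨a, b, hab, hsum⟩ := eis_norm (p := p) h (F := F) L.card L.chr hg
    obtain ⟨N, hN⟩ := ZMod.intCast_surjective (Gv p)
    obtain ⟨hz, hv⟩ := eis_val (p := p) h h5 L hg N hN
    refine ⟨a, b, hab, ?_⟩
    have h1 := hsum S _ hz
    rw [hv] at h1
    have hS : (p : S) ^ 2 = 0 := L.sq
    have hcast : ∀ z : ℤ, ((z : ℤ) : RR p) = 0 → (z : S) = 0 := by
      intro z hz0
      rw [ZMod.intCast_zmod_eq_zero_iff_dvd] at hz0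
      obtain ⟨c, rfl⟩ := hz0
      push_cast
      rw [hS, zero_mul]
    have hu : IsUnit ((N : ℤ) : S) := by
      obtain ⟨v, hv'⟩ := (Gv_unit hp h5).exists_right_inv
      obtain ⟨N', rfl⟩ := ZMod.intCast_surjective v
      have h2 : ((N * N' - 1 : ℤ) : RR p) = 0 := by
        push_cast
        rw [hN, hv', sub_self]
      have h3 := hcast _ h2
      push_cast at h3
      exact IsUnit.of_mul_eq_one _ (sub_eq_zero.1 h3)
    have h4 := rep_alg hS hab hz h1.symm hu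
    have h5' : ((4 * a ^ 2 - 2 * p - N ^ 2 : ℤ) : S) = 0 := by
      have : ((4 * a ^ 2 - 2 * p - N ^ 2 : ℤ) : S) = ((4 * a ^ 2 - 2 * p : ℤ) : S) - (N : S) ^ 2 := by push_cast; ring
      rw [this, h4, sub_self]
    have h6 := L.inj _ h5'
    have h7 : ((4 * a ^ 2 - 2 * p - N ^ 2 : ℤ) : RR p) = 0 := by
      rw [ZMod.intCast_zmod_eq_zero_iff_dvd]
      push_cast
      exact h6
    rw [← hN]
    have : ((4 * a ^ 2 - 2 * p : ℤ) : RR p) = ((4 * a ^ 2 - 2 * p - N ^ 2 : ℤ) : RR p) + (N : RR p) ^ 2 := by push_cast; ring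
    rw [this, h7, zero_add]

end Pool.Agent.ADC
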