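import Pool.Agent.ADC.Defs

/-! Project ADC (MP_adc642_nt), module Small (size 2): the primes below 29 by computation. -/

set_option autoImplicit false

namespace Pool.Agent.ADC

open Finset

private theorem Small_aux (p v : ℕ) (w : ℕ) (h : w * 96 % p ^ 2 = 1 % p ^ 2)
    (hv : (∑ n ∈ range p, bb n * w ^ n) % p ^ 2 = v % p ^ 2) : Zs p = (v : RR p) := by
  have h1 : (96 : RR p)⁻¹ = (w : RR p) := by
    have h2 : ((w : RR p)) * (96 : RR p) = 1 := by
      have := (ZMod.natCast_eq_natCast_iff' (w * 96) 1 (p ^ 2)).2 h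
      push_cast at this
      exact this
    exact ZMod.inv_eq_of_mul_eq_one _ _ _ (by rw [mul_comm]; exact h2)
  unfold Zs
  rw [h1]
  have h3 := (ZMod.natCast_eq_natCast_iff' (∑ n ∈ range p, bb n * w ^ n) v (p ^ 2)).2 hv
  push_cast at h3
  exact h3

private def Small_ch (n k : ℕ) : ℕ := n.factorial / (k.factorial * (n - k).factorial)

private def Small_bb (n : ℕ) : ℕ :=
  Small_ch (2 * n) n * ∑ k ∈ range (n + 1), (Small_ch n k) ^ 3

private theorem Small_ch_eq (n k : ℕ) (h : k ≤ n) : n.choose k = Small_ch n k :=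
  Nat.choose_eq_factorial_div_factorial h

private theorem Small_bb_eq (n : ℕ) : bb n = Small_bb n := by
  unfold bb Small_bb fran
  rw [Small_ch_eq (2 * n) n (by omega)]
  congr 1
  refine sum_congr rfl fun k hk => ?_
  rw [Small_ch_eq n k (by have := mem_range.1 hk; omega)]

private theorem Small_aux2 (p v : ℕ) (w : ℕ) (h : w * 96 % p ^ 2 = 1 % p ^ 2)
    (hv : (∑ n ∈ range p, Small_bb n * w ^ n) % p ^ 2 = v % p ^ 2) : Zs p = (v : RR p) := by
  refine Small_aux p v w h ?_
  rw [← hv]
  congr 1
  exact sum_congr rfl fun n _ => by rw [Small_bb_eq]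

/-- PROOF (all). Replace (96)⁻¹ by its value (ZMod.inv_eq_of_mul_eq_one or eq_inv_of_mul_eq_one), compute the integers bb n (decide +kernel / norm_num [Nat.choose] / rfl), reduce. -/
theorem zs5 : Zs 5 = 0 := by
  rw [Small_aux2 5 0 6 (by decide +kernel) (by decide +kernel)]; decide +kernel
theorem zs7 : Zs 7 = 0 := by
  rw [Small_aux2 7 0 24 (by decide +kernel) (by decide +kernel)]; decide +kernel
theorem zs11 : Zs 11 = -14 := by
  rw [Small_aux2 11 107 29 (by decide +kernel) (by decide +kernel)]; decide +kernel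
theorem zs13 : Zs 13 = 0 := by
  rw [Small_aux2 13 0 125 (by decide +kernel) (by decide +kernel)]; decide +kernel
theorem zs17 : Zs 17 = -2 := by
  rw [Small_aux2 17 287 286 (by decide +kernel) (by decide +kernel)]; decide +kernel
theorem zs19 : Zs 19 = -34 := by
  rw [Small_aux2 19 327 267 (by decide +kernel) (by decide +kernel)]; decide +kernel
theorem zs23 : Zs 23 = 0 := by
  rw [Small_aux2 23 0 259 (by decide +kernel) (by decide +kernel)]; decide +kernel

end Pool.Agent.ADC
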