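import Mathlib

/-! Project ADC (MP_adc642_nt), module Uniq (size 1): elementary facts on p = x^2 + 2 y^2 and on Legendre symbols. -/

set_option autoImplicit false

namespace Pool.Agent.ADC

variable {p : ℕ}

/-- PROOF. x^2 b^2 - y^2 a^2 = p (b^2 - y^2) so p divides x b - y a or x b + y a; (a x + 2 b y)^2 + 2 (a y - b x)^2 = p^2 (and the same with b -> -b). If p divides a y - b x, it divides a x + 2 b y too, so
one of them is 0, the other is ± p. 2 (ay - bx)^2 = p^2 is impossible, so ay = bx, and a^2 + 2b^2 = x^2 + 2y^2, .. gives a^2 = x^2. -/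
theorem uniq_sq (hp : p.Prime) {a b x y : ℤ} (h1 : a ^ 2 + 2 * b ^ 2 = p) (h2 : x ^ 2 + 2 * y ^ 2 = p) : a ^ 2 = x ^ 2 := by
  have hp0 : (0 : ℤ) < p := by exact_mod_cast hp.pos
  have hpp : Prime (p : ℤ) := Nat.prime_iff_prime_int.mp hp
  have key : ∀ b' : ℤ, a ^ 2 + 2 * b' ^ 2 = p → (p : ℤ) ∣ a * y - b' * x → a ^ 2 = x ^ 2 := by
    intro b' h1' hd
    obtain ⟨k, hk⟩ := hd
    have e : (a * x + 2 * b' * y) ^ 2 + 2 * (a * y - b' * x) ^ 2 = (p : ℤ) ^ 2 := by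
      calc (a * x + 2 * b' * y) ^ 2 + 2 * (a * y - b' * x) ^ 2
          = (a ^ 2 + 2 * b' ^ 2) * (x ^ 2 + 2 * y ^ 2) := by ring
        _ = (p : ℤ) ^ 2 := by rw [h1', h2]; ring
    have hk0 : k = 0 := by
      by_contra hne
      have h1k : 0 < k ^ 2 := by positivity
      have h1k' : 1 ≤ k ^ 2 := h1k
      rw [hk] at e
      have h3 : (p : ℤ) ^ 2 * 1 ≤ (p : ℤ) ^ 2 * k ^ 2 :=
        mul_le_mul_of_nonneg_left h1k' (by positivity)
      have h4 : 0 < (p : ℤ) ^ 2 := by positivity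
      nlinarith [sq_nonneg (a * x + 2 * b' * y)]
    rw [hk0, mul_zero] at hk
    have h5 : a * y = b' * x := by linarith
    have h6 : (p : ℤ) * (a ^ 2 - x ^ 2) = 0 := by
      have h7 : (a * y) ^ 2 = (b' * x) ^ 2 := by rw [h5]
      linear_combination 2 * h7 - a ^ 2 * h2 + x ^ 2 * h1'
    rcases mul_eq_zero.mp h6 with h8 | h8
    · exact absurd h8 hp0.ne'
    · linarith
  have hd : (p : ℤ) ∣ (a * y - b * x) * (a * y + b * x) := by
    refine ⟨y ^ 2 - b ^ 2, ?_⟩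
    linear_combination y ^ 2 * h1 - b ^ 2 * h2
  rcases hpp.dvd_or_dvd hd with h | h
  · exact key b h1 h
  · refine key (-b) ?_ ?_
    · rw [neg_sq]; exact h1
    · have : a * y - -b * x = a * y + b * x := by ring
      rw [this]; exact h

theorem rep_mod (hp : p.Prime) (h5 : 5 ≤ p) {x y : ℤ} (h : x ^ 2 + 2 * y ^ 2 = p) : p % 8 = 1 ∨ p % 8 = 3 := by
  have hodd : p % 2 = 1 := by
    rcases hp.eq_two_or_odd with h2 | h2
    · omega
    · exact h2
  have hsq : ∀ z : ℤ, z % 2 = 1 → ∃ n : ℤ, z ^ 2 = 8 * n + 1 := by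
    intro z hz
    obtain ⟨m, hm⟩ : ∃ m, z = 2 * m + 1 := ⟨z / 2, by omega⟩
    obtain ⟨n, hn⟩ := Int.even_mul_succ_self m
    refine ⟨n, ?_⟩
    rw [hm]
    linear_combination 4 * hn
  have hev : ∀ z : ℤ, z % 2 = 0 → ∃ n : ℤ, z ^ 2 = 4 * n := by
    intro z hz
    obtain ⟨m, hm⟩ : ∃ m, z = 2 * m := ⟨z / 2, by omega⟩
    exact ⟨m ^ 2, by rw [hm]; ring⟩
  have hx : x % 2 = 1 := by
    rcases Int.emod_two_eq_zero_or_one x with h0 | h0
    · exfalso
      obtain ⟨n, hn⟩ := hev x h0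
      rw [hn] at h
      omega
    · exact h0
  obtain ⟨n, hn⟩ := hsq x hx
  rcases Int.emod_two_eq_zero_or_one y with h0 | h0
  · obtain ⟨n', hn'⟩ := hev y h0
    rw [hn, hn'] at h
    left; omega
  · obtain ⟨n', hn'⟩ := hsq y h0
    rw [hn, hn'] at h
    right; omega

/-- PROOF. (6/p) = (2/p) (3/p). p = 1 mod 8: (2/p) = 1, (3/p) = (p/3) (quadratic reciprocity, p = 1 mod 4). p = 3 mod 8: (2/p) = -1, (3/p) = - (p/3). -/
theorem leg6 [Fact p.Prime] (h5 : 5 ≤ p) (h : p % 8 = 1 ∨ p % 8 = 3) : legendreSym p 6 = legendreSym 3 p := by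
  have h2 : p ≠ 2 := by omega
  have e6 : legendreSym p 6 = legendreSym p 2 * legendreSym p 3 := by
    rw [← legendreSym.mul]; norm_num
  have hqr := legendreSym.quadratic_reciprocity' (p := 3) (q := p) (by norm_num) h2
  have e2 := legendreSym.at_two (p := p) h2
  have e3 : legendreSym p 3 = legendreSym p ((3 : ℕ) : ℤ) := by norm_num
  rw [e6, e2, e3, hqr]
  rw [ZMod.χ₈_nat_eq_if_mod_eight]
  rcases h with h | h
  · have hev : (-1 : ℤ) ^ (3 / 2 * (p / 2)) = 1 := by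
      apply Even.neg_one_pow
      rw [Nat.even_iff]; omega
    rw [hev]
    have h1 : ¬ (p % 2 = 0) := by omega
    simp [h, h1]
  · have hod : (-1 : ℤ) ^ (3 / 2 * (p / 2)) = -1 := by
      apply Odd.neg_one_pow
      rw [Nat.odd_iff]; omega
    rw [hod]
    have h1 : ¬ (p % 2 = 0) := by omega
    simp [h, h1]

end Pool.Agent.ADC
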