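import Pool.Agent.ADC.Ev
import Pool.Agent.ADC.Hsv
import Pool.Agent.ADC.CL
import Pool.Agent.ADC.Rep
import Pool.Agent.ADC.Uniq
import Pool.Agent.ADC.Small

/-! Project ADC (MP_adc642_nt), module Core: the theorem in ZMod (p^2). -/

set_option autoImplicit false

namespace Pool.Agent.ADC

open Finset

variable {p : ℕ}

theorem core_big [Fact p.Prime] (h29 : 29 ≤ p) {x y : ℤ} (h : x ^ 2 + 2 * y ^ 2 = p) :
    Zs p = ((legendreSym 3 p * (4 * x ^ 2 - 2 * p) : ℤ) : RR p) := by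
  have hp : p.Prime := Fact.out
  have h5 : 5 ≤ p := by omega
  have hm := rep_mod hp h5 h
  obtain ⟨a, b, hab, hG⟩ := rep_val (p := p) h5 hm
  have hax := uniq_sq hp hab h
  rw [transport h29 (cl hp h5 hm), hs_gv hp h5 hm, ← hG, leg6 h5 hm, hax]
  push_cast
  ring

theorem core_inert (hp : p.Prime) (h29 : 29 ≤ p) (h : p % 8 = 5 ∨ p % 8 = 7) : Zs p = 0 := by
  apply transport0 hp h29
  rw [hs_zero hp (by omega) h, mul_zero]

theorem small_cases (hp : p.Prime) (h5 : 5 ≤ p) (h : p < 29) : p = 5 ∨ p = 7 ∨ p = 11 ∨ p = 13 ∨ p = 17 ∨ p = 19 ∨ p = 23 := by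
  interval_cases p <;> first | (exfalso; revert hp; norm_num; done) | simp

theorem core_a [Fact p.Prime] (h5 : 5 ≤ p) {x y : ℤ} (h : x ^ 2 + 2 * y ^ 2 = p) :
    Zs p = ((legendreSym 3 p * (4 * x ^ 2 - 2 * p) : ℤ) : RR p) := by
  have hp : p.Prime := Fact.out
  rcases le_or_gt 29 p with h29 | h29
  · exact core_big h29 h
  have hm := rep_mod hp h5 h
  rcases small_cases hp h5 h29 with rfl | rfl | rfl | rfl | rfl | rfl | rfl
  · omega
  · omega
  · have hx := uniq_sq hp (a := 3) (b := 1) (by norm_num) h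
    have hl : legendreSym 3 ((11 : ℕ) : ℤ) = -1 := by decide
    rw [hl, zs11, ← hx]
    norm_num
  · omega
  · have hx := uniq_sq hp (a := 3) (b := 2) (by norm_num) h
    have hl : legendreSym 3 ((17 : ℕ) : ℤ) = -1 := by decide
    rw [hl, zs17, ← hx]
    norm_num
  · have hx := uniq_sq hp (a := 1) (b := 3) (by norm_num) h
    have hl : legendreSym 3 ((19 : ℕ) : ℤ) = 1 := by decide
    rw [hl, zs19, ← hx]
    norm_num
  · omega

theorem core_b (hp : p.Prime) (h5 : 5 ≤ p) (h : p % 8 = 5 ∨ p % 8 = 7) : Zs p = 0 := by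
  rcases le_or_gt 29 p with h29 | h29
  · exact core_inert hp h29 h
  rcases small_cases hp h5 h29 with rfl | rfl | rfl | rfl | rfl | rfl | rfl
  · exact zs5
  · exact zs7
  · omega
  · exact zs13
  · omega
  · omega
  · exact zs23

end Pool.Agent.ADC
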