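import Pool.Agent.ADC.BlkA
import Pool.Agent.ADC.BlkB

/-! Project ADC (MP_adc642_nt), module Dat (size 2): the data of the transformation modulo p ^ 2. -/

set_option autoImplicit false

namespace Pool.Agent.ADC

open Finset

/-! ### the expressions, as functions on a commutative ring; `xp` will be `x ^ p` -/

section expr
variable {A : Type} [CommRing A]

def PhF (p : ℕ) (c : ℕ → A) (x : A) : A := ∑ n ∈ range p, c n * tT x ^ n * gG x ^ (2 * (p - 1 - n))
def HhF (p : ℕ) (c : ℕ → A) (x : A) : A := ∑ n ∈ range p, c n * bB x ^ n * eE x ^ (2 * (p - 1 - n))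
def etF (xp e1 e2 eg : A) : A := e1 * (1 - 8 * xp) * gG xp + e2 * (1 + xp) * gG xp - 2 * eg * qq xp
def eyF (xp e1 ee : A) : A := 3 * e1 * eE xp - 2 * ee * (1 + xp)
def QPF (p : ℕ) (b bt : ℕ → A) (x xp e1 e2 eg : A) : A := qq xp * gG xp * PhF p bt x + etF xp e1 e2 eg * PhF p b x
def QHF (p : ℕ) (a at' : ℕ → A) (x xp e1 ee : A) : A := (1 + xp) * eE xp * HhF p at' x + eyF xp e1 ee * HhF p a x

/-- the coefficient which vanishes modulo `p ^ 2` -/
def AAF (p : ℕ) (a b bt : ℕ → A) (x xp e1 e2 eg : A) : A :=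
  nN xp * eE xp * gG xp * eE x * PhF p b x * eE x ^ (4 * p - 4) * qq xp * gG xp * eE xp -
    nN xp * eE xp ^ 2 * gG x * HhF p a x ^ 2 * gG x ^ (2 * p - 2) * qq xp * gG xp * eE xp +
    (p : A) * gG xp * (qq xp * xp * lL xp) * eE x * QPF p b bt x xp e1 e2 eg * eE x ^ (4 * p - 4) * eE xp

/-- the coefficient which vanishes modulo `p` -/
def BBF (p : ℕ) (a at' b bt : ℕ → A) (x xp e1 e2 eg ee : A) : A :=
  gG xp * (2 * gG xp * (1 - 8 * xp) ^ 3) * eE x * QPF p b bt x xp e1 e2 eg * eE x ^ (4 * p - 4) * eE xp -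
    2 * nN xp * eE xp ^ 2 * gG x * gG x ^ (2 * p - 2) * (1 - 8 * xp) * gG xp * HhF p a x * QHF p a at' x xp e1 ee

end expr

/-- the data -/
structure Dat (p : ℕ) where
  at' : ℕ → RR p
  bt : ℕ → RR p
  e1 : Polynomial (RR p)
  e2 : Polynomial (RR p)
  eg : Polynomial (RR p)
  ee : Polynomial (RR p)
  ha : ∀ m n, n < p → (aa (n + m * p) : RR p) = aa m * (aa n + p * m * at' n)
  hb : ∀ m n, n < p → (bb (n + m * p) : RR p) = bb m * (bb n + p * m * bt n)
  h1 : (1 + Polynomial.X : Polynomial (RR p)) ^ p = (1 + Polynomial.X ^ p) + (p : Polynomial (RR p)) * e1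
  h2 : (1 - 8 * Polynomial.X : Polynomial (RR p)) ^ p = (1 - 8 * Polynomial.X ^ p) + (p : Polynomial (RR p)) * e2
  hg : gG (Polynomial.X : Polynomial (RR p)) ^ p = gG (Polynomial.X ^ p) + (p : Polynomial (RR p)) * eg
  he : eE (Polynomial.X : Polynomial (RR p)) ^ p = eE (Polynomial.X ^ p) + (p : Polynomial (RR p)) * ee
  d1 : e1.natDegree ≤ p
  d2 : e2.natDegree ≤ p
  dg : eg.natDegree ≤ 2 * p
  de : ee.natDegree ≤ 2 * p

private theorem Dat_e8 {R : Type} [CommRing R] (p : ℕ) : (Polynomial.expand R p) 8 = 8 := by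
  have h : (8 : Polynomial R) = Polynomial.C 8 := rfl
  rw [h, Polynomial.expand_C]

private theorem Dat_e20 {R : Type} [CommRing R] (p : ℕ) : (Polynomial.expand R p) 20 = 20 := by
  have h : (20 : Polynomial R) = Polynomial.C 20 := rfl
  rw [h, Polynomial.expand_C]

/-- quotient lemma -/
private theorem Dat_quot {p : ℕ} (hp : p.Prime) (f : Polynomial ℤ) (d : ℕ) (hd : f.natDegree ≤ d) :
    ∃ e : Polynomial (RR p), (f.map (Int.castRingHom (RR p))) ^ p =
      Polynomial.expand (RR p) p (f.map (Int.castRingHom (RR p))) + (p : Polynomial (RR p)) * e ∧ e.natDegree ≤ d * p := by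
  have : Fact p.Prime := ⟨hp⟩
  have hdvd : (Polynomial.C (p : ℤ)) ∣ (f ^ p - Polynomial.expand ℤ p f) := by
    rw [Polynomial.C_dvd_iff_dvd_coeff]
    intro i
    have h1 : ((f ^ p - Polynomial.expand ℤ p f).map (Int.castRingHom (ZMod p))).coeff i = 0 := by
      rw [Polynomial.map_sub, Polynomial.map_pow, Polynomial.map_expand, ZMod.expand_card]
      simp
    rw [Polynomial.coeff_map] at h1
    exact (ZMod.intCast_zmod_eq_zero_iff_dvd _ p).1 (by simpa using h1)
  obtain ⟨g, hg⟩ := hdvd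
  have hp0 : (p : ℤ) ≠ 0 := by exact_mod_cast hp.ne_zero
  have hdeg : g.natDegree ≤ d * p := by
    have h1 : (Polynomial.C (p : ℤ) * g).natDegree = g.natDegree := Polynomial.natDegree_C_mul hp0
    rw [← h1, ← hg]
    refine (Polynomial.natDegree_sub_le _ _).trans (max_le ?_ ?_)
    · refine (Polynomial.natDegree_pow_le).trans ?_
      rw [mul_comm]
      exact Nat.mul_le_mul_right p hd
    · rw [Polynomial.natDegree_expand]
      exact Nat.mul_le_mul_right p hd
  refine ⟨g.map (Int.castRingHom (RR p)), ?_, (Polynomial.natDegree_map_le).trans hdeg⟩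
  have h3 : f ^ p = Polynomial.expand ℤ p f + Polynomial.C (p : ℤ) * g := by rw [← hg]; ring
  have h4 := congrArg (Polynomial.map (Int.castRingHom (RR p))) h3
  rw [Polynomial.map_pow, Polynomial.map_add, Polynomial.map_expand, Polynomial.map_mul, Polynomial.map_C] at h4
  rw [h4]
  congr 2
  simp

/-- PROOF. aa_blk, bb_blk. For f in ℤ[X]: f ^ p - expand p f is divisible by p (ZMod.expand_card for the image in (ZMod p)[X]), take the quotient and map it to RR p;
its degree is at most p * natDegree f. -/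
theorem exists_dat {p : ℕ} (hp : p.Prime) (h2 : p ≠ 2) : Nonempty (Dat p) := by
  obtain ⟨at', ha⟩ := aa_blk (p := p) hp
  obtain ⟨bt, hb⟩ := bb_blk (p := p) hp h2
  obtain ⟨e1, h1, d1⟩ := Dat_quot hp (1 + Polynomial.X : Polynomial ℤ) 1 (by compute_degree)
  obtain ⟨e2, h2', d2⟩ := Dat_quot hp (1 - 8 * Polynomial.X : Polynomial ℤ) 1 (by
    have : (1 - 8 * Polynomial.X : Polynomial ℤ) = Polynomial.C 1 - Polynomial.C 8 * Polynomial.X := by simp
    rw [this]; compute_degree)
  obtain ⟨eg, hg, dg⟩ := Dat_quot hp (1 + 8 * Polynomial.X ^ 2 : Polynomial ℤ) 2 (by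
    have : (1 + 8 * Polynomial.X ^ 2 : Polynomial ℤ) = Polynomial.C 1 + Polynomial.C 8 * Polynomial.X ^ 2 := by simp
    rw [this]; compute_degree)
  obtain ⟨ee, he, de⟩ := Dat_quot hp (1 + 20 * Polynomial.X - 8 * Polynomial.X ^ 2 : Polynomial ℤ) 2 (by
    have : (1 + 20 * Polynomial.X - 8 * Polynomial.X ^ 2 : Polynomial ℤ) =
      Polynomial.C 1 + Polynomial.C 20 * Polynomial.X - Polynomial.C 8 * Polynomial.X ^ 2 := by simp
    rw [this]; compute_degree)
  refine ⟨⟨at', bt, e1, e2, eg, ee, ha, hb, ?_, ?_, ?_, ?_, ?_, ?_, ?_, ?_⟩⟩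
  · simpa using h1
  · simpa [Dat_e8] using h2'
  · simpa [gG, Dat_e8] using hg
  · simpa [eE, Dat_e8, Dat_e20] using he
  · simpa using d1
  · simpa using d2
  · simpa using dg
  · simpa using de

variable {p : ℕ}

/-- the first polynomial -/
noncomputable def AA (D : Dat p) : Polynomial (RR p) :=
  AAF p (fun n => Polynomial.C (aa n : RR p)) (fun n => Polynomial.C (bb n : RR p)) (fun n => Polynomial.C (D.bt n)) Polynomial.X
    (Polynomial.X ^ p) D.e1 D.e2 D.eg

/-- the second polynomial -/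
noncomputable def BB (D : Dat p) : Polynomial (RR p) :=
  BBF p (fun n => Polynomial.C (aa n : RR p)) (fun n => Polynomial.C (D.at' n)) (fun n => Polynomial.C (bb n : RR p))
    (fun n => Polynomial.C (D.bt n)) Polynomial.X (Polynomial.X ^ p) D.e1 D.e2 D.eg D.ee

end Pool.Agent.ADC
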