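import Mathlib

/-! Project ADC (MP_adc642_nt: the sum Z_p(96) modulo p^2), module Defs (size 0). -/

set_option autoImplicit false

namespace Pool.Agent.ADC

open Finset

/-- Franel numbers -/
def fran (n : ℕ) : ℕ := ∑ k ∈ range (n + 1), (n.choose k) ^ 3

/-- `C(2n,n) f_n` -/
def bb (n : ℕ) : ℕ := (2 * n).choose n * fran n

/-- `C(2n,n) C(4n,2n)` -/
def aa (n : ℕ) : ℕ := (2 * n).choose n * (4 * n).choose (2 * n)

/-- the ring of integers modulo `p ^ 2` -/
abbrev RR (p : ℕ) := ZMod (p ^ 2)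

/-- the sum of the problem, modulo `p ^ 2` -/
def Zs (p : ℕ) : RR p := ∑ n ∈ range p, (bb n : RR p) * (96 : RR p)⁻¹ ^ n

/-- the sum for the group of level 2 -/
def Hs (p : ℕ) : RR p := ∑ n ∈ range p, (aa n : RR p) * (128 : RR p)⁻¹ ^ n

/-- the second block of the sum for the group of level 2 -/
def Hs2 (p : ℕ) : RR p := ∑ n ∈ range p, (aa (n + p) : RR p) * (128 : RR p)⁻¹ ^ (n + p)

/-- harmonic numbers modulo `p ^ 2` (for `j < p`) -/
def hh (p j : ℕ) : RR p := ∑ i ∈ range j, ((i + 1 : ℕ) : RR p)⁻¹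

/-- harmonic numbers modulo `p` (for `j < p`) -/
def hz (p j : ℕ) : ZMod p := ∑ i ∈ range j, ((i + 1 : ℕ) : ZMod p)⁻¹

/-- the common value of the sum, of the Jacobi sum and of the Eisenstein sum -/
def Gv (p : ℕ) : RR p := (((p - 1) / 2).choose (p / 8) : RR p) *
  (1 + (p : RR p) * (8 : RR p)⁻¹ * (hh p (p / 8) + 3 * hh p ((p - 1) / 2 - p / 8) - 4 * hh p ((p - 1) / 2)))

/-! ### polynomials, as functions on a commutative ring -/

variable {A : Type*} [CommRing A]

def eE (x : A) : A := 1 + 20 * x - 8 * x ^ 2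
def gG (x : A) : A := 1 + 8 * x ^ 2
def nN (x : A) : A := 1 - 14 * x - 48 * x ^ 2 + 112 * x ^ 3 + 64 * x ^ 4
def qq (x : A) : A := (1 + x) * (1 - 8 * x)
def lL (x : A) : A := -20 + 32 * x + 160 * x ^ 2
def tT (x : A) : A := x * (1 + x) * (1 - 8 * x)
def bB (x : A) : A := x * (1 + x) ^ 3

/-! ### the values of a character sum are the same polynomial in the root of unity -/

/-- quadratic character, with integer values -/
noncomputable def qc (p : ℕ) [Fact p.Prime] (x : ZMod p) : ℤ := quadraticChar (ZMod p) x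

/-- ring homomorphism to a finite field of characteristic `p`, with kernel generated by `p`, and `p ^ 2 = 0` -/
structure Lift (p q : ℕ) (F S : Type) [Field F] [Fintype F] [CommRing S] where
  pi : S →+* F
  card : Fintype.card F = q
  dvd : p ∣ q
  chr : (p : F) = 0
  surj : Function.Surjective pi
  ker : ∀ x, pi x = 0 → ∃ y, x = (p : S) * y
  sq : (p : S) ^ 2 = 0
  inj : ∀ c : ℤ, (c : S) = 0 → ((p : ℤ) ^ 2) ∣ c

/-- Teichmueller representatives -/
noncomputable def Lift.tau {p q : ℕ} {F S : Type} [Field F] [Fintype F] [CommRing S] (L : Lift p q F S) (x : F) : S :=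
  (Function.surjInv L.surj x) ^ q

end Pool.Agent.ADC
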