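import Pool.Agent.ADC.Spl

/-! Project ADC (MP_adc642_nt), module Ev (size 4): evaluation of the basic identity at a point of complex multiplication. -/

set_option autoImplicit false

namespace Pool.Agent.ADC

open Finset

variable {p : ℕ}

section alg

variable {S : Type} [CommRing S]

private theorem ev_unit_add {a d c : S} (ha : IsUnit a) (hd : d * d = 0) : IsUnit (a + d * c) := by
  apply isUnit_of_mul_isUnit_left (y := a - d * c)
  have : (a + d * c) * (a - d * c) = a * a := by linear_combination (-(c * c)) * hd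
  rw [this]
  exact ha.mul ha

/-- elimination of the derivative -/
private theorem ev_alg1 {w E G E' G' N' q' m XL Z H Q Y : S} (h2 : IsUnit (2 : S)) (hE' : IsUnit E') (hG' : IsUnit G')
    (hN' : IsUnit N') (hq' : IsUnit q') (hm : IsUnit m)
    (hA : N' * E' * G' * E * Z * q' * G' * E' - N' * E' ^ 2 * G * H ^ 2 * q' * G' * E' + w * G' * (q' * XL) * E * Q * E' = 0)
    (hB : w * (G' * (2 * G' * m ^ 3) * E * Q * E' - 2 * N' * E' ^ 2 * G * m * G' * H * Y) = 0) :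
    G' ^ 2 * m ^ 2 * E * Z = m ^ 2 * G' * E' * G * H ^ 2 - XL * G * H * (w * Y) := by
  have hB' : w * (G' * m ^ 2 * E * Q) = w * (N' * E' * G * H * Y) := by
    apply (((h2.mul hG').mul hE').mul hm).mul_left_cancel
    linear_combination hB
  apply ((hN'.mul hq').mul (hE'.pow 2)).mul_left_cancel
  linear_combination m ^ 2 * hA - q' * XL * E' * hB'

/-- the relation between the p-th powers -/
private theorem ev_alg2 {w X e1 ee E' al a0 Dy : S} (hw : w * w = 0) (hE' : IsUnit E') (hal : al = w * a0)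
    (hwD : w * Dy = 0)
    (hD : 128 * (X * (1 + X) ^ 3) = E' ^ 2 * (1 + Dy))
    (h : 128 * (1 + al) * X * (1 + X + w * e1) ^ 3 = (E' + w * ee) ^ 2) :
    (1 + X) * E' * al + w * (3 * e1 * E' - 2 * ee * (1 + X)) = -((1 + X) * E' * Dy) := by
  apply hE'.mul_left_cancel
  subst hal
  have h1 : 128 * (1 + w * a0) * X * ((1 + X) ^ 3 + 3 * (w * e1) * (1 + X) ^ 2) = E' ^ 2 + 2 * (w * ee) * E' := by
    linear_combination h - 128 * (1 + w * a0) * X * (3 * (1 + X) * e1 ^ 2 + w * e1 ^ 3) * hw + ee ^ 2 * hw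
  have h2 : 128 * X * (1 + X) ^ 3 * ((1 + X) * (1 + w * a0) + 3 * w * e1) = (1 + X) * (E' ^ 2 + 2 * (w * ee) * E') := by
    linear_combination (1 + X) * h1 - 128 * X * (1 + X) ^ 3 * (3 * a0 * e1) * hw
  have h3 : E' ^ 2 * (1 + Dy) * ((1 + X) * (1 + w * a0) + 3 * w * e1) = (1 + X) * (E' ^ 2 + 2 * (w * ee) * E') := by
    rw [← hD]
    linear_combination h2
  linear_combination h3 - E' ^ 2 * ((1 + X) * a0 + 3 * e1) * hwD

/-- the quotient `Dy` -/
private theorem ev_alg3 {s d X Es E' : S} (hd : d * d = 0) (hX : X = s + d) (hEs : Es = 1 + 20 * s - 8 * s ^ 2)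
    (hE'd : E' = Es + (20 - 16 * s) * d) (hE' : IsUnit E') (hEu : IsUnit Es)
    (h128 : 128 * (s * (1 + s) ^ 3) = Es ^ 2) :
    ∃ k : S, 128 * (X * (1 + X) ^ 3) = E' ^ 2 * (1 + d * k) ∧ s * (1 + s) * Es * (d * k) = (1 - 8 * s) ^ 2 * d := by
  obtain ⟨u, hu⟩ := hE'
  set i : S := ((u⁻¹ : Sˣ) : S) with hi
  have hii : E' * i = 1 := by rw [← hu, hi, Units.mul_inv]
  set K : S := 128 * (1 + s) ^ 2 * (1 + 4 * s) - 2 * Es * (20 - 16 * s) with hK
  have h1 : 128 * (X * (1 + X) ^ 3) - E' ^ 2 = K * d := by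
    rw [hX, hE'd, hK]
    have e1 : 128 * ((s + d) * (1 + (s + d)) ^ 3) = 128 * (s * (1 + s) ^ 3) + 128 * (1 + s) ^ 2 * (1 + 4 * s) * d +
        (d * d) * (128 * (3 * (1 + s) ^ 2 + s * (3 * (1 + s) + d) + 3 * d * (1 + s) + d ^ 2)) := by ring
    have e2 : (Es + (20 - 16 * s) * d) ^ 2 = Es ^ 2 + 2 * Es * (20 - 16 * s) * d + (d * d) * (20 - 16 * s) ^ 2 := by ring
    rw [e1, e2, hd, h128]
    ring
  refine ⟨K * i ^ 2, ?_, ?_⟩
  · have : E' ^ 2 * (1 + d * (K * i ^ 2)) = E' ^ 2 + K * d * (E' * i) ^ 2 := by ring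
    rw [this, hii, ← h1]
    ring
  · have h3 : Es ^ 2 * (d * (K * i ^ 2)) = K * d := by
      have e3 : Es ^ 2 * d = E' ^ 2 * d := by
        rw [hE'd]
        linear_combination (-(2 * Es * (20 - 16 * s) + (20 - 16 * s) ^ 2 * d)) * hd
      calc Es ^ 2 * (d * (K * i ^ 2)) = (Es ^ 2 * d) * (K * i ^ 2) := by ring
        _ = K * d * (E' * i) ^ 2 := by rw [e3]; ring
        _ = K * d := by rw [hii]; ring
    apply hEu.mul_left_cancel
    have h4 : (1 + 4 * s) * Es - 2 * s * (1 + s) * (20 - 16 * s) = (1 - 8 * s) ^ 2 := by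
      rw [hEs]; ring
    calc Es * (s * (1 + s) * Es * (d * (K * i ^ 2))) = s * (1 + s) * (Es ^ 2 * (d * (K * i ^ 2))) := by ring
      _ = s * (1 + s) * (K * d) := by rw [h3]
      _ = (128 * (s * (1 + s) ^ 3)) * (1 + 4 * s) * d - 2 * s * (1 + s) * Es * (20 - 16 * s) * d := by rw [hK]; ring
      _ = Es * (((1 + 4 * s) * Es - 2 * s * (1 + s) * (20 - 16 * s)) * d) := by rw [h128]; ring
      _ = Es * ((1 - 8 * s) ^ 2 * d) := by rw [h4]

/-- the final elimination -/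
private theorem ev_alg4 {s d X Es Gs E' G' m L' E G Z H k : S} (hd : d * d = 0) (hX : X = s + d)
    (hEs : Es = 1 + 20 * s - 8 * s ^ 2) (hGs : Gs = 1 + 8 * s ^ 2)
    (hE'd : E' = Es + (20 - 16 * s) * d) (hG'd : G' = Gs + 16 * s * d) (hm : m = 1 - 8 * s - 8 * d)
    (hL' : L' = -20 + 32 * X + 160 * X ^ 2) (hEu : IsUnit Es) (hG'u : IsUnit G') (hmu : IsUnit m)
    (hk : s * (1 + s) * Es * (d * k) = (1 - 8 * s) ^ 2 * d)
    (h : G' ^ 2 * m ^ 2 * E * Z = m ^ 2 * G' * E' * G * H ^ 2 + X * L' * G * H * ((1 + X) * E' * (d * k) * H)) :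
    E * Gs * Z = G * Es * H ^ 2 := by
  set L : S := 16 * s * Es - (20 - 16 * s) * Gs with hL
  have hLs : L = -20 + 32 * s + 160 * s ^ 2 := by rw [hL, hEs, hGs]; ring
  have h1 : X * L' * (1 + X) * (d * k) = s * L * (1 + s) * (d * k) := by
    rw [hL', hLs, hX]
    linear_combination (k * ((-20 + 32 * (s + d) + 160 * (s + d) ^ 2) * (1 + s + d) + s * (32 + 160 * (2 * s + d)) * (1 + s + d) + s * (-20 + 32 * s + 160 * s ^ 2))) * hd
  have h2 : Es * (X * L' * (1 + X) * (d * k)) = L * ((1 - 8 * s) ^ 2 * d) := by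
    rw [h1, ← hk]; ring
  have h3 : Gs * E' * (m ^ 2 * G' * Es + L * ((1 - 8 * s) ^ 2 * d)) = Es ^ 2 * G' ^ 2 * m ^ 2 := by
    have ea : Gs * E' - Es * G' = -(L * d) := by rw [hE'd, hG'd, hL]; ring
    have eb : Gs * E' * (1 - 8 * s) ^ 2 - m ^ 2 * G' * Es = d * (Gs * (20 - 16 * s) * (1 - 8 * s) ^ 2 + 16 * (1 - 8 * s) * Gs * Es
        - 64 * d * Gs * Es - 16 * s * m ^ 2 * Es) := by rw [hE'd, hG'd, hm]; ring
    linear_combination m ^ 2 * G' * Es * ea + L * d * eb + L * (Gs * (20 - 16 * s) * (1 - 8 * s) ^ 2 + 16 * (1 - 8 * s) * Gs * Es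
        - 64 * d * Gs * Es - 16 * s * m ^ 2 * Es) * hd
  apply ((hEu.mul (hG'u.pow 2)).mul (hmu.pow 2)).mul_left_cancel
  calc Es * G' ^ 2 * m ^ 2 * (E * Gs * Z) = Es * Gs * (G' ^ 2 * m ^ 2 * E * Z) := by ring
    _ = G * H ^ 2 * (Gs * E' * (m ^ 2 * G' * Es + Es * (X * L' * (1 + X) * (d * k)))) := by rw [h]; ring
    _ = G * H ^ 2 * (Es ^ 2 * G' ^ 2 * m ^ 2) := by rw [h2, h3]
    _ = Es * G' ^ 2 * m ^ 2 * (G * Es * H ^ 2) := by ring

/-- a point of complex multiplication -/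
private theorem ev_pt {w i y : S} (hw : w * w = 6) (hi : 4 * i = 1) (hy : y = (-22 + 9 * w) * i) (h2 : IsUnit (2 : S)) (h3 : IsUnit (3 : S))
    (h5 : IsUnit (5 : S)) :
    8 * y ^ 2 = 1 - 88 * y ∧ 3 * gG y = w * eE y ∧ 96 * tT y = gG y ^ 2 ∧ 128 * bB y = eE y ^ 2 ∧
      IsUnit y ∧ IsUnit (1 + y) ∧ IsUnit (1 - 8 * y) ∧ IsUnit w ∧ IsUnit (eE y) ∧ IsUnit (gG y) ∧ IsUnit (nN y) := by
  have hq : 8 * y ^ 2 = 1 - 88 * y := by
    rw [hy]
    linear_combination 648 * i ^ 2 * hw + (1940 * i + 1 - 792 * w * i) * hi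
  have hy1 : IsUnit y := by
    apply isUnit_of_mul_isUnit_left (y := -8 * ((-22 - 9 * w) * i))
    have : y * (-8 * ((-22 - 9 * w) * i)) = 1 := by
      rw [hy]
      linear_combination 648 * i ^ 2 * hw + (4 * i + 1) * hi
    rw [this]
    exact isUnit_one
  have h81 : IsUnit (81 : S) := by
    have : (81 : S) = 3 ^ 4 := by norm_num
    rw [this]
    exact h3.pow 4
  have hy2 : IsUnit (1 + y) := by
    apply isUnit_of_mul_isUnit_left (y := -8 * (1 + (-22 - 9 * w) * i))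
    have : (1 + y) * (-8 * (1 + (-22 - 9 * w) * i)) = 81 := by
      rw [hy]
      linear_combination 648 * i ^ 2 * hw + (4 * i + 89) * hi
    rw [this]
    exact h81
  have hy3 : IsUnit (1 - 8 * y) := by
    apply isUnit_of_mul_isUnit_left (y := 1 - 8 * ((-22 - 9 * w) * i))
    have : (1 - 8 * y) * (1 - 8 * ((-22 - 9 * w) * i)) = 81 := by
      rw [hy]
      linear_combination (-5184 * i ^ 2) * hw + (-32 * i + 80) * hi
    rw [this]
    exact h81
  have ht : 96 * tT y = gG y ^ 2 := by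
    unfold tT gG
    linear_combination (-8 * y ^ 2 - 8 * y + 1) * hq
  have hE : eE y = 108 * y := by
    unfold eE
    linear_combination -hq
  refine ⟨hq, ?_, ht, ?_, hy1, hy2, hy3, ?_, ?_, ?_, ?_⟩
  · unfold gG eE
    linear_combination (3 + w) * hq - (264 + 108 * w) * hy - 972 * i * hw - 6 * hi
  · unfold bB eE
    linear_combination (8 * y ^ 2 + 1) * hq
  · apply isUnit_of_mul_isUnit_left (y := w)
    rw [hw]
    have : (6 : S) = 2 * 3 := by norm_num
    rw [this]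
    exact h2.mul h3
  · rw [hE]
    have : (108 : S) = 2 ^ 2 * 3 ^ 3 := by norm_num
    rw [this]
    exact ((h2.pow 2).mul (h3.pow 3)).mul hy1
  · rw [← isUnit_pow_iff (two_ne_zero), ← ht]
    have : (96 : S) = 2 ^ 5 * 3 := by norm_num
    rw [this]
    unfold tT
    exact ((h2.pow 5).mul h3).mul ((hy1.mul hy2).mul hy3)
  · have : nN y = 2 ^ 4 * 3 ^ 4 * 5 * y ^ 2 := by
      unfold nN
      linear_combination (8 * y ^ 2 - 74 * y - 1) * hq
    rw [this]
    exact (((h2.pow 4).mul (h3.pow 4)).mul h5).mul (hy1.pow 2)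

private theorem ev_oddpow {M : Type} [CommRing M] (z : M) {n m : ℕ} (h : n = 2 * m + 1) : z ^ n = (z * z) ^ m * z := by
  rw [h, pow_succ, pow_mul, sq]

end alg

/-! ### the ring -/

private abbrev EvS (p : ℕ) := QuadraticAlgebra (RR p) 6 0

private theorem ev_ker (a : RR p) (h : ZMod.castHom (Dvd.intro_left _ (pow_succ p 1).symm : p ∣ p ^ 2) (ZMod p) a = 0) :
    ∃ c : RR p, a = p * c := by
  rcases Nat.eq_zero_or_pos p with h0 | h0
  · subst h0
    refine ⟨0, ?_⟩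
    simpa using h
  · haveI : NeZero (p ^ 2) := ⟨(pow_pos h0 2).ne'⟩
    have h1 : ((a.val : ℕ) : RR p) = a := ZMod.natCast_zmod_val a
    rw [← h1, map_natCast, ZMod.natCast_eq_zero_iff] at h
    obtain ⟨k, hk⟩ := h
    refine ⟨(k : RR p), ?_⟩
    rw [← h1, hk]
    push_cast
    ring

private theorem ev_fermat (hp : p.Prime) (u : RR p) : ∃ c : RR p, u ^ p = u + p * c := by
  haveI : Fact p.Prime := ⟨hp⟩
  obtain ⟨c, hc⟩ := ev_ker (u ^ p - u) (by rw [map_sub, map_pow, ZMod.pow_card, sub_self])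
  exact ⟨c, by rw [← hc]; ring⟩

private theorem ev_euler [Fact p.Prime] : ∃ c : RR p, (6 : RR p) ^ (p / 2) = (legendreSym p 6 : ℤ) + p * c := by
  obtain ⟨c, hc⟩ := ev_ker ((6 : RR p) ^ (p / 2) - ((legendreSym p 6 : ℤ) : RR p)) (by
    have h6 : ZMod.castHom (Dvd.intro_left _ (pow_succ p 1).symm : p ∣ p ^ 2) (ZMod p) (6 : RR p) = 6 := map_ofNat _ 6
    rw [map_sub, map_pow, map_intCast, legendreSym.eq_pow, h6]
    push_cast
    exact sub_self _)
  exact ⟨c, by rw [← hc]; ring⟩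

open QuadraticAlgebra in
private theorem ev_om : (omega : EvS p) * omega = 6 := by
  rw [omega_mul_omega_eq_algebraMap, map_zero, zero_mul, add_zero]
  exact map_ofNat (algebraMap (RR p) (EvS p)) 6

open QuadraticAlgebra in
private theorem ev_ompow [Fact p.Prime] (h2 : p ≠ 2) : ∃ c : EvS p, (omega : EvS p) ^ p = ((legendreSym p 6 : ℤ) : EvS p) * omega + (p : EvS p) * c := by
  have hp : p.Prime := Fact.out
  obtain ⟨c, hc⟩ := ev_euler (p := p)
  have hodd : p = 2 * (p / 2) + 1 := by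
    have := hp.eq_two_or_odd
    omega
  refine ⟨algebraMap (RR p) (EvS p) c * omega, ?_⟩
  have h6 : algebraMap (RR p) (EvS p) ((6 : RR p) ^ (p / 2)) = ((omega : EvS p) * omega) ^ (p / 2) := by
    rw [ev_om, map_pow]
    rw [map_ofNat]
  rw [ev_oddpow omega hodd, ← h6, hc]
  simp only [map_add, map_mul, map_intCast, map_natCast]
  ring

private theorem ev_pp : (p : EvS p) * p = 0 := by
  have h : (p : RR p) ^ 2 = 0 := rr_sq
  have := congrArg (algebraMap (RR p) (EvS p)) h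
  rw [map_pow, map_natCast, map_zero] at this
  rw [← pow_two]
  exact this

open QuadraticAlgebra in
private theorem ev_xp [Fact p.Prime] (h2 : p ≠ 2) (u v : RR p) :
    ∃ c : EvS p, (algebraMap (RR p) (EvS p) u + algebraMap (RR p) (EvS p) v * omega) ^ p =
      (algebraMap (RR p) (EvS p) u + algebraMap (RR p) (EvS p) v * (((legendreSym p 6 : ℤ) : EvS p) * omega)) + (p : EvS p) * c := by
  have hp : p.Prime := Fact.out
  obtain ⟨c1, h1⟩ := ev_fermat hp u
  obtain ⟨c2, h2'⟩ := ev_fermat hp v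
  obtain ⟨c3, h3⟩ := ev_ompow (p := p) h2
  obtain ⟨r, hr⟩ := exists_add_pow_prime_eq hp (algebraMap (RR p) (EvS p) u) (algebraMap (RR p) (EvS p) v * omega)
  refine ⟨algebraMap (RR p) (EvS p) c1 + algebraMap (RR p) (EvS p) c2 * (((legendreSym p 6 : ℤ) : EvS p) * omega) +
    algebraMap (RR p) (EvS p) v * c3 + algebraMap (RR p) (EvS p) u * (algebraMap (RR p) (EvS p) v * omega) * r, ?_⟩
  rw [hr, mul_pow, ← map_pow, ← map_pow, h1, h2', h3]
  simp only [map_add, map_mul, map_natCast]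
  linear_combination (algebraMap (RR p) (EvS p) c2 * c3) * ev_pp (p := p)

/-! ### evaluation -/

section eval

variable {A B : Type} [CommRing A] [CommRing B]

private theorem ev_mapA (f : A →+* B) (a b bt : ℕ → A) (x xp e1 e2 eg : A) :
    f (AAF p a b bt x xp e1 e2 eg) = AAF p (fun n => f (a n)) (fun n => f (b n)) (fun n => f (bt n)) (f x) (f xp) (f e1) (f e2) (f eg) := by
  simp only [AAF, PhF, HhF, QPF, etF, nN, eE, gG, qq, lL, tT, bB, map_sum, map_add, map_sub, map_mul, map_pow, map_neg, map_one, map_natCast,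
    map_ofNat]

private theorem ev_mapB (f : A →+* B) (a at' b bt : ℕ → A) (x xp e1 e2 eg ee : A) :
    f (BBF p a at' b bt x xp e1 e2 eg ee) = BBF p (fun n => f (a n)) (fun n => f (at' n)) (fun n => f (b n)) (fun n => f (bt n)) (f x) (f xp) (f e1)
      (f e2) (f eg) (f ee) := by
  simp only [BBF, PhF, HhF, QPF, QHF, etF, eyF, nN, eE, gG, qq, tT, bB, map_sum, map_add, map_sub, map_mul, map_pow, map_one, map_ofNat]

private theorem ev_sum {c : ℕ → A} {i G T m : A} (hi : m * i = 1) (h : m * T = G ^ 2) (hp : 0 < p) :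
    ∑ n ∈ range p, c n * T ^ n * G ^ (2 * (p - 1 - n)) = G ^ (2 * p - 2) * ∑ n ∈ range p, c n * i ^ n := by
  rw [mul_sum]
  refine sum_congr rfl fun n hn => ?_
  rw [mem_range] at hn
  have hT : T = i * G ^ 2 := by
    rw [← h]
    linear_combination (-T) * hi
  have h2 : 2 * p - 2 = 2 * n + 2 * (p - 1 - n) := by omega
  rw [h2, pow_add, hT, mul_pow, ← pow_mul]
  ring

end eval

section rel

variable {A : Type} [CommRing A]

private theorem ev_divA (hp : 0 < p) {a b bt : ℕ → A} {x xp e1 e2 eg i96 i128 : A} (h96 : 96 * i96 = 1) (h128 : 128 * i128 = 1)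
    (ht : 96 * tT x = gG x ^ 2) (hb : 128 * bB x = eE x ^ 2) (hE : IsUnit (eE x)) (hG : IsUnit (gG x))
    (h : AAF p a b bt x xp e1 e2 eg = 0) :
    nN xp * eE xp * gG xp * eE x * (∑ n ∈ range p, b n * i96 ^ n) * qq xp * gG xp * eE xp -
      nN xp * eE xp ^ 2 * gG x * (∑ n ∈ range p, a n * i128 ^ n) ^ 2 * qq xp * gG xp * eE xp +
      (p : A) * gG xp * (qq xp * (xp * lL xp)) * eE x * (qq xp * gG xp * (∑ n ∈ range p, bt n * i96 ^ n) +
        etF xp e1 e2 eg * ∑ n ∈ range p, b n * i96 ^ n) * eE xp = 0 := by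
  rw [AAF, QPF, PhF, HhF, PhF, ev_sum h96 ht hp, ev_sum h96 ht hp, ev_sum h128 hb hp] at h
  have h4 : eE x ^ (4 * p - 4) = (eE x ^ (2 * p - 2)) ^ 2 := by
    rw [← pow_mul]
    congr 1
    omega
  rw [h4] at h
  apply ((hG.pow (2 * p - 2)).mul ((hE.pow (2 * p - 2)).pow 2)).mul_left_cancel
  generalize eE x ^ (2 * p - 2) = u at *
  generalize gG x ^ (2 * p - 2) = v at *
  linear_combination h

private theorem ev_divB (hp : 0 < p) {a at' b bt : ℕ → A} {x xp e1 e2 eg ee i96 i128 : A} (h96 : 96 * i96 = 1) (h128 : 128 * i128 = 1)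
    (ht : 96 * tT x = gG x ^ 2) (hb : 128 * bB x = eE x ^ 2) (hE : IsUnit (eE x)) (hG : IsUnit (gG x))
    (h : (p : A) * BBF p a at' b bt x xp e1 e2 eg ee = 0) :
    (p : A) * (gG xp * (2 * gG xp * (1 - 8 * xp) ^ 3) * eE x * (qq xp * gG xp * (∑ n ∈ range p, bt n * i96 ^ n) +
        etF xp e1 e2 eg * ∑ n ∈ range p, b n * i96 ^ n) * eE xp -
      2 * nN xp * eE xp ^ 2 * gG x * (1 - 8 * xp) * gG xp * (∑ n ∈ range p, a n * i128 ^ n) *
        ((1 + xp) * eE xp * (∑ n ∈ range p, at' n * i128 ^ n) + eyF xp e1 ee * ∑ n ∈ range p, a n * i128 ^ n)) = 0 := by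
  rw [BBF, QPF, QHF, PhF, HhF, PhF, HhF, ev_sum h96 ht hp, ev_sum h96 ht hp, ev_sum h128 hb hp, ev_sum h128 hb hp] at h
  have h4 : eE x ^ (4 * p - 4) = (eE x ^ (2 * p - 2)) ^ 2 := by
    rw [← pow_mul]
    congr 1
    omega
  rw [h4] at h
  apply ((hG.pow (2 * p - 2)).mul ((hE.pow (2 * p - 2)).pow 2)).mul_left_cancel
  generalize eE x ^ (2 * p - 2) = u at *
  generalize gG x ^ (2 * p - 2) = v at *
  linear_combination h

private theorem ev_rel (hp : 0 < p) {a at' b bt : ℕ → A} {x xp e1 e2 eg ee i96 i128 : A} (h96 : 96 * i96 = 1) (h128 : 128 * i128 = 1)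
    (ht : 96 * tT x = gG x ^ 2) (hb : 128 * bB x = eE x ^ 2) (hE : IsUnit (eE x)) (hG : IsUnit (gG x))
    (hA : AAF p a b bt x xp e1 e2 eg = 0) (hB : (p : A) * BBF p a at' b bt x xp e1 e2 eg ee = 0)
    (h2 : IsUnit (2 : A)) (hE' : IsUnit (eE xp)) (hG' : IsUnit (gG xp)) (hN' : IsUnit (nN xp)) (hq' : IsUnit (qq xp))
    (hm : IsUnit (1 - 8 * xp)) :
    gG xp ^ 2 * (1 - 8 * xp) ^ 2 * eE x * (∑ n ∈ range p, b n * i96 ^ n) =
      (1 - 8 * xp) ^ 2 * gG xp * eE xp * gG x * (∑ n ∈ range p, a n * i128 ^ n) ^ 2 -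
        (xp * lL xp) * gG x * (∑ n ∈ range p, a n * i128 ^ n) *
        ((p : A) * ((1 + xp) * eE xp * (∑ n ∈ range p, at' n * i128 ^ n) + eyF xp e1 ee * ∑ n ∈ range p, a n * i128 ^ n)) := by
  have h1 := ev_divA hp h96 h128 ht hb hE hG hA
  have h3 := ev_divB hp h96 h128 ht hb hE hG hB
  exact ev_alg1 h2 hE' hG' hN' hq' hm h1 h3

/-- units at the p-th power -/
private theorem ev_un {s d : A} (hd : d * d = 0) (h1 : IsUnit (1 + s)) (h2 : IsUnit (1 - 8 * s)) (hE : IsUnit (eE s)) (hG : IsUnit (gG s))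
    (hN : IsUnit (nN s)) : IsUnit (eE (s + d)) ∧ IsUnit (gG (s + d)) ∧ IsUnit (nN (s + d)) ∧ IsUnit (qq (s + d)) ∧ IsUnit (1 - 8 * (s + d)) ∧
      eE (s + d) = eE s + (20 - 16 * s) * d ∧ gG (s + d) = gG s + 16 * s * d := by
  have eEq : eE (s + d) = eE s + (20 - 16 * s) * d := by
    unfold eE
    linear_combination (-8) * hd
  have gEq : gG (s + d) = gG s + 16 * s * d := by
    unfold gG
    linear_combination 8 * hd
  have u1 : IsUnit (1 - 8 * (s + d)) := by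
    have : 1 - 8 * (s + d) = (1 - 8 * s) + d * (-8) := by ring
    rw [this]
    exact ev_unit_add h2 hd
  have u2 : IsUnit (1 + (s + d)) := by
    have : 1 + (s + d) = (1 + s) + d * 1 := by ring
    rw [this]
    exact ev_unit_add h1 hd
  refine ⟨?_, ?_, ?_, ?_, u1, eEq, gEq⟩
  · rw [eEq, mul_comm _ d]
    exact ev_unit_add hE hd
  · rw [gEq, mul_comm _ d]
    exact ev_unit_add hG hd
  · have : nN (s + d) = nN s + d * (-14 - 96 * s + 336 * s ^ 2 + 256 * s ^ 3) := by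
      unfold nN
      linear_combination (-48 + 112 * (3 * s + d) + 64 * (6 * s ^ 2 + 4 * s * d + d ^ 2)) * hd
    rw [this]
    exact ev_unit_add hN hd
  · unfold qq
    exact u2.mul u1

end rel

private theorem ev_AA (hp : p.Prime) (h29 : 29 ≤ p) (D : Dat p) (x : EvS p) :
    AAF p (fun n => algebraMap (RR p) (EvS p) (aa n : RR p)) (fun n => algebraMap (RR p) (EvS p) (bb n : RR p))
      (fun n => algebraMap (RR p) (EvS p) (D.bt n)) x (x ^ p) (Polynomial.aeval x D.e1) (Polynomial.aeval x D.e2) (Polynomial.aeval x D.eg) = 0 := by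
  have h := congrArg (Polynomial.aeval x : Polynomial (RR p) →ₐ[RR p] EvS p).toRingHom (split hp h29 D).1
  rw [AA, ev_mapA, map_zero] at h
  simpa using h

private theorem ev_BB (hp : p.Prime) (h29 : 29 ≤ p) (D : Dat p) (x : EvS p) :
    (p : EvS p) * BBF p (fun n => algebraMap (RR p) (EvS p) (aa n : RR p)) (fun n => algebraMap (RR p) (EvS p) (D.at' n))
      (fun n => algebraMap (RR p) (EvS p) (bb n : RR p))
      (fun n => algebraMap (RR p) (EvS p) (D.bt n)) x (x ^ p) (Polynomial.aeval x D.e1) (Polynomial.aeval x D.e2) (Polynomial.aeval x D.eg)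
      (Polynomial.aeval x D.ee) = 0 := by
  obtain ⟨B, hB⟩ := (split hp h29 D).2
  have h := congrArg (Polynomial.aeval x : Polynomial (RR p) →ₐ[RR p] EvS p).toRingHom hB
  rw [BB, ev_mapB, map_mul, map_natCast] at h
  have h2 := congrArg (fun y => (p : EvS p) * y) h
  simp only [← mul_assoc, ev_pp, zero_mul] at h2
  simpa using h2

/-! ### the point -/

private noncomputable def ev_x (p : ℕ) : EvS p :=
  algebraMap (RR p) (EvS p) (-22 * ((4 : ℕ) : RR p)⁻¹) + algebraMap (RR p) (EvS p) (9 * ((4 : ℕ) : RR p)⁻¹) * QuadraticAlgebra.omega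

private noncomputable def ev_s (p : ℕ) [Fact p.Prime] : EvS p :=
  algebraMap (RR p) (EvS p) (-22 * ((4 : ℕ) : RR p)⁻¹) +
    algebraMap (RR p) (EvS p) (9 * ((4 : ℕ) : RR p)⁻¹) * (((legendreSym p 6 : ℤ) : EvS p) * QuadraticAlgebra.omega)

private theorem ev_inv (hp : p.Prime) {n : ℕ} (h : ¬ p ∣ n) : (n : EvS p) * algebraMap (RR p) (EvS p) ((n : RR p)⁻¹) = 1 := by
  rw [← map_natCast (algebraMap (RR p) (EvS p)), ← map_mul, rr_inv hp h, map_one]

private theorem ev_ndvd (hp : p.Prime) (h29 : 29 ≤ p) {n a b c : ℕ} (h : n = 2 ^ a * 3 ^ b * 5 ^ c) : ¬ p ∣ n := by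
  intro hd
  rw [h] at hd
  have key : ∀ q k : ℕ, 0 < q → q < 29 → ¬ p ∣ q ^ k := by
    intro q k hq0 hq hqd
    have := Nat.le_of_dvd hq0 (hp.dvd_of_dvd_pow hqd)
    omega
  rcases (hp.dvd_mul).1 hd with h1 | h1
  · rcases (hp.dvd_mul).1 h1 with h3 | h3
    · exact key 2 a (by norm_num) (by norm_num) h3
    · exact key 3 b (by norm_num) (by norm_num) h3
  · exact key 5 c (by norm_num) (by norm_num) h1

private theorem ev_unit (hp : p.Prime) {n : ℕ} (h : ¬ p ∣ n) : IsUnit (n : EvS p) :=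
  isUnit_of_mul_isUnit_left (y := algebraMap (RR p) (EvS p) ((n : RR p)⁻¹)) (by rw [ev_inv hp h]; exact isUnit_one)

private theorem ev_xeq : ev_x p = (-22 + 9 * QuadraticAlgebra.omega) * algebraMap (RR p) (EvS p) (((4 : ℕ) : RR p)⁻¹) := by
  rw [ev_x, map_mul, map_mul, map_neg, map_ofNat, map_ofNat]
  ring

private theorem ev_seq [Fact p.Prime] : ev_s p = (-22 + 9 * (((legendreSym p 6 : ℤ) : EvS p) * QuadraticAlgebra.omega)) *
    algebraMap (RR p) (EvS p) (((4 : ℕ) : RR p)⁻¹) := by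
  rw [ev_s, map_mul, map_mul, map_neg, map_ofNat, map_ofNat]
  ring

private theorem ev_ls [Fact p.Prime] (h29 : 29 ≤ p) : ((legendreSym p 6 : ℤ) : EvS p) ^ 2 = 1 := by
  have hp : p.Prime := Fact.out
  have h0 : ((6 : ℤ) : ZMod p) ≠ 0 := by
    intro h
    rw [show (6 : ℤ) = ((6 : ℕ) : ℤ) from rfl, Int.cast_natCast, ZMod.natCast_eq_zero_iff] at h
    have := Nat.le_of_dvd (by norm_num) h
    omega
  have h1 := legendreSym.sq_one p h0
  rw [← Int.cast_pow, h1, Int.cast_one]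

private theorem ev_pts [Fact p.Prime] (h29 : 29 ≤ p) :
    (8 * ev_x p ^ 2 = 1 - 88 * ev_x p ∧ 3 * gG (ev_x p) = QuadraticAlgebra.omega * eE (ev_x p) ∧ 96 * tT (ev_x p) = gG (ev_x p) ^ 2 ∧
      128 * bB (ev_x p) = eE (ev_x p) ^ 2 ∧
      IsUnit (ev_x p) ∧ IsUnit (1 + ev_x p) ∧ IsUnit (1 - 8 * ev_x p) ∧ IsUnit (QuadraticAlgebra.omega : EvS p) ∧ IsUnit (eE (ev_x p)) ∧
      IsUnit (gG (ev_x p)) ∧ IsUnit (nN (ev_x p))) ∧
    (8 * ev_s p ^ 2 = 1 - 88 * ev_s p ∧ 3 * gG (ev_s p) = (((legendreSym p 6 : ℤ) : EvS p) * QuadraticAlgebra.omega) * eE (ev_s p) ∧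
      96 * tT (ev_s p) = gG (ev_s p) ^ 2 ∧ 128 * bB (ev_s p) = eE (ev_s p) ^ 2 ∧
      IsUnit (ev_s p) ∧ IsUnit (1 + ev_s p) ∧ IsUnit (1 - 8 * ev_s p) ∧ IsUnit (((legendreSym p 6 : ℤ) : EvS p) * QuadraticAlgebra.omega) ∧
      IsUnit (eE (ev_s p)) ∧ IsUnit (gG (ev_s p)) ∧ IsUnit (nN (ev_s p))) := by
  have hp : p.Prime := Fact.out
  have u2 : IsUnit (2 : EvS p) := by
    have := ev_unit hp (ev_ndvd hp h29 (n := 2) (a := 1) (b := 0) (c := 0) (by norm_num))
    simpa using this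
  have u3 : IsUnit (3 : EvS p) := by
    have := ev_unit hp (ev_ndvd hp h29 (n := 3) (a := 0) (b := 1) (c := 0) (by norm_num))
    simpa using this
  have u5 : IsUnit (5 : EvS p) := by
    have := ev_unit hp (ev_ndvd hp h29 (n := 5) (a := 0) (b := 0) (c := 1) (by norm_num))
    simpa using this
  have i4 : (4 : EvS p) * algebraMap (RR p) (EvS p) (((4 : ℕ) : RR p)⁻¹) = 1 := by
    have := ev_inv hp (ev_ndvd hp h29 (n := 4) (a := 2) (b := 0) (c := 0) (by norm_num))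
    rw [← this]
    norm_num
  have hw : (((legendreSym p 6 : ℤ) : EvS p) * QuadraticAlgebra.omega) * (((legendreSym p 6 : ℤ) : EvS p) * QuadraticAlgebra.omega) = 6 := by
    linear_combination ev_om (p := p) + (QuadraticAlgebra.omega : EvS p) * QuadraticAlgebra.omega * ev_ls (p := p) h29
  exact ⟨ev_pt ev_om i4 ev_xeq u2 u3 u5, ev_pt hw i4 ev_seq u2 u3 u5⟩

private theorem ev_main [Fact p.Prime] (h29 : 29 ≤ p) (D : Dat p) :
    ∃ c : EvS p, ev_x p ^ p = ev_s p + (p : EvS p) * c ∧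
    gG (ev_x p ^ p) ^ 2 * (1 - 8 * ev_x p ^ p) ^ 2 * eE (ev_x p) * algebraMap (RR p) (EvS p) (Zs p) =
      (1 - 8 * ev_x p ^ p) ^ 2 * gG (ev_x p ^ p) * eE (ev_x p ^ p) * gG (ev_x p) * algebraMap (RR p) (EvS p) (Hs p) ^ 2 -
        (ev_x p ^ p * lL (ev_x p ^ p)) * gG (ev_x p) * algebraMap (RR p) (EvS p) (Hs p) *
        ((p : EvS p) * ((1 + ev_x p ^ p) * eE (ev_x p ^ p) * algebraMap (RR p) (EvS p) (∑ n ∈ range p, D.at' n * (128 : RR p)⁻¹ ^ n) +
          eyF (ev_x p ^ p) (Polynomial.aeval (ev_x p) D.e1) (Polynomial.aeval (ev_x p) D.ee) * algebraMap (RR p) (EvS p) (Hs p))) := by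
  have hp : p.Prime := Fact.out
  obtain ⟨⟨-, -, xt, xb, -, -, -, -, uE, uG, -⟩, ⟨-, -, -, -, -, s1, s8, -, sE, sG, sN⟩⟩ := ev_pts (p := p) h29
  obtain ⟨c, hc⟩ := ev_xp (p := p) (by omega) (-22 * ((4 : ℕ) : RR p)⁻¹) (9 * ((4 : ℕ) : RR p)⁻¹)
  have hx : ev_x p ^ p = ev_s p + (p : EvS p) * c := hc
  refine ⟨c, hx, ?_⟩
  have hd : ((p : EvS p) * c) * ((p : EvS p) * c) = 0 := by linear_combination (c * c) * ev_pp (p := p)
  obtain ⟨vE, vG, vN, vq, v8, -, -⟩ := ev_un hd s1 s8 sE sG sN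
  rw [← hx] at vE vG vN vq v8
  have u2 : IsUnit (2 : EvS p) := by
    have := ev_unit hp (ev_ndvd hp h29 (n := 2) (a := 1) (b := 0) (c := 0) (by norm_num))
    simpa using this
  have i96 : (96 : EvS p) * algebraMap (RR p) (EvS p) (((96 : ℕ) : RR p)⁻¹) = 1 := by
    have := ev_inv hp (ev_ndvd hp h29 (n := 96) (a := 5) (b := 1) (c := 0) (by norm_num))
    rw [← this]
    norm_num
  have i128 : (128 : EvS p) * algebraMap (RR p) (EvS p) (((128 : ℕ) : RR p)⁻¹) = 1 := by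
    have := ev_inv hp (ev_ndvd hp h29 (n := 128) (a := 7) (b := 0) (c := 0) (by norm_num))
    rw [← this]
    norm_num
  have h := ev_rel hp.pos i96 i128 xt xb uE uG (ev_AA hp h29 D (ev_x p)) (ev_BB hp h29 D (ev_x p)) u2 vE vG vN vq v8
  have eZ : algebraMap (RR p) (EvS p) (Zs p) = ∑ n ∈ range p, algebraMap (RR p) (EvS p) (bb n : RR p) *
      algebraMap (RR p) (EvS p) (((96 : ℕ) : RR p)⁻¹) ^ n := by
    rw [Zs, map_sum]
    refine sum_congr rfl fun n _ => ?_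
    rw [map_mul, map_pow]
    rfl
  have eH : algebraMap (RR p) (EvS p) (Hs p) = ∑ n ∈ range p, algebraMap (RR p) (EvS p) (aa n : RR p) *
      algebraMap (RR p) (EvS p) (((128 : ℕ) : RR p)⁻¹) ^ n := by
    rw [Hs, map_sum]
    refine sum_congr rfl fun n _ => ?_
    rw [map_mul, map_pow]
    rfl
  have eT : algebraMap (RR p) (EvS p) (∑ n ∈ range p, D.at' n * (128 : RR p)⁻¹ ^ n) = ∑ n ∈ range p, algebraMap (RR p) (EvS p) (D.at' n) *
      algebraMap (RR p) (EvS p) (((128 : ℕ) : RR p)⁻¹) ^ n := by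
    rw [map_sum]
    refine sum_congr rfl fun n _ => ?_
    rw [map_mul, map_pow]
    rfl
  rw [eZ, eH, eT]
  exact h

private theorem ev_pzero (hp : p.Prime) {a : RR p} (h : (p : RR p) * a = 0) : ∃ c : RR p, a = p * c := by
  apply ev_ker
  haveI : NeZero (p ^ 2) := ⟨(pow_pos hp.pos 2).ne'⟩
  have h1 : ((a.val : ℕ) : RR p) = a := ZMod.natCast_zmod_val a
  rw [← h1, ← Nat.cast_mul, ZMod.natCast_eq_zero_iff] at h
  have h2 : p * p ∣ p * a.val := (dvd_of_eq (pow_two p).symm).trans h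
  rw [← h1, map_natCast, ZMod.natCast_eq_zero_iff]
  exact Nat.dvd_of_mul_dvd_mul_left hp.pos h2

theorem transport0 (hp : p.Prime) (h29 : 29 ≤ p) (h : (p : RR p) * Hs p = 0) : Zs p = 0 := by
  haveI : Fact p.Prime := ⟨hp⟩
  obtain ⟨D⟩ := exists_dat hp (by omega : p ≠ 2)
  obtain ⟨c, hx, hm⟩ := ev_main (p := p) h29 D
  obtain ⟨⟨-, -, -, -, -, -, -, -, uE, uG, -⟩, ⟨-, -, -, -, -, s1, s8, -, sE, sG, sN⟩⟩ := ev_pts (p := p) h29
  have hd : ((p : EvS p) * c) * ((p : EvS p) * c) = 0 := by linear_combination (c * c) * ev_pp (p := p)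
  obtain ⟨vE, vG, vN, vq, v8, -, -⟩ := ev_un hd s1 s8 sE sG sN
  rw [← hx] at vE vG vN vq v8
  obtain ⟨h0, hh0⟩ := ev_pzero hp h
  have pH : (p : EvS p) * algebraMap (RR p) (EvS p) (Hs p) = 0 := by
    have := congrArg (algebraMap (RR p) (EvS p)) h
    rw [map_mul, map_natCast, map_zero] at this
    exact this
  have H2 : algebraMap (RR p) (EvS p) (Hs p) ^ 2 = 0 := by
    rw [hh0, map_mul, map_natCast]
    linear_combination (algebraMap (RR p) (EvS p) h0) ^ 2 * ev_pp (p := p)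
  have hz : gG (ev_x p ^ p) ^ 2 * (1 - 8 * ev_x p ^ p) ^ 2 * eE (ev_x p) * algebraMap (RR p) (EvS p) (Zs p) = 0 := by
    rw [hm, H2]
    linear_combination (-(ev_x p ^ p * lL (ev_x p ^ p)) * gG (ev_x p) *
        ((1 + ev_x p ^ p) * eE (ev_x p ^ p) * algebraMap (RR p) (EvS p) (∑ n ∈ range p, D.at' n * (128 : RR p)⁻¹ ^ n) +
          eyF (ev_x p ^ p) (Polynomial.aeval (ev_x p) D.e1) (Polynomial.aeval (ev_x p) D.ee) * algebraMap (RR p) (EvS p) (Hs p))) * pH
  have hz2 : algebraMap (RR p) (EvS p) (Zs p) = 0 := by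
    apply (((vG.pow 2).mul (v8.pow 2)).mul uE).mul_left_cancel
    rw [hz, mul_zero]
  apply QuadraticAlgebra.algebraMap_injective (R := RR p) (a := 6) (b := 0)
  rw [map_zero]
  exact hz2

private theorem ev_h2 (hp : p.Prime) (h29 : 29 ≤ p) (D : Dat p) (hCL : Hs2 p = 3 * (32 : RR p)⁻¹ * Hs p) :
    ∃ a0 : RR p, (128 : RR p) ^ p = 128 * (1 + p * a0) ∧
      (p : RR p) * (∑ n ∈ range p, D.at' n * (128 : RR p)⁻¹ ^ n) = p * a0 * Hs p := by
  have i128 : (128 : RR p) * (128 : RR p)⁻¹ = 1 := by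
    have := rr_inv hp (ev_ndvd hp h29 (n := 128) (a := 7) (b := 0) (c := 0) (by norm_num))
    exact this
  have i32 : (32 : RR p) * (32 : RR p)⁻¹ = 1 := by
    have := rr_inv hp (ev_ndvd hp h29 (n := 32) (a := 5) (b := 0) (c := 0) (by norm_num))
    exact this
  have u12 : IsUnit (12 : RR p) := by
    have := rr_unit hp (ev_ndvd hp h29 (n := 12) (a := 2) (b := 1) (c := 0) (by norm_num))
    exact this
  obtain ⟨c, hc⟩ := ev_fermat hp (128 : RR p)
  refine ⟨c * (128 : RR p)⁻¹, ?_, ?_⟩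
  · rw [hc]
    linear_combination (-(p : RR p) * c) * i128
  · have hp128 : (128 : RR p) ^ p * (128 : RR p)⁻¹ ^ p = 1 := by rw [← mul_pow, i128, one_pow]
    have e1 : Hs2 p = 12 * (128 : RR p)⁻¹ ^ p * (Hs p + p * ∑ n ∈ range p, D.at' n * (128 : RR p)⁻¹ ^ n) := by
      rw [Hs2, Hs, mul_sum, ← sum_add_distrib, mul_sum]
      refine sum_congr rfl fun n hn => ?_
      rw [mem_range] at hn
      have h1 := D.ha 1 n hn
      rw [one_mul] at h1
      have h12 : (aa 1 : RR p) = 12 := by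
        have : aa 1 = 12 := by decide
        rw [this]
        norm_num
      rw [h1, h12, pow_add]
      push_cast
      ring
    have e2 : 12 * (Hs p + p * ∑ n ∈ range p, D.at' n * (128 : RR p)⁻¹ ^ n) = (128 : RR p) ^ p * (3 * (32 : RR p)⁻¹ * Hs p) := by
      rw [← hCL, e1]
      linear_combination (-12 * (Hs p + p * ∑ n ∈ range p, D.at' n * (128 : RR p)⁻¹ ^ n)) * hp128
    have e3 : (128 : RR p) * (3 * (32 : RR p)⁻¹) = 12 := by linear_combination 12 * i32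
    apply u12.mul_left_cancel
    rw [hc] at e2
    have e4 : (3 * (32 : RR p)⁻¹) = 12 * (128 : RR p)⁻¹ := by
      linear_combination (128 : RR p)⁻¹ * e3 - 3 * (32 : RR p)⁻¹ * i128
    linear_combination e2 + Hs p * e3 + (p : RR p) * c * Hs p * e4

theorem transport [Fact p.Prime] (h29 : 29 ≤ p) (hCL : Hs2 p = 3 * (32 : RR p)⁻¹ * Hs p) :
    Zs p = (legendreSym p 6 : RR p) * Hs p ^ 2 := by
  have hp : p.Prime := Fact.out
  obtain ⟨D⟩ := exists_dat hp (by omega : p ≠ 2)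
  obtain ⟨a0, ha0, haH⟩ := ev_h2 hp h29 D hCL
  obtain ⟨c, hx, hm⟩ := ev_main (p := p) h29 D
  obtain ⟨⟨-, xG, -, xb, -, -, -, uw, uE, uG, -⟩, ⟨-, sGr, -, sb, -, s1, s8, -, sE, sG, sN⟩⟩ := ev_pts (p := p) h29
  have hd : ((p : EvS p) * c) * ((p : EvS p) * c) = 0 := by linear_combination (c * c) * ev_pp (p := p)
  obtain ⟨vE, vG, vN, vq, v8, hE', hG'⟩ := ev_un hd s1 s8 sE sG sN
  obtain ⟨k, hk1, hk2⟩ := ev_alg3 hd hx (Es := eE (ev_s p)) (E' := eE (ev_x p ^ p)) rfl (by rw [hx]; exact hE') (by rw [hx]; exact vE) sE sb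
  rw [← hx] at vE vG vN vq v8 hE' hG'
  -- the relation of the p-th powers
  have b1 : (1 + ev_x p) ^ p = (1 + ev_x p ^ p) + (p : EvS p) * Polynomial.aeval (ev_x p) D.e1 := by
    have := congrArg (Polynomial.aeval (ev_x p)) D.h1
    simpa using this
  have b2 : eE (ev_x p) ^ p = eE (ev_x p ^ p) + (p : EvS p) * Polynomial.aeval (ev_x p) D.ee := by
    have := congrArg (Polynomial.aeval (ev_x p)) D.he
    have q20 : (Polynomial.aeval (ev_x p)) (20 : Polynomial (RR p)) = 20 := map_ofNat _ 20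
    have q8 : (Polynomial.aeval (ev_x p)) (8 : Polynomial (RR p)) = 8 := map_ofNat _ 8
    simpa [eE, q20, q8] using this
  have b3 : (128 : EvS p) ^ p = 128 * (1 + (p : EvS p) * algebraMap (RR p) (EvS p) a0) := by
    have := congrArg (algebraMap (RR p) (EvS p)) ha0
    rw [map_pow, map_mul, map_add, map_mul, map_one, map_natCast, map_ofNat] at this
    exact this
  have b4 : 128 * (1 + (p : EvS p) * algebraMap (RR p) (EvS p) a0) * ev_x p ^ p * (1 + ev_x p ^ p + (p : EvS p) *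
      Polynomial.aeval (ev_x p) D.e1) ^ 3 = (eE (ev_x p ^ p) + (p : EvS p) * Polynomial.aeval (ev_x p) D.ee) ^ 2 := by
    rw [← b1, ← b2, ← b3]
    have := congrArg (fun z => z ^ p) xb
    simp only [bB] at this
    rw [mul_pow, mul_pow, ← pow_mul, ← pow_mul, mul_comm 3 p, mul_comm 2 p, pow_mul, pow_mul] at this
    rw [mul_assoc]
    exact this
  have hwD : (p : EvS p) * ((p : EvS p) * c * k) = 0 := by linear_combination (c * k) * ev_pp (p := p)
  have hal := ev_alg2 (ev_pp (p := p)) vE rfl hwD hk1 b4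
  have pT : (p : EvS p) * algebraMap (RR p) (EvS p) (∑ n ∈ range p, D.at' n * (128 : RR p)⁻¹ ^ n) =
      (p : EvS p) * algebraMap (RR p) (EvS p) a0 * algebraMap (RR p) (EvS p) (Hs p) := by
    have := congrArg (algebraMap (RR p) (EvS p)) haH
    rw [map_mul, map_mul, map_mul, map_natCast] at this
    exact this
  have hfin : gG (ev_x p ^ p) ^ 2 * (1 - 8 * ev_x p ^ p) ^ 2 * eE (ev_x p) * algebraMap (RR p) (EvS p) (Zs p) =
      (1 - 8 * ev_x p ^ p) ^ 2 * gG (ev_x p ^ p) * eE (ev_x p ^ p) * gG (ev_x p) * algebraMap (RR p) (EvS p) (Hs p) ^ 2 +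
        ev_x p ^ p * lL (ev_x p ^ p) * gG (ev_x p) * algebraMap (RR p) (EvS p) (Hs p) *
        ((1 + ev_x p ^ p) * eE (ev_x p ^ p) * ((p : EvS p) * c * k) * algebraMap (RR p) (EvS p) (Hs p)) := by
    rw [hm]
    have hY : (p : EvS p) * ((1 + ev_x p ^ p) * eE (ev_x p ^ p) * algebraMap (RR p) (EvS p) (∑ n ∈ range p, D.at' n * (128 : RR p)⁻¹ ^ n) +
          eyF (ev_x p ^ p) (Polynomial.aeval (ev_x p) D.e1) (Polynomial.aeval (ev_x p) D.ee) * algebraMap (RR p) (EvS p) (Hs p)) =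
        -((1 + ev_x p ^ p) * eE (ev_x p ^ p) * ((p : EvS p) * c * k) * algebraMap (RR p) (EvS p) (Hs p)) := by
      unfold eyF
      linear_combination (1 + ev_x p ^ p) * eE (ev_x p ^ p) * pT + algebraMap (RR p) (EvS p) (Hs p) * hal
    rw [hY]
    ring
  have h4 := ev_alg4 hd hx (Es := eE (ev_s p)) (Gs := gG (ev_s p)) rfl rfl hE' hG' (m := 1 - 8 * ev_x p ^ p) (by rw [hx]; ring)
    (L' := lL (ev_x p ^ p)) rfl sE vG v8 hk2 hfin
  have h5 : ((legendreSym p 6 : ℤ) : EvS p) * algebraMap (RR p) (EvS p) (Zs p) = algebraMap (RR p) (EvS p) (Hs p) ^ 2 := by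
    apply ((uw.mul uE).mul sE).mul_left_cancel
    linear_combination 3 * h4 - eE (ev_x p) * algebraMap (RR p) (EvS p) (Zs p) * sGr + eE (ev_s p) * algebraMap (RR p) (EvS p) (Hs p) ^ 2 * xG
  have h6 : algebraMap (RR p) (EvS p) (Zs p) = algebraMap (RR p) (EvS p) ((legendreSym p 6 : RR p) * Hs p ^ 2) := by
    rw [map_mul, map_pow, map_intCast, ← h5]
    linear_combination (-algebraMap (RR p) (EvS p) (Zs p)) * ev_ls (p := p) h29
  exact QuadraticAlgebra.algebraMap_injective (R := RR p) (a := 6) (b := 0) h6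

end Pool.Agent.ADC
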