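import Pool.Agent.ADC.Cmp
import Pool.Agent.ADC.Rec

/-! Project ADC (MP_adc642_nt), module Iden (size 4): the modular transformation as an identity of power series over the rationals.

PROOF. Work in ℚ⟦X⟧ (a domain). y := bB X * iE ^ 2, t := tT X * iG ^ 2, h := cmp aa y, h1 := cmp (n aa) y, h2 := cmp (n^2 aa) y, g0 := cmp bb t,
g1 := cmp (n bb) t, g2 := cmp (n^2 bb) t, g3 := cmp (n^3 bb) t. Write x = X, E = eE x, G = gG x, N = nN x, q = qq x, L = lL x.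
theta y = τ y, with (1+x) E τ = (1-8x)^2; theta t = σ t, with q G σ = N. E^2 - 64 bB x = (1-8x)^3, so E^2 (1 - 64 y) = (1-8x)^3; G^4 (1 - 28 t - 128 t^2) = N^2.
cmp_succ and aa_rec: h2 = y (64 h2 + 64 h1 + 12 h). cmp_succ and bb_rec: g3 = t (28 g3 + 42 g2 + 22 g1 + 4 g0) + t^2 (128 g3 + 384 g2 + 352 g1 + 96 g0).
cmp_theta: theta h = τ h1, theta h1 = τ h2, theta g0 = σ g1, theta g1 = σ g2, theta g2 = σ g3. So (cancel units)
(1) (1+x) E theta h = (1-8x)^2 h1      (2) (1-8x) E theta h1 = x (1+x)^2 (64 h1 + 12 h)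
(3) q G theta g0 = N g1   (4) q G theta g1 = N g2   (5) N G theta g2 = x ((42 G^2 + 384 x q) g2 + (22 G^2 + 352 x q) g1 + (4 G^2 + 96 x q) g0).
W0 := h^2, W1 := h h1, W2 := h1^2, D := q E: D theta W0 = 2 (1-8x)^3 W1, D theta W1 = (1-8x)^3 W2 + x (1+x)^3 (64 W1 + 12 W0), D theta W2 = 2 x (1+x)^3 (64 W2 + 12 W1).
Z := G (a1 W0 + b1 W1), a1 := q x L, b1 := 2 G (1-8x)^3. S := E theta N + 2 N theta E. Z2 := N (D theta Z) - q S Z times G, i.e. Z2 = β0 W0 + β1 W1 + β2 W2 with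
β_i = G (N (i-th coefficient of D theta Z) - q S α_i), α = (G a1, G b1, 0); here D theta Z is computed with the rules above.
d0 := E g0 - G W0, d1 := N E^2 g1 - Z, d2 := N^3 E^3 g2 - Z2. Then
q G E theta d0 = q G (theta E) d0 + d1,
q G N E theta d1 = q G S d1 + d2,
q N G E theta d2 = q (3 G (E theta N + N theta E) d2 + E x (42 G^2 + 384 x q) d2 + N^2 E^2 x (22 G^2 + 352 x q) d1 + N^3 E^3 x (4 G^2 + 96 x q) d0);
the last one uses the polynomial identity (checked by computer)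
q (3 G (E tN + N tE) Z2 + E x (42 G^2 + 384 x q) Z2 + N^2 E^2 x (22 G^2 + 352 x q) Z + N^3 E^3 x (4 G^2 + 96 x q) G W0) = N G (D theta Z2)
for the coefficients of W0, W1, W2 (tN = theta N, tE = theta E).
Constant terms: d0 has constant term 0, then d1 (first relation), then d2. By induction X^n divides d0, d1, d2 (n ≥ 1): third relation: n * coeff n d2 = 0 (q N G E has constant
term 1 and theta N, theta E, x are divisible by X), then the second, then the first one. So all are 0.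
-/

set_option autoImplicit false

namespace Pool.Agent.ADC

open Finset PowerSeries


private theorem iden_th0 : theta (0 : ℚ⟦X⟧) = 0 := by
  simpa using theta_natCast (A := ℚ) 0

private theorem iden_th1 : theta (1 : ℚ⟦X⟧) = 0 := by
  simpa using theta_natCast (A := ℚ) 1

private theorem iden_thn (n : ℕ) [n.AtLeastTwo] : theta (ofNat(n) : ℚ⟦X⟧) = 0 := by
  have h := theta_natCast (A := ℚ) (OfNat.ofNat n)
  simpa using h

private theorem iden_thneg (f : ℚ⟦X⟧) : theta (-f) = -theta f := by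
  have h := theta_sub (0 : ℚ⟦X⟧) f
  rw [iden_th0] at h
  simpa using h

private theorem iden_thX (k : ℕ) : theta (X ^ k : ℚ⟦X⟧) = (k : ℚ⟦X⟧) * X ^ k := by
  cases k with
  | zero => simpa using iden_th1
  | succ n =>
    rw [theta_pow, theta_X]
    ring

private theorem iden_tE : theta (eE (X : ℚ⟦X⟧)) = 20 * X - 16 * X ^ 2 := by
  unfold eE
  simp only [theta_add, theta_sub, iden_thneg, theta_mul, iden_thX, theta_X, iden_thn, iden_th1, iden_th0, Nat.cast_ofNat,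
    zero_mul, zero_add, add_zero, mul_zero, sub_zero, zero_sub]
  ring

private theorem iden_tG : theta (gG (X : ℚ⟦X⟧)) = 16 * X ^ 2 := by
  unfold gG
  simp only [theta_add, theta_sub, iden_thneg, theta_mul, iden_thX, theta_X, iden_thn, iden_th1, iden_th0, Nat.cast_ofNat,
    zero_mul, zero_add, add_zero, mul_zero, sub_zero, zero_sub]
  ring

private theorem iden_tN : theta (nN (X : ℚ⟦X⟧)) = -14 * X - 96 * X ^ 2 + 336 * X ^ 3 + 256 * X ^ 4 := by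
  unfold nN
  simp only [theta_add, theta_sub, iden_thneg, theta_mul, iden_thX, theta_X, iden_thn, iden_th1, iden_th0, Nat.cast_ofNat,
    zero_mul, zero_add, add_zero, mul_zero, sub_zero, zero_sub]
  ring

private noncomputable def iden_a0 : ℚ⟦X⟧ := -(20 * X) + 172 * X ^ 2 - 64 * X ^ 3 - 512 * X ^ 5 - 11008 * X ^ 6 - 10240 * X ^ 7

private theorem iden_ta0 : theta iden_a0 = -(20 * X) + 344 * X ^ 2 - 192 * X ^ 3 - 2560 * X ^ 5 - 66048 * X ^ 6 - 71680 * X ^ 7 := by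
  unfold iden_a0
  simp only [theta_add, theta_sub, iden_thneg, theta_mul, iden_thX, theta_X, iden_thn, iden_th1, iden_th0, Nat.cast_ofNat,
    zero_mul, zero_add, add_zero, mul_zero, sub_zero, zero_sub]
  ring

private noncomputable def iden_a1 : ℚ⟦X⟧ := 2 - 48 * X + 416 * X ^ 2 - 1792 * X ^ 3 + 6272 * X ^ 4 - 19456 * X ^ 5 + 24576 * X ^ 6 - 65536 * X ^ 7

private theorem iden_ta1 : theta iden_a1 = -(48 * X) + 832 * X ^ 2 - 5376 * X ^ 3 + 25088 * X ^ 4 - 97280 * X ^ 5 + 147456 * X ^ 6 - 458752 * X ^ 7 := by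
  unfold iden_a1
  simp only [theta_add, theta_sub, iden_thneg, theta_mul, iden_thX, theta_X, iden_thn, iden_th1, iden_th0, Nat.cast_ofNat,
    zero_mul, zero_add, add_zero, mul_zero, sub_zero, zero_sub]
  ring

private noncomputable def iden_b0 : ℚ⟦X⟧ := 4 * X + 44 * X ^ 2 - 11016 * X ^ 3 + 80288 * X ^ 4 + 382672 * X ^ 5 - 3960576 * X ^ 6 + 9918208 * X ^ 7 - 6965248 * X ^ 8 - 55721984 * X ^ 10 - 634765312 * X ^ 11 - 2027814912 * X ^ 12 - 1567424512 * X ^ 13 + 2630877184 * X ^ 14 + 2887778304 * X ^ 15 + 92274688 * X ^ 16 - 67108864 * X ^ 17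

private theorem iden_tb0 : theta iden_b0 = 4 * X + 88 * X ^ 2 - 33048 * X ^ 3 + 321152 * X ^ 4 + 1913360 * X ^ 5 - 23763456 * X ^ 6 + 69427456 * X ^ 7 - 55721984 * X ^ 8 - 557219840 * X ^ 10 - 6982418432 * X ^ 11 - 24333778944 * X ^ 12 - 20376518656 * X ^ 13 + 36832280576 * X ^ 14 + 43316674560 * X ^ 15 + 1476395008 * X ^ 16 - 1140850688 * X ^ 17 := by
  unfold iden_b0
  simp only [theta_add, theta_sub, iden_thneg, theta_mul, iden_thX, theta_X, iden_thn, iden_th1, iden_th0, Nat.cast_ofNat,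
    zero_mul, zero_add, add_zero, mul_zero, sub_zero, zero_sub]
  ring

private noncomputable def iden_b1 : ℚ⟦X⟧ := -(12 * X) + 1812 * X ^ 2 - 44160 * X ^ 3 + 361056 * X ^ 4 - 107520 * X ^ 5 - 13650432 * X ^ 6 + 77586432 * X ^ 7 - 254619648 * X ^ 8 + 764264448 * X ^ 9 - 732610560 * X ^ 10 - 1596456960 * X ^ 11 + 2196111360 * X ^ 12 - 19843252224 * X ^ 13 + 1560281088 * X ^ 14 + 24964497408 * X ^ 15 + 1610612736 * X ^ 16

private theorem iden_tb1 : theta iden_b1 = -(12 * X) + 3624 * X ^ 2 - 132480 * X ^ 3 + 1444224 * X ^ 4 - 537600 * X ^ 5 - 81902592 * X ^ 6 + 543105024 * X ^ 7 - 2036957184 * X ^ 8 + 6878380032 * X ^ 9 - 7326105600 * X ^ 10 - 17561026560 * X ^ 11 + 26353336320 * X ^ 12 - 257962278912 * X ^ 13 + 21843935232 * X ^ 14 + 374467461120 * X ^ 15 + 25769803776 * X ^ 16 := by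
  unfold iden_b1
  simp only [theta_add, theta_sub, iden_thneg, theta_mul, iden_thX, theta_X, iden_thn, iden_th1, iden_th0, Nat.cast_ofNat,
    zero_mul, zero_add, add_zero, mul_zero, sub_zero, zero_sub]
  ring

private noncomputable def iden_b2 : ℚ⟦X⟧ := 2 - 124 * X + 3216 * X ^ 2 - 45504 * X ^ 3 + 383232 * X ^ 4 - 1966080 * X ^ 5 + 5933056 * X ^ 6 - 6361088 * X ^ 7 - 49766400 * X ^ 8 + 410501120 * X ^ 9 - 1673199616 * X ^ 10 + 4938792960 * X ^ 11 - 12016680960 * X ^ 12 + 18723373056 * X ^ 13 - 24964497408 * X ^ 14 + 17179869184 * X ^ 15 + 17179869184 * X ^ 16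

private theorem iden_tb2 : theta iden_b2 = -(124 * X) + 6432 * X ^ 2 - 136512 * X ^ 3 + 1532928 * X ^ 4 - 9830400 * X ^ 5 + 35598336 * X ^ 6 - 44527616 * X ^ 7 - 398131200 * X ^ 8 + 3694510080 * X ^ 9 - 16731996160 * X ^ 10 + 54326722560 * X ^ 11 - 144200171520 * X ^ 12 + 243403849728 * X ^ 13 - 349502963712 * X ^ 14 + 257698037760 * X ^ 15 + 274877906944 * X ^ 16 := by
  unfold iden_b2
  simp only [theta_add, theta_sub, iden_thneg, theta_mul, iden_thX, theta_X, iden_thn, iden_th1, iden_th0, Nat.cast_ofNat,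
    zero_mul, zero_add, add_zero, mul_zero, sub_zero, zero_sub]
  ring

private theorem iden_Z (h h1 : ℚ⟦X⟧) : gG (X : ℚ⟦X⟧) * (qq (X : ℚ⟦X⟧) * X * lL (X : ℚ⟦X⟧) * h ^ 2 +
    2 * gG (X : ℚ⟦X⟧) * (1 - 8 * X) ^ 3 * (h * h1)) = iden_a0 * h ^ 2 + iden_a1 * (h * h1) := by
  unfold gG qq lL iden_a0 iden_a1
  ring

/-- the three differences -/
private noncomputable def iden_d0 (h g0 : ℚ⟦X⟧) : ℚ⟦X⟧ := eE X * g0 - gG X * h ^ 2

private noncomputable def iden_d1 (h h1 g1 : ℚ⟦X⟧) : ℚ⟦X⟧ := nN X * eE X ^ 2 * g1 - (iden_a0 * h ^ 2 + iden_a1 * (h * h1))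

private noncomputable def iden_d2 (h h1 g2 : ℚ⟦X⟧) : ℚ⟦X⟧ := nN X ^ 3 * eE X ^ 3 * g2 - (iden_b0 * h ^ 2 + iden_b1 * (h * h1) + iden_b2 * h1 ^ 2)

private noncomputable def iden_S : ℚ⟦X⟧ := eE X * (-14 * X - 96 * X ^ 2 + 336 * X ^ 3 + 256 * X ^ 4) + 2 * nN X * (20 * X - 16 * X ^ 2)

private noncomputable def iden_T : ℚ⟦X⟧ := 3 * gG X * (eE X * (-14 * X - 96 * X ^ 2 + 336 * X ^ 3 + 256 * X ^ 4) + nN X * (20 * X - 16 * X ^ 2)) +
  eE X * X * (42 * gG X ^ 2 + 384 * X * qq X)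

private theorem iden_thsq (f : ℚ⟦X⟧) : theta (f ^ 2) = 2 * f * theta f := by
  rw [pow_two, theta_mul]; ring

private theorem iden_thcb (f : ℚ⟦X⟧) : theta (f ^ 3) = 3 * f ^ 2 * theta f := by
  rw [pow_succ, theta_mul, iden_thsq]; ring

private theorem iden_R1 {h h1 g0 g1 : ℚ⟦X⟧} (e1 : (1 + X) * eE X * theta h = (1 - 8 * X) ^ 2 * h1) (e3 : qq X * gG X * theta g0 = nN X * g1) :
    qq X * gG X * eE X * theta (iden_d0 h g0) = qq X * gG X * (20 * X - 16 * X ^ 2) * iden_d0 h g0 + iden_d1 h h1 g1 := by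
  unfold iden_d0 iden_d1
  rw [theta_sub, theta_mul, theta_mul, iden_thsq, iden_tE, iden_tG]
  unfold iden_a0 iden_a1
  unfold qq gG eE nN at *
  linear_combination ((1 + 20 * X - 8 * X ^ 2 : ℚ⟦X⟧) ^ 2) * e3 - 2 * (1 - 8 * X) * (1 + 8 * X ^ 2) ^ 2 * h * e1

private theorem iden_R2 {h h1 g1 g2 : ℚ⟦X⟧} (e1 : (1 + X) * eE X * theta h = (1 - 8 * X) ^ 2 * h1)
    (e2 : (1 - 8 * X) * eE X * theta h1 = X * (1 + X) ^ 2 * (64 * h1 + 12 * h)) (e4 : qq X * gG X * theta g1 = nN X * g2) :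
    qq X * gG X * nN X * eE X * theta (iden_d1 h h1 g1) = qq X * gG X * iden_S * iden_d1 h h1 g1 + iden_d2 h h1 g2 := by
  unfold iden_d1 iden_d2 iden_S
  rw [theta_sub, theta_mul, theta_mul, theta_add, theta_mul, theta_mul, theta_mul h h1, iden_thsq, iden_thsq, iden_tE, iden_tN, iden_ta0, iden_ta1]
  generalize theta h = th at *
  generalize theta h1 = th1 at *
  generalize theta g1 = tg at *
  have e1' := e1
  have e2' := e2
  have e4' := e4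
  unfold iden_a0 iden_a1 iden_b0 iden_b1 iden_b2
  unfold qq gG eE nN at *
  linear_combination ((1 - 14 * X - 48 * X ^ 2 + 112 * X ^ 3 + 64 * X ^ 4 : ℚ⟦X⟧) ^ 2 * (1 + 20 * X - 8 * X ^ 2) ^ 3) * e4 -
    (1 - 14 * X - 48 * X ^ 2 + 112 * X ^ 3 + 64 * X ^ 4) * (1 + 8 * X ^ 2) * (2 * (-(20 * X) + 172 * X ^ 2 - 64 * X ^ 3 - 512 * X ^ 5 - 11008 * X ^ 6 - 10240 * X ^ 7) * h + (2 - 48 * X + 416 * X ^ 2 - 1792 * X ^ 3 + 6272 * X ^ 4 - 19456 * X ^ 5 + 24576 * X ^ 6 - 65536 * X ^ 7) * h1) * (1 - 8 * X) * e1 -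
    (1 - 14 * X - 48 * X ^ 2 + 112 * X ^ 3 + 64 * X ^ 4) * (1 + 8 * X ^ 2) * (2 - 48 * X + 416 * X ^ 2 - 1792 * X ^ 3 + 6272 * X ^ 4 - 19456 * X ^ 5 + 24576 * X ^ 6 - 65536 * X ^ 7) * h * (1 + X) * e2

private theorem iden_R3 {h h1 g0 g1 g2 : ℚ⟦X⟧} (e1 : (1 + X) * eE X * theta h = (1 - 8 * X) ^ 2 * h1)
    (e2 : (1 - 8 * X) * eE X * theta h1 = X * (1 + X) ^ 2 * (64 * h1 + 12 * h))
    (e5 : nN X * gG X * theta g2 = X * ((42 * gG X ^ 2 + 384 * X * qq X) * g2 + (22 * gG X ^ 2 + 352 * X * qq X) * g1 + (4 * gG X ^ 2 + 96 * X * qq X) * g0)) :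
    qq X * gG X * nN X * eE X * theta (iden_d2 h h1 g2) = qq X * iden_T * iden_d2 h h1 g2 +
      qq X * nN X ^ 2 * eE X ^ 2 * X * (22 * gG X ^ 2 + 352 * X * qq X) * iden_d1 h h1 g1 +
      qq X * nN X ^ 3 * eE X ^ 3 * X * (4 * gG X ^ 2 + 96 * X * qq X) * iden_d0 h g0 := by
  unfold iden_d0 iden_d1 iden_d2 iden_T
  rw [theta_sub, theta_mul, theta_mul, theta_add, theta_add, theta_mul iden_b0, theta_mul iden_b1, theta_mul iden_b2, theta_mul h h1, iden_thsq, iden_thsq, iden_thcb, iden_thcb,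
    iden_tE, iden_tN, iden_tb0, iden_tb1, iden_tb2]
  generalize theta h = th at *
  generalize theta h1 = th1 at *
  generalize theta g2 = tg at *
  unfold iden_a0 iden_a1 iden_b0 iden_b1 iden_b2
  unfold qq gG eE nN at *
  linear_combination ((1 + X : ℚ⟦X⟧) * (1 - 8 * X) * (1 + 20 * X - 8 * X ^ 2) * (1 - 14 * X - 48 * X ^ 2 + 112 * X ^ 3 + 64 * X ^ 4) ^ 3 * (1 + 20 * X - 8 * X ^ 2) ^ 3) * e5 -
    (1 - 14 * X - 48 * X ^ 2 + 112 * X ^ 3 + 64 * X ^ 4) * (1 + 8 * X ^ 2) * (2 * (4 * X + 44 * X ^ 2 - 11016 * X ^ 3 + 80288 * X ^ 4 + 382672 * X ^ 5 - 3960576 * X ^ 6 + 9918208 * X ^ 7 - 6965248 * X ^ 8 - 55721984 * X ^ 10 - 634765312 * X ^ 11 - 2027814912 * X ^ 12 - 1567424512 * X ^ 13 + 2630877184 * X ^ 14 + 2887778304 * X ^ 15 + 92274688 * X ^ 16 - 67108864 * X ^ 17) * h + (-(12 * X) + 1812 * X ^ 2 - 44160 * X ^ 3 + 361056 * X ^ 4 - 107520 * X ^ 5 - 13650432 * X ^ 6 + 77586432 * X ^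 7 - 254619648 * X ^ 8 + 764264448 * X ^ 9 - 732610560 * X ^ 10 - 1596456960 * X ^ 11 + 2196111360 * X ^ 12 - 19843252224 * X ^ 13 + 1560281088 * X ^ 14 + 24964497408 * X ^ 15 + 1610612736 * X ^ 16) * h1) * (1 - 8 * X) * e1 -
    (1 - 14 * X - 48 * X ^ 2 + 112 * X ^ 3 + 64 * X ^ 4) * (1 + 8 * X ^ 2) * ((-(12 * X) + 1812 * X ^ 2 - 44160 * X ^ 3 + 361056 * X ^ 4 - 107520 * X ^ 5 - 13650432 * X ^ 6 + 77586432 * X ^ 7 - 254619648 * X ^ 8 + 764264448 * X ^ 9 - 732610560 * X ^ 10 - 1596456960 * X ^ 11 + 2196111360 * X ^ 12 - 19843252224 * X ^ 13 + 1560281088 * X ^ 14 + 24964497408 * X ^ 15 + 1610612736 * X ^ 16) * h + 2 * (2 - 124 * X + 3216 * X ^ 2 - 45504 * X ^ 3 + 383232 * X ^ 4 - 1966080 * X ^ 5 + 5933056 * X ^ 6 - 6361088 * X ^ 7 - 49766400 * X ^ 8 + 410501120 * X ^ 9 - 1673199616 * X ^ 10 + 4938792960 * X ^ 11 - 12016680960 * X ^ 12 + 18723373056 * X ^ 13 - 24964497408 * X ^ 14 +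 17179869184 * X ^ 15 + 17179869184 * X ^ 16) * h1) * (1 + X) * e2

/-- the vanishing lemma -/
private theorem iden_step {n : ℕ} (hn : 1 ≤ n) {u d r : ℚ⟦X⟧} (hu : constantCoeff u = 1) (hd : X ^ n ∣ d) (hr : X ^ (n + 1) ∣ r)
    (h : u * theta d = r) : X ^ (n + 1) ∣ d := by
  rw [X_pow_dvd_iff] at hd ⊢
  intro m hm
  rcases Nat.lt_succ_iff_lt_or_eq.mp hm with hm' | rfl
  · exact hd m hm'
  have hr' := X_pow_dvd_iff.mp hr m (Nat.lt_succ_self m)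
  rw [← h, coeff_mul] at hr'
  rw [Finset.sum_eq_single (0, m)] at hr'
  · have h0 : coeff 0 u = 1 := by simpa using hu
    rw [h0] at hr'
    simp only [theta, coeff_mk, one_mul] at hr'
    rcases mul_eq_zero.mp hr' with h1 | h1
    · exact absurd (Nat.cast_eq_zero.mp h1) (by omega)
    · exact h1
  · rintro ⟨i, j⟩ hij hne
    rw [Finset.HasAntidiagonal.mem_antidiagonal] at hij
    simp only at hij
    have hj : j < m := by
      rcases Nat.lt_or_ge j m with hj | hj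
      · exact hj
      · exfalso; apply hne; have : i = 0 := by omega
        have : j = m := by omega
        simp [*]
    simp only [theta, coeff_mk]
    rw [hd j hj]; simp
  · intro hnot
    exact absurd (Finset.HasAntidiagonal.mem_antidiagonal.mpr (by simp)) hnot

private theorem iden_van {u0 u1 u2 a00 a11 a22 a21 a20 d0 d1 d2 : ℚ⟦X⟧} (hu0 : constantCoeff u0 = 1) (hu1 : constantCoeff u1 = 1)
    (hu2 : constantCoeff u2 = 1) (h00 : X ∣ a00) (h11 : X ∣ a11) (h22 : X ∣ a22) (h21 : X ∣ a21) (h20 : X ∣ a20) (hd : X ∣ d0)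
    (r0 : u0 * theta d0 = a00 * d0 + d1) (r1 : u1 * theta d1 = a11 * d1 + d2) (r2 : u2 * theta d2 = a22 * d2 + a21 * d1 + a20 * d0) :
    d0 = 0 ∧ d1 = 0 := by
  have hth : ∀ f : ℚ⟦X⟧, X ∣ theta f := by
    intro f
    rw [X_dvd_iff]
    rw [← coeff_zero_eq_constantCoeff_apply]
    simp [theta]
  have hd1 : X ∣ d1 := by
    have : d1 = u0 * theta d0 - a00 * d0 := by rw [r0]; ring
    rw [this]
    exact dvd_sub (Dvd.dvd.mul_left (hth _) _) (Dvd.dvd.mul_left hd _)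
  have hd2 : X ∣ d2 := by
    have : d2 = u1 * theta d1 - a11 * d1 := by rw [r1]; ring
    rw [this]
    exact dvd_sub (Dvd.dvd.mul_left (hth _) _) (Dvd.dvd.mul_left hd1 _)
  have key : ∀ n : ℕ, X ^ (n + 1) ∣ d0 ∧ X ^ (n + 1) ∣ d1 ∧ X ^ (n + 1) ∣ d2 := by
    intro n
    induction n with
    | zero => simpa using ⟨hd, hd1, hd2⟩
    | succ n ih =>
      obtain ⟨i0, i1, i2⟩ := ih
      have mm : ∀ {a d : ℚ⟦X⟧}, X ∣ a → X ^ (n + 1) ∣ d → X ^ (n + 1 + 1) ∣ a * d := by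
        intro a d ha hd
        rw [pow_succ, mul_comm (X ^ (n + 1))]
        exact mul_dvd_mul ha hd
      have j2 : X ^ (n + 1 + 1) ∣ d2 :=
        iden_step (by omega) hu2 i2 (dvd_add (dvd_add (mm h22 i2) (mm h21 i1)) (mm h20 i0)) r2
      have j1 : X ^ (n + 1 + 1) ∣ d1 := iden_step (by omega) hu1 i1 (dvd_add (mm h11 i1) j2) r1
      have j0 : X ^ (n + 1 + 1) ∣ d0 := iden_step (by omega) hu0 i0 (dvd_add (mm h00 i0) j1) r0
      exact ⟨j0, j1, j2⟩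
  constructor
  · ext m
    exact X_pow_dvd_iff.mp (key m).1 m (by omega)
  · ext m
    exact X_pow_dvd_iff.mp (key m).2.1 m (by omega)

private theorem iden_thinv {f g f' : ℚ⟦X⟧} (h : f * g = 1) (hf : theta f = f') : theta g = - (g ^ 2 * f') := by
  have h1 : theta (f * g) = 0 := by rw [h]; exact iden_th1
  rw [theta_mul, hf] at h1
  have h2 : g * (f' * g + f * theta g) = 0 := by rw [h1, mul_zero]
  have h3 : g * (f' * g + f * theta g) = g ^ 2 * f' + (f * g) * theta g := by ring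
  rw [h3, h, one_mul] at h2
  linear_combination h2

private theorem iden_unit {f : ℚ⟦X⟧} (h : constantCoeff f = 1) : ∃ g, f * g = 1 := by
  refine ⟨f⁻¹, PowerSeries.mul_inv_cancel f ?_⟩
  rw [h]; exact one_ne_zero

private theorem iden_cancel {u a b : ℚ⟦X⟧} (h : constantCoeff u = 1) (e : u * a = u * b) : a = b := by
  obtain ⟨g, hg⟩ := iden_unit h
  have : (u * g) * a = (u * g) * b := by linear_combination g * e
  simpa [hg] using this

private theorem iden_cmp_congr {c d : ℕ → ℚ} (z : ℚ⟦X⟧) (h : ∀ n, c n = d n) : cmp c z = cmp d z := by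
  have : c = d := funext h
  rw [this]

private theorem iden_cmp_num (a : ℚ) (c : ℕ → ℚ) {z : ℚ⟦X⟧} (hz : X ∣ z) : cmp (fun n => a * c n) z = C a * cmp c z := cmp_mulC a hz

private theorem iden_lev2 {iE : ℚ⟦X⟧} (hE : eE (X : ℚ⟦X⟧) * iE = 1) :
    (1 + X) * eE X * theta (cmp (fun n => (aa n : ℚ)) (bB (X : ℚ⟦X⟧) * iE ^ 2)) =
      (1 - 8 * X) ^ 2 * cmp (fun n => n * (aa n : ℚ)) (bB (X : ℚ⟦X⟧) * iE ^ 2) ∧
    (1 - 8 * X) * eE X * theta (cmp (fun n => n * (aa n : ℚ)) (bB (X : ℚ⟦X⟧) * iE ^ 2)) =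
      X * (1 + X) ^ 2 * (64 * cmp (fun n => n * (aa n : ℚ)) (bB (X : ℚ⟦X⟧) * iE ^ 2) + 12 * cmp (fun n => (aa n : ℚ)) (bB (X : ℚ⟦X⟧) * iE ^ 2)) := by
  obtain ⟨i1, hi1⟩ := iden_unit (f := (1 + X : ℚ⟦X⟧)) (by simp)
  set y : ℚ⟦X⟧ := bB (X : ℚ⟦X⟧) * iE ^ 2 with hy
  have hyX : X ∣ y := by
    rw [hy]; unfold bB
    exact Dvd.dvd.mul_right (Dvd.dvd.mul_right dvd_rfl _) _
  have hty : theta y = ((1 - 8 * X) ^ 2 * i1 * iE) * y := by
    rw [hy, theta_mul, iden_thsq, iden_thinv hE iden_tE]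
    have hb : theta (bB (X : ℚ⟦X⟧)) = X * (1 + X) ^ 2 * (1 + 4 * X) := by
      unfold bB
      rw [theta_mul, iden_thcb, theta_add, iden_th1, theta_X]
      ring
    rw [hb]
    have e : (1 + X) * (eE X * (X * (1 + X) ^ 2 * (1 + 4 * X) * iE ^ 2 + bB X * (2 * iE * -(iE ^ 2 * (20 * X - 16 * X ^ 2))))) =
      (1 + X) * (eE X * ((1 - 8 * X) ^ 2 * i1 * iE * (bB X * iE ^ 2))) := by
      have h1 : eE X * iE = (1 : ℚ⟦X⟧) := hE
      have l : (1 + X) * (eE X * (X * (1 + X) ^ 2 * (1 + 4 * X) * iE ^ 2 + bB X * (2 * iE * -(iE ^ 2 * (20 * X - 16 * X ^ 2))))) =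
        (eE X * iE) * ((1 + X) * (X * (1 + X) ^ 2 * (1 + 4 * X)) * iE) - (eE X * iE) * (2 * (1 + X) * bB X * (20 * X - 16 * X ^ 2) * iE ^ 2) := by ring
      have r : (1 + X) * (eE X * ((1 - 8 * X) ^ 2 * i1 * iE * (bB X * iE ^ 2))) =
        ((1 + X) * i1) * (eE X * iE) * ((1 - 8 * X) ^ 2 * bB X * iE ^ 2) := by ring
      rw [l, r, hi1, h1]
      have s : (1 + X) * (X * (1 + X) ^ 2 * (1 + 4 * X)) * iE = (1 + X) * (X * (1 + X) ^ 2 * (1 + 4 * X)) * (eE X * iE) * iE := by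
        rw [h1]; ring
      rw [one_mul, s]
      unfold bB eE
      ring
    exact iden_cancel (u := eE X) (by simp [eE]) (iden_cancel (u := (1 + X : ℚ⟦X⟧)) (by simp) e)
  set h : ℚ⟦X⟧ := cmp (fun n => (aa n : ℚ)) y with hh
  set h1 : ℚ⟦X⟧ := cmp (fun n => n * (aa n : ℚ)) y with hh1
  set h2 : ℚ⟦X⟧ := cmp (fun n => n * (n * (aa n : ℚ))) y with hh2
  have t1 : theta h = ((1 - 8 * X) ^ 2 * i1 * iE) * h1 := cmp_theta hyX hty
  have t2 : theta h1 = ((1 - 8 * X) ^ 2 * i1 * iE) * h2 := cmp_theta hyX hty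
  have hrec : h2 = y * (64 * h2 + 64 * h1 + 12 * h) := by
    have s1 : h2 = y * cmp (fun n => ((n + 1 : ℕ) : ℚ) * (((n + 1 : ℕ) : ℚ) * (aa (n + 1) : ℚ))) y := by
      rw [hh2, cmp_succ hyX]
      simp
    have : cmp (fun n => ((n + 1 : ℕ) : ℚ) * (((n + 1 : ℕ) : ℚ) * (aa (n + 1) : ℚ))) y =
        cmp (fun n => (64 * (n * (n * (aa n : ℚ))) + 64 * (n * (aa n : ℚ))) + 12 * (aa n : ℚ)) y := by
      apply iden_cmp_congr
      intro n
      have h := aa_rec n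
      have h' : (((n + 1) ^ 2 * aa (n + 1) : ℕ) : ℚ) = ((4 * (4 * n + 1) * (4 * n + 3) * aa n : ℕ) : ℚ) := by rw [h]
      push_cast at h' ⊢
      linear_combination h'
    have s2 : cmp (fun n => (64 * (n * (n * (aa n : ℚ))) + 64 * (n * (aa n : ℚ))) + 12 * (aa n : ℚ)) y = 64 * h2 + 64 * h1 + 12 * h := by
      rw [cmp_add (fun n => 64 * (n * (n * (aa n : ℚ))) + 64 * (n * (aa n : ℚ))) (fun n => 12 * (aa n : ℚ)) hyX,
        cmp_add (fun n => 64 * (n * (n * (aa n : ℚ)))) (fun n => 64 * (n * (aa n : ℚ))) hyX,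
        iden_cmp_num 64 (fun n => n * (n * (aa n : ℚ))) hyX, iden_cmp_num 64 (fun n => n * (aa n : ℚ)) hyX, iden_cmp_num 12 (fun n => (aa n : ℚ)) hyX]
      simp only [map_ofNat]
      rfl
    calc h2 = _ := s1
      _ = _ := by rw [this, s2]
  have f1 : (1 + X) * eE X * theta h = (1 - 8 * X) ^ 2 * h1 := by
    rw [t1]
    linear_combination ((1 - 8 * X) ^ 2 * h1 * (eE X * iE)) * hi1 + ((1 - 8 * X) ^ 2 * h1) * hE
  refine ⟨f1, ?_⟩
  have f2 : (1 + X) * eE X * theta h1 = (1 - 8 * X) ^ 2 * h2 := by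
    rw [t2]
    linear_combination ((1 - 8 * X) ^ 2 * h2 * (eE X * iE)) * hi1 + ((1 - 8 * X) ^ 2 * h2) * hE
  have hye : eE X ^ 2 * y = bB X := by
    rw [hy]
    linear_combination (bB X * (eE X * iE + 1)) * hE
  have f3 : (1 - 8 * X) ^ 3 * h2 = bB X * (64 * h1 + 12 * h) := by
    have : eE X ^ 2 * h2 = bB X * (64 * h2 + 64 * h1 + 12 * h) := by
      calc eE X ^ 2 * h2 = eE X ^ 2 * (y * (64 * h2 + 64 * h1 + 12 * h)) := by rw [← hrec]
        _ = _ := by linear_combination (64 * h2 + 64 * h1 + 12 * h) * hye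
    have hp : eE (X : ℚ⟦X⟧) ^ 2 - 64 * bB X = (1 - 8 * X) ^ 3 := by unfold eE bB; ring
    linear_combination this - h2 * hp
  apply iden_cancel (u := (1 + X : ℚ⟦X⟧)) (by simp)
  have hb : bB (X : ℚ⟦X⟧) = X * (1 + X) ^ 3 := rfl
  rw [hb] at f3
  linear_combination (1 - 8 * X) * f2 + f3

private theorem iden_lev6 {iG : ℚ⟦X⟧} (hG : gG (X : ℚ⟦X⟧) * iG = 1) : ∃ g2 : ℚ⟦X⟧,
    qq X * gG X * theta (cmp (fun n => (bb n : ℚ)) (tT (X : ℚ⟦X⟧) * iG ^ 2)) = nN X * cmp (fun n => n * (bb n : ℚ)) (tT (X : ℚ⟦X⟧) * iG ^ 2) ∧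
    qq X * gG X * theta (cmp (fun n => n * (bb n : ℚ)) (tT (X : ℚ⟦X⟧) * iG ^ 2)) = nN X * g2 ∧
    nN X * gG X * theta g2 = X * ((42 * gG X ^ 2 + 384 * X * qq X) * g2 +
      (22 * gG X ^ 2 + 352 * X * qq X) * cmp (fun n => n * (bb n : ℚ)) (tT (X : ℚ⟦X⟧) * iG ^ 2) +
      (4 * gG X ^ 2 + 96 * X * qq X) * cmp (fun n => (bb n : ℚ)) (tT (X : ℚ⟦X⟧) * iG ^ 2)) := by
  obtain ⟨iq, hiq⟩ := iden_unit (f := qq (X : ℚ⟦X⟧)) (by simp [qq])
  set t : ℚ⟦X⟧ := tT (X : ℚ⟦X⟧) * iG ^ 2 with ht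
  have htX : X ∣ t := by
    rw [ht]; unfold tT
    exact Dvd.dvd.mul_right (Dvd.dvd.mul_right (Dvd.dvd.mul_right dvd_rfl _) _) _
  have htt : theta t = (nN X * iq * iG) * t := by
    rw [ht, theta_mul, iden_thsq, iden_thinv hG iden_tG]
    have hb : theta (tT (X : ℚ⟦X⟧)) = X - 14 * X ^ 2 - 24 * X ^ 3 := by
      have : tT (X : ℚ⟦X⟧) = X - 7 * X ^ 2 - 8 * X ^ 3 := by unfold tT; ring
      rw [this]
      simp only [theta_add, theta_sub, iden_thneg, theta_mul, iden_thX, theta_X, iden_thn, iden_th1, iden_th0, Nat.cast_ofNat,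
        zero_mul, zero_add, add_zero, mul_zero, sub_zero, zero_sub]
      ring
    rw [hb]
    have e : qq X * (gG X * ((X - 14 * X ^ 2 - 24 * X ^ 3) * iG ^ 2 + tT X * (2 * iG * -(iG ^ 2 * (16 * X ^ 2))))) =
      qq X * (gG X * (nN X * iq * iG * (tT X * iG ^ 2))) := by
      have h1 : gG X * iG = (1 : ℚ⟦X⟧) := hG
      have l : qq X * (gG X * ((X - 14 * X ^ 2 - 24 * X ^ 3) * iG ^ 2 + tT X * (2 * iG * -(iG ^ 2 * (16 * X ^ 2))))) =
        (gG X * iG) * (qq X * (X - 14 * X ^ 2 - 24 * X ^ 3) * iG) - (gG X * iG) * (2 * qq X * tT X * (16 * X ^ 2) * iG ^ 2) := by ring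
      have r : qq X * (gG X * (nN X * iq * iG * (tT X * iG ^ 2))) =
        (qq X * iq) * (gG X * iG) * (nN X * tT X * iG ^ 2) := by ring
      rw [l, r, hiq, h1]
      have s : qq X * (X - 14 * X ^ 2 - 24 * X ^ 3) * iG = qq X * (X - 14 * X ^ 2 - 24 * X ^ 3) * (gG X * iG) * iG := by
        rw [h1]; ring
      rw [one_mul, s]
      unfold tT gG qq nN
      ring
    exact iden_cancel (u := gG X) (by simp [gG]) (iden_cancel (u := qq (X : ℚ⟦X⟧)) (by simp [qq]) e)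
  set g0 : ℚ⟦X⟧ := cmp (fun n => (bb n : ℚ)) t with hg0
  set g1 : ℚ⟦X⟧ := cmp (fun n => n * (bb n : ℚ)) t with hg1
  set g2 : ℚ⟦X⟧ := cmp (fun n => n * (n * (bb n : ℚ))) t with hg2
  set g3 : ℚ⟦X⟧ := cmp (fun n => n * (n * (n * (bb n : ℚ)))) t with hg3
  have t0 : theta g0 = (nN X * iq * iG) * g1 := cmp_theta htX htt
  have t1 : theta g1 = (nN X * iq * iG) * g2 := cmp_theta htX htt
  have t2 : theta g2 = (nN X * iq * iG) * g3 := cmp_theta htX htt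
  have hrec : g3 = t * (28 * g3 + 42 * g2 + 22 * g1 + 4 * g0) + t ^ 2 * (128 * g3 + 384 * g2 + 352 * g1 + 96 * g0) := by
    have s1 : g3 = t * cmp (fun n => ((n + 1 : ℕ) : ℚ) * (((n + 1 : ℕ) : ℚ) * (((n + 1 : ℕ) : ℚ) * (bb (n + 1) : ℚ)))) t := by
      rw [hg3, cmp_succ htX]
      simp
    have s2 : cmp (fun n => ((n + 1 : ℕ) : ℚ) * (((n + 1 : ℕ) : ℚ) * (((n + 1 : ℕ) : ℚ) * (bb (n + 1) : ℚ)))) t =
        28 * g3 + 42 * g2 + 22 * g1 + 4 * g0 + t * (128 * g3 + 384 * g2 + 352 * g1 + 96 * g0) := by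
      have u1 : cmp (fun n => (28 * (n * (n * (n * (bb n : ℚ)))) + 42 * (n * (n * (bb n : ℚ)))) + (22 * (n * (bb n : ℚ)) + 4 * (bb n : ℚ))) t =
          28 * g3 + 42 * g2 + 22 * g1 + 4 * g0 := by
        rw [cmp_add (fun n => 28 * (n * (n * (n * (bb n : ℚ)))) + 42 * (n * (n * (bb n : ℚ)))) (fun n => 22 * (n * (bb n : ℚ)) + 4 * (bb n : ℚ)) htX,
          cmp_add (fun n => 28 * (n * (n * (n * (bb n : ℚ))))) (fun n => 42 * (n * (n * (bb n : ℚ)))) htX,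
          cmp_add (fun n => 22 * (n * (bb n : ℚ))) (fun n => 4 * (bb n : ℚ)) htX,
          iden_cmp_num 28 (fun n => n * (n * (n * (bb n : ℚ)))) htX, iden_cmp_num 42 (fun n => n * (n * (bb n : ℚ))) htX,
          iden_cmp_num 22 (fun n => n * (bb n : ℚ)) htX, iden_cmp_num 4 (fun n => (bb n : ℚ)) htX]
        simp only [map_ofNat]
        ring
      have u2 : cmp (fun n => (128 * (n * (n * (n * (bb n : ℚ)))) + 384 * (n * (n * (bb n : ℚ)))) + (352 * (n * (bb n : ℚ)) + 96 * (bb n : ℚ))) t =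
          128 * g3 + 384 * g2 + 352 * g1 + 96 * g0 := by
        rw [cmp_add (fun n => 128 * (n * (n * (n * (bb n : ℚ)))) + 384 * (n * (n * (bb n : ℚ)))) (fun n => 352 * (n * (bb n : ℚ)) + 96 * (bb n : ℚ)) htX,
          cmp_add (fun n => 128 * (n * (n * (n * (bb n : ℚ))))) (fun n => 384 * (n * (n * (bb n : ℚ)))) htX,
          cmp_add (fun n => 352 * (n * (bb n : ℚ))) (fun n => 96 * (bb n : ℚ)) htX,
          iden_cmp_num 128 (fun n => n * (n * (n * (bb n : ℚ)))) htX, iden_cmp_num 384 (fun n => n * (n * (bb n : ℚ))) htX,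
          iden_cmp_num 352 (fun n => n * (bb n : ℚ)) htX, iden_cmp_num 96 (fun n => (bb n : ℚ)) htX]
        simp only [map_ofNat]
        ring
      -- the difference sequence
      let d : ℕ → ℚ := fun n => ((n + 1 : ℕ) : ℚ) * (((n + 1 : ℕ) : ℚ) * (((n + 1 : ℕ) : ℚ) * (bb (n + 1) : ℚ))) -
        ((28 * (n * (n * (n * (bb n : ℚ)))) + 42 * (n * (n * (bb n : ℚ)))) + (22 * (n * (bb n : ℚ)) + 4 * (bb n : ℚ)))
      have u3 : cmp (fun n => ((n + 1 : ℕ) : ℚ) * (((n + 1 : ℕ) : ℚ) * (((n + 1 : ℕ) : ℚ) * (bb (n + 1) : ℚ)))) t =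
          cmp (fun n => (28 * (n * (n * (n * (bb n : ℚ)))) + 42 * (n * (n * (bb n : ℚ)))) + (22 * (n * (bb n : ℚ)) + 4 * (bb n : ℚ))) t + cmp d t := by
        rw [← cmp_add _ _ htX]
        apply iden_cmp_congr
        intro n
        simp only [d]
        ring
      have u4 : cmp d t = t * cmp (fun n => (128 * (n * (n * (n * (bb n : ℚ)))) + 384 * (n * (n * (bb n : ℚ)))) + (352 * (n * (bb n : ℚ)) + 96 * (bb n : ℚ))) t := by
        rw [cmp_succ htX]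
        have d0 : d 0 = 0 := by simp [d, bb_one, bb_zero]
        have d1 : ∀ n, d (n + 1) = (128 * (n * (n * (n * (bb n : ℚ)))) + 384 * (n * (n * (bb n : ℚ)))) + (352 * (n * (bb n : ℚ)) + 96 * (bb n : ℚ)) := by
          intro n
          have h := bb_rec n
          have h' : (((n + 2) ^ 3 * bb (n + 2) : ℕ) : ℚ) = ((2 * (2 * n + 3) * (7 * (n + 1) ^ 2 + 7 * (n + 1) + 2) * bb (n + 1) +
            32 * (n + 1) * (2 * n + 1) * (2 * n + 3) * bb n : ℕ) : ℚ) := by rw [h]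
          simp only [d]
          push_cast at h' ⊢
          linear_combination h'
        rw [d0, map_zero, zero_add]
        congr 1
        exact iden_cmp_congr t d1
      rw [u3, u1, u4, u2]
    calc g3 = _ := s1
      _ = t * (28 * g3 + 42 * g2 + 22 * g1 + 4 * g0 + t * (128 * g3 + 384 * g2 + 352 * g1 + 96 * g0)) := by rw [s2]
      _ = _ := by ring
  refine ⟨g2, ?_, ?_, ?_⟩
  · rw [t0]
    linear_combination (nN X * g1 * (gG X * iG)) * hiq + (nN X * g1) * hG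
  · rw [t1]
    linear_combination (nN X * g2 * (gG X * iG)) * hiq + (nN X * g2) * hG
  · have f2 : qq X * gG X * theta g2 = nN X * g3 := by
      rw [t2]
      linear_combination (nN X * g3 * (gG X * iG)) * hiq + (nN X * g3) * hG
    have hte : gG X ^ 2 * t = tT X := by
      rw [ht]
      linear_combination (tT X * (gG X * iG + 1)) * hG
    have f3 : nN X ^ 2 * g3 = tT X * gG X ^ 2 * (42 * g2 + 22 * g1 + 4 * g0) + tT X ^ 2 * (384 * g2 + 352 * g1 + 96 * g0) := by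
      have h4 : gG X ^ 4 * g3 = tT X * gG X ^ 2 * (28 * g3 + 42 * g2 + 22 * g1 + 4 * g0) + tT X ^ 2 * (128 * g3 + 384 * g2 + 352 * g1 + 96 * g0) := by
        calc gG X ^ 4 * g3 = gG X ^ 4 * (t * (28 * g3 + 42 * g2 + 22 * g1 + 4 * g0) + t ^ 2 * (128 * g3 + 384 * g2 + 352 * g1 + 96 * g0)) := by rw [← hrec]
          _ = (gG X ^ 2 * t) * gG X ^ 2 * (28 * g3 + 42 * g2 + 22 * g1 + 4 * g0) + (gG X ^ 2 * t) ^ 2 * (128 * g3 + 384 * g2 + 352 * g1 + 96 * g0) := by ring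
          _ = _ := by rw [hte]
      have hp : gG (X : ℚ⟦X⟧) ^ 4 - 28 * tT X * gG X ^ 2 - 128 * tT X ^ 2 = nN X ^ 2 := by unfold gG tT nN; ring
      linear_combination h4 - g3 * hp
    apply iden_cancel (u := qq (X : ℚ⟦X⟧)) (by simp [qq])
    have hb : tT (X : ℚ⟦X⟧) = X * qq X := by unfold tT qq; ring
    rw [hb] at f3
    linear_combination nN X * f2 + f3

theorem iden_rat {iE iG : ℚ⟦X⟧} (hE : eE (X : ℚ⟦X⟧) * iE = 1) (hG : gG (X : ℚ⟦X⟧) * iG = 1) :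
    eE (X : ℚ⟦X⟧) * cmp (fun n => (bb n : ℚ)) (tT (X : ℚ⟦X⟧) * iG ^ 2) =
        gG (X : ℚ⟦X⟧) * cmp (fun n => (aa n : ℚ)) (bB (X : ℚ⟦X⟧) * iE ^ 2) ^ 2 ∧
      nN (X : ℚ⟦X⟧) * eE (X : ℚ⟦X⟧) ^ 2 * cmp (fun n => n * (bb n : ℚ)) (tT (X : ℚ⟦X⟧) * iG ^ 2) =
        gG (X : ℚ⟦X⟧) * (qq (X : ℚ⟦X⟧) * X * lL (X : ℚ⟦X⟧) * cmp (fun n => (aa n : ℚ)) (bB (X : ℚ⟦X⟧) * iE ^ 2) ^ 2 +
          2 * gG (X : ℚ⟦X⟧) * (1 - 8 * X) ^ 3 * (cmp (fun n => (aa n : ℚ)) (bB (X : ℚ⟦X⟧) * iE ^ 2) *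
            cmp (fun n => n * (aa n : ℚ)) (bB (X : ℚ⟦X⟧) * iE ^ 2))) := by
  set y : ℚ⟦X⟧ := bB (X : ℚ⟦X⟧) * iE ^ 2 with hy
  set t : ℚ⟦X⟧ := tT (X : ℚ⟦X⟧) * iG ^ 2 with ht
  set h : ℚ⟦X⟧ := cmp (fun n => (aa n : ℚ)) y with hh
  set h1 : ℚ⟦X⟧ := cmp (fun n => n * (aa n : ℚ)) y with hh1
  set g0 : ℚ⟦X⟧ := cmp (fun n => (bb n : ℚ)) t with hg0
  set g1 : ℚ⟦X⟧ := cmp (fun n => n * (bb n : ℚ)) t with hg1
  obtain ⟨e1, e2⟩ : (1 + X) * eE X * theta h = (1 - 8 * X) ^ 2 * h1 ∧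
      (1 - 8 * X) * eE X * theta h1 = X * (1 + X) ^ 2 * (64 * h1 + 12 * h) := iden_lev2 hE
  obtain ⟨g2, e3, e4, e5⟩ := iden_lev6 hG
  rw [← ht, ← hg0, ← hg1] at e3
  rw [← ht, ← hg1] at e4
  rw [← ht, ← hg0, ← hg1] at e5
  have hXE : X ∣ (20 * X - 16 * X ^ 2 : ℚ⟦X⟧) := ⟨20 - 16 * X, by ring⟩
  have hXN : X ∣ (-14 * X - 96 * X ^ 2 + 336 * X ^ 3 + 256 * X ^ 4 : ℚ⟦X⟧) := ⟨-14 - 96 * X + 336 * X ^ 2 + 256 * X ^ 3, by ring⟩
  have hXS : X ∣ iden_S := by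
    unfold iden_S
    exact dvd_add (Dvd.dvd.mul_left hXN _) (Dvd.dvd.mul_left hXE _)
  have hXT : X ∣ iden_T := by
    unfold iden_T
    exact dvd_add (Dvd.dvd.mul_left (dvd_add (Dvd.dvd.mul_left hXN _) (Dvd.dvd.mul_left hXE _)) _)
      (Dvd.dvd.mul_right (Dvd.dvd.mul_left dvd_rfl _) _)
  have hyX : X ∣ y := by
    rw [hy]; unfold bB
    exact Dvd.dvd.mul_right (Dvd.dvd.mul_right dvd_rfl _) _
  have htX : X ∣ t := by
    rw [ht]; unfold tT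
    exact Dvd.dvd.mul_right (Dvd.dvd.mul_right (Dvd.dvd.mul_right dvd_rfl _) _) _
  have hd0 : X ∣ iden_d0 h g0 := by
    rw [X_dvd_iff]
    have c1 : constantCoeff h = 1 := by rw [hh, cmp_cc hyX]; simp [aa]
    have c2 : constantCoeff g0 = 1 := by rw [hg0, cmp_cc htX]; simp [bb, fran]
    unfold iden_d0
    simp [c1, c2, eE, gG]
  have main := iden_van (u0 := qq X * gG X * eE X) (u1 := qq X * gG X * nN X * eE X) (u2 := qq X * gG X * nN X * eE X)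
    (by simp [qq, gG, eE]) (by simp [qq, gG, eE, nN]) (by simp [qq, gG, eE, nN])
    (Dvd.dvd.mul_left hXE _) (Dvd.dvd.mul_left hXS _) (Dvd.dvd.mul_left hXT _)
    (Dvd.dvd.mul_right (Dvd.dvd.mul_left dvd_rfl _) _) (Dvd.dvd.mul_right (Dvd.dvd.mul_left dvd_rfl _) _)
    hd0 (iden_R1 e1 e3) (iden_R2 e1 e2 e4) (iden_R3 e1 e2 e5)
  obtain ⟨m0, m1⟩ := main
  unfold iden_d0 at m0
  unfold iden_d1 at m1
  rw [← iden_Z] at m1
  constructor
  · linear_combination m0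
  · linear_combination m1


end Pool.Agent.ADC
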