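import Pool.Agent.ADC.Iden

/-! Project ADC (MP_adc642_nt), module IdenG (size 2): the modular transformation over an arbitrary commutative ring.

PROOF. Over ℤ: the inverses of eE X and gG X exist (constant term 1), PowerSeries.map (Int.castRingHom ℚ) is injective, cmp_map, iden_rat. Over A: map
(Int.castRingHom A), inverses are unique.
-/

set_option autoImplicit false

namespace Pool.Agent.ADC

open Finset PowerSeries

variable {A : Type} [CommRing A] {iE iG : A⟦X⟧}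

private theorem idenG_eE {A B : Type} [CommRing A] [CommRing B] (f : A →+* B) :
    PowerSeries.map f (eE (X : A⟦X⟧)) = eE (X : B⟦X⟧) := by
  simp [eE, map_ofNat]

private theorem idenG_gG {A B : Type} [CommRing A] [CommRing B] (f : A →+* B) :
    PowerSeries.map f (gG (X : A⟦X⟧)) = gG (X : B⟦X⟧) := by
  simp [gG, map_ofNat]

private theorem idenG_tT {A B : Type} [CommRing A] [CommRing B] (f : A →+* B) :
    PowerSeries.map f (tT (X : A⟦X⟧)) = tT (X : B⟦X⟧) := by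
  simp [tT, map_ofNat]

private theorem idenG_bB {A B : Type} [CommRing A] [CommRing B] (f : A →+* B) :
    PowerSeries.map f (bB (X : A⟦X⟧)) = bB (X : B⟦X⟧) := by
  simp [bB]

private theorem idenG_nN {A B : Type} [CommRing A] [CommRing B] (f : A →+* B) :
    PowerSeries.map f (nN (X : A⟦X⟧)) = nN (X : B⟦X⟧) := by
  simp [nN, map_ofNat]

private theorem idenG_qq {A B : Type} [CommRing A] [CommRing B] (f : A →+* B) :
    PowerSeries.map f (qq (X : A⟦X⟧)) = qq (X : B⟦X⟧) := by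
  simp [qq, map_ofNat]

private theorem idenG_lL {A B : Type} [CommRing A] [CommRing B] (f : A →+* B) :
    PowerSeries.map f (lL (X : A⟦X⟧)) = lL (X : B⟦X⟧) := by
  simp [lL, map_ofNat]

private theorem idenG_dt {A : Type} [CommRing A] (g : A⟦X⟧) : X ∣ tT (X : A⟦X⟧) * g := by
  refine ⟨(1 + X) * (1 - 8 * X) * g, ?_⟩
  simp only [tT]; ring

private theorem idenG_db {A : Type} [CommRing A] (g : A⟦X⟧) : X ∣ bB (X : A⟦X⟧) * g := by
  refine ⟨(1 + X) ^ 3 * g, ?_⟩
  simp only [bB]; ring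

private theorem idenG_exE : ∃ i : ℤ⟦X⟧, eE (X : ℤ⟦X⟧) * i = 1 :=
  ⟨PowerSeries.invOfUnit (eE X) 1, PowerSeries.mul_invOfUnit _ _ (by simp [eE])⟩

private theorem idenG_exG : ∃ i : ℤ⟦X⟧, gG (X : ℤ⟦X⟧) * i = 1 :=
  ⟨PowerSeries.invOfUnit (gG X) 1, PowerSeries.mul_invOfUnit _ _ (by simp [gG])⟩

private theorem idenG_inj : Function.Injective (PowerSeries.map (Int.castRingHom ℚ)) := by
  intro a b h
  ext n
  have := congrArg (coeff n) h
  simpa using this

private theorem idenG_uniq {B : Type} [CommRing B] {a i j : B} (h : a * i = 1) (h' : a * j = 1) : i = j := by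
  calc i = i * (a * j) := by rw [h', mul_one]
    _ = (a * i) * j := by ring
    _ = j := by rw [h, one_mul]

private theorem idenG_int {jE jG : ℤ⟦X⟧} (hE : eE (X : ℤ⟦X⟧) * jE = 1) (hG : gG (X : ℤ⟦X⟧) * jG = 1) :
    eE (X : ℤ⟦X⟧) * cmp (fun n => (bb n : ℤ)) (tT (X : ℤ⟦X⟧) * jG ^ 2) =
        gG (X : ℤ⟦X⟧) * cmp (fun n => (aa n : ℤ)) (bB (X : ℤ⟦X⟧) * jE ^ 2) ^ 2 ∧
      nN (X : ℤ⟦X⟧) * eE (X : ℤ⟦X⟧) ^ 2 * cmp (fun n => n * (bb n : ℤ)) (tT (X : ℤ⟦X⟧) * jG ^ 2) =
        gG (X : ℤ⟦X⟧) * (qq (X : ℤ⟦X⟧) * X * lL (X : ℤ⟦X⟧) * cmp (fun n => (aa n : ℤ)) (bB (X : ℤ⟦X⟧) * jE ^ 2) ^ 2 +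
          2 * gG (X : ℤ⟦X⟧) * (1 - 8 * X) ^ 3 * (cmp (fun n => (aa n : ℤ)) (bB (X : ℤ⟦X⟧) * jE ^ 2) *
            cmp (fun n => n * (aa n : ℤ)) (bB (X : ℤ⟦X⟧) * jE ^ 2))) := by
  have hE' : eE (X : ℚ⟦X⟧) * PowerSeries.map (Int.castRingHom ℚ) jE = 1 := by
    have := congrArg (PowerSeries.map (Int.castRingHom ℚ)) hE
    rwa [map_mul, idenG_eE, map_one] at this
  have hG' : gG (X : ℚ⟦X⟧) * PowerSeries.map (Int.castRingHom ℚ) jG = 1 := by
    have := congrArg (PowerSeries.map (Int.castRingHom ℚ)) hG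
    rwa [map_mul, idenG_gG, map_one] at this
  have key := iden_rat hE' hG'
  constructor
  · apply idenG_inj
    simp only [map_mul, map_pow, idenG_eE, idenG_gG, cmp_map _ (idenG_dt _), cmp_map _ (idenG_db _), idenG_tT, idenG_bB]
    simpa using key.1
  · apply idenG_inj
    simp only [map_mul, map_pow, map_add, map_sub, map_one, map_ofNat, PowerSeries.map_X, idenG_eE, idenG_gG, idenG_nN, idenG_qq, idenG_lL,
      cmp_map _ (idenG_dt _), cmp_map _ (idenG_db _), idenG_tT, idenG_bB]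
    simpa using key.2

theorem iden0 (hE : eE (X : A⟦X⟧) * iE = 1) (hG : gG (X : A⟦X⟧) * iG = 1) :
    eE (X : A⟦X⟧) * cmp (fun n => (bb n : A)) (tT (X : A⟦X⟧) * iG ^ 2) =
        gG (X : A⟦X⟧) * cmp (fun n => (aa n : A)) (bB (X : A⟦X⟧) * iE ^ 2) ^ 2 := by
  obtain ⟨jE, hjE⟩ := idenG_exE
  obtain ⟨jG, hjG⟩ := idenG_exG
  have hE' : eE (X : A⟦X⟧) * PowerSeries.map (Int.castRingHom A) jE = 1 := by
    have := congrArg (PowerSeries.map (Int.castRingHom A)) hjE
    rwa [map_mul, idenG_eE, map_one] at this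
  have hG' : gG (X : A⟦X⟧) * PowerSeries.map (Int.castRingHom A) jG = 1 := by
    have := congrArg (PowerSeries.map (Int.castRingHom A)) hjG
    rwa [map_mul, idenG_gG, map_one] at this
  have e1 : iE = PowerSeries.map (Int.castRingHom A) jE := idenG_uniq hE hE'
  have e2 : iG = PowerSeries.map (Int.castRingHom A) jG := idenG_uniq hG hG'
  have key := congrArg (PowerSeries.map (Int.castRingHom A)) (idenG_int hjE hjG).1
  simp only [map_mul, map_pow, idenG_eE, idenG_gG, cmp_map _ (idenG_dt _), cmp_map _ (idenG_db _), idenG_tT, idenG_bB] at key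
  rw [e1, e2]
  simpa using key

theorem iden1 (hE : eE (X : A⟦X⟧) * iE = 1) (hG : gG (X : A⟦X⟧) * iG = 1) :
    nN (X : A⟦X⟧) * eE (X : A⟦X⟧) ^ 2 * cmp (fun n => n * (bb n : A)) (tT (X : A⟦X⟧) * iG ^ 2) =
      gG (X : A⟦X⟧) * (qq (X : A⟦X⟧) * X * lL (X : A⟦X⟧) * cmp (fun n => (aa n : A)) (bB (X : A⟦X⟧) * iE ^ 2) ^ 2 +
        2 * gG (X : A⟦X⟧) * (1 - 8 * X) ^ 3 * (cmp (fun n => (aa n : A)) (bB (X : A⟦X⟧) * iE ^ 2) *
          cmp (fun n => n * (aa n : A)) (bB (X : A⟦X⟧) * iE ^ 2))) := by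
  obtain ⟨jE, hjE⟩ := idenG_exE
  obtain ⟨jG, hjG⟩ := idenG_exG
  have hE' : eE (X : A⟦X⟧) * PowerSeries.map (Int.castRingHom A) jE = 1 := by
    have := congrArg (PowerSeries.map (Int.castRingHom A)) hjE
    rwa [map_mul, idenG_eE, map_one] at this
  have hG' : gG (X : A⟦X⟧) * PowerSeries.map (Int.castRingHom A) jG = 1 := by
    have := congrArg (PowerSeries.map (Int.castRingHom A)) hjG
    rwa [map_mul, idenG_gG, map_one] at this
  have e1 : iE = PowerSeries.map (Int.castRingHom A) jE := idenG_uniq hE hE'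
  have e2 : iG = PowerSeries.map (Int.castRingHom A) jG := idenG_uniq hG hG'
  have key := congrArg (PowerSeries.map (Int.castRingHom A)) (idenG_int hjE hjG).2
  simp only [map_mul, map_pow, map_add, map_sub, map_one, map_ofNat, PowerSeries.map_X, idenG_eE, idenG_gG, idenG_nN, idenG_qq, idenG_lL,
      cmp_map _ (idenG_dt _), cmp_map _ (idenG_db _), idenG_tT, idenG_bB] at key
  rw [e1, e2]
  simpa using key

end Pool.Agent.ADC
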