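import Pool.Agent.ADC.Tei
import Pool.Agent.ADC.Harm

/-! Project ADC (MP_adc642_nt), module JacV (size 4): the value of the Jacobi sum modulo p ^ 2, p = 1 mod 8. -/

set_option autoImplicit false

namespace Pool.Agent.ADC

open Finset

variable {p : ℕ}

private noncomputable abbrev JacV_c (p : ℕ) : RR p →+* ZMod p :=
  ZMod.castHom (Dvd.intro_left _ (pow_succ p 1).symm : p ∣ p ^ 2) (ZMod p)

private theorem JacV_inv (hp : p.Prime) {x : ℕ} (h : ¬ p ∣ x) :
    JacV_c p ((x : RR p)⁻¹) = ((x : ZMod p))⁻¹ := by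
  have : Fact p.Prime := ⟨hp⟩
  have h1 := congrArg (JacV_c p) (rr_inv hp h)
  rw [map_mul, map_natCast, map_one] at h1
  exact eq_inv_of_mul_eq_one_right h1

private theorem JacV_ndvd {j p : ℕ} (h0 : 0 < j) (h : j < p) : ¬ p ∣ j := by
  intro h1
  exact absurd (Nat.le_of_dvd h0 h1) (by omega)

private theorem JacV_hh (hp : p.Prime) {j : ℕ} (h : j < p) : JacV_c p (hh p j) = hz p j := by
  unfold hh hz
  rw [map_sum]
  refine Finset.sum_congr rfl fun i hi => ?_
  exact JacV_inv hp (JacV_ndvd (Nat.succ_pos _) (by have := Finset.mem_range.mp hi; omega))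

private theorem JacV_hz_succ (j : ℕ) : hz p (j + 1) = hz p j + ((j + 1 : ℕ) : ZMod p)⁻¹ := by
  unfold hz
  rw [Finset.sum_range_succ]

private theorem JacV_key (hp : p.Prime) {t : ℕ} (ht : p = 8 * t + 9) :
    ((4 * t + 4 : ℕ) : ZMod p) * (∑ i ∈ range (t + 1), ((4 * t + 3).choose i : ZMod p) * (-1) ^ (t + 1 - i - 1) * ((t + 1 - i : ℕ) : ZMod p)⁻¹ +
      ∑ j ∈ range (3 * t + 3), ((4 * t + 3).choose (t + 1 + j) : ZMod p) * (-1) ^ j * ((j + 1 : ℕ) : ZMod p)⁻¹) =
    ((4 * t + 4).choose (t + 1) : ZMod p) * (1 + (8 : ZMod p)⁻¹ * (hz p (t + 1) + 3 * hz p (3 * t + 3) - 4 * hz p (4 * t + 4))) := by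
  have : Fact p.Prime := ⟨hp⟩
  have hne : ∀ i, 0 < i → i ≤ 4 * t + 3 → (i : ZMod p) ≠ 0 := by
    intro i h0 h1 h2
    rw [ZMod.natCast_eq_zero_iff] at h2
    exact JacV_ndvd h0 (by omega) h2
  have e1 := harm_sum (K := ZMod p) (N := 4 * t + 3) (r := t + 1) (by omega) hne
  have e2 := harm_sum (K := ZMod p) (N := 4 * t + 3) (r := 3 * t + 3) (by omega) hne
  have e3 : ∑ j ∈ range (3 * t + 3), ((4 * t + 3).choose (t + 1 + j) : ZMod p) * (-1) ^ j * ((j + 1 : ℕ) : ZMod p)⁻¹ =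
      ∑ i ∈ range (3 * t + 3), ((4 * t + 3).choose i : ZMod p) * (-1) ^ (3 * t + 3 - i - 1) * ((3 * t + 3 - i : ℕ) : ZMod p)⁻¹ := by
    rw [← Finset.sum_range_reflect]
    refine Finset.sum_congr rfl fun i hi => ?_
    have hi' := Finset.mem_range.mp hi
    have a1 : (4 * t + 3).choose (t + 1 + (3 * t + 3 - 1 - i)) = (4 * t + 3).choose i := by
      rw [show t + 1 + (3 * t + 3 - 1 - i) = 4 * t + 3 - i by omega]
      exact Nat.choose_symm (by omega)
    rw [a1, show 3 * t + 3 - 1 - i = 3 * t + 3 - i - 1 by omega, show 3 * t + 3 - i - 1 + 1 = 3 * t + 3 - i by omega]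
  rw [e3, e1, e2]
  have f1 : ((4 * t + 4 : ℕ) : ZMod p) * ((4 * t + 3).choose (t + 1) : ZMod p) =
      ((4 * t + 4).choose (t + 1) : ZMod p) * ((3 * t + 3 : ℕ) : ZMod p) := by
    have := Nat.choose_mul_succ_eq (4 * t + 3) (t + 1)
    rw [show 4 * t + 3 + 1 - (t + 1) = 3 * t + 3 by omega, show 4 * t + 3 + 1 = 4 * t + 4 by omega] at this
    have h2 := congrArg (Nat.cast : ℕ → ZMod p) this
    rw [Nat.cast_mul, Nat.cast_mul] at h2
    rw [mul_comm, h2]
  have f2 : ((4 * t + 4 : ℕ) : ZMod p) * ((4 * t + 3).choose (3 * t + 3) : ZMod p) =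
      ((4 * t + 4).choose (t + 1) : ZMod p) * ((t + 1 : ℕ) : ZMod p) := by
    have h1 : (4 * t + 3).choose (3 * t + 3) = (4 * t + 3).choose t := by
      rw [← Nat.choose_symm (show t ≤ 4 * t + 3 by omega)]
      congr 1
      omega
    have := Nat.add_one_mul_choose_eq (4 * t + 3) t
    rw [show 4 * t + 3 + 1 = 4 * t + 4 by omega] at this
    have h2 := congrArg (Nat.cast : ℕ → ZMod p) this
    rw [Nat.cast_mul, Nat.cast_mul] at h2
    rw [h1, h2]
  have g1 : (∑ i ∈ range (4 * t + 3), ((i + 1 : ℕ) : ZMod p)⁻¹) = hz p (4 * t + 3) := rfl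
  have g2 : (∑ i ∈ range (4 * t + 3 - (t + 1)), ((i + 1 : ℕ) : ZMod p)⁻¹) = hz p (3 * t + 2) := by
    rw [show 4 * t + 3 - (t + 1) = 3 * t + 2 by omega]
    rfl
  have g3 : (∑ i ∈ range (4 * t + 3 - (3 * t + 3)), ((i + 1 : ℕ) : ZMod p)⁻¹) = hz p t := by
    rw [show 4 * t + 3 - (3 * t + 3) = t by omega]
    rfl
  rw [g1, g2, g3]
  have k1 : hz p (4 * t + 4) = hz p (4 * t + 3) + ((4 * t + 4 : ℕ) : ZMod p)⁻¹ := JacV_hz_succ _
  have k2 : hz p (3 * t + 3) = hz p (3 * t + 2) + ((3 * t + 3 : ℕ) : ZMod p)⁻¹ := JacV_hz_succ _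
  have k3 : hz p (t + 1) = hz p t + ((t + 1 : ℕ) : ZMod p)⁻¹ := JacV_hz_succ _
  have hu : (8 : ZMod p) * ((t + 1 : ℕ) : ZMod p) = -1 := by
    have h1 : ((8 * t + 9 : ℕ) : ZMod p) = 0 := by rw [← ht]; exact ZMod.natCast_self p
    push_cast at h1 ⊢
    linear_combination h1
  have l1 : ((4 * t + 4 : ℕ) : ZMod p) = 4 * ((t + 1 : ℕ) : ZMod p) := by push_cast; ring
  have l2 : ((3 * t + 3 : ℕ) : ZMod p) = 3 * ((t + 1 : ℕ) : ZMod p) := by push_cast; ring
  generalize hU : ((t + 1 : ℕ) : ZMod p) = u at *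
  have n8 : (8 : ZMod p)⁻¹ = -u := by
    have h1 : (8 : ZMod p) * (-u) = 1 := by linear_combination -hu
    exact inv_eq_of_mul_eq_one_right h1
  have nu : u⁻¹ = -8 := by
    have h1 : u * (-8) = 1 := by linear_combination -hu
    exact inv_eq_of_mul_eq_one_right h1
  have n4 : (4 * u)⁻¹ = -2 := by
    have h1 : (4 * u) * (-2) = 1 := by linear_combination -hu
    exact inv_eq_of_mul_eq_one_right h1
  have h3 : (3 : ZMod p) ≠ 0 := by
    have := hne 3 (by norm_num) (by omega)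
    exact_mod_cast this
  have n3 : 3 * (3 * u)⁻¹ = -8 := by
    rw [mul_inv, nu, ← mul_assoc, mul_inv_cancel₀ h3, one_mul]
  rw [k1, k2, k3, n8, nu, l1, l2, n4]
  rw [l1, l2] at f1
  rw [l1] at f2
  generalize (((4 * t + 4).choose (t + 1) : ℕ) : ZMod p) = c at *
  generalize (3 * u)⁻¹ = v at *
  linear_combination (hz p (4 * t + 3) - hz p (3 * t + 2)) * f1 + (hz p (4 * t + 3) - hz p t) * f2 + c * u * n3 - c * hu

/-- the combinatorial part. PROOF. M := m - 1, m := (p-1)/2, k := p/8, p = 8k+1, m = 4k. i < k: k + (p-1) i = p i + (k-i), ch_rem; i = k: ch_mul; i > k: k + (p-1) i = p (i-1) + (p - (i-k)), ch_rem'.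
So the sum is C(m,k) + p m (g1 + g2), g1 := ∑_{i<k} C(m-1,i) (-1)^(k-i-1)/(k-i) = C(m-1,k) (H(m-1) - H(m-1-k)) modulo p (harm_sum in ZMod p, rr_cast),
g2 := ∑_{k<i≤m} C(m-1,i-1) (-1)^(i-k-1)/(i-k) = ∑_{i'<m-k} C(m-1,i') (-1)^(m-k-i'-1)/(m-k-i') = C(m-1,m-k) (H(m-1) - H(k-1)) (i' = m - i). m C(m-1,k) = (m-k) C(m,k), m C(m-1,m-k) = k C(m,k).
m (g1 + g2) = C(m,k) (m H(m) - (m-k) H(m-k) - k H(k) + 1). Modulo p: 2m = -1, 8k = -1, 8(m-k) = -3. Multiply by 1 - p. -/
theorem jac_sum (hp : p.Prime) (h : p % 8 = 1) :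
    (1 - (p : RR p)) * ∑ i ∈ range ((p - 1) / 2 + 1), (((p * ((p - 1) / 2)).choose (p / 8 + (p - 1) * i) : ℕ) : RR p) = Gv p := by
  obtain ⟨t, ht⟩ : ∃ t, p = 8 * t + 9 := by
    have h2 := hp.two_le
    exact ⟨(p - 9) / 8, by omega⟩
  have e1 : (p - 1) / 2 = 4 * t + 4 := by omega
  have e2 : p / 8 = t + 1 := by omega
  unfold Gv
  rw [e1, e2, show 4 * t + 4 - (t + 1) = 3 * t + 3 by omega, show 4 * t + 4 + 1 = (t + 1) + (3 * t + 3 + 1) by omega,
    Finset.sum_range_add, Finset.sum_range_succ' _ (3 * t + 3)]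
  have hp2 : p ≠ 2 := by omega
  have a1 : ∑ i ∈ range (t + 1), (((p * (4 * t + 4)).choose (t + 1 + (p - 1) * i) : ℕ) : RR p) =
      (p : RR p) * (((4 * t + 4 : ℕ) : RR p) * ∑ i ∈ range (t + 1), ((4 * t + 3).choose i : RR p) * (-1) ^ (t + 1 - i - 1) * ((t + 1 - i : ℕ) : RR p)⁻¹) := by
    rw [Finset.mul_sum, Finset.mul_sum]
    refine Finset.sum_congr rfl fun i hi => ?_
    have hi' := Finset.mem_range.mp hi
    have h1 : t + 1 + (p - 1) * i = p * i + (t + 1 - i) := by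
      have : (p - 1) * i + i = p * i := by
        rw [Nat.sub_mul, one_mul]
        exact Nat.sub_add_cancel (Nat.le_mul_of_pos_left _ hp.pos)
      omega
    rw [h1, show 4 * t + 4 = 4 * t + 3 + 1 by omega, ch_rem hp (by omega) (by omega)]
    ring
  have a2 : ∑ i ∈ range (3 * t + 3), (((p * (4 * t + 4)).choose (t + 1 + (p - 1) * (t + 1 + (i + 1))) : ℕ) : RR p) =
      (p : RR p) * (((4 * t + 4 : ℕ) : RR p) * ∑ j ∈ range (3 * t + 3), ((4 * t + 3).choose (t + 1 + j) : RR p) * (-1) ^ j * ((j + 1 : ℕ) : RR p)⁻¹) := by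
    rw [Finset.mul_sum, Finset.mul_sum]
    refine Finset.sum_congr rfl fun i hi => ?_
    have hi' := Finset.mem_range.mp hi
    have h1 : t + 1 + (p - 1) * (t + 1 + (i + 1)) = p * (t + 1 + i) + (p - (i + 1)) := by
      obtain ⟨q, hq⟩ : ∃ q, p = q + (i + 1) := ⟨p - (i + 1), by omega⟩
      have h3 : p - 1 = q + i := by omega
      have h4 : p - (i + 1) = q := by omega
      rw [h3, h4, hq]
      have h5 : q + (i + 1) = 8 * t + 9 := by omega
      have h6 : t + 1 + (q + i) * (t + 1 + (i + 1)) + (t + 1 + i) = t + 1 + (q + (i + 1)) * (t + 1 + i) + (q + i) := by ring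
      omega
    rw [h1, show 4 * t + 4 = 4 * t + 3 + 1 by omega, ch_rem' hp hp2 (by omega) (by omega), show i + 1 - 1 = i by omega]
    ring
  have a3 : (((p * (4 * t + 4)).choose (t + 1 + (p - 1) * (t + 1 + 0)) : ℕ) : RR p) = ((4 * t + 4).choose (t + 1) : RR p) := by
    have h1 : t + 1 + (p - 1) * (t + 1 + 0) = p * (t + 1) := by
      obtain ⟨q, hq⟩ : ∃ q, p = q + 1 := ⟨p - 1, by omega⟩
      have h3 : p - 1 = q := by omega
      rw [h3, hq]
      ring
    rw [h1, ch_mul hp]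
  rw [a1, a2, a3]
  set X : RR p := ((4 * t + 4 : ℕ) : RR p) * (∑ i ∈ range (t + 1), ((4 * t + 3).choose i : RR p) * (-1) ^ (t + 1 - i - 1) * ((t + 1 - i : ℕ) : RR p)⁻¹ +
      ∑ j ∈ range (3 * t + 3), ((4 * t + 3).choose (t + 1 + j) : RR p) * (-1) ^ j * ((j + 1 : ℕ) : RR p)⁻¹) with hX
  have hc : (p : RR p) * (X - ((4 * t + 4).choose (t + 1) : RR p)) =
      p * (((4 * t + 4).choose (t + 1) : RR p) * ((8 : RR p)⁻¹ * (hh p (t + 1) + 3 * hh p (3 * t + 3) - 4 * hh p (4 * t + 4)))) := by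
    apply rr_cast hp
    change JacV_c p _ = JacV_c p _
    have h8 : JacV_c p ((8 : RR p)⁻¹) = (8 : ZMod p)⁻¹ := by
      have := JacV_inv hp (x := 8) (JacV_ndvd (by norm_num) (by omega))
      exact_mod_cast this
    have key := JacV_key hp ht
    rw [hX, map_sub, map_mul, map_add, map_sum, map_sum, map_mul, map_mul, map_sub, map_add, map_mul, map_mul, h8,
      JacV_hh hp (by omega), JacV_hh hp (by omega), JacV_hh hp (by omega), map_natCast, map_natCast]
    have s1 : ∀ i ∈ range (t + 1), JacV_c p (((4 * t + 3).choose i : RR p) * (-1) ^ (t + 1 - i - 1) * ((t + 1 - i : ℕ) : RR p)⁻¹) =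
        ((4 * t + 3).choose i : ZMod p) * (-1) ^ (t + 1 - i - 1) * ((t + 1 - i : ℕ) : ZMod p)⁻¹ := by
      intro i hi
      have hi' := Finset.mem_range.mp hi
      rw [map_mul, map_mul, map_pow, map_neg, map_one, map_natCast, JacV_inv hp (JacV_ndvd (by omega) (by omega))]
    have s2 : ∀ j ∈ range (3 * t + 3), JacV_c p (((4 * t + 3).choose (t + 1 + j) : RR p) * (-1) ^ j * ((j + 1 : ℕ) : RR p)⁻¹) =
        ((4 * t + 3).choose (t + 1 + j) : ZMod p) * (-1) ^ j * ((j + 1 : ℕ) : ZMod p)⁻¹ := by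
      intro i hi
      have hi' := Finset.mem_range.mp hi
      rw [map_mul, map_mul, map_pow, map_neg, map_one, map_natCast, JacV_inv hp (JacV_ndvd (by omega) (by omega))]
    rw [Finset.sum_congr rfl s1, Finset.sum_congr rfl s2, key]
    have h3 : JacV_c p 3 = 3 := map_ofNat _ 3
    have h4 : JacV_c p 4 = 4 := map_ofNat _ 4
    rw [h3, h4]
    ring
  have hsq : (p : RR p) ^ 2 = 0 := rr_sq
  have hX2 : (p : RR p) * (((4 * t + 4 : ℕ) : RR p) * ∑ i ∈ range (t + 1), ((4 * t + 3).choose i : RR p) * (-1) ^ (t + 1 - i - 1) * ((t + 1 - i : ℕ) : RR p)⁻¹) +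
      (p : RR p) * (((4 * t + 4 : ℕ) : RR p) * ∑ j ∈ range (3 * t + 3), ((4 * t + 3).choose (t + 1 + j) : RR p) * (-1) ^ j * ((j + 1 : ℕ) : RR p)⁻¹) = p * X := by
    rw [hX]
    ring
  linear_combination (1 - (p : RR p)) * hX2 + hc - X * hsq

private theorem JacV_sum_units {G M : Type*} [Group G] [Fintype G] [AddCommMonoid M] {g : G} (hg : ∀ x, x ∈ Subgroup.zpowers g) (f : G → M) :
    ∑ x, f x = ∑ i ∈ range (Nat.card G), f (g ^ i) := by
  classical
  rw [← IsCyclic.image_range_card hg, Finset.sum_image]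
  intro i hi j hj hij
  have ho := orderOf_eq_card_of_forall_mem_zpowers hg
  rw [← ho] at hi hj
  exact pow_injOn_Iio_orderOf (by simpa using hi) (by simpa using hj) hij

private theorem JacV_half [Fact p.Prime] (h : p % 8 = 1) {g : (ZMod p)ˣ} (hg : ∀ x, x ∈ Subgroup.zpowers g) :
    (g : ZMod p) ^ ((p - 1) / 2) = -1 := by
  have hp : p.Prime := Fact.out
  have h2 := hp.two_le
  have h1 : ((g : ZMod p) ^ ((p - 1) / 2)) ^ 2 = 1 := by
    rw [← pow_mul, show (p - 1) / 2 * 2 = p - 1 by omega]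
    exact ZMod.pow_card_sub_one_eq_one g.ne_zero
  rcases sq_eq_one_iff.mp h1 with h3 | h3
  · exfalso
    have h4 : g ^ ((p - 1) / 2) = 1 := by
      ext
      push_cast
      exact h3
    have ho := orderOf_eq_card_of_forall_mem_zpowers hg
    rw [Nat.card_eq_fintype_card, ZMod.card_units_eq_totient, Nat.totient_prime hp] at ho
    have h5 := orderOf_dvd_of_pow_eq_one h4
    rw [ho] at h5
    have := Nat.le_of_dvd (by omega) h5
    omega
  · exact h3

/-- PROOF. τ := L.tau, k := p/8, m := (p-1)/2, ζ := τ g ^ (p-1-k): ζ^8 = 1, ζ^4 = τ (g ^ ((p-1)/2))^7 .. = τ (-1) ^ .. = -1. ∑_i ζ^i qc (1 - g^i) = ∑_{x ≠ 0} τ x ^ (p-1-k) (1 - τ x)^(p m)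
(x = g^i, i < p - 1; qc_pow: 1 - τ x and an integer with the same image have the same p-th power, Lift.pow_eq) = ∑_j C(p m, j) (-1)^j ∑_x τ x ^ (j + p-1-k) (add_pow) and tau_sum: only j ≡ k mod p - 1 counts,
j = k + (p-1) i, 0 ≤ i ≤ m, (-1)^j = (-1)^k, factor p - 1. Then jac_sum. -/
theorem jac_val [Fact p.Prime] (h : p % 8 = 1) (L : Lift p p (ZMod p) (RR p)) {g : (ZMod p)ˣ} (hg : ∀ x, x ∈ Subgroup.zpowers g) :
    (L.tau (g : ZMod p) ^ (p - 1 - p / 8)) ^ 4 = -1 ∧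
      ∑ i ∈ range (p - 1), (L.tau (g : ZMod p) ^ (p - 1 - p / 8)) ^ i * (qc p (1 - (g : ZMod p) ^ i) : RR p) =
        -(-1) ^ (p / 8) * Gv p := by
  have hp : p.Prime := Fact.out
  have h2 := hp.two_le
  have hp2 : p ≠ 2 := by omega
  constructor
  · rw [← pow_mul, show (p - 1 - p / 8) * 4 = (p - 1) / 2 * 7 by omega, pow_mul, ← L.tau_npow hp, JacV_half h hg, L.tau_neg hp hp2]
    norm_num
  · rw [← jac_sum hp h]
    set m := (p - 1) / 2 with hm
    set k := p / 8 with hk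
    set N0 := p - 1 - k with hN0
    have cardU : Nat.card (ZMod p)ˣ = p - 1 := by
      rw [Nat.card_eq_fintype_card, ZMod.card_units_eq_totient, Nat.totient_prime hp]
    have A : ∑ i ∈ range (p - 1), (L.tau (g : ZMod p) ^ N0) ^ i * (qc p (1 - (g : ZMod p) ^ i) : RR p) =
        ∑ x : (ZMod p)ˣ, L.tau (x : ZMod p) ^ N0 * (1 - L.tau (x : ZMod p)) ^ (p * m) := by
      rw [JacV_sum_units hg, cardU]
      refine Finset.sum_congr rfl fun i _ => ?_
      push_cast
      have h3 : (L.tau (g : ZMod p) ^ N0) ^ i = L.tau ((g : ZMod p) ^ i) ^ N0 := by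
        rw [L.tau_npow hp, ← pow_mul, ← pow_mul, mul_comm]
      rw [h3]
      congr 1
      have h4 := qc_pow (p := p) hp2 (T := RR p) rr_sq (((1 - (g : ZMod p) ^ i).val : ℕ) : ℤ)
      have h5 : ((((1 - (g : ZMod p) ^ i).val : ℕ) : ℤ) : ZMod p) = 1 - (g : ZMod p) ^ i := by
        rw [Int.cast_natCast, ZMod.natCast_zmod_val]
      rw [h5] at h4
      rw [← h4, pow_mul, pow_mul]
      congr 1
      apply L.pow_eq hp
      rw [map_intCast, h5, map_sub, map_one, L.tau_pi]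
    rw [A]
    have B : ∀ x : (ZMod p)ˣ, L.tau (x : ZMod p) ^ N0 * (1 - L.tau (x : ZMod p)) ^ (p * m) =
        ∑ j ∈ range (p * m + 1), (((p * m).choose j : ℕ) : RR p) * (-1) ^ j * L.tau (x : ZMod p) ^ (N0 + j) := by
      intro x
      rw [show (1 : RR p) - L.tau (x : ZMod p) = -L.tau (x : ZMod p) + 1 by ring, add_pow, Finset.mul_sum]
      refine Finset.sum_congr rfl fun j _ => ?_
      rw [one_pow, mul_one, neg_pow, pow_add]
      ring
    rw [Finset.sum_congr rfl fun x _ => B x, Finset.sum_comm]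
    have C : ∀ j ∈ range (p * m + 1), ∑ x : (ZMod p)ˣ, (((p * m).choose j : ℕ) : RR p) * (-1) ^ j * L.tau (x : ZMod p) ^ (N0 + j) =
        if (p - 1) ∣ N0 + j then (((p * m).choose j : ℕ) : RR p) * (-1) ^ j * ((p : RR p) - 1) else 0 := by
      intro j _
      rw [← Finset.mul_sum, L.tau_sum hp]
      split_ifs <;> simp
    rw [Finset.sum_congr rfl C, ← Finset.sum_filter]
    have D : (range (p * m + 1)).filter (fun j => (p - 1) ∣ N0 + j) = (range (m + 1)).image (fun i => k + (p - 1) * i) := by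
      ext j
      simp only [Finset.mem_filter, Finset.mem_range, Finset.mem_image]
      have hpm : p * m = (p - 1) * m + m := by
        obtain ⟨q, hq⟩ : ∃ q, p = q + 1 := ⟨p - 1, by omega⟩
        rw [hq, Nat.add_sub_cancel]
        ring
      constructor
      · rintro ⟨hj, a, ha⟩
        have ha0 : a ≠ 0 := by
          rintro rfl
          rw [mul_zero] at ha
          omega
        obtain ⟨b, rfl⟩ := Nat.exists_eq_succ_of_ne_zero ha0
        rw [Nat.succ_eq_add_one, mul_add, mul_one] at ha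
        refine ⟨b, ?_, by omega⟩
        by_contra hb
        have h3 : (p - 1) * (m + 1) ≤ (p - 1) * b := Nat.mul_le_mul_left _ (by omega)
        rw [mul_add, mul_one] at h3
        omega
      · rintro ⟨i, hi, rfl⟩
        have h3 : (p - 1) * i ≤ (p - 1) * m := Nat.mul_le_mul_left _ (by omega)
        refine ⟨by omega, i + 1, ?_⟩
        rw [mul_add, mul_one]
        omega
    rw [D, Finset.sum_image, Finset.mul_sum, Finset.mul_sum]
    · refine Finset.sum_congr rfl fun i _ => ?_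
      have hev : (-1 : RR p) ^ (k + (p - 1) * i) = (-1) ^ k := by
        rw [pow_add, pow_mul, Even.neg_one_pow (n := p - 1) ⟨m, by omega⟩, one_pow, mul_one]
      rw [hev]
      ring
    · intro i _ j _ hij
      have h3 : (p - 1) * i = (p - 1) * j := by simpa using hij
      exact Nat.eq_of_mul_eq_mul_left (by omega) h3

end Pool.Agent.ADC
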