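import Pool.Agent.ADC.Bin
import Pool.Agent.ADC.Rec

/-! Project ADC (MP_adc642_nt), module Leg (size 3): the values of Legendre polynomials at 0. -/

set_option autoImplicit false

namespace Pool.Agent.ADC

open Finset

/-- `2 ^ N P_N (0)` -/
def lg (N : ℕ) : ℤ := ∑ n ∈ range (N + 1), (-1) ^ n * 2 ^ (N - n) * (N.choose n : ℤ) * ((N + n).choose n : ℤ)

/-- auxiliary: `lg N = 2 ^ N P (1/2)` -/
theorem Leg_eq (N : ℕ) :
    (lg N : ℚ) = 2 ^ N * Polynomial.aeval (1 / 2 : ℚ) (Polynomial.shiftedLegendre N) := by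
  unfold lg Polynomial.shiftedLegendre
  rw [map_sum, Finset.mul_sum]
  push_cast
  apply Finset.sum_congr rfl
  intro n hn
  have hn' : n ≤ N := by
    have := Finset.mem_range.mp hn
    omega
  have h1 : (N + n).choose n = (N + n).choose N := by
    rw [Nat.choose_symm_add]
  rw [h1, map_mul, Polynomial.aeval_C, map_pow, Polynomial.aeval_X]
  have h2 : (2 : ℚ) ^ N * (1 / 2) ^ n = 2 ^ (N - n) := by
    rw [one_div, inv_pow, ← div_eq_mul_inv, div_eq_iff (by positivity), ← pow_add]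
    congr 1
    omega
  have h3 : (algebraMap ℤ ℚ) ((-1) ^ n * (N.choose n : ℤ) * ((N + n).choose N : ℤ))
      = (-1) ^ n * (N.choose n : ℚ) * ((N + n).choose N : ℚ) := by
    simp
  rw [h3, ← h2]
  ring

/-- PROOF. Mathlib: Polynomial.shiftedLegendre N = ∑ (-1)^n C(N,n) C(N+n,N) X^n, symmetry shiftedLegendre_eval_symm at 1/2 (over ℚ). -/
theorem lg_odd {N : ℕ} (h : N % 2 = 1) : lg N = 0 := by
  have h1 := Polynomial.shiftedLegendre_eval_symm N (1 / 2 : ℚ)
  have h2 : (1 : ℚ) - 1 / 2 = 1 / 2 := by norm_num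
  have h3 : (-1 : ℚ) ^ N = -1 := (Nat.odd_iff.mpr h).neg_one_pow
  rw [h2, h3] at h1
  have h4 : Polynomial.aeval (1 / 2 : ℚ) (Polynomial.shiftedLegendre N) = 0 := by linarith
  have h5 := Leg_eq N
  rw [h4, mul_zero] at h5
  exact_mod_cast h5

/-- auxiliary: Taylor coefficient of `(X (1 - X)) ^ (2 k)` at `1/2`. -/
theorem Leg_coeff (k : ℕ) :
    (Polynomial.taylor (1 / 2 : ℚ)
      ((Polynomial.X * (1 - Polynomial.X)) ^ (2 * k) : Polynomial ℚ)).coeff (2 * k)
      = (-1 / 4) ^ k * ((2 * k).choose k : ℚ) := by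
  rw [Polynomial.taylor_pow]
  have h1 : Polynomial.taylor (1 / 2 : ℚ) (Polynomial.X * (1 - Polynomial.X) : Polynomial ℚ)
      = - Polynomial.expand ℚ 2 (Polynomial.X + Polynomial.C (-1 / 4 : ℚ)) := by
    rw [Polynomial.taylor_mul, map_sub, Polynomial.taylor_X, map_add, Polynomial.expand_X,
      Polynomial.expand_C]
    have h2 : (1 : Polynomial ℚ) = Polynomial.C 1 := by simp
    rw [h2, Polynomial.taylor_C]
    have h3 : (Polynomial.C (1 : ℚ)) = Polynomial.C (1 / 2 : ℚ) + Polynomial.C (1 / 2 : ℚ) := by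
      rw [← Polynomial.C_add]; norm_num
    have h4 : (Polynomial.C (-1 / 4 : ℚ)) = - (Polynomial.C (1 / 2 : ℚ) * Polynomial.C (1 / 2 : ℚ)) := by
      rw [← Polynomial.C_mul, ← Polynomial.C_neg]; norm_num
    rw [h3, h4]
    ring
  rw [h1, Even.neg_pow (even_two_mul k), ← map_pow, mul_comm 2 k,
    Polynomial.coeff_expand_mul (by norm_num : 0 < 2), Polynomial.coeff_X_add_C_pow]
  have h5 : k * 2 - k = k := by omega
  rw [h5]

/-- auxiliary: the value at `1/2` -/
theorem Leg_value (k : ℕ) :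
    Polynomial.aeval (1 / 2 : ℚ) (Polynomial.shiftedLegendre (2 * k))
      = (-1 / 4) ^ k * ((2 * k).choose k : ℚ) := by
  have h1 := Polynomial.factorial_mul_shiftedLegendre_eq (2 * k)
  have h2 := congrArg (Polynomial.map (Int.castRingHom ℚ)) h1
  rw [← Polynomial.iterate_derivative_map, Polynomial.map_mul, Polynomial.map_mul,
    Polynomial.map_pow, Polynomial.map_pow, Polynomial.map_sub, Polynomial.map_X,
    Polynomial.map_one, Polynomial.map_natCast, ← mul_pow,
    ← Polynomial.factorial_smul_hasseDeriv] at h2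
  have h3 := congrArg (Polynomial.eval (1 / 2 : ℚ)) h2
  rw [Polynomial.eval_mul, Polynomial.eval_natCast] at h3
  have h4 : Polynomial.eval (1 / 2 : ℚ)
      (((2 * k).factorial • (Polynomial.hasseDeriv (2 * k) :
        Polynomial ℚ →ₗ[ℚ] Polynomial ℚ)) ((Polynomial.X * (1 - Polynomial.X)) ^ (2 * k)))
      = ((2 * k).factorial : ℚ) * ((-1 / 4) ^ k * ((2 * k).choose k : ℚ)) := by
    rw [← Leg_coeff k, Polynomial.taylor_coeff]
    simp
  rw [h4] at h3
  have h5 : ((2 * k).factorial : ℚ) ≠ 0 := by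
    exact_mod_cast Nat.factorial_ne_zero _
  have h6 := mul_left_cancel₀ h5 h3
  rw [← h6, Polynomial.aeval_def, Polynomial.eval_map]
  rfl

/-- PROOF. Polynomial.factorial_mul_shiftedLegendre_eq: N! P = N-th derivative of (X (1 - X))^N = (1/4 - (X - 1/2)^2)^N; coefficient of (X - 1/2)^N; value at 1/2 is (-1)^k C(2k,k) / 4^k.
Or the recurrence (N+2) lg (N+2) = -4 (N+1) lg N (Zeilberger). -/
theorem lg_even (k : ℕ) : lg (2 * k) = (-1) ^ k * ((2 * k).choose k : ℤ) := by
  have h1 := Leg_eq (2 * k)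
  rw [Leg_value] at h1
  have h2 : (2 : ℚ) ^ (2 * k) * ((-1 / 4) ^ k * ((2 * k).choose k : ℚ))
      = (-1) ^ k * ((2 * k).choose k : ℚ) := by
    rw [← mul_assoc, pow_mul, ← mul_pow]
    norm_num
  rw [h2] at h1
  exact_mod_cast h1

end Pool.Agent.ADC
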