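import Pool.Agent.ADC.Star
import Pool.Agent.ADC.Cop

/-! Project ADC (MP_adc642_nt), module Spl (size 4): the two coefficients of the basic identity vanish. -/

set_option autoImplicit false

namespace Pool.Agent.ADC

open Finset

variable {p : ℕ}

section SplDeg

open Polynomial

variable {R : Type} [CommRing R]

private theorem Spl_add {P Q : R[X]} {d : ℕ} (h : P.natDegree ≤ d) (h' : Q.natDegree ≤ d) : (P + Q).natDegree ≤ d :=
  natDegree_add_le_of_degree_le h h'

private theorem Spl_sub {P Q : R[X]} {d : ℕ} (h : P.natDegree ≤ d) (h' : Q.natDegree ≤ d) : (P - Q).natDegree ≤ d := by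
  have := natDegree_sub_le_of_le h h'
  simpa using this

private theorem Spl_mul {P Q : R[X]} {a b d : ℕ} (h : P.natDegree ≤ a) (h' : Q.natDegree ≤ b) (hd : a + b ≤ d) :
    (P * Q).natDegree ≤ d := (natDegree_mul_le_of_le h h').trans hd

private theorem Spl_pow {P : R[X]} {a n d : ℕ} (h : P.natDegree ≤ a) (hd : n * a ≤ d) : (P ^ n).natDegree ≤ d :=
  (natDegree_pow_le_of_le n h).trans hd

private theorem Spl_num (n : ℕ) [n.AtLeastTwo] {d : ℕ} : (OfNat.ofNat n : R[X]).natDegree ≤ d := by simp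

private theorem Spl_one {d : ℕ} : (1 : R[X]).natDegree ≤ d := by simp

variable {P : R[X]} {d : ℕ} (h : P.natDegree ≤ d)
include h

private theorem Spl_1p : (1 + P).natDegree ≤ d := Spl_add Spl_one h

private theorem Spl_1m : (1 - 8 * P).natDegree ≤ d := Spl_sub Spl_one (Spl_mul (a := 0) (Spl_num 8) h (by omega))

private theorem Spl_eE : (eE P).natDegree ≤ 2 * d := by
  unfold eE
  exact Spl_sub (Spl_add Spl_one (Spl_mul (a := 0) (Spl_num 20) h (by omega))) (Spl_mul (a := 0) (b := 2 * d) (Spl_num 8) (Spl_pow h le_rfl) (by omega))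

private theorem Spl_gG : (gG P).natDegree ≤ 2 * d := by
  unfold gG
  exact Spl_add Spl_one (Spl_mul (a := 0) (b := 2 * d) (Spl_num 8) (Spl_pow h le_rfl) (by omega))

private theorem Spl_nN : (nN P).natDegree ≤ 4 * d := by
  unfold nN
  exact Spl_add (Spl_add (Spl_sub (Spl_sub Spl_one (Spl_mul (a := 0) (Spl_num 14) h (by omega)))
    (Spl_mul (a := 0) (b := 2 * d) (Spl_num 48) (Spl_pow h le_rfl) (by omega)))
    (Spl_mul (a := 0) (b := 3 * d) (Spl_num 112) (Spl_pow h le_rfl) (by omega)))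
    (Spl_mul (a := 0) (b := 4 * d) (Spl_num 64) (Spl_pow h le_rfl) (by omega))

private theorem Spl_qq : (qq P).natDegree ≤ 2 * d := by
  unfold qq
  exact Spl_mul (Spl_1p h) (Spl_1m h) (by omega)

private theorem Spl_tT : (tT P).natDegree ≤ 3 * d := by
  unfold tT
  exact Spl_mul (a := 2 * d) (Spl_mul h (Spl_1p h) (by omega)) (Spl_1m h) (by omega)

private theorem Spl_bB : (bB P).natDegree ≤ 4 * d := by
  unfold bB
  exact Spl_mul (b := 3 * d) h (Spl_pow (Spl_1p h) le_rfl) (by omega)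

end SplDeg

section SplDeg2

open Polynomial

variable {R : Type} [CommRing R]

private theorem Spl_PhF (c : ℕ → R) : (PhF p (fun n => C (c n)) (X : R[X])).natDegree ≤ 4 * p - 4 := by
  unfold PhF
  refine natDegree_sum_le_of_forall_le _ _ fun n hn => ?_
  have hn' := mem_range.1 hn
  have hX : (X : R[X]).natDegree ≤ 1 := natDegree_X_le
  exact Spl_mul (a := 3 * n) (b := 4 * (p - 1 - n)) (Spl_mul (a := 0) (b := 3 * n) (natDegree_C _).le
    (Spl_pow (Spl_tT hX) (by omega)) (by omega)) (Spl_pow (Spl_gG hX) (by omega)) (by omega)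

private theorem Spl_HhF (c : ℕ → R) : (HhF p (fun n => C (c n)) (X : R[X])).natDegree ≤ 4 * p - 4 := by
  unfold HhF
  refine natDegree_sum_le_of_forall_le _ _ fun n hn => ?_
  have hn' := mem_range.1 hn
  have hX : (X : R[X]).natDegree ≤ 1 := natDegree_X_le
  exact Spl_mul (a := 4 * n) (b := 4 * (p - 1 - n)) (Spl_mul (a := 0) (b := 4 * n) (natDegree_C _).le
    (Spl_pow (Spl_bB hX) (by omega)) (by omega)) (Spl_pow (Spl_eE hX) (by omega)) (by omega)

private theorem Spl_QPF (b bt : ℕ → R) {e1 e2 eg : R[X]} (hp : 0 < p) (h1 : e1.natDegree ≤ p) (h2 : e2.natDegree ≤ p) (hg : eg.natDegree ≤ 2 * p) :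
    (QPF p (fun n => C (b n)) (fun n => C (bt n)) (X : R[X]) (X ^ p) e1 e2 eg).natDegree ≤ 8 * p - 4 := by
  have hx : (X ^ p : R[X]).natDegree ≤ p := natDegree_X_pow_le p
  unfold QPF etF
  refine Spl_add ?_ ?_
  · exact Spl_mul (a := 4 * p) (b := 4 * p - 4) (Spl_mul (Spl_qq hx) (Spl_gG hx) (by omega)) (Spl_PhF bt) (by omega)
  · refine Spl_mul (a := 4 * p) (b := 4 * p - 4) ?_ (Spl_PhF b) (by omega)
    refine Spl_sub (Spl_add ?_ ?_) ?_
    · exact Spl_mul (a := 2 * p) (Spl_mul h1 (Spl_1m hx) (by omega)) (Spl_gG hx) (by omega)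
    · exact Spl_mul (a := 2 * p) (Spl_mul h2 (Spl_1p hx) (by omega)) (Spl_gG hx) (by omega)
    · exact Spl_mul (a := 2 * p) (Spl_mul (a := 0) (Spl_num 2) hg (by omega)) (Spl_qq hx) (by omega)

private theorem Spl_QHF (a at' : ℕ → R) {e1 ee : R[X]} (hp : 0 < p) (h1 : e1.natDegree ≤ p) (he : ee.natDegree ≤ 2 * p) :
    (QHF p (fun n => C (a n)) (fun n => C (at' n)) (X : R[X]) (X ^ p) e1 ee).natDegree ≤ 7 * p - 4 := by
  have hx : (X ^ p : R[X]).natDegree ≤ p := natDegree_X_pow_le p
  unfold QHF eyF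
  refine Spl_add ?_ ?_
  · exact Spl_mul (a := 3 * p) (b := 4 * p - 4) (Spl_mul (Spl_1p hx) (Spl_eE hx) (by omega)) (Spl_HhF at') (by omega)
  · refine Spl_mul (a := 3 * p) (b := 4 * p - 4) ?_ (Spl_HhF a) (by omega)
    refine Spl_sub ?_ ?_
    · exact Spl_mul (a := p) (Spl_mul (a := 0) (Spl_num 3) h1 (by omega)) (Spl_eE hx) (by omega)
    · exact Spl_mul (a := 2 * p) (Spl_mul (a := 0) (Spl_num 2) he (by omega)) (Spl_1p hx) (by omega)

end SplDeg2

/-- PROOF. natDegree bounds (compute_degree or by hand): the first term of BB has degree at most 2p + (2p + 3p) + 2 + (8p - 4) + (8p - 8) + 2p, the second one at most 4p + 4p + 2 + (4p - 4) + p + 2p + (4p - 4) + (7p - 4). -/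
theorem BB_deg (hp : p.Prime) (D : Dat p) : (BB D).natDegree ≤ 26 * p := by
  have hp0 := hp.two_le
  have hx : (Polynomial.X ^ p : Polynomial (RR p)).natDegree ≤ p := Polynomial.natDegree_X_pow_le p
  have hX : (Polynomial.X : Polynomial (RR p)).natDegree ≤ 1 := Polynomial.natDegree_X_le
  unfold BB BBF
  refine Spl_sub ?_ ?_
  · refine Spl_mul (a := 24 * p) (Spl_mul (a := 15 * p - 2) (b := 8 * p - 8) (Spl_mul (a := 7 * p + 2) (b := 8 * p - 4) (Spl_mul (a := 7 * p) (b := 2)
      (Spl_mul (a := 2 * p) (b := 5 * p) (Spl_gG hx) (Spl_mul (a := 2 * p) (b := 3 * p) (Spl_mul (a := 0) (Spl_num 2) (Spl_gG hx) (by omega))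
      (Spl_pow (Spl_1m hx) (by omega)) (by omega)) (by omega)) (Spl_eE hX) (by omega))
      (Spl_QPF _ _ (by omega) D.d1 D.d2 D.dg) (by omega)) (Spl_pow (Spl_eE hX) (by omega)) (by omega)) (Spl_eE hx) (by omega)
  · refine Spl_mul (a := 19 * p - 6) (b := 7 * p - 4) (Spl_mul (a := 15 * p - 2) (b := 4 * p - 4) (Spl_mul (a := 13 * p - 2) (b := 2 * p)
      (Spl_mul (a := 12 * p - 2) (b := p) (Spl_mul (a := 8 * p + 2) (b := 4 * p - 4) (Spl_mul (a := 8 * p) (b := 2)
      (Spl_mul (a := 4 * p) (b := 4 * p) (Spl_mul (a := 0) (b := 4 * p) (Spl_num 2) (Spl_nN hx) (by omega)) (Spl_pow (Spl_eE hx) (by omega)) (by omega))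
      (Spl_gG hX) (by omega)) (Spl_pow (Spl_gG hX) (by omega)) (by omega)) (Spl_1m hx) (by omega)) (Spl_gG hx) (by omega)) (Spl_HhF _) (by omega))
      (Spl_QHF _ _ (by omega) D.d1 D.de) (by omega)

section SplSer

open PowerSeries

private noncomputable def Splf (p : ℕ) : RR p →+* ZMod p := ZMod.castHom (Dvd.intro_left _ (pow_succ p 1).symm : p ∣ p ^ 2) (ZMod p)

private theorem Splf_nat (n : ℕ) : Splf p (n : RR p) = (n : ZMod p) := map_natCast _ n

private theorem Splf_p : Splf p (p : RR p) = 0 := by rw [Splf_nat]; simp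

private theorem Splf_ker (hp : p.Prime) {x : RR p} (h : Splf p x = 0) : ∃ y : RR p, x = (p : RR p) * y := by
  have : NeZero (p ^ 2) := ⟨pow_ne_zero 2 hp.ne_zero⟩
  rw [← ZMod.natCast_zmod_val x, Splf_nat, ZMod.natCast_eq_zero_iff] at h
  obtain ⟨k, hk⟩ := h
  refine ⟨(k : RR p), ?_⟩
  rw [← ZMod.natCast_zmod_val x, hk]
  push_cast
  ring

private theorem Splf_ann (hp : p.Prime) {x : RR p} (h : (p : RR p) * x = 0) : Splf p x = 0 := by
  have : NeZero (p ^ 2) := ⟨pow_ne_zero 2 hp.ne_zero⟩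
  rw [← ZMod.natCast_zmod_val x] at h ⊢
  rw [Splf_nat, ZMod.natCast_eq_zero_iff]
  rw [← Nat.cast_mul, ZMod.natCast_eq_zero_iff] at h
  obtain ⟨k, hk⟩ := h
  exact Nat.dvd_of_mul_dvd_mul_left hp.pos ⟨k, by rw [hk]; ring⟩

private theorem Spl_poly (hp : p.Prime) {P : Polynomial (RR p)} (h : Polynomial.map (Splf p) P = 0) :
    ∃ Q : Polynomial (RR p), P = (p : Polynomial (RR p)) * Q := by
  have h1 : ∀ n, ∃ y : RR p, P.coeff n = (p : RR p) * y := fun n =>
    Splf_ker hp (by rw [← Polynomial.coeff_map, h, Polynomial.coeff_zero])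
  choose g hg using h1
  refine ⟨∑ n ∈ P.support, Polynomial.monomial n (g n), ?_⟩
  conv_lhs => rw [P.as_sum_support]
  rw [Finset.mul_sum]
  refine Finset.sum_congr rfl fun n _ => ?_
  rw [hg n, ← Polynomial.C_eq_natCast, Polynomial.C_mul_monomial]

private theorem Spl_ser (hp : p.Prime) {F : (RR p)⟦X⟧} (h : (p : (RR p)⟦X⟧) * F = 0) : PowerSeries.map (Splf p) F = 0 := by
  ext n
  rw [coeff_map, map_zero]
  refine Splf_ann hp ?_
  have := congrArg (coeff n) h
  rwa [show ((p : (RR p)⟦X⟧)) = C (p : RR p) by simp, coeff_C_mul, map_zero] at this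

private theorem Spl_expand_coe {A : Type} [CommRing A] (hp : p ≠ 0) (P : Polynomial A) :
    expand p hp (P : A⟦X⟧) = ((Polynomial.expand A p P : Polynomial A) : A⟦X⟧) := by
  ext n
  rw [coeff_expand, Polynomial.coeff_coe, Polynomial.coeff_coe, Polynomial.coeff_expand (Nat.pos_of_ne_zero hp)]

private theorem Spl_unit {A : Type} [CommRing A] : ∃ iE : A⟦X⟧, eE (X : A⟦X⟧) * iE = 1 := by
  have h : IsUnit (eE (X : A⟦X⟧)) := by
    rw [isUnit_iff_constantCoeff]
    simp [eE]
  exact h.exists_right_inv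

private theorem Spl_dvd {A : Type} [CommRing A] (w : A⟦X⟧) : (X : A⟦X⟧) ∣ bB X * w := by
  unfold bB
  exact Dvd.dvd.mul_right (Dvd.intro _ rfl) w

/-- the truncated sum times a power of the unit is a polynomial -/
private theorem Spl_sum {K : Type} [CommRing K] (d : ℕ → K) {m : ℕ} {i : K⟦X⟧} (hi : eE (X : K⟦X⟧) * i = 1) :
    eE (X : K⟦X⟧) ^ (2 * m) * ∑ n ∈ range (m + 1), C (d n) * (bB (X : K⟦X⟧) * i ^ 2) ^ n =
      ((∑ n ∈ range (m + 1), Polynomial.C (d n) * bB (Polynomial.X : Polynomial K) ^ n * eE (Polynomial.X : Polynomial K) ^ (2 * (m - n)) : Polynomial K) : K⟦X⟧) := by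
  have hE : ((eE (Polynomial.X : Polynomial K) : Polynomial K) : K⟦X⟧) = eE (X : K⟦X⟧) := by
    have h20 : ((20 : Polynomial K) : K⟦X⟧) = 20 := map_ofNat Polynomial.coeToPowerSeries.ringHom 20
    have h8 : ((8 : Polynomial K) : K⟦X⟧) = 8 := map_ofNat Polynomial.coeToPowerSeries.ringHom 8
    simp [eE, h20, h8]
  have hB : ((bB (Polynomial.X : Polynomial K) : Polynomial K) : K⟦X⟧) = bB (X : K⟦X⟧) := by
    simp [bB]
  rw [← Polynomial.coeToPowerSeries.ringHom_apply, map_sum, Finset.mul_sum]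
  refine Finset.sum_congr rfl fun n hn => ?_
  have hn' := mem_range.1 hn
  rw [Polynomial.coeToPowerSeries.ringHom_apply, Polynomial.coe_mul, Polynomial.coe_mul, Polynomial.coe_pow, Polynomial.coe_pow, hE, hB, Polynomial.coe_C]
  have h1 : eE (X : K⟦X⟧) ^ (2 * m) = eE (X : K⟦X⟧) ^ (2 * (m - n)) * eE (X : K⟦X⟧) ^ (2 * n) := by
    rw [← pow_add]; congr 1; omega
  have h2 : eE (X : K⟦X⟧) ^ (2 * n) * (i ^ 2) ^ n = 1 := by
    rw [← pow_mul, ← mul_pow, hi, one_pow]
  rw [h1, mul_pow]
  linear_combination (C (d n) * bB (X : K⟦X⟧) ^ n * eE (X : K⟦X⟧) ^ (2 * (m - n))) * h2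

end SplSer

/-- PROOF. r := Polynomial.mapRingHom (ZMod.castHom : RR p →+* ZMod p). h has constant term 1, so expand h is a unit: modulo p star gives r AA = 0, so AA = p A' for some polynomial A' (coefficientwise).
p (A' h' + BB h1') = 0 in (RR p)⟦X⟧, so (coefficients: p x = 0 iff x = 0 modulo p) modulo p: r A' * h' + r BB * h1' = 0. Modulo p: cmp_block0 (c := aa, D.ha modulo p): h = (∑_{n<p} aa n y^n) * cmp aa (y^p),
h1 = (∑_{n<p} n aa n y^n) * cmp aa (y^p); aa n = 0 for p/4 < n < p (aa_mod). So expand h = expand (..) * W, expand h1 = expand (..) * W with the same unit W. Cancel W, multiply by expand (eE X)^(2 (p/4)):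
r A' * expand (PP p) + r BB * expand (PQ p) = 0 in (ZMod p)[X] (Polynomial.coe_injective). expand P = P ^ p (ZMod.expand_card). IsCoprime (PP^p) (PQ^p), so PP^p divides r BB; natDegree (PP^p) = 4 (p/4) p > 26 p ≥ natDegree BB
(p ≥ 29: p/4 ≥ 7), so r BB = 0, r A' = 0. -/
theorem split (hp : p.Prime) (h29 : 29 ≤ p) (D : Dat p) :
    AA D = 0 ∧ ∃ B : Polynomial (RR p), BB D = (p : Polynomial (RR p)) * B := by
  have : Fact p.Prime := ⟨hp⟩
  have h2 : p ≠ 2 := by omega
  obtain ⟨iE, hE⟩ := Spl_unit (A := RR p)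
  have hst := star hp D hE
  set y : PowerSeries (RR p) := bB PowerSeries.X * iE ^ 2 with hy
  have hXy : PowerSeries.X ∣ y := Spl_dvd _
  -- modulo p
  set iK : PowerSeries (ZMod p) := PowerSeries.map (Splf p) iE with hiK
  have hmE : PowerSeries.map (Splf p) (eE (PowerSeries.X : PowerSeries (RR p))) = eE PowerSeries.X := by
    have h20 : PowerSeries.map (Splf p) 20 = 20 := map_ofNat _ 20
    have h8 : PowerSeries.map (Splf p) 8 = 8 := map_ofNat _ 8
    simp [eE, h20, h8]
  have hmB : PowerSeries.map (Splf p) (bB (PowerSeries.X : PowerSeries (RR p))) = bB PowerSeries.X := by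
    simp [bB]
  have hEK : eE (PowerSeries.X : PowerSeries (ZMod p)) * iK = 1 := by
    rw [hiK, ← hmE, ← map_mul, hE, map_one]
  set z : PowerSeries (ZMod p) := bB PowerSeries.X * iK ^ 2 with hz
  have hXz : PowerSeries.X ∣ z := Spl_dvd _
  have hyz : PowerSeries.map (Splf p) y = z := by rw [hy, hz, map_mul, map_pow, hmB]
  have hXzp : PowerSeries.X ∣ z ^ p := hXz.trans (dvd_pow_self _ hp.ne_zero)
  set W : PowerSeries (ZMod p) := cmp (fun n => (aa n : ZMod p)) (z ^ p) with hW
  set S0 : PowerSeries (ZMod p) := ∑ n ∈ range (p / 4 + 1), PowerSeries.C (aa n : ZMod p) * z ^ n with hS0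
  set S1 : PowerSeries (ZMod p) := ∑ n ∈ range (p / 4 + 1), PowerSeries.C (n * (aa n : ZMod p)) * z ^ n with hS1
  have hmul : ∀ m n, n < p → (aa (n + m * p) : ZMod p) = (aa m : ZMod p) * (aa n : ZMod p) := by
    intro m n hn
    have := congrArg (Splf p) (D.ha m n hn)
    simp only [map_mul, map_add, map_natCast] at this
    rw [this]
    simp
  have hsub : range (p / 4 + 1) ⊆ range p := by
    intro n hn
    rw [mem_range] at *
    omega
  have hb0 : cmp (fun n => (aa n : ZMod p)) z = S0 * W := by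
    rw [cmp_block0 hp.pos hXz (c := fun n => (aa n : ZMod p)) (fun n => (aa n : ZMod p)) hmul, hS0]
    congr 1
    symm
    refine Finset.sum_subset hsub fun n hn hn' => ?_
    rw [mem_range] at hn hn'
    rw [aa_mod hp h2 (by omega) hn]
    simp
  have hb1 : cmp (fun n => (n : ZMod p) * (aa n : ZMod p)) z = S1 * W := by
    rw [cmp_block0 hp.pos hXz (c := fun n => (aa n : ZMod p)) (fun n => (n : ZMod p) * (aa n : ZMod p)) (by
      intro m n hn
      rw [hmul m n hn]
      push_cast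
      simp
      ring), hS1]
    congr 1
    symm
    refine Finset.sum_subset hsub fun n hn hn' => ?_
    rw [mem_range] at hn hn'
    rw [aa_mod hp h2 (by omega) hn]
    simp
  have hm0 : PowerSeries.map (Splf p) (cmp (fun n => (aa n : RR p)) y) = S0 * W := by
    rw [cmp_map (Splf p) hXy, hyz, ← hb0]
    simp only [Splf_nat]
  have hm1 : PowerSeries.map (Splf p) (cmp (fun n => (n : RR p) * (aa n : RR p)) y) = S1 * W := by
    rw [cmp_map (Splf p) hXy, hyz, ← hb1]
    simp only [map_mul, Splf_nat]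
  have hWu : IsUnit (PowerSeries.expand p hp.ne_zero W) := by
    rw [PowerSeries.isUnit_iff_constantCoeff, PowerSeries.constantCoeff_expand, hW, cmp_cc hXzp]
    simp [aa_zero]
  have h0u : IsUnit (PowerSeries.expand p hp.ne_zero (S0 * W)) := by
    rw [← hb0, PowerSeries.isUnit_iff_constantCoeff, PowerSeries.constantCoeff_expand, cmp_cc hXz]
    simp [aa_zero]
  -- first: AA vanishes modulo p
  have hA0 : Polynomial.map (Splf p) (AA D) = 0 := by
    have := congrArg (PowerSeries.map (Splf p)) hst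
    rw [map_add, map_mul, map_mul, map_mul, PowerSeries.map_expand, hm0, map_natCast, map_zero] at this
    rw [show ((p : PowerSeries (ZMod p))) = 0 by
      rw [← map_natCast (PowerSeries.C (R := ZMod p))]; simp] at this
    rw [zero_mul, zero_mul, add_zero, ← Polynomial.polynomial_map_coe] at this
    have h0 := h0u.mul_left_eq_zero.1 this
    exact Polynomial.coe_injective _ (by rw [h0]; simp)
  obtain ⟨A', hA'⟩ := Spl_poly hp hA0
  -- second step
  have hst2 : (p : PowerSeries (RR p)) * ((A' : PowerSeries (RR p)) * PowerSeries.expand p hp.ne_zero (cmp (fun n => (aa n : RR p)) y) +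
      (BB D : PowerSeries (RR p)) * PowerSeries.expand p hp.ne_zero (cmp (fun n => n * (aa n : RR p)) y)) = 0 := by
    rw [← hst, hA']
    have : (((p : Polynomial (RR p)) * A' : Polynomial (RR p)) : PowerSeries (RR p)) = (p : PowerSeries (RR p)) * (A' : PowerSeries (RR p)) := by
      rw [Polynomial.coe_mul]
      congr 1
      exact map_natCast Polynomial.coeToPowerSeries.ringHom p
    rw [this]
    ring
  have hk := Spl_ser hp hst2
  rw [map_add, map_mul, map_mul, PowerSeries.map_expand, PowerSeries.map_expand, hm0, hm1, ← Polynomial.polynomial_map_coe,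
    ← Polynomial.polynomial_map_coe, map_mul (PowerSeries.expand p hp.ne_zero), map_mul (PowerSeries.expand p hp.ne_zero)] at hk
  have hk2 : ((Polynomial.map (Splf p) A' : Polynomial (ZMod p)) : PowerSeries (ZMod p)) * PowerSeries.expand p hp.ne_zero S0 +
      ((Polynomial.map (Splf p) (BB D) : Polynomial (ZMod p)) : PowerSeries (ZMod p)) * PowerSeries.expand p hp.ne_zero S1 = 0 := by
    refine hWu.mul_left_eq_zero.1 ?_
    rw [← hk]
    ring
  have hP : PowerSeries.expand p hp.ne_zero (eE (PowerSeries.X : PowerSeries (ZMod p)) ^ (2 * (p / 4))) * PowerSeries.expand p hp.ne_zero S0 =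
      ((PP p ^ p : Polynomial (ZMod p)) : PowerSeries (ZMod p)) := by
    rw [← map_mul, hS0, hz, Spl_sum _ hEK, Spl_expand_coe, ← ZMod.expand_card]
    rfl
  have hQ : PowerSeries.expand p hp.ne_zero (eE (PowerSeries.X : PowerSeries (ZMod p)) ^ (2 * (p / 4))) * PowerSeries.expand p hp.ne_zero S1 =
      ((PQ p ^ p : Polynomial (ZMod p)) : PowerSeries (ZMod p)) := by
    rw [← map_mul, hS1, hz, Spl_sum _ hEK, Spl_expand_coe, ← ZMod.expand_card]
    rfl
  have hpoly : Polynomial.map (Splf p) A' * PP p ^ p + Polynomial.map (Splf p) (BB D) * PQ p ^ p = 0 := by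
    apply Polynomial.coe_injective
    rw [Polynomial.coe_add, Polynomial.coe_mul, Polynomial.coe_mul, ← hP, ← hQ, Polynomial.coe_zero]
    linear_combination (PowerSeries.expand p hp.ne_zero (eE (PowerSeries.X : PowerSeries (ZMod p)) ^ (2 * (p / 4)))) * hk2
  have hcop : IsCoprime (PP p ^ p) (PQ p ^ p) := (cop hp (by omega)).pow
  have hdvd : PP p ^ p ∣ Polynomial.map (Splf p) (BB D) := by
    refine hcop.dvd_of_dvd_mul_right ?_
    exact ⟨- Polynomial.map (Splf p) A', by linear_combination hpoly⟩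
  have hB0 : Polynomial.map (Splf p) (BB D) = 0 := by
    by_contra hne
    have h1 := Polynomial.natDegree_le_of_dvd hdvd hne
    rw [Polynomial.natDegree_pow, PP_deg hp (by omega)] at h1
    have h2 : (Polynomial.map (Splf p) (BB D)).natDegree ≤ 26 * p := Polynomial.natDegree_map_le.trans (BB_deg hp D)
    have h3 : 7 ≤ p / 4 := by omega
    have h4 : p * 28 ≤ p * (4 * (p / 4)) := Nat.mul_le_mul_left p (by omega)
    omega
  have hPne : PP p ^ p ≠ 0 := by
    refine pow_ne_zero _ ?_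
    intro h
    have := PP_deg hp (by omega : 5 ≤ p)
    rw [h, Polynomial.natDegree_zero] at this
    omega
  have hA'0 : Polynomial.map (Splf p) A' = 0 := by
    rw [hB0, zero_mul, add_zero] at hpoly
    exact (mul_eq_zero.1 hpoly).resolve_right hPne
  obtain ⟨A2, hA2⟩ := Spl_poly hp hA'0
  refine ⟨?_, Spl_poly hp hB0⟩
  rw [hA', hA2, ← mul_assoc, ← pow_two]
  have : ((p : Polynomial (RR p)) ^ 2) = 0 := by
    rw [← Polynomial.C_eq_natCast, ← Polynomial.C_pow, rr_sq, Polynomial.C_0]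
  rw [this, zero_mul]

end Pool.Agent.ADC
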