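import Pool.Agent.ADC.Dat
import Pool.Agent.ADC.IdenG

/-! Project ADC (MP_adc642_nt), module Star (size 4): the basic identity modulo p ^ 2. -/

set_option autoImplicit false

namespace Pool.Agent.ADC

open Finset PowerSeries

variable {p : ℕ}

/-- ring identity behind `star` -/
theorem star_alg {R : Type} [CommRing R] {P E G E1 G1 N1 a1 a2 x1 L1 F Ft H Ht et ey εt εy g g1 h h1 K M M2 PB PBt HA HAt g0 h0 : R}
    (hPP : P * P = 0) (hg : g0 = F * g + P * (Ft + εt * F) * g1) (hh : h0 = H * h + P * (Ht + εy * H) * h1)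
    (i0 : E * g0 = G * h0 ^ 2) (i0' : E1 * g = G1 * h ^ 2)
    (i1' : N1 * E1 ^ 2 * g1 = G1 * (a1 * a2 * x1 * L1 * h ^ 2 + 2 * G1 * a2 ^ 3 * (h * h1)))
    (hu : IsUnit h) (hPB : PB = K * F) (hPBt : PBt = K * Ft) (hHA : HA = M * H) (hHAt : HAt = M * Ht)
    (hM : M2 = M * M) (het : et = a1 * a2 * G1 * εt) (hey : ey = a1 * E1 * εy) :
    (N1 * E1 * G1 * E * PB * M2 * (a1 * a2) * G1 * E1 - N1 * E1 ^ 2 * G * HA ^ 2 * K * (a1 * a2) * G1 * E1 +
        P * G1 * (a1 * a2 * x1 * L1) * E * (a1 * a2 * G1 * PBt + et * PB) * M2 * E1) * h +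
      P * (G1 * (2 * G1 * a2 ^ 3) * E * (a1 * a2 * G1 * PBt + et * PB) * M2 * E1 -
        2 * N1 * E1 ^ 2 * G * K * a2 * G1 * HA * (a1 * E1 * HAt + ey * HA)) * h1 = 0 := by
  subst hg hh hPB hPBt hHA hHAt hM het hey
  have key : h * ((N1 * E1 * G1 * E * (K * F) * (M * M) * (a1 * a2) * G1 * E1 -
        N1 * E1 ^ 2 * G * (M * H) ^ 2 * K * (a1 * a2) * G1 * E1 +
        P * G1 * (a1 * a2 * x1 * L1) * E * (a1 * a2 * G1 * (K * Ft) + a1 * a2 * G1 * εt * (K * F)) * (M * M) * E1) * h +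
      P * (G1 * (2 * G1 * a2 ^ 3) * E * (a1 * a2 * G1 * (K * Ft) + a1 * a2 * G1 * εt * (K * F)) * (M * M) * E1 -
        2 * N1 * E1 ^ 2 * G * K * a2 * G1 * (M * H) * (a1 * E1 * (M * Ht) + a1 * E1 * εy * (M * H))) * h1) = 0 := by
    linear_combination (K * M * M * a1 * a2 * G1 * E1) * (N1 * E1 ^ 2) * i0 -
      (K * M * M * a1 * a2 * G1 * E1) * (N1 * E1 * E * F) * i0' -
      (K * M * M * a1 * a2 * G1 * E1) * (P * E * (Ft + εt * F)) * i1' +
      (K * M * M * a1 * a2 * G1 * E1) * (N1 * E1 ^ 2 * G * (Ht + εy * H) ^ 2 * h1 ^ 2) * hPP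
  exact (hu.mul_right_eq_zero).1 key

theorem star_unit {R : Type} [CommRing R] {f : R⟦X⟧} (h : constantCoeff f = 1) : IsUnit f := by
  rw [PowerSeries.isUnit_iff_constantCoeff, h]
  exact isUnit_one

theorem star_sum {R : Type} [CommRing R] (p : ℕ) (c : ℕ → R) {T G iG : R} (h : G * iG = 1) :
    ∑ n ∈ range p, c n * T ^ n * G ^ (2 * (p - 1 - n)) = G ^ (2 * p - 2) * ∑ n ∈ range p, c n * (T * iG ^ 2) ^ n := by
  rw [Finset.mul_sum]
  apply Finset.sum_congr rfl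
  intro n hn
  rw [Finset.mem_range] at hn
  have e : 2 * p - 2 = 2 * (p - 1 - n) + 2 * n := by omega
  have h2 : G ^ (2 * n) * iG ^ (2 * n) = 1 := by rw [← mul_pow, h, one_pow]
  rw [e, pow_add, mul_pow, ← pow_mul]
  linear_combination (-(c n * T ^ n * G ^ (2 * (p - 1 - n)))) * h2

theorem star_inv {R : Type} [CommRing R] {P W G u v e : R} (hPP : P * P = 0) (hW : W = G + P * e) (hu : W * u = 1) (hv : G * v = 1) :
    u = v * (1 - P * e * v) := by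
  subst hW
  have h1 : (G + P * e) * (v * (1 - P * e * v)) = 1 := by
    linear_combination (1 - P * e * v) * hv - e ^ 2 * v ^ 2 * hPP
  linear_combination (v * (1 - P * e * v)) * hu - u * h1

theorem star_map_AAF {R S : Type} [CommRing R] [CommRing S] (f : R →+* S) (p : ℕ) (a b bt : ℕ → R) (x xp e1 e2 eg : R) :
    f (AAF p a b bt x xp e1 e2 eg) = AAF p (fun n => f (a n)) (fun n => f (b n)) (fun n => f (bt n)) (f x) (f xp) (f e1) (f e2) (f eg) := by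
  simp only [AAF, PhF, HhF, QPF, etF, nN, eE, gG, qq, lL, tT, bB, map_add, map_sub, map_mul, map_pow, map_sum, map_neg, map_one, map_ofNat,
    map_natCast]

theorem star_map_BBF {R S : Type} [CommRing R] [CommRing S] (f : R →+* S) (p : ℕ) (a at' b bt : ℕ → R) (x xp e1 e2 eg ee : R) :
    f (BBF p a at' b bt x xp e1 e2 eg ee) =
      BBF p (fun n => f (a n)) (fun n => f (at' n)) (fun n => f (b n)) (fun n => f (bt n)) (f x) (f xp) (f e1) (f e2) (f eg) (f ee) := by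
  simp only [BBF, PhF, HhF, QPF, QHF, etF, eyF, nN, eE, gG, qq, lL, tT, bB, map_add, map_sub, map_mul, map_pow, map_sum, map_neg, map_one,
    map_ofNat, map_natCast]

/-- The basic identity. PROOF. A := RR p, x := X, x' := X ^ p in A⟦X⟧, Ep := expand p; all polynomials are coerced (Polynomial.coeToPowerSeries.ringHom). E, G, .. at x, E', G', .. at x'
(Ep (eE X) = eE (X ^ p) ..). iE' := Ep iE etc. t := tT X * iG ^ 2, y := bB X * iE ^ 2, t' := Ep t, y' := Ep y. By h1, h2, hg: t ^ p = t' (1 + p εt) with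
εt := e1 / (1 + x') + e2 / (1 - 8 x') - 2 eg iG' (units: constant term 1) and y ^ p = y' (1 + p εy), εy := 3 e1 / (1 + x') - 2 ee iE' (p ^ 2 = 0).
g := cmp bb t, g' := Ep g = cmp bb t' (cmp_expand), g1' := Ep (cmp (n bb) t), h := cmp aa y, h' := Ep h, h1' := Ep (cmp (n aa) y).
cmp_block and cmp_perturb: g = Φ g' + p (Φt + εt Φ) g1', Φ := ∑_{n<p} bb n t^n, Φt := ∑_{n<p} bt n t^n; h = H h' + p (Ht + εy H) h1'.
iden0: E g = G h ^ 2; Ep iden0: E' g' = G' h'^2; Ep iden1: N' E'^2 g1' = G' (q' x' L' h'^2 + 2 G' (1-8x')^3 h' h1').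
So E (Φ g' + p QΦ g1') = G (H^2 h'^2 + 2 p H QH h' h1') with QΦ := Φt + εt Φ, QH := Ht + εy H. Multiply by N' E'^2, insert, cancel the unit h':
(N' E' G' E Φ - N' E'^2 G H^2 + p G' q' x' L' E QΦ) h' + p (2 G'^2 (1-8x')^3 E QΦ - 2 N' E'^2 G H QH) h1' = 0.
Multiply by G^(2p-2) E^(4p-4) q' G' E': G^(2p-2) Φ = PhF bb, E^(2p-2) H = HhF aa, G^(2p-2) q' G' QΦ = QPF, E^(2p-2) (1+x') E' QH = QHF. -/
theorem star (hp : p.Prime) (D : Dat p) {iE : (RR p)⟦X⟧} (hE : eE (X : (RR p)⟦X⟧) * iE = 1) :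
    (AA D : (RR p)⟦X⟧) * expand p hp.ne_zero (cmp (fun n => (aa n : RR p)) (bB (X : (RR p)⟦X⟧) * iE ^ 2)) +
      (p : (RR p)⟦X⟧) * (BB D : (RR p)⟦X⟧) * expand p hp.ne_zero (cmp (fun n => n * (aa n : RR p)) (bB (X : (RR p)⟦X⟧) * iE ^ 2)) = 0 := by
  have hp0 : 0 < p := hp.pos
  have hpp : ((p : RR p)) ^ 2 = 0 := by
    have h := ZMod.natCast_self (p ^ 2)
    push_cast at h
    exact h
  have hCP : (C (p : RR p) : (RR p)⟦X⟧) = (p : (RR p)⟦X⟧) := map_natCast _ _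
  have hPP : (p : (RR p)⟦X⟧) * (p : (RR p)⟦X⟧) = 0 := by
    rw [← hCP, ← map_mul, ← pow_two, hpp, map_zero]
  have cX : constantCoeff (X : (RR p)⟦X⟧) = 0 := by simp
  have cXp : constantCoeff ((X : (RR p)⟦X⟧) ^ p) = 0 := by simp [hp.ne_zero]
  obtain ⟨iG, hG⟩ := (star_unit (f := gG (X : (RR p)⟦X⟧)) (by simp [gG])).exists_right_inv
  obtain ⟨j1, hj1⟩ := (star_unit (f := 1 + (X : (RR p)⟦X⟧) ^ p) (by simp [hp.ne_zero])).exists_right_inv
  obtain ⟨j2, hj2⟩ := (star_unit (f := 1 - 8 * (X : (RR p)⟦X⟧) ^ p) (by simp [hp.ne_zero])).exists_right_inv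
  -- expansion
  have eX : expand p hp.ne_zero (X : (RR p)⟦X⟧) = X ^ p := expand_X _ _
  have xE : expand p hp.ne_zero (eE (X : (RR p)⟦X⟧)) = eE (X ^ p) := by
    simp only [eE, map_add, map_sub, map_mul, map_pow, map_one, map_ofNat, eX]
  have xG : expand p hp.ne_zero (gG (X : (RR p)⟦X⟧)) = gG (X ^ p) := by
    simp only [gG, map_add, map_sub, map_mul, map_pow, map_one, map_ofNat, eX]
  have xN : expand p hp.ne_zero (nN (X : (RR p)⟦X⟧)) = nN (X ^ p) := by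
    simp only [nN, map_add, map_sub, map_mul, map_pow, map_one, map_ofNat, eX]
  have xq : expand p hp.ne_zero (qq (X : (RR p)⟦X⟧)) = qq (X ^ p) := by
    simp only [qq, map_add, map_sub, map_mul, map_pow, map_one, map_ofNat, eX]
  have xL : expand p hp.ne_zero (lL (X : (RR p)⟦X⟧)) = lL (X ^ p) := by
    simp only [lL, map_add, map_sub, map_mul, map_pow, map_one, map_ofNat, map_neg, eX]
  have xt : expand p hp.ne_zero (tT (X : (RR p)⟦X⟧)) = tT (X ^ p) := by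
    simp only [tT, map_add, map_sub, map_mul, map_pow, map_one, map_ofNat, eX]
  have xb : expand p hp.ne_zero (bB (X : (RR p)⟦X⟧)) = bB (X ^ p) := by
    simp only [bB, map_add, map_sub, map_mul, map_pow, map_one, map_ofNat, eX]
  have hE' : eE ((X : (RR p)⟦X⟧) ^ p) * expand p hp.ne_zero iE = 1 := by rw [← xE, ← map_mul, hE, map_one]
  have hG' : gG ((X : (RR p)⟦X⟧) ^ p) * expand p hp.ne_zero iG = 1 := by rw [← xG, ← map_mul, hG, map_one]
  -- coercion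
  have k1 : (1 + (X : (RR p)⟦X⟧)) ^ p = (1 + X ^ p) + (p : (RR p)⟦X⟧) * (D.e1 : (RR p)⟦X⟧) := by
    have h := congrArg (Polynomial.coeToPowerSeries.ringHom (R := RR p)) D.h1
    simpa only [map_add, map_mul, map_pow, map_one, map_natCast, Polynomial.coeToPowerSeries.ringHom_apply, Polynomial.coe_X] using h
  have k2 : (1 - 8 * (X : (RR p)⟦X⟧)) ^ p = (1 - 8 * X ^ p) + (p : (RR p)⟦X⟧) * (D.e2 : (RR p)⟦X⟧) := by
    have h := congrArg (Polynomial.coeToPowerSeries.ringHom (R := RR p)) D.h2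
    simpa only [map_add, map_sub, map_mul, map_pow, map_one, map_ofNat, map_natCast, Polynomial.coeToPowerSeries.ringHom_apply,
      Polynomial.coe_X] using h
  have kg : gG (X : (RR p)⟦X⟧) ^ p = gG (X ^ p) + (p : (RR p)⟦X⟧) * (D.eg : (RR p)⟦X⟧) := by
    have h := congrArg (Polynomial.coeToPowerSeries.ringHom (R := RR p)) D.hg
    simpa only [gG, map_add, map_sub, map_mul, map_pow, map_one, map_ofNat, map_natCast, Polynomial.coeToPowerSeries.ringHom_apply,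
      Polynomial.coe_X] using h
  have ke : eE (X : (RR p)⟦X⟧) ^ p = eE (X ^ p) + (p : (RR p)⟦X⟧) * (D.ee : (RR p)⟦X⟧) := by
    have h := congrArg (Polynomial.coeToPowerSeries.ringHom (R := RR p)) D.he
    simpa only [eE, map_add, map_sub, map_mul, map_pow, map_one, map_ofNat, map_natCast, Polynomial.coeToPowerSeries.ringHom_apply,
      Polynomial.coe_X] using h
  have uG : iG ^ p = expand p hp.ne_zero iG * (1 - (p : (RR p)⟦X⟧) * (D.eg : (RR p)⟦X⟧) * expand p hp.ne_zero iG) :=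
    star_inv hPP kg (by rw [← mul_pow, hG, one_pow]) hG'
  have uE : iE ^ p = expand p hp.ne_zero iE * (1 - (p : (RR p)⟦X⟧) * (D.ee : (RR p)⟦X⟧) * expand p hp.ne_zero iE) :=
    star_inv hPP ke (by rw [← mul_pow, hE, one_pow]) hE'
  -- the two arguments
  have ht : X ∣ tT (X : (RR p)⟦X⟧) * iG ^ 2 := ⟨(1 + X) * (1 - 8 * X) * iG ^ 2, by simp only [tT]; ring⟩
  have hy : X ∣ bB (X : (RR p)⟦X⟧) * iE ^ 2 := ⟨(1 + X) ^ 3 * iE ^ 2, by simp only [bB]; ring⟩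
  have et' : expand p hp.ne_zero (tT (X : (RR p)⟦X⟧) * iG ^ 2) = tT (X ^ p) * expand p hp.ne_zero iG ^ 2 := by
    rw [map_mul, map_pow, xt]
  have ey' : expand p hp.ne_zero (bB (X : (RR p)⟦X⟧) * iE ^ 2) = bB (X ^ p) * expand p hp.ne_zero iE ^ 2 := by
    rw [map_mul, map_pow, xb]
  have hXp : (X : (RR p)⟦X⟧) ∣ X ^ p := dvd_pow_self _ hp.ne_zero
  have ht' : X ∣ expand p hp.ne_zero (tT (X : (RR p)⟦X⟧) * iG ^ 2) := by
    rw [et']; exact Dvd.dvd.mul_right (Dvd.dvd.mul_right (Dvd.dvd.mul_right hXp _) _) _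
  have hy' : X ∣ expand p hp.ne_zero (bB (X : (RR p)⟦X⟧) * iE ^ 2) := by
    rw [ey']; exact Dvd.dvd.mul_right (Dvd.dvd.mul_right hXp _) _
  have tp : (tT (X : (RR p)⟦X⟧) * iG ^ 2) ^ p = expand p hp.ne_zero (tT (X : (RR p)⟦X⟧) * iG ^ 2) *
      (1 + C (p : RR p) * ((D.e1 : (RR p)⟦X⟧) * j1 + (D.e2 : (RR p)⟦X⟧) * j2 - 2 * (D.eg : (RR p)⟦X⟧) * expand p hp.ne_zero iG)) := by
    rw [et', hCP]
    have h : (tT (X : (RR p)⟦X⟧) * iG ^ 2) ^ p = X ^ p * ((1 + X) ^ p) * ((1 - 8 * X) ^ p) * (iG ^ p) ^ 2 := by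
      simp only [tT]
      rw [mul_pow, mul_pow, mul_pow, ← pow_mul, ← pow_mul, mul_comm 2 p]
    rw [h, k1, k2, uG]
    simp only [tT]
    generalize (X : (RR p)⟦X⟧) ^ p = x at *
    generalize expand p hp.ne_zero iG = v at *
    generalize (D.e1 : (RR p)⟦X⟧) = e1 at *
    generalize (D.e2 : (RR p)⟦X⟧) = e2 at *
    generalize (D.eg : (RR p)⟦X⟧) = eg at *
    generalize (p : (RR p)⟦X⟧) = P at *
    linear_combination (-(x * v ^ 2 * P * e1 * (1 - 8 * x))) * hj1 + (-(x * v ^ 2 * P * e2 * (1 + x))) * hj2 +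
      x * v ^ 2 * (e1 * e2 - 2 * (eg * v) * (e1 * (1 - 8 * x) + e2 * (1 + x)) + (1 + x) * (1 - 8 * x) * (eg * v) ^ 2 +
        P * (-(2 * (eg * v) * (e1 * e2)) + (e1 * (1 - 8 * x) + e2 * (1 + x)) * (eg * v) ^ 2) + P ^ 2 * (e1 * e2 * (eg * v) ^ 2)) * hPP
  have yp : (bB (X : (RR p)⟦X⟧) * iE ^ 2) ^ p = expand p hp.ne_zero (bB (X : (RR p)⟦X⟧) * iE ^ 2) *
      (1 + C (p : RR p) * (3 * (D.e1 : (RR p)⟦X⟧) * j1 - 2 * (D.ee : (RR p)⟦X⟧) * expand p hp.ne_zero iE)) := by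
    rw [ey', hCP]
    have h : (bB (X : (RR p)⟦X⟧) * iE ^ 2) ^ p = X ^ p * ((1 + X) ^ p) ^ 3 * (iE ^ p) ^ 2 := by
      simp only [bB]
      rw [mul_pow, mul_pow, ← pow_mul, ← pow_mul, ← pow_mul, ← pow_mul, mul_comm 2 p, mul_comm 3 p]
    rw [h, k1, uE]
    simp only [bB]
    generalize (X : (RR p)⟦X⟧) ^ p = x at *
    generalize expand p hp.ne_zero iE = v at *
    generalize (D.e1 : (RR p)⟦X⟧) = e1 at *
    generalize (D.ee : (RR p)⟦X⟧) = ee at *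
    generalize (p : (RR p)⟦X⟧) = P at *
    linear_combination (-(x * v ^ 2 * P * (3 * e1 * (1 + x) ^ 2))) * hj1 +
      x * v ^ 2 * ((3 * (1 + x) * e1 ^ 2 + P * e1 ^ 3) * (1 - P * (ee * v)) ^ 2 +
        3 * (1 + x) ^ 2 * e1 * (-(2 * (ee * v)) + P * (ee * v) ^ 2) + (1 + x) ^ 3 * (ee * v) ^ 2) * hPP
  have hg := cmp_block (c := fun n => (bb n : RR p)) hp0 ht D.bt D.hb
  have hh := cmp_block (c := fun n => (aa n : RR p)) hp0 hy D.at' D.ha
  rw [tp, cmp_perturb hpp ht', cmp_perturb hpp ht'] at hg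
  rw [yp, cmp_perturb hpp hy', cmp_perturb hpp hy'] at hh
  have i0 := iden0 hE hG
  have i1 := iden1 hE hG
  have i0' := congrArg (expand p hp.ne_zero) i0
  have i1' := congrArg (expand p hp.ne_zero) i1
  rw [map_mul, map_mul, map_pow, xE, xG, cmp_expand hp.ne_zero ht, cmp_expand hp.ne_zero hy] at i0'
  rw [map_mul, map_mul, map_mul, map_add, map_mul, map_mul, map_mul, map_mul, map_mul, map_mul, map_mul, map_pow, map_pow, map_pow, map_sub,
    map_mul, map_one, map_ofNat, map_ofNat, xE, xG, xN, xq, xL, eX, cmp_expand hp.ne_zero ht, cmp_expand hp.ne_zero hy,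
    cmp_expand hp.ne_zero hy] at i1'
  rw [cmp_expand hp.ne_zero hy, cmp_expand hp.ne_zero hy]
  have hu : IsUnit (cmp (fun n => (aa n : RR p)) (expand p hp.ne_zero (bB (X : (RR p)⟦X⟧) * iE ^ 2))) := by
    apply star_unit
    rw [cmp_cc hy']
    simp [aa]
  have cA : (AA D : (RR p)⟦X⟧) = AAF p (fun n => C (aa n : RR p)) (fun n => C (bb n : RR p)) (fun n => C (D.bt n)) X (X ^ p)
      (D.e1 : (RR p)⟦X⟧) (D.e2 : (RR p)⟦X⟧) (D.eg : (RR p)⟦X⟧) := by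
    rw [AA, ← Polynomial.coeToPowerSeries.ringHom_apply, star_map_AAF]
    simp only [Polynomial.coeToPowerSeries.ringHom_apply, Polynomial.coe_X, Polynomial.coe_pow, Polynomial.coe_C]
  have cB : (BB D : (RR p)⟦X⟧) = BBF p (fun n => C (aa n : RR p)) (fun n => C (D.at' n)) (fun n => C (bb n : RR p)) (fun n => C (D.bt n)) X
      (X ^ p) (D.e1 : (RR p)⟦X⟧) (D.e2 : (RR p)⟦X⟧) (D.eg : (RR p)⟦X⟧) (D.ee : (RR p)⟦X⟧) := by
    rw [BB, ← Polynomial.coeToPowerSeries.ringHom_apply, star_map_BBF]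
    simp only [Polynomial.coeToPowerSeries.ringHom_apply, Polynomial.coe_X, Polynomial.coe_pow, Polynomial.coe_C]
  rw [cA, cB]
  have hM : eE (X : (RR p)⟦X⟧) ^ (4 * p - 4) = eE (X : (RR p)⟦X⟧) ^ (2 * p - 2) * eE (X : (RR p)⟦X⟧) ^ (2 * p - 2) := by
    rw [← pow_add]; congr 1; omega
  have gg : gG ((X : (RR p)⟦X⟧) ^ p) * expand p hp.ne_zero iG = 1 := hG'
  have q1 : cmp (fun n => (bb n : RR p)) (tT (X : (RR p)⟦X⟧) * iG ^ 2) =
      (∑ n ∈ range p, C (bb n : RR p) * (tT X * iG ^ 2) ^ n) * cmp (fun n => (bb n : RR p)) (expand p hp.ne_zero (tT (X : (RR p)⟦X⟧) * iG ^ 2)) +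
      (p : (RR p)⟦X⟧) * ((∑ n ∈ range p, C (D.bt n) * (tT X * iG ^ 2) ^ n) +
        ((D.e1 : (RR p)⟦X⟧) * j1 + (D.e2 : (RR p)⟦X⟧) * j2 - 2 * (D.eg : (RR p)⟦X⟧) * expand p hp.ne_zero iG) *
        (∑ n ∈ range p, C (bb n : RR p) * (tT X * iG ^ 2) ^ n)) *
        cmp (fun n => n * (bb n : RR p)) (expand p hp.ne_zero (tT (X : (RR p)⟦X⟧) * iG ^ 2)) := by
    rw [hg, hCP]
    linear_combination ((∑ n ∈ range p, C (D.bt n) * (tT (X : (RR p)⟦X⟧) * iG ^ 2) ^ n) *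
      ((D.e1 : (RR p)⟦X⟧) * j1 + (D.e2 : (RR p)⟦X⟧) * j2 - 2 * (D.eg : (RR p)⟦X⟧) * expand p hp.ne_zero iG) *
      cmp (fun m => m * (m * (bb m : RR p))) (expand p hp.ne_zero (tT (X : (RR p)⟦X⟧) * iG ^ 2))) * hPP
  have q2 : cmp (fun n => (aa n : RR p)) (bB (X : (RR p)⟦X⟧) * iE ^ 2) =
      (∑ n ∈ range p, C (aa n : RR p) * (bB X * iE ^ 2) ^ n) * cmp (fun n => (aa n : RR p)) (expand p hp.ne_zero (bB (X : (RR p)⟦X⟧) * iE ^ 2)) +
      (p : (RR p)⟦X⟧) * ((∑ n ∈ range p, C (D.at' n) * (bB X * iE ^ 2) ^ n) +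
        (3 * (D.e1 : (RR p)⟦X⟧) * j1 - 2 * (D.ee : (RR p)⟦X⟧) * expand p hp.ne_zero iE) *
        (∑ n ∈ range p, C (aa n : RR p) * (bB X * iE ^ 2) ^ n)) *
        cmp (fun n => n * (aa n : RR p)) (expand p hp.ne_zero (bB (X : (RR p)⟦X⟧) * iE ^ 2)) := by
    rw [hh, hCP]
    linear_combination ((∑ n ∈ range p, C (D.at' n) * (bB (X : (RR p)⟦X⟧) * iE ^ 2) ^ n) *
      (3 * (D.e1 : (RR p)⟦X⟧) * j1 - 2 * (D.ee : (RR p)⟦X⟧) * expand p hp.ne_zero iE) *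
      cmp (fun m => m * (m * (aa m : RR p))) (expand p hp.ne_zero (bB (X : (RR p)⟦X⟧) * iE ^ 2))) * hPP
  simp only [AAF, BBF, QPF, QHF]
  refine star_alg (a1 := 1 + (X : (RR p)⟦X⟧) ^ p) (a2 := 1 - 8 * (X : (RR p)⟦X⟧) ^ p) (K := gG (X : (RR p)⟦X⟧) ^ (2 * p - 2))
    (M := eE (X : (RR p)⟦X⟧) ^ (2 * p - 2)) hPP q1 q2 i0 i0' i1' hu (star_sum p _ hG) (star_sum p _ hG) (star_sum p _ hE) (star_sum p _ hE)
    hM ?_ ?_
  · simp only [etF, qq]
    generalize (X : (RR p)⟦X⟧) ^ p = x at *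
    generalize (D.e1 : (RR p)⟦X⟧) = e1 at *
    generalize (D.e2 : (RR p)⟦X⟧) = e2 at *
    generalize (D.eg : (RR p)⟦X⟧) = eg at *
    linear_combination (-(e1 * (1 - 8 * x) * gG x)) * hj1 - (e2 * (1 + x) * gG x) * hj2 + 2 * eg * ((1 + x) * (1 - 8 * x)) * hG'
  · simp only [eyF]
    generalize (X : (RR p)⟦X⟧) ^ p = x at *
    generalize (D.e1 : (RR p)⟦X⟧) = e1 at *
    generalize (D.ee : (RR p)⟦X⟧) = ee at *
    linear_combination (-(3 * e1 * eE x)) * hj1 + 2 * ee * (1 + x) * hE'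

end Pool.Agent.ADC
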