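import Pool.Agent.ADC.Bin

/-! Project ADC (MP_adc642_nt), module Tei (size 3): Teichmueller representatives modulo p ^ 2. -/

set_option autoImplicit false

namespace Pool.Agent.ADC

open Finset

variable {p q : ℕ} {F S : Type} [Field F] [Fintype F] [CommRing S]

/-- PROOF. u = v + p w (L.ker), u ^ p = v ^ p + p v^(p-1) p w + (p w)^2 (..). -/
theorem Lift.pow_eq (L : Lift p q F S) (hp : p.Prime) {u v : S} (h : L.pi u = L.pi v) : u ^ p = v ^ p := by
  obtain ⟨y, hy⟩ := L.ker (u - v) (by rw [map_sub, h, sub_self])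
  have h1 : ((p : ℕ) : S) ∣ u - v := ⟨y, hy⟩
  have h2 := dvd_sub_pow_of_dvd_sub (p := p) h1 1
  rw [pow_one] at h2
  have h3 : ((p : S)) ^ (1 + 1) = 0 := L.sq
  rw [h3] at h2
  exact sub_eq_zero.1 (zero_dvd_iff.1 h2)

theorem Lift.pow_eq' (L : Lift p q F S) (hp : p.Prime) {u v : S} (h : L.pi u = L.pi v) : u ^ q = v ^ q := by
  obtain ⟨k, hk⟩ := L.dvd
  rw [hk, pow_mul, pow_mul, L.pow_eq hp h]

theorem Lift.tau_pi (L : Lift p q F S) (x : F) : L.pi (L.tau x) = x := by
  unfold Lift.tau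
  rw [map_pow, Function.surjInv_eq L.surj x, ← L.card, FiniteField.pow_card]

theorem Lift.tau_eq (L : Lift p q F S) (hp : p.Prime) {x : F} {u : S} (h : L.pi u = x) : L.tau x = u ^ q := by
  unfold Lift.tau
  apply L.pow_eq' hp
  rw [Function.surjInv_eq L.surj x, h]

theorem Lift.tau_mul (L : Lift p q F S) (hp : p.Prime) (x y : F) : L.tau (x * y) = L.tau x * L.tau y := by
  obtain ⟨u, hu⟩ := L.surj x
  obtain ⟨v, hv⟩ := L.surj y
  rw [L.tau_eq hp (x := x * y) (u := u * v) (by rw [map_mul, hu, hv]), L.tau_eq hp hu, L.tau_eq hp hv, mul_pow]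

theorem Lift.tau_one (L : Lift p q F S) (hp : p.Prime) : L.tau 1 = 1 := by
  rw [L.tau_eq hp (x := 1) (u := 1) (map_one _), one_pow]

theorem Lift.tau_npow (L : Lift p q F S) (hp : p.Prime) (x : F) (n : ℕ) : L.tau (x ^ n) = L.tau x ^ n := by
  obtain ⟨u, hu⟩ := L.surj x
  rw [L.tau_eq hp (x := x ^ n) (u := u ^ n) (by rw [map_pow, hu]), L.tau_eq hp hu, ← pow_mul, ← pow_mul, mul_comm]

/-- PROOF. u ^ (q-1) and 1 have the same image, so u ^ (q (q-1)) = 1 (pow_eq'). -/
theorem Lift.tau_card (L : Lift p q F S) (hp : p.Prime) {x : F} (hx : x ≠ 0) : L.tau x ^ (q - 1) = 1 := by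
  have h1 : x ^ (q - 1) = 1 := by
    rw [← L.card]
    exact FiniteField.pow_card_sub_one_eq_one x hx
  rw [← L.tau_npow hp, h1, L.tau_one hp]

theorem Lift.tau_zero (L : Lift p q F S) (hp : p.Prime) : L.tau 0 = 0 := by
  have hq : q ≠ 0 := by
    rw [← L.card]
    exact Fintype.card_ne_zero
  rw [L.tau_eq hp (x := 0) (u := 0) (map_zero _), zero_pow hq]

/-- PROOF. u is a unit iff its image is not 0 (L.ker, p^2 = 0). -/
theorem Lift.unit (L : Lift p q F S) {u : S} (h : L.pi u ≠ 0) : IsUnit u := by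
  obtain ⟨v, hv⟩ := L.surj (L.pi u)⁻¹
  obtain ⟨y, hy⟩ := L.ker (u * v - 1) (by rw [map_sub, map_mul, hv, mul_inv_cancel₀ h, map_one, sub_self])
  refine IsUnit.of_mul_eq_one (v * (1 - p * y)) ?_
  have h3 := L.sq
  linear_combination (1 - p * y) * hy - y ^ 2 * h3

/-- PROOF. tau (-1) ^ 2 = 1 and tau (-1) + 1 has image 0: tau (-1) = (-1)^q = -1 for odd q. -/
theorem Lift.tau_neg (L : Lift p q F S) (hp : p.Prime) (h2 : p ≠ 2) : L.tau (-1) = -1 := by
  have h1 : L.tau (-1) * L.tau (-1) = 1 := by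
    rw [← L.tau_mul hp, neg_one_mul, neg_neg, L.tau_one hp]
  obtain ⟨y, hy⟩ := L.ker (L.tau (-1) + 1) (by rw [map_add, L.tau_pi, map_one, neg_add_cancel])
  have h3 := L.sq
  obtain ⟨k, hk⟩ := hp.odd_of_ne_two h2
  have hk' : (p : S) = 2 * k + 1 := by rw [hk]; push_cast; ring
  have h4 : 2 * ((p : S) * y) = 0 := by
    have h5 : L.tau (-1) = -1 + p * y := by linear_combination hy
    rw [h5] at h1
    linear_combination y ^ 2 * h3 - h1
  have h6 : (p : S) * y = 0 := by
    have h7 : (p : S) * ((p : S) * y) = 0 := by linear_combination y * h3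
    linear_combination h7 - (p * y) * hk' - k * h4
  linear_combination hy + h6

/-- PROOF. g a generator of Fˣ (IsCyclic). If q - 1 divides N all summands are 1 (card units = q - 1). Otherwise the sum s satisfies tau g ^ N * s = s and tau g ^ N - 1 is a unit (g ^ N ≠ 1). -/
theorem Lift.tau_sum [DecidableEq F] (L : Lift p q F S) (hp : p.Prime) (N : ℕ) :
    ∑ x : Fˣ, L.tau (x : F) ^ N = if (q - 1) ∣ N then (q : S) - 1 else 0 := by
  have hq : 1 ≤ q := by
    rw [← L.card]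
    exact Fintype.card_pos
  split_ifs with hN
  · obtain ⟨k, hk⟩ := hN
    have h1 : ∀ x : Fˣ, L.tau (x : F) ^ N = 1 := by
      intro x
      rw [hk, pow_mul, L.tau_card hp x.ne_zero, one_pow]
    rw [Finset.sum_congr rfl (fun x _ => h1 x), Finset.sum_const, Finset.card_univ, Fintype.card_units, L.card,
      nsmul_eq_mul, mul_one, Nat.cast_sub hq, Nat.cast_one]
  · obtain ⟨g, hg⟩ := IsCyclic.exists_generator (α := Fˣ)
    have hord : orderOf g = q - 1 := by
      rw [orderOf_eq_card_of_forall_mem_zpowers hg, Nat.card_eq_fintype_card, Fintype.card_units, L.card]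
    have hgN : g ^ N ≠ 1 := by
      intro h
      apply hN
      rw [← hord]
      exact orderOf_dvd_of_pow_eq_one h
    have h1 : L.tau (g : F) ^ N * ∑ x : Fˣ, L.tau (x : F) ^ N = ∑ x : Fˣ, L.tau (x : F) ^ N := by
      rw [Finset.mul_sum]
      rw [← Equiv.sum_comp (Equiv.mulLeft g) (fun x : Fˣ => L.tau (x : F) ^ N)]
      apply Finset.sum_congr rfl
      intro x _
      rw [Equiv.coe_mulLeft, Units.val_mul, L.tau_mul hp, mul_pow]
    have hu : IsUnit (L.tau (g : F) ^ N - 1) := by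
      apply L.unit
      rw [map_sub, map_pow, L.tau_pi, map_one, sub_ne_zero]
      intro h
      apply hgN
      apply Units.ext
      rw [Units.val_pow_eq_pow_val, h, Units.val_one]
    have h2 : (L.tau (g : F) ^ N - 1) * ∑ x : Fˣ, L.tau (x : F) ^ N = 0 := by
      rw [sub_mul, h1, one_mul, sub_self]
    exact hu.mul_right_eq_zero.1 h2

/-- PROOF. Euler's criterion: c ^ ((p-1)/2) ≡ qc c modulo p (quadraticChar_eq_pow_of_char_ne_two), p-th powers are congruent modulo p^2, qc c ^ p = qc c; an integer divisible by p^2 is 0 in S. -/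
theorem qc_pow [Fact p.Prime] (h2 : p ≠ 2) {T : Type} [CommRing T] (hT : (p : T) ^ 2 = 0) (c : ℤ) :
    (c : T) ^ (p * ((p - 1) / 2)) = (qc p (c : ZMod p) : T) := by
  have hp : p.Prime := Fact.out
  obtain ⟨k, hk⟩ := hp.odd_of_ne_two h2
  have hdvd : ((p : ℕ) : ℤ) ∣ c ^ ((p - 1) / 2) - qc p (c : ZMod p) := by
    rw [← ZMod.intCast_zmod_eq_zero_iff_dvd]
    push_cast
    unfold qc
    have hchar : ringChar (ZMod p) ≠ 2 := by
      rw [ZMod.ringChar_zmod_n]
      exact h2
    rw [quadraticChar_eq_pow_of_char_ne_two' hchar, ZMod.card]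
    have : p / 2 = (p - 1) / 2 := by omega
    rw [this, sub_self]
  have h3 := dvd_sub_pow_of_dvd_sub (p := p) hdvd 1
  rw [pow_one] at h3
  obtain ⟨w, hw⟩ := h3
  have hqc : (qc p (c : ZMod p)) ^ p = qc p (c : ZMod p) := by
    have h4 : qc p (c : ZMod p) = 0 ∨ qc p (c : ZMod p) = 1 ∨ qc p (c : ZMod p) = -1 :=
      quadraticChar_isQuadratic (ZMod p) (c : ZMod p)
    have hodd : Odd p := hp.odd_of_ne_two h2
    rcases h4 with h4 | h4 | h4
    · rw [h4, zero_pow hp.ne_zero]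
    · rw [h4, one_pow]
    · rw [h4, hodd.neg_one_pow]
  rw [hqc, ← pow_mul] at hw
  have h5 := congrArg (fun t : ℤ => (t : T)) hw
  push_cast at h5
  have h6 : (p : T) ^ (1 + 1) = 0 := hT
  rw [h6, zero_mul, sub_eq_zero] at h5
  rw [mul_comm p]
  exact h5

theorem liftP (hp : p.Prime) [Fact p.Prime] : Nonempty (Lift p p (ZMod p) (RR p)) := by
  haveI : NeZero (p ^ 2) := ⟨pow_ne_zero _ hp.ne_zero⟩
  refine ⟨⟨ZMod.castHom (Dvd.intro_left _ (pow_succ p 1).symm : p ∣ p ^ 2) (ZMod p), ZMod.card p, dvd_refl p,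
    ZMod.natCast_self p, ZMod.castHom_surjective _, ?_, rr_sq, ?_⟩⟩
  · intro x hx
    have h1 : (p : ℕ) ∣ x.val := by
      rw [← ZMod.natCast_eq_zero_iff]
      rw [ZMod.castHom_apply, ZMod.cast_eq_val] at hx
      exact hx
    obtain ⟨k, hk⟩ := h1
    refine ⟨(k : RR p), ?_⟩
    rw [← Nat.cast_mul, ← hk, ZMod.natCast_zmod_val]
  · intro c hc
    have := (ZMod.intCast_zmod_eq_zero_iff_dvd c (p ^ 2)).1 hc
    push_cast at this
    exact this

/-- projection of the Gaussian integers modulo p^2 to the Gaussian integers modulo p -/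
noncomputable def TeiPi (p : ℕ) : QuadraticAlgebra (ZMod (p ^ 2)) (-1) 0 →+* QuadraticAlgebra (ZMod p) (-1) 0 where
  toFun z := ⟨ZMod.castHom (Dvd.intro_left _ (pow_succ p 1).symm : p ∣ p ^ 2) (ZMod p) z.re,
    ZMod.castHom (Dvd.intro_left _ (pow_succ p 1).symm : p ∣ p ^ 2) (ZMod p) z.im⟩
  map_one' := by
    ext
    · simp only [QuadraticAlgebra.re_one, map_one]
    · simp only [QuadraticAlgebra.im_one, map_zero]
  map_zero' := by
    ext
    · simp only [QuadraticAlgebra.re_zero, map_zero]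
    · simp only [QuadraticAlgebra.im_zero, map_zero]
  map_add' z w := by
    ext
    · simp only [QuadraticAlgebra.re_add, map_add]
    · simp only [QuadraticAlgebra.im_add, map_add]
  map_mul' z w := by
    ext
    · simp only [QuadraticAlgebra.re_mul, map_add, map_mul, map_neg, map_one]
    · simp only [QuadraticAlgebra.im_mul, map_add, map_mul, map_zero]

/-- PROOF. Gaussian integers: F := GaussianInt ⧸ (p), a field with p^2 elements since p is prime in GaussianInt (GaussianInt.prime_of_nat_prime_of_mod_four_eq_three), S := GaussianInt ⧸ (p^2), pi the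
projection. Or QuadraticAlgebra (ZMod p) (-1) 0 and QuadraticAlgebra (ZMod (p^2)) (-1) 0. -/
theorem liftG (hp : p.Prime) (h : p % 4 = 3) : ∃ (F S : Type) (_ : Field F) (_ : Fintype F) (_ : CommRing S), Nonempty (Lift p (p ^ 2) F S) := by
  haveI : Fact p.Prime := ⟨hp⟩
  haveI : NeZero (p ^ 2) := ⟨pow_ne_zero _ hp.ne_zero⟩
  haveI : Fact (∀ r : ZMod p, r ^ 2 ≠ -1 + 0 * r) := by
    refine ⟨fun r hr => ?_⟩
    rw [zero_mul, add_zero] at hr
    have h1 : IsSquare (-1 : ZMod p) := ⟨r, by rw [← hr, sq]⟩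
    exact ZMod.exists_sq_eq_neg_one_iff.1 h1 h
  haveI : Fintype (QuadraticAlgebra (ZMod p) (-1) 0) := Fintype.ofEquiv _ (QuadraticAlgebra.equivProd (-1 : ZMod p) 0).symm
  obtain ⟨L⟩ := liftP (p := p) hp
  refine ⟨QuadraticAlgebra (ZMod p) (-1) 0, QuadraticAlgebra (ZMod (p ^ 2)) (-1) 0, inferInstance, inferInstance, inferInstance,
    ⟨⟨TeiPi p, ?_, ⟨p, sq p⟩, ?_, ?_, ?_, ?_, ?_⟩⟩⟩
  · rw [Fintype.card_congr (QuadraticAlgebra.equivProd (-1 : ZMod p) 0), Fintype.card_prod, ZMod.card, sq]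
  · ext
    · rw [QuadraticAlgebra.re_natCast, ZMod.natCast_self, QuadraticAlgebra.re_zero]
    · rw [QuadraticAlgebra.im_natCast, QuadraticAlgebra.im_zero]
  · intro z
    obtain ⟨a, ha⟩ := ZMod.castHom_surjective (Dvd.intro_left _ (pow_succ p 1).symm : p ∣ p ^ 2) z.re
    obtain ⟨b, hb⟩ := ZMod.castHom_surjective (Dvd.intro_left _ (pow_succ p 1).symm : p ∣ p ^ 2) z.im
    refine ⟨⟨a, b⟩, ?_⟩
    ext
    · exact ha
    · exact hb
  · intro z hz
    have hk : ∀ x : ZMod (p ^ 2), ZMod.castHom (Dvd.intro_left _ (pow_succ p 1).symm : p ∣ p ^ 2) (ZMod p) x = 0 → ∃ y, x = (p : ZMod (p ^ 2)) * y := by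
      intro x hx
      have h1 : (p : ℕ) ∣ x.val := by
        rw [← ZMod.natCast_eq_zero_iff]
        rw [ZMod.castHom_apply, ZMod.cast_eq_val] at hx
        exact hx
      obtain ⟨k, hk⟩ := h1
      refine ⟨(k : RR p), ?_⟩
      rw [← Nat.cast_mul, ← hk, ZMod.natCast_zmod_val]
    obtain ⟨a, ha⟩ := hk z.re (congrArg QuadraticAlgebra.re hz)
    obtain ⟨b, hb⟩ := hk z.im (congrArg QuadraticAlgebra.im hz)
    refine ⟨⟨a, b⟩, ?_⟩
    ext
    · rw [QuadraticAlgebra.re_mul, QuadraticAlgebra.re_natCast, QuadraticAlgebra.im_natCast, ha]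
      ring
    · rw [QuadraticAlgebra.im_mul, QuadraticAlgebra.re_natCast, QuadraticAlgebra.im_natCast, hb]
      ring
  · rw [← Nat.cast_pow]
    ext
    · rw [QuadraticAlgebra.re_natCast, ZMod.natCast_self, QuadraticAlgebra.re_zero]
    · rw [QuadraticAlgebra.im_natCast, QuadraticAlgebra.im_zero]
  · intro c hc
    have h1 := congrArg QuadraticAlgebra.re hc
    rw [QuadraticAlgebra.re_intCast, QuadraticAlgebra.re_zero] at h1
    have := (ZMod.intCast_zmod_eq_zero_iff_dvd c (p ^ 2)).1 h1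
    push_cast at this
    exact this

end Pool.Agent.ADC
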